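import Pool.Agent.LibWitt94.Base

universe u w

namespace W94

section OpCalcASec

open scoped BigOperators

variable {k : Type u} [CommRing k] {Γ : Type} [AddCommMonoid Γ]
variable {R : Type w} [Ring R] [Algebra k R] {ι : Type}

theorem Op_mon (act : B k Γ ι →ₐ[k] R) (rho : A k Γ →ₗ[k] R) (γ : Option ι → Γ) :
    Op act rho (mon k γ) = act (mon k (fun i => γ (some i))) * rho (tt k (γ none)) := by
  simp [Op]

/-- the evaluation `y := x_j` -/
noncomputable def ev [Fintype ι] [DecidableEq ι] (j : ι) : B k Γ (Option ι) →ₐ[k] B k Γ ι :=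
  pf (fun o => o.getD j)

/-- `q ↦ Σ rho (y-part) q act (x-part)` -/
noncomputable def OpR (act : B k Γ ι →ₐ[k] R) (rho : A k Γ →ₗ[k] R) (q : R) :
    B k Γ (Option ι) →ₗ[k] R :=
  lin (fun γ => rho (tt k (γ none)) * q * act (mon k (fun i => γ (some i))))

theorem OpR_mon (act : B k Γ ι →ₐ[k] R) (rho : A k Γ →ₗ[k] R) (q : R) (γ : Option ι → Γ) :
    OpR act rho q (mon k γ) = rho (tt k (γ none)) * q * act (mon k (fun i => γ (some i))) := by
  simp [OpR]

variable [Fintype ι] [DecidableEq ι]

private theorem mon_option (γ : Option ι → Γ) :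
    mon k γ = inj none (tt k (γ none)) * pf some (mon k (fun i => γ (some i))) := by
  rw [inj_tt, pf_mon, mon_mul]
  congr 1
  funext o
  rw [Pi.add_apply, push_apply]
  cases o with
  | none => simp
  | some i => simp

private theorem inj_none_mul_pf (a : Γ) (β : ι → Γ) :
    (inj none (tt k a) * pf some (mon k β) : B k Γ (Option ι)) =
      mon k (fun o : Option ι => o.elim a β) := by
  rw [mon_option (fun o : Option ι => o.elim a β)]
  rfl

/-- every element is a sum of products `inj none f * pf some b` -/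
theorem B_option_induction {P : B k Γ (Option ι) → Prop} (Z : B k Γ (Option ι))
    (h0 : P 0) (hadd : ∀ F G, P F → P G → P (F + G))
    (h : ∀ (a : Γ) (b : B k Γ ι), P (inj none (tt k a) * pf some b)) : P Z := by
  refine mon_induction Z h0 hadd fun c γ => ?_
  have h1 := h (γ none) (c • mon k (fun i => γ (some i)))
  rwa [map_smul, mul_smul_comm, ← mon_option] at h1

theorem Op_apply (act : B k Γ ι →ₐ[k] R) (rho : A k Γ →ₗ[k] R) (f : A k Γ) (b : B k Γ ι) :
    Op act rho (inj none f * pf some b) = act b * rho f := by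
  induction b using mon_induction with
  | h0 => simp
  | hadd F G hF hG => rw [map_add, mul_add, map_add, hF, hG, map_add, add_mul]
  | hmon c β =>
    induction f using mon_induction with
    | h0 => simp
    | hadd F G hF hG => rw [map_add, add_mul, map_add, hF, hG, map_add, mul_add]
    | hmon d α =>
      rw [mon_unit, map_smul, map_smul, smul_mul_smul_comm, inj_none_mul_pf, map_smul, Op_mon,
        map_smul, map_smul, smul_mul_smul_comm, mul_comm d c]
      rfl

theorem OpR_apply (act : B k Γ ι →ₐ[k] R) (rho : A k Γ →ₗ[k] R) (q : R) (f : A k Γ)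
    (b : B k Γ ι) : OpR act rho q (inj none f * pf some b) = rho f * q * act b := by
  induction b using mon_induction with
  | h0 => simp
  | hadd F G hF hG => rw [map_add, mul_add, map_add, hF, hG, map_add, mul_add]
  | hmon c β =>
    induction f using mon_induction with
    | h0 => simp
    | hadd F G hF hG =>
      rw [map_add, add_mul, map_add, hF, hG, map_add, add_mul, add_mul]
    | hmon d α =>
      rw [mon_unit, map_smul, map_smul, smul_mul_smul_comm, inj_none_mul_pf, map_smul, OpR_mon,
        map_smul, map_smul, smul_mul_assoc, smul_mul_smul_comm]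
      rfl

theorem Op_smul (act : B k Γ ι →ₐ[k] R) (rho : A k Γ →ₗ[k] R) (b : B k Γ ι)
    (Z : B k Γ (Option ι)) : Op act rho (pf some b * Z) = act b * Op act rho Z := by
  induction Z using B_option_induction with
  | h0 => simp
  | hadd F G hF hG => rw [mul_add, map_add, map_add, hF, hG, mul_add]
  | h a c =>
    have h1 : pf some b * (inj none (tt k a) * pf some c) =
        (inj none (tt k a) * pf some (b * c) : B k Γ (Option ι)) := by
      rw [map_mul]; ring
    rw [h1, Op_apply, Op_apply, map_mul, mul_assoc]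

theorem OpR_smul (act : B k Γ ι →ₐ[k] R) (rho : A k Γ →ₗ[k] R) (q : R) (b : B k Γ ι)
    (Z : B k Γ (Option ι)) : OpR act rho q (Z * pf some b) = OpR act rho q Z * act b := by
  induction Z using B_option_induction with
  | h0 => simp
  | hadd F G hF hG => rw [add_mul, map_add, map_add, hF, hG, add_mul]
  | h a c =>
    rw [mul_assoc, ← map_mul, OpR_apply, OpR_apply, map_mul, mul_assoc, mul_assoc, mul_assoc]

theorem Op_add (act : B k Γ ι →ₐ[k] R) (rho rho' : A k Γ →ₗ[k] R) (Z : B k Γ (Option ι)) :
    Op act (rho + rho') Z = Op act rho Z + Op act rho' Z := by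
  induction Z using B_option_induction with
  | h0 => simp
  | hadd F G hF hG => rw [map_add, map_add, map_add, hF, hG]; abel
  | h a c => rw [Op_apply, Op_apply, Op_apply, LinearMap.add_apply, mul_add]

theorem Op_sum {σ : Type*} (act : B k Γ ι →ₐ[k] R) (s : Finset σ) (rho : σ → (A k Γ →ₗ[k] R))
    (Z : B k Γ (Option ι)) : Op act (∑ i ∈ s, rho i) Z = ∑ i ∈ s, Op act (rho i) Z := by
  induction Z using B_option_induction with
  | h0 => simp
  | hadd F G hF hG => simp only [map_add, hF, hG, Finset.sum_add_distrib]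
  | h a c => simp only [Op_apply, LinearMap.sum_apply, Finset.mul_sum]

theorem OpR_sum {σ : Type*} (act : B k Γ ι →ₐ[k] R) (s : Finset σ) (rho : σ → (A k Γ →ₗ[k] R))
    (q : R) (Z : B k Γ (Option ι)) :
    OpR act (∑ i ∈ s, rho i) q Z = ∑ i ∈ s, OpR act (rho i) q Z := by
  induction Z using B_option_induction with
  | h0 => simp
  | hadd F G hF hG => simp only [map_add, hF, hG, Finset.sum_add_distrib]
  | h a c => simp only [OpR_apply, LinearMap.sum_apply, Finset.sum_mul]

@[simp] theorem ev_inj_none (j : ι) (f : A k Γ) :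
    ev j (inj none f : B k Γ (Option ι)) = inj j f := by
  rw [ev, pf_inj]; rfl

@[simp] theorem ev_pf_some (j : ι) (b : B k Γ ι) : ev j (pf some b) = b := by
  rw [ev, pf_pf]
  exact pf_id b

variable [Expo Γ]

@[simp] theorem ev_X_none (j : ι) : ev j (X none : B k Γ (Option ι)) = X j := by
  rw [ev, pf_X]; rfl

@[simp] theorem ev_X_some (j i : ι) : ev j (X (some i) : B k Γ (Option ι)) = X i := by
  rw [ev, pf_X]; rfl

end OpCalcASec

section OpCalcBSec

open scoped BigOperators

variable {k : Type u} [CommRing k] {Γ : Type} [AddCommMonoid Γ]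
variable {R : Type w} [Ring R] [Algebra k R] {ι : Type}

variable [Fintype ι] [DecidableEq ι]

variable [Expo Γ]

/-- `Z (y) - Z (x_j)` is divisible by `y - x_j`. Hint: `B_option_induction` and `inj_sub_inj`. -/
theorem sub_ev_dvd (j : ι) (Z : B k Γ (Option ι)) :
    (X none - X (some j) : B k Γ (Option ι)) ∣ Z - pf some (ev j Z) := by
  refine B_option_induction (P := fun Z => (X none - X (some j) : B k Γ (Option ι)) ∣
    Z - pf some (ev j Z)) Z ?_ ?_ ?_
  · simp
  · intro F G hF hG
    have : F + G - pf some (ev j (F + G)) = (F - pf some (ev j F)) + (G - pf some (ev j G)) := by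
      rw [map_add, map_add]; ring
    change _ ∣ F + G - pf some (ev j (F + G))
    rw [this]
    exact dvd_add hF hG
  · intro a b
    rw [map_mul, ev_inj_none, ev_pf_some, map_mul, pf_inj, ← sub_mul]
    exact Dvd.dvd.mul_right (inj_sub_inj _ _ _) _

/-- `rho f` acts on `act b` as the derivation `Σ_{j ∈ s} f (X j) ∂_j` -/
def CommOn (s : Finset ι) (act : B k Γ ι →ₐ[k] R) (rho : A k Γ →ₗ[k] R) : Prop :=
  ∀ f b, rho f * act b - act b * rho f = act (∑ j ∈ s, inj j f * dd j b)

/-- commutator of `Op Z` and `act b`. Hint: `B_option_induction`, `Op_apply`. -/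
theorem Op_comm {s : Finset ι} {act : B k Γ ι →ₐ[k] R} {rho : A k Γ →ₗ[k] R}
    (h : CommOn s act rho) (Z : B k Γ (Option ι)) (b : B k Γ ι) :
    Op act rho Z * act b - act b * Op act rho Z = act (∑ j ∈ s, ev j Z * dd j b) := by
  refine B_option_induction (P := fun Z => Op act rho Z * act b - act b * Op act rho Z =
    act (∑ j ∈ s, ev j Z * dd j b)) Z ?_ ?_ ?_
  · simp
  · intro F G hF hG
    have h1 : ∑ j ∈ s, ev j (F + G) * dd j b =
        ∑ j ∈ s, ev j F * dd j b + ∑ j ∈ s, ev j G * dd j b := by
      rw [← Finset.sum_add_distrib]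
      exact Finset.sum_congr rfl fun j _ => by rw [map_add, add_mul]
    rw [h1, map_add act, ← hF, ← hG, map_add, add_mul, mul_add]
    abel
  · intro a c
    have h1 : ∑ j ∈ s, ev j (inj none (tt k a) * pf some c) * dd j b =
        c * ∑ j ∈ s, inj j (tt k a) * dd j b := by
      rw [Finset.mul_sum]
      exact Finset.sum_congr rfl fun j _ => by rw [map_mul, ev_inj_none, ev_pf_some]; ring
    rw [h1, map_mul act, ← h, Op_apply, mul_sub, ← mul_assoc (act c) (act b), ← map_mul act c b,
      mul_comm c b, map_mul act b c]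
    simp only [mul_assoc]

/-- the bracket of two symbols -/
noncomputable def brk (s : Finset ι) (Z₁ Z₂ : B k Γ (Option ι)) : B k Γ (Option ι) :=
  Z₁ * dd none Z₂ - Z₂ * dd none Z₁ +
    ∑ j ∈ s, (pf some (ev j Z₁) * dd (some j) Z₂ - pf some (ev j Z₂) * dd (some j) Z₁)

private theorem brk_antisymm (s : Finset ι) (Z₁ Z₂ : B k Γ (Option ι)) :
    brk s Z₁ Z₂ = - brk s Z₂ Z₁ := by
  unfold brk
  rw [neg_add, ← Finset.sum_neg_distrib]
  congr 1
  · ring
  · exact Finset.sum_congr rfl fun j _ => by ring

private theorem brk_add_left (s : Finset ι) (F G Z₂ : B k Γ (Option ι)) :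
    brk s (F + G) Z₂ = brk s F Z₂ + brk s G Z₂ := by
  unfold brk
  have h1 : ∑ j ∈ s, (pf some (ev j (F + G)) * dd (some j) Z₂ -
      pf some (ev j Z₂) * dd (some j) (F + G)) =
      ∑ j ∈ s, (pf some (ev j F) * dd (some j) Z₂ - pf some (ev j Z₂) * dd (some j) F) +
      ∑ j ∈ s, (pf some (ev j G) * dd (some j) Z₂ - pf some (ev j Z₂) * dd (some j) G) := by
    rw [← Finset.sum_add_distrib]
    exact Finset.sum_congr rfl fun j _ => by
      rw [map_add (ev j), map_add (pf some), map_add (dd (some j))]; ring
  rw [h1, map_add (dd none)]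
  ring

private theorem brk_add_right (s : Finset ι) (Z₁ F G : B k Γ (Option ι)) :
    brk s Z₁ (F + G) = brk s Z₁ F + brk s Z₁ G := by
  rw [brk_antisymm, brk_add_left, brk_antisymm s F, brk_antisymm s G]
  ring

private theorem dd_none_pf_some (c : B k Γ ι) : dd none (pf some c : B k Γ (Option ι)) = 0 := by
  rw [dd_pf]
  refine Finset.sum_eq_zero fun i _ => ?_
  simp

private theorem dd_some_pf_some (j : ι) (c : B k Γ ι) :
    dd (some j) (pf some c : B k Γ (Option ι)) = pf some (dd j c) := by
  rw [dd_pf, Finset.sum_eq_single j]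
  · simp
  · intro i _ hi
    rw [if_neg]
    intro h
    exact hi (Option.some.inj h)
  · intro h; exact absurd (Finset.mem_univ _) h

private theorem dd_none_term (f : A k Γ) (c : B k Γ ι) :
    dd none (inj none f * pf some c : B k Γ (Option ι)) = inj none (Dt f) * pf some c := by
  rw [dd_mul, dd_none_pf_some, mul_zero, add_zero, dd_inj, if_pos rfl]

private theorem dd_some_term (j : ι) (f : A k Γ) (c : B k Γ ι) :
    dd (some j) (inj none f * pf some c : B k Γ (Option ι)) = inj none f * pf some (dd j c) := by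
  rw [dd_mul, dd_some_pf_some, dd_inj, if_neg (by simp), zero_mul, zero_add]

/-- commutator of `Op Z₁` and `Op Z₂`. Hint: bilinear; `Z₁ = inj none f * pf some b`,
`Z₂ = inj none h * pf some c`: both sides are
`act (b c) * rho (f h' - h f') + act (b * Σ f(x_j) ∂_j c) rho h - act (c * Σ h(x_j) ∂_j b) rho f`. -/
theorem Op_bracket {s : Finset ι} {act : B k Γ ι →ₐ[k] R} {rho : A k Γ →ₗ[k] R}
    (hl : LieMap rho) (h : CommOn s act rho) (Z₁ Z₂ : B k Γ (Option ι)) :
    Op act rho Z₁ * Op act rho Z₂ - Op act rho Z₂ * Op act rho Z₁ = Op act rho (brk s Z₁ Z₂) := by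
  refine B_option_induction (P := fun Z₁ => Op act rho Z₁ * Op act rho Z₂ -
    Op act rho Z₂ * Op act rho Z₁ = Op act rho (brk s Z₁ Z₂)) Z₁ ?_ ?_ ?_
  · simp [brk]
  · intro F G hF hG
    rw [brk_add_left, map_add, map_add, ← hF, ← hG]
    noncomm_ring
  intro a b
  set f : A k Γ := tt k a with hf
  change Op act rho (inj none f * pf some b) * Op act rho Z₂ -
    Op act rho Z₂ * Op act rho (inj none f * pf some b) =
      Op act rho (brk s (inj none f * pf some b) Z₂)
  refine B_option_induction (P := fun Z₂ => Op act rho (inj none f * pf some b) * Op act rho Z₂ -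
    Op act rho Z₂ * Op act rho (inj none f * pf some b) =
      Op act rho (brk s (inj none f * pf some b) Z₂)) Z₂ ?_ ?_ ?_
  · simp [brk]
  · intro F G hF hG
    rw [brk_add_right, map_add, map_add, ← hF, ← hG]
    noncomm_ring
  intro a' c
  set g : A k Γ := tt k a' with hg
  change Op act rho (inj none f * pf some b) * Op act rho (inj none g * pf some c) -
    Op act rho (inj none g * pf some c) * Op act rho (inj none f * pf some b) =
      Op act rho (brk s (inj none f * pf some b) (inj none g * pf some c))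
  have h1 : brk s (inj none f * pf some b) (inj none g * pf some c) =
      inj none (f * Dt g - g * Dt f) * pf some (b * c) +
      (inj none g * pf some (b * ∑ j ∈ s, inj j f * dd j c) -
        inj none f * pf some (c * ∑ j ∈ s, inj j g * dd j b)) := by
    unfold brk
    congr 1
    · rw [dd_none_term, dd_none_term, map_sub, map_mul (inj none) f, map_mul (inj none) g,
        map_mul (pf some) b]
      ring
    · rw [map_mul (pf some) b, map_mul (pf some) c, map_sum, map_sum, Finset.mul_sum,
        Finset.mul_sum, Finset.mul_sum, Finset.mul_sum, ← Finset.sum_sub_distrib]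
      refine Finset.sum_congr rfl fun j _ => ?_
      rw [dd_some_term, dd_some_term, map_mul (ev j), map_mul (ev j), ev_inj_none, ev_inj_none,
        ev_pf_some, ev_pf_some, map_mul (pf some) _ b, map_mul (pf some) _ c,
        map_mul (pf some) _ (dd j c), map_mul (pf some) _ (dd j b)]
      ring
  rw [h1, map_add (Op act rho), map_sub (Op act rho), Op_apply, Op_apply, Op_apply, Op_apply,
    Op_apply, ← hl,
    map_mul act b (∑ j ∈ s, inj j f * dd j c), map_mul act c (∑ j ∈ s, inj j g * dd j b),
    ← h, ← h, map_mul act b c]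
  have h2 : act b * act c = act c * act b := by rw [← map_mul, ← map_mul, mul_comm]
  have h3 : act b * act c * (rho g * rho f) = act c * act b * (rho g * rho f) := by rw [h2]
  have e1 : act b * rho f * (act c * rho g) - act c * rho g * (act b * rho f) =
      act b * act c * (rho f * rho g) - act c * act b * (rho g * rho f) +
      (act b * (rho f * act c - act c * rho f) * rho g -
        act c * (rho g * act b - act b * rho g) * rho f) := by noncomm_ring
  rw [e1, ← h3]
  noncomm_ring

theorem IsSys.commOn {r N : ℕ} {act : B k Γ (Fin r) →ₐ[k] R} {rho : A k Γ →ₗ[k] R}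
    (h : IsSys r N act rho) : CommOn Finset.univ act rho := fun f b => by
  rw [h.comm, del_apply]

theorem IsSep.commOn {r N : ℕ} {act : B k Γ (Fin r) →ₐ[k] R} {rho : Fin r → (A k Γ →ₗ[k] R)}
    (h : IsSep r N act rho) (i : Fin r) : CommOn {i} act (rho i) := fun f b => by
  rw [h.comm, Finset.sum_singleton]

end OpCalcBSec

section OnePtASec

open scoped BigOperators

variable {k : Type u} [CommRing k] {Γ : Type} [AddCommMonoid Γ] [Expo Γ]
variable {R : Type w} [Ring R] [Algebra k R] {r : ℕ}

/-- the operator `Op ((y - x_i) ^ m)` -/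
noncomputable def Em (act : B k Γ (Fin r) →ₐ[k] R) (rho : A k Γ →ₗ[k] R) (i : Fin r) (m : ℕ) : R :=
  Op act rho ((X none - X (some i)) ^ m)

/-- Taylor expansion of order two. Hint: `inj_sub_inj` gives `f(X i) - f(X j) = (X i - X j) q`;
apply `dd i` (`dd_inj`): `f'(X i) = q + (X i - X j) ∂_i q` if `i ≠ j`; and `inj_sub_inj` for `Dt f`. -/
theorem taylor_two {κ : Type} [DecidableEq κ] (i j : κ) (hij : i ≠ j) (f : A k Γ) :
    (X i - X j : B k Γ κ) ^ 2 ∣ inj i f - inj j f - (X i - X j) * inj j (Dt f) := by
  obtain ⟨q, hq⟩ := inj_sub_inj (k := k) (Γ := Γ) i j f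
  obtain ⟨q', hq'⟩ := inj_sub_inj (k := k) (Γ := Γ) i j (Dt f)
  have h1 := congrArg (dd i) hq
  rw [map_sub, dd_inj, dd_inj, if_pos rfl, if_neg hij.symm, sub_zero, dd_mul, map_sub, dd_X, dd_X,
    if_pos rfl, if_neg hij, sub_zero, one_mul] at h1
  refine ⟨q' - dd i q, ?_⟩
  rw [hq]
  have h2 : inj j (Dt f) = inj i (Dt f) - (X i - X j) * q' := by
    rw [← hq']
    ring
  rw [h2, h1]
  ring

theorem Op_pow_mul (act : B k Γ (Fin r) →ₐ[k] R) (rho : A k Γ →ₗ[k] R) (i : Fin r) (m : ℕ)
    (F : B k Γ (Option (Fin r))) :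
    ∃ G, Op act rho ((X none - X (some i)) ^ m * F) =
      act (ev i F) * Em act rho i m + Op act rho ((X none - X (some i)) ^ (m + 1) * G) := by
  obtain ⟨G, hG⟩ := sub_ev_dvd i F
  refine ⟨G, ?_⟩
  have h1 : (X none - X (some i)) ^ m * F
      = pf some (ev i F) * (X none - X (some i)) ^ m + (X none - X (some i)) ^ (m + 1) * G := by
    have h2 : F = pf some (ev i F) + (X none - X (some i)) * G := by
      rw [← hG]
      ring
    conv_lhs => rw [h2]
    ring
  rw [h1, map_add, Op_smul]
  rfl

theorem Em_act {act : B k Γ (Fin r) →ₐ[k] R} {rho : A k Γ →ₗ[k] R} {i : Fin r}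
    (h : CommOn {i} act rho) {m : ℕ} (hm : 1 ≤ m) (b : B k Γ (Fin r)) :
    Em act rho i m * act b = act b * Em act rho i m := by
  have h1 := Op_comm h ((X none - X (some i)) ^ m) b
  have h2 : ev i ((X none - X (some i) : B k Γ (Option (Fin r))) ^ m) = 0 := by
    rw [map_pow, map_sub, ev_X_none, ev_X_some, sub_self, zero_pow (by omega)]
  rw [Finset.sum_singleton, h2, zero_mul, map_zero] at h1
  exact sub_eq_zero.mp h1

/-- Hint: `rho f = Op (inj none f)`, `Op_bracket`; the bracket of `f(y)` and `(y-x)^m` is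
`m (y-x)^(m-1) (f(y) - f(x)) - (y-x)^m f'(y)`; `taylor_two`, `inj_sub_inj`, `Op_smul`. -/
theorem rho_Em {act : B k Γ (Fin r) →ₐ[k] R} {rho : A k Γ →ₗ[k] R} {i : Fin r}
    (hl : LieMap rho) (h : CommOn {i} act rho) (m : ℕ) (f : A k Γ) :
    ∃ G, rho f * Em act rho i m - Em act rho i m * rho f =
      ((m : k) - 1) • (act (inj i (Dt f)) * Em act rho i m) +
        Op act rho ((X none - X (some i)) ^ (m + 1) * G) := by
  set D : B k Γ (Option (Fin r)) := X none - X (some i) with hD
  have hrho : rho f = Op act rho (inj none f) := by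
    have := Op_apply act rho f (1 : B k Γ (Fin r))
    rw [map_one, map_one, mul_one, one_mul] at this
    exact this.symm
  obtain ⟨q, hq⟩ := taylor_two (k := k) (Γ := Γ) none (some i) (by simp) f
  obtain ⟨q', hq'⟩ := inj_sub_inj (k := k) (Γ := Γ) none (some i) (Dt f)
  rw [← hD] at hq hq'
  have h1 := Op_bracket hl h (inj none f) (D ^ m)
  have hdn : dd none D = 1 := by
    rw [hD, map_sub, dd_X, dd_X, if_pos rfl, if_neg (by simp), sub_zero]
  have hds : dd (some i) D = -1 := by
    rw [hD, map_sub, dd_X, dd_X, if_pos rfl, if_neg (by simp), zero_sub]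
  have hpf : pf some (inj i (Dt f)) = (inj (some i) (Dt f) : B k Γ (Option (Fin r))) := pf_inj _ _ _
  have hpf' : pf some (inj i f) = (inj (some i) f : B k Γ (Option (Fin r))) := pf_inj _ _ _
  have h2 : brk {i} (inj none f) (D ^ m)
      = ((m : k) - 1) • (pf some (inj i (Dt f)) * D ^ m) + D ^ (m + 1) * ((m : B k Γ _) * q - q') := by
    have hf : inj none f = inj (some i) f + D * inj (some i) (Dt f) + D ^ 2 * q := by
      rw [← hq]
      ring
    have hf' : inj none (Dt f) = inj (some i) (Dt f) + D * q' := by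
      rw [← hq']
      ring
    have hsm : ((m : k) - 1) • (pf some (inj i (Dt f)) * D ^ m)
        = ((m : B k Γ (Option (Fin r))) - 1) * (pf some (inj i (Dt f)) * D ^ m) := by
      rw [Algebra.smul_def, map_sub, map_natCast, map_one]
    unfold brk
    rw [Finset.sum_singleton, dd_pow, dd_pow, hdn, hds, dd_inj, dd_inj, if_pos rfl,
      if_neg (by simp), ev_inj_none, hpf', hsm, hpf, hf']
    rcases m with _ | m
    · simp
      ring
    · rw [hf, show m + 1 - 1 = m by omega]
      push_cast
      ring
  refine ⟨(m : B k Γ _) * q - q', ?_⟩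
  rw [hrho]
  show Op act rho (inj none f) * Op act rho (D ^ m) - Op act rho (D ^ m) * Op act rho (inj none f) = _
  rw [h1, h2, map_add, map_smul, Op_smul]
  rfl

end OnePtASec

section OnePtBSec

open scoped BigOperators

variable {k : Type u} [CommRing k] {Γ : Type} [AddCommMonoid Γ] [Expo Γ]
variable {R : Type w} [Ring R] [Algebra k R] {r : ℕ}

private theorem Op_inj_none {act : B k Γ (Fin r) →ₐ[k] R} {rho : A k Γ →ₗ[k] R} (f : A k Γ) :
    Op act rho (inj none f) = rho f := by
  have h := Op_apply act rho f (1 : B k Γ (Fin r))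
  rwa [map_one, mul_one, map_one, one_mul] at h

private theorem Op_pf_some {act : B k Γ (Fin r) →ₐ[k] R} {rho : A k Γ →ₗ[k] R}
    (b : B k Γ (Fin r)) : Op act rho (pf some b) = act b * rho 1 := by
  have h := Op_apply act rho (1 : A k Γ) b
  rwa [map_one, one_mul] at h

private theorem OpR_inj_none {act : B k Γ (Fin r) →ₐ[k] R} {rho : A k Γ →ₗ[k] R} (f : A k Γ) :
    OpR act rho 1 (inj none f) = rho f := by
  have h := OpR_apply act rho 1 f (1 : B k Γ (Fin r))
  rwa [map_one, mul_one, map_one, mul_one, mul_one] at h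

private theorem OpR_pf_some {act : B k Γ (Fin r) →ₐ[k] R} {rho : A k Γ →ₗ[k] R}
    (b : B k Γ (Fin r)) : OpR act rho 1 (pf some b) = rho 1 * act b := by
  have h := OpR_apply act rho 1 (1 : A k Γ) b
  rwa [map_one, one_mul, mul_one] at h

/-- the right form. Hint: `B_option_induction`, `OpR_apply`, `Op_apply`. -/
theorem OpR_one {act : B k Γ (Fin r) →ₐ[k] R} {rho : A k Γ →ₗ[k] R} {i : Fin r}
    (h : CommOn {i} act rho) (Z : B k Γ (Option (Fin r))) :
    OpR act rho 1 Z = Op act rho Z + act (ev i (dd (some i) Z)) := by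
  refine B_option_induction (P := fun Z => OpR act rho 1 Z =
    Op act rho Z + act (ev i (dd (some i) Z))) Z ?_ ?_ ?_
  · simp
  · intro F G hF hG
    rw [map_add, map_add, map_add, map_add, map_add, hF, hG]
    abel
  · intro a b
    have h1 : dd (some i) (inj none (tt k a) * pf some b : B k Γ (Option (Fin r))) =
        inj none (tt k a) * pf some (dd i b) := by
      rw [dd_mul, dd_inj, if_neg (by simp), zero_mul, zero_add, dd_pf,
        Finset.sum_eq_single i]
      · simp
      · intro j _ hj
        rw [if_neg]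
        intro hh
        exact hj (Option.some_injective _ hh)
      · intro hh
        exact absurd (Finset.mem_univ _) hh
    rw [h1, OpR_apply, Op_apply, map_mul, ev_inj_none, ev_pf_some, mul_one]
    have h2 := h (tt k a) b
    rw [Finset.sum_singleton] at h2
    rw [← h2]
    abel

theorem OpR_one_pow {act : B k Γ (Fin r) →ₐ[k] R} {rho : A k Γ →ₗ[k] R} {i : Fin r}
    (h : CommOn {i} act rho) {n : ℕ} (hn : 2 ≤ n) (hloc : LocAt act rho i n)
    (F : B k Γ (Option (Fin r))) :
    OpR act rho 1 ((X none - X (some i)) ^ n * F) = 0 := by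
  rw [OpR_one h, hloc F, zero_add, dd_mul, dd_pow, map_add, map_mul, map_mul, map_mul, map_mul,
    map_pow, map_pow, map_sub, ev_X_none, ev_X_some, sub_self, zero_pow (by omega),
    zero_pow (by omega)]
  simp

/-- type (a) -/
theorem rho_of_loc_one {act : B k Γ (Fin r) →ₐ[k] R} {rho : A k Γ →ₗ[k] R} {i : Fin r}
    (hloc : LocAt act rho i 1) (f : A k Γ) : rho f = act (inj i f) * rho 1 := by
  obtain ⟨q, hq⟩ := inj_sub_inj (k := k) (Γ := Γ) (none : Option (Fin r)) (some i) f
  have h1 : (inj none f : B k Γ (Option (Fin r))) = (X none - X (some i)) ^ 1 * q +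
      pf some (inj i f) := by
    rw [pow_one, ← hq, pf_inj]
    ring
  rw [← Op_inj_none (act := act) (rho := rho) f, h1, map_add, hloc q, zero_add, Op_pf_some]

/-- type (b). Hint: `rho f - rho 1 * act (inj i f) = OpR 1 (inj none f - inj (some i) f)`, and
`inj none f - inj (some i) f = (y - x) * q` with `ev i q = inj i (Dt f)` by `taylor_two`; use
`OpR_one`, `Op_pow_mul` with `m = 1`. -/
theorem rho_of_loc_two {act : B k Γ (Fin r) →ₐ[k] R} {rho : A k Γ →ₗ[k] R} {i : Fin r}
    (h : CommOn {i} act rho) (hloc : LocAt act rho i 2) (h1 : Em act rho i 1 = 1) (f : A k Γ) :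
    rho f = rho 1 * act (inj i f) := by
  obtain ⟨q, hq⟩ := inj_sub_inj (k := k) (Γ := Γ) (none : Option (Fin r)) (some i) f
  have h2 : (inj none f : B k Γ (Option (Fin r))) = (X none - X (some i)) ^ 1 * q +
      pf some (inj i f) := by
    rw [pow_one, ← hq, pf_inj]
    ring
  have h3 : OpR act rho 1 ((X none - X (some i)) ^ 1 * q) = 0 := by
    obtain ⟨G, hG⟩ := Op_pow_mul act rho i 1 q
    have h4 : (1 + 1 : ℕ) = 2 := rfl
    rw [OpR_one h, hG, h1, mul_one, h4, hloc G, add_zero, pow_one, dd_mul]
    have h5 : dd (some i) (X none - X (some i) : B k Γ (Option (Fin r))) = -1 := by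
      rw [map_sub, dd_X, dd_X, if_neg (by simp), if_pos rfl, zero_sub]
    rw [h5, map_add, map_mul, map_mul, map_sub, ev_X_none, ev_X_some, sub_self, zero_mul, add_zero,
      map_neg, map_one, neg_one_mul, map_neg, add_neg_cancel]
  rw [← OpR_inj_none (act := act) (rho := rho) f, h2, map_add, h3, zero_add, OpR_pf_some]

end OnePtBSec

section AlgISec

open scoped BigOperators

variable {k : Type u} [CommRing k] {Γ : Type} [AddCommMonoid Γ] [Expo Γ]
variable {R : Type w} [Ring R] [Algebra k R] {r : ℕ}

/-- the algebra generated by the operators at the point `i` -/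
def AlgI (act : B k Γ (Fin r) →ₐ[k] R) (rhos : Fin r → (A k Γ →ₗ[k] R)) (i : Fin r) :
    Subalgebra k R :=
  Algebra.adjoin k (Set.range (rhos i) ∪ Set.range (fun f => act (inj i f)))

theorem rhos_mem_AlgI (act : B k Γ (Fin r) →ₐ[k] R) (rhos : Fin r → (A k Γ →ₗ[k] R)) (i : Fin r)
    (f : A k Γ) : rhos i f ∈ AlgI act rhos i :=
  Algebra.subset_adjoin (Or.inl ⟨f, rfl⟩)

theorem act_mem_AlgI (act : B k Γ (Fin r) →ₐ[k] R) (rhos : Fin r → (A k Γ →ₗ[k] R)) (i : Fin r)
    (f : A k Γ) : act (inj i f) ∈ AlgI act rhos i :=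
  Algebra.subset_adjoin (Or.inr ⟨f, rfl⟩)

private theorem rho_act_comm {N : ℕ} {act : B k Γ (Fin r) →ₐ[k] R}
    {rhos : Fin r → (A k Γ →ₗ[k] R)} (h : IsSep r N act rhos) {i j : Fin r} (hij : i ≠ j)
    (f g : A k Γ) : rhos i f * act (inj j g) = act (inj j g) * rhos i f := by
  have h1 := h.comm i f (inj j g)
  rw [dd_inj, if_neg (fun hh => hij hh.symm), mul_zero, map_zero] at h1
  exact sub_eq_zero.1 h1

private theorem gen_comm {N : ℕ} {act : B k Γ (Fin r) →ₐ[k] R}
    {rhos : Fin r → (A k Γ →ₗ[k] R)} (h : IsSep r N act rhos) {i j : Fin r} (hij : i ≠ j)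
    {x y : R} (hx : x ∈ Set.range (rhos i) ∪ Set.range (fun f => act (inj i f)))
    (hy : y ∈ Set.range (rhos j) ∪ Set.range (fun f => act (inj j f))) : x * y = y * x := by
  rcases hx with ⟨f, rfl⟩ | ⟨f, rfl⟩ <;> rcases hy with ⟨g, rfl⟩ | ⟨g, rfl⟩
  · exact h.cross i j hij f g
  · exact rho_act_comm h hij f g
  · exact (rho_act_comm h (Ne.symm hij) g f).symm
  · change act (inj i f) * act (inj j g) = act (inj j g) * act (inj i f)
    rw [← map_mul, ← map_mul, mul_comm]

/-- Hint: `Algebra.adjoin_induction` twice; `h.cross`, `h.comm` with `dd_inj`, and `act` is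
commutative. -/
theorem AlgI_commute {N : ℕ} {act : B k Γ (Fin r) →ₐ[k] R} {rhos : Fin r → (A k Γ →ₗ[k] R)}
    (h : IsSep r N act rhos) {i j : Fin r} (hij : i ≠ j) {x y : R} (hx : x ∈ AlgI act rhos i)
    (hy : y ∈ AlgI act rhos j) : x * y = y * x := by
  have h1 : AlgI act rhos i ≤ Subalgebra.centralizer k
      (Set.range (rhos j) ∪ Set.range (fun f => act (inj j f))) := by
    refine Algebra.adjoin_le fun a ha => ?_
    rw [SetLike.mem_coe, Subalgebra.mem_centralizer_iff]
    intro b hb
    exact (gen_comm h hij ha hb).symm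
  have h2 : AlgI act rhos j ≤ Subalgebra.centralizer k ((AlgI act rhos i : Subalgebra k R) : Set R) := by
    refine Algebra.adjoin_le fun b hb => ?_
    rw [SetLike.mem_coe, Subalgebra.mem_centralizer_iff]
    intro a ha
    have h3 := h1 ha
    rw [Subalgebra.mem_centralizer_iff] at h3
    exact (h3 b hb).symm
  have h4 := h2 hy
  rw [Subalgebra.mem_centralizer_iff] at h4
  exact h4 x hx

private theorem Op_pow_mem (act : B k Γ (Fin r) →ₐ[k] R) (rhos : Fin r → (A k Γ →ₗ[k] R))
    (i : Fin r) (m : ℕ) : ∀ f g : A k Γ,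
    Op act (rhos i) ((X none - X (some i)) ^ m * (inj none f * pf some (inj i g))) ∈
      AlgI act rhos i := by
  induction m with
  | zero =>
    intro f g
    rw [pow_zero, one_mul, Op_apply]
    exact mul_mem (act_mem_AlgI _ _ _ _) (rhos_mem_AlgI _ _ _ _)
  | succ m ih =>
    intro f g
    have h1 : (X none : B k Γ (Option (Fin r))) = inj none (tt k Expo.one) := X_eq_inj _
    have h2 : (X (some i) : B k Γ (Option (Fin r))) = pf some (inj i (tt k Expo.one)) := by
      rw [pf_inj, X_eq_inj]
    have h3 : ((X none - X (some i)) ^ (m + 1) * (inj none f * pf some (inj i g)) :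
        B k Γ (Option (Fin r))) =
        (X none - X (some i)) ^ m * (inj none (tt k Expo.one * f) * pf some (inj i g)) -
        (X none - X (some i)) ^ m * (inj none f * pf some (inj i (tt k Expo.one * g))) := by
      have e1 : (inj none (tt k Expo.one * f) : B k Γ (Option (Fin r))) =
          X none * inj none f := by rw [map_mul, h1]
      have e2 : (pf some (inj i (tt k Expo.one * g)) : B k Γ (Option (Fin r))) =
          X (some i) * pf some (inj i g) := by rw [map_mul, map_mul, h2]
      rw [e1, e2]
      ring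
    rw [h3, map_sub]
    exact sub_mem (ih _ _) (ih _ _)

/-- Hint: expand `(X none - X (some i)) ^ m`; `X (some i) ^ a * X none ^ b`, `Op_apply`. -/
theorem Em_mem_AlgI (act : B k Γ (Fin r) →ₐ[k] R) (rhos : Fin r → (A k Γ →ₗ[k] R)) (i : Fin r)
    (m : ℕ) : Em act (rhos i) i m ∈ AlgI act rhos i := by
  have h := Op_pow_mem act rhos i m 1 1
  rw [map_one, map_one, map_one, mul_one, mul_one] at h
  exact h

end AlgISec

section OrdBSec

open scoped BigOperators

variable {k : Type u} [CommRing k] {Γ : Type} [AddCommMonoid Γ]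
variable {R : Type w} [Ring R] [Algebra k R] {ι : Type}

theorem Ord.zero (act : B k Γ ι →ₐ[k] R) (d : ℕ) : Ord act d (0 : R) := by
  induction d with
  | zero => rfl
  | succ d ih =>
    intro b
    rw [zero_mul, mul_zero, sub_zero]
    exact ih

theorem Ord.succ {act : B k Γ ι →ₐ[k] R} {d : ℕ} {q : R} (h : Ord act d q) : Ord act (d + 1) q := by
  induction d generalizing q with
  | zero =>
    intro b
    have h0 : q = 0 := h
    rw [h0, zero_mul, mul_zero, sub_zero]
    rfl
  | succ d ih =>
    intro b
    exact ih (h b)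

theorem Ord.mono {act : B k Γ ι →ₐ[k] R} {d d' : ℕ} {q : R} (h : Ord act d q) (hd : d ≤ d') :
    Ord act d' q := by
  induction hd with
  | refl => exact h
  | step _ ih => exact ih.succ

theorem Ord.add {act : B k Γ ι →ₐ[k] R} {d : ℕ} {q q' : R} (h : Ord act d q) (h' : Ord act d q') :
    Ord act d (q + q') := by
  induction d generalizing q q' with
  | zero =>
    have h0 : q = 0 := h
    have h1 : q' = 0 := h'
    rw [h0, h1, add_zero]
    rfl
  | succ d ih =>
    intro b
    have e : (q + q') * act b - act b * (q + q') =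
        (q * act b - act b * q) + (q' * act b - act b * q') := by
      rw [add_mul, mul_add]
      abel
    rw [e]
    exact ih (h b) (h' b)

theorem Ord.smul {act : B k Γ ι →ₐ[k] R} {d : ℕ} {q : R} (c : k) (h : Ord act d q) :
    Ord act d (c • q) := by
  induction d generalizing q with
  | zero =>
    have h0 : q = 0 := h
    rw [h0, smul_zero]
    rfl
  | succ d ih =>
    intro b
    have e : (c • q) * act b - act b * (c • q) = c • (q * act b - act b * q) := by
      rw [smul_mul_assoc, mul_smul_comm, smul_sub]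
    rw [e]
    exact ih (h b)

/-- Hint: induction on `d + d'`, `[q q', b] = q [q', b] + [q, b] q'`; if `d = 0` or `d' = 0` the
product is zero. -/
theorem Ord.mul {act : B k Γ ι →ₐ[k] R} {d d' : ℕ} {q q' : R} (h : Ord act d q)
    (h' : Ord act d' q') : Ord act (d + d') (q * q') := by
  have key : ∀ n d d' : ℕ, ∀ q q' : R, d + d' = n → Ord act d q → Ord act d' q' →
      Ord act (d + d') (q * q') := by
    intro n
    induction n with
    | zero =>
      intro d d' q q' hn h h'
      have hd : d = 0 := by omega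
      subst hd
      have h0 : q = 0 := h
      rw [h0, zero_mul]
      exact Ord.zero act _
    | succ n ih =>
      intro d d' q q' hn h h'
      rcases d with _ | d
      · have h0 : q = 0 := h
        rw [h0, zero_mul]
        exact Ord.zero act _
      rcases d' with _ | d'
      · have h0 : q' = 0 := h'
        rw [h0, mul_zero]
        exact Ord.zero act _
      have e0 : d + 1 + (d' + 1) = (d + d' + 1) + 1 := by omega
      rw [e0]
      intro b
      have e : q * q' * act b - act b * (q * q') =
          q * (q' * act b - act b * q') + (q * act b - act b * q) * q' := by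
        rw [mul_sub, sub_mul]
        simp only [mul_assoc]
        abel
      rw [e]
      have h1 := ih (d + 1) d' q (q' * act b - act b * q') (by omega) h (h' b)
      have h2 := ih d (d' + 1) (q * act b - act b * q) q' (by omega) (h b) h'
      have e1 : d + 1 + d' = d + d' + 1 := by omega
      have e2 : d + (d' + 1) = d + d' + 1 := by omega
      rw [e1] at h1
      rw [e2] at h2
      exact h1.add h2
  exact key (d + d') d d' q q' rfl h h'

theorem Ord.act (act : B k Γ ι →ₐ[k] R) (b : B k Γ ι) : Ord act 1 (act b) := by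
  intro c
  show act b * act c - act c * act b = 0
  rw [← map_mul, ← map_mul, mul_comm, sub_self]

theorem Ord.rho [Expo Γ] [Fintype ι] [DecidableEq ι] {s : Finset ι} {act : B k Γ ι →ₐ[k] R}
    {rho : A k Γ →ₗ[k] R} (h : CommOn s act rho) (f : A k Γ) : Ord act 2 (rho f) := by
  intro b
  rw [h f b]
  exact Ord.act act _

/-- every element of the algebra generated by the `rho f` has finite order. Hint:
`TensorAlgebra.induction`. -/
theorem Ord.lift [Expo Γ] [Fintype ι] [DecidableEq ι] {s : Finset ι} {act : B k Γ ι →ₐ[k] R}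
    {rho : A k Γ →ₗ[k] R} (h : CommOn s act rho) (p : TensorAlgebra k (A k Γ)) :
    ∃ d, Ord act d (TensorAlgebra.lift k rho p) := by
  induction p using TensorAlgebra.induction with
  | algebraMap r =>
    refine ⟨1, ?_⟩
    rw [AlgHom.commutes, ← AlgHom.commutes act r]
    exact Ord.act act _
  | ι x =>
    refine ⟨2, ?_⟩
    rw [TensorAlgebra.lift_ι_apply]
    exact Ord.rho h x
  | mul a b ha hb =>
    obtain ⟨d, hd⟩ := ha
    obtain ⟨d', hd'⟩ := hb
    refine ⟨d + d', ?_⟩
    rw [map_mul]
    exact hd.mul hd'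
  | add a b ha hb =>
    obtain ⟨d, hd⟩ := ha
    obtain ⟨d', hd'⟩ := hb
    refine ⟨max d d', ?_⟩
    rw [map_add]
    exact (hd.mono (le_max_left _ _)).add (hd'.mono (le_max_right _ _))

/-- binomial form. Hint: induction on `d`:
`∑ (-1)^l C(d+1,l) b^(d+1-l) q b^l = b S(q) - S(q) b = - S([q, b])` where `S` is the sum for `d`. -/
theorem Ord.binom {act : B k Γ ι →ₐ[k] R} {d : ℕ} {q : R} (h : Ord act d q) (b : B k Γ ι) :
    ∑ l ∈ Finset.range (d + 1), ((-1 : k) ^ l * (d.choose l : k)) •
      (act b ^ (d - l) * q * act b ^ l) = 0 := by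
  -- powers of the commutator
  have h1 : ∀ (d : ℕ) (q : R), Ord act d q →
      ((LinearMap.mulRight k (-act b) + LinearMap.mulLeft k (act b) : Module.End k R) ^ d) q = 0 := by
    intro d
    induction d with
    | zero =>
      intro q h
      have h0 : q = 0 := h
      rw [h0]
      simp
    | succ d ih =>
      intro q h
      rw [pow_succ, Module.End.mul_apply]
      have e : (LinearMap.mulRight k (-act b) + LinearMap.mulLeft k (act b) : Module.End k R) q
          = (-1 : k) • (q * act b - act b * q) := by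
        rw [LinearMap.add_apply, LinearMap.mulRight_apply, LinearMap.mulLeft_apply, neg_smul,
          one_smul, mul_neg]
        abel
      rw [e, map_smul, ih _ (h b), smul_zero]
  have hcomm : Commute (LinearMap.mulRight k (-act b) : Module.End k R)
      (LinearMap.mulLeft k (act b)) := by
    apply LinearMap.ext
    intro x
    simp only [Module.End.mul_apply, LinearMap.mulRight_apply, LinearMap.mulLeft_apply, mul_assoc]
  have h2 := h1 d q h
  rw [hcomm.add_pow, LinearMap.sum_apply] at h2
  rw [← h2]
  apply Finset.sum_congr rfl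
  intro l _
  rw [Module.End.mul_apply, Module.End.mul_apply,
    LinearMap.pow_mulLeft, LinearMap.pow_mulRight]
  have e1 : ((d.choose l : Module.End k R)) q = (d.choose l : k) • q := by
    rw [← nsmul_one, LinearMap.smul_apply, Module.End.one_apply, Nat.cast_smul_eq_nsmul]
  have e2 : (-act b) ^ l = ((-1 : k) ^ l) • act b ^ l := by
    rcases Nat.even_or_odd l with hl | hl
    · rw [hl.neg_pow, hl.neg_one_pow, one_smul]
    · rw [hl.neg_pow, hl.neg_one_pow, neg_smul, one_smul]
  rw [e1, e2, LinearMap.mulLeft_apply, LinearMap.mulRight_apply]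
  simp only [mul_smul_comm, smul_mul_assoc, smul_smul]

end OrdBSec

end W94
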