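import Pool.Agent.LibWitt94.Base
import Pool.Agent.LibWitt94.OpCalc

universe u w

namespace W94

section RingSepSec

open scoped BigOperators

private theorem prod_sub_prod_dvd_RingSep {S : Type*} [CommRing S] {σ : Type*} (s : Finset σ)
    (c : S) (a b : σ → S) (h : ∀ j ∈ s, c ∣ a j - b j) : c ∣ ∏ j ∈ s, a j - ∏ j ∈ s, b j := by
  classical
  induction s using Finset.induction_on with
  | empty => simp
  | insert i s hi ih =>
    rw [Finset.prod_insert hi, Finset.prod_insert hi]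
    have h1 := ih fun j hj => h j (Finset.mem_insert_of_mem hj)
    have h2 := h i (Finset.mem_insert_self i s)
    have h3 : a i * ∏ j ∈ s, a j - b i * ∏ j ∈ s, b j =
        (a i - b i) * ∏ j ∈ s, a j + b i * (∏ j ∈ s, a j - ∏ j ∈ s, b j) := by ring
    rw [h3]
    exact dvd_add (h2.mul_right _) (h1.mul_left _)

private theorem prod_erase_dvd_vand_RingSep {S : Type*} [CommRing S] {r : ℕ} (x : Fin r → S)
    (i : Fin r) : (∏ j ∈ Finset.univ.erase i, (x i - x j)) ∣ vand x := by
  classical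
  unfold vand
  rw [← Finset.mul_prod_erase Finset.univ (fun a => ∏ b ∈ Finset.Ioi a, (x a - x b))
    (Finset.mem_univ i)]
  have h1 : ∏ j ∈ Finset.univ.erase i, (x i - x j) =
      (∏ j ∈ Finset.univ.erase i, (if i < j then (x i - x j) else 1)) *
        ∏ j ∈ Finset.univ.erase i, (if i < j then 1 else (x i - x j)) := by
    rw [← Finset.prod_mul_distrib]
    refine Finset.prod_congr rfl fun j _ => ?_
    split_ifs <;> simp
  have h2 : ∏ j ∈ Finset.univ.erase i, (if i < j then (x i - x j) else 1) =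
      ∏ b ∈ Finset.Ioi i, (x i - x b) := by
    rw [← Finset.prod_filter]
    refine Finset.prod_congr ?_ fun _ _ => rfl
    ext j
    simp only [Finset.mem_filter, Finset.mem_erase, Finset.mem_univ, and_true, Finset.mem_Ioi]
    constructor
    · exact fun h => h.2
    · exact fun h => ⟨h.ne', h⟩
  rw [h1, h2]
  refine mul_dvd_mul_left _ ?_
  refine Finset.prod_dvd_prod_of_dvd _ _ fun j hj => ?_
  by_cases h : i < j
  · rw [if_pos h]
    exact one_dvd _
  · rw [if_neg h]
    have hji : j < i := lt_of_le_of_ne (not_lt.1 h) (Finset.ne_of_mem_erase hj)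
    rw [← neg_sub, neg_dvd]
    exact Finset.dvd_prod_of_mem (fun b => x j - x b) (Finset.mem_Ioi.2 hji)

/-- Separating elements. Hint (`M₀ = n ^ 2`, `n = 0` is trivial): fix `i`,
`g = ∏_{j ≠ i} (y - x j) ^ n` and `D = ∏_{j ≠ i} (x i - x j)`. `y - x i ∣ D ^ n - g`, so
`(y - x i) ^ n ∣ (D ^ n - g) ^ n` and `(D ^ n - g) ^ n = D ^ (n ^ 2) - g * s` for some `s`
(`sub_pow`-like: `a - b ∣ ...`, or `g ∣ D^(n^2) - (D^n - g)^n`). `D ∣ vand x`, say
`vand x = D * C`; take `ε = vand x ^ (M - n ^ 2) * C ^ (n ^ 2) * (g * s)`. -/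
theorem exists_sep_elt {S : Type*} [CommRing S] {r : ℕ} (y : S) (x : Fin r → S) (n : ℕ) :
    ∃ M₀, ∀ M, M₀ ≤ M → ∀ i, ∃ ε : S, (∀ j, j ≠ i → (y - x j) ^ n ∣ ε) ∧
      (y - x i) ^ n ∣ ε - vand x ^ M := by
  classical
  refine ⟨n * n, fun M hM i => ?_⟩
  set g : S := (∏ j ∈ Finset.univ.erase i, (y - x j)) ^ n with hg
  set Dd : S := ∏ j ∈ Finset.univ.erase i, (x i - x j) with hD
  obtain ⟨C, hC⟩ := prod_erase_dvd_vand_RingSep x i
  have h1 : (y - x i) ∣ Dd ^ n - g := by
    have h2 : (y - x i) ∣ Dd - ∏ j ∈ Finset.univ.erase i, (y - x j) := by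
      refine prod_sub_prod_dvd_RingSep _ _ _ _ fun j _ => ?_
      refine ⟨-1, ?_⟩
      ring
    exact h2.trans (sub_dvd_pow_sub_pow _ _ n)
  have h3 : g ∣ (Dd ^ n) ^ n - (Dd ^ n - g) ^ n := by
    have h4 := sub_dvd_pow_sub_pow (Dd ^ n) (Dd ^ n - g) n
    rwa [sub_sub_cancel] at h4
  obtain ⟨s, hs⟩ := h3
  obtain ⟨t, ht⟩ := pow_dvd_pow_of_dvd h1 n
  refine ⟨vand x ^ (M - n * n) * C ^ (n * n) * (g * s), ?_, ?_⟩
  · intro j hj
    have h5 : (y - x j) ^ n ∣ g :=
      pow_dvd_pow_of_dvd (Finset.dvd_prod_of_mem (fun j => y - x j)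
        (Finset.mem_erase.2 ⟨hj, Finset.mem_univ j⟩)) n
    exact (h5.mul_right s).mul_left _
  · have h6 : vand x ^ M = vand x ^ (M - n * n) * C ^ (n * n) * (Dd ^ n) ^ n := by
      have h7 : vand x ^ M = vand x ^ (M - n * n) * vand x ^ (n * n) := by
        rw [← pow_add, Nat.sub_add_cancel hM]
      rw [h7, ← pow_mul]
      conv_lhs => rw [hC]
      rw [mul_pow Dd C (n * n)]
      rw [hC]
      ring
    refine ⟨-(vand x ^ (M - n * n) * C ^ (n * n) * t), ?_⟩
    rw [h6, ← hs]
    have h8 : (Dd ^ n) ^ n - (Dd ^ n - g) ^ n - (Dd ^ n) ^ n = -((y - x i) ^ n * t) := by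
      rw [ht]; ring
    calc vand x ^ (M - n * n) * C ^ (n * n) * ((Dd ^ n) ^ n - (Dd ^ n - g) ^ n) -
          vand x ^ (M - n * n) * C ^ (n * n) * (Dd ^ n) ^ n
        = vand x ^ (M - n * n) * C ^ (n * n) *
          ((Dd ^ n) ^ n - (Dd ^ n - g) ^ n - (Dd ^ n) ^ n) := by ring
      _ = _ := by rw [h8]; ring

private theorem aux_RingSep {S : Type*} [CommRing S] {σ : Type*} (s : Finset σ) (a : S)
    (f : σ → S) (V : S) (h : ∀ l ∈ s, ∃ u w, V = u * a + w * f l) :
    ∃ u W, V ^ s.card = u * a + W * ∏ l ∈ s, f l := by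
  classical
  induction s using Finset.induction_on with
  | empty => exact ⟨0, 1, by simp⟩
  | insert i s hi ih =>
    obtain ⟨u, W, h1⟩ := ih fun l hl => h l (Finset.mem_insert_of_mem hl)
    obtain ⟨u', w', h2⟩ := h i (Finset.mem_insert_self i s)
    refine ⟨u * V + W * (∏ l ∈ s, f l) * u', W * w', ?_⟩
    rw [Finset.card_insert_of_notMem hi, pow_succ, h1, Finset.prod_insert hi]
    calc (u * a + W * ∏ l ∈ s, f l) * V
        = u * a * V + W * (∏ l ∈ s, f l) * V := by ring
      _ = u * a * V + W * (∏ l ∈ s, f l) * (u' * a + w' * f i) := by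
          conv_lhs => rw [h2]
          conv_rhs => rw [h2]
      _ = _ := by ring

/-- From the intersection to the product. Hint: by `exists_sep_elt` (with two indices `i ≠ j`):
`vand x ^ M ∈ ((y - x i) ^ n) + ((y - x j) ^ n)`. Show by induction on the finset `s` of indices:
there is `M'` with `∏_{l ∈ s} (y - x l) ^ n ∣ vand x ^ M' * Z`, for all `Z` divisible by all
`(y - x l) ^ n`, `l ∈ s`. Step: for `i ∉ s` a power of `vand x` is in
`((y - x i) ^ n) + (∏_{l ∈ s} (y - x l) ^ n)` (product over `l ∈ s` of the relations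
`vand x ^ M = u_l (y - x i) ^ n + w_l (y - x l) ^ n`), and `Z * (y - x i) ^ n` (times a power of
`vand x`) as well as `Z * ∏_{l ∈ s} (y - x l) ^ n` are divisible by the product over `insert i s`. -/
theorem inter_to_prod {S : Type*} [CommRing S] {r : ℕ} (y : S) (x : Fin r → S) (n : ℕ) :
    ∃ M', ∀ Z : S, (∀ l, (y - x l) ^ n ∣ Z) → (∏ l, (y - x l)) ^ n ∣ vand x ^ M' * Z := by
  classical
  obtain ⟨M₀, hM₀⟩ := exists_sep_elt y x n
  have hrel : ∀ i l, l ≠ i → ∃ u w, vand x ^ M₀ = u * (y - x i) ^ n + w * (y - x l) ^ n := by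
    intro i l hli
    obtain ⟨ε, h1, h2⟩ := hM₀ M₀ le_rfl i
    obtain ⟨w, hw⟩ := h1 l hli
    obtain ⟨u, hu⟩ := h2
    refine ⟨-u, w, ?_⟩
    have h3 : vand x ^ M₀ = ε - (ε - vand x ^ M₀) := by ring
    rw [h3, hu, hw]
    ring
  have main : ∀ s : Finset (Fin r), ∃ M', ∀ Z : S, (∀ l ∈ s, (y - x l) ^ n ∣ Z) →
      (∏ l ∈ s, (y - x l) ^ n) ∣ vand x ^ M' * Z := by
    intro s
    induction s using Finset.induction_on with
    | empty => exact ⟨0, fun Z _ => by simp⟩
    | insert i s hi ih =>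
      obtain ⟨M', hM'⟩ := ih
      obtain ⟨u, W, huW⟩ := aux_RingSep s ((y - x i) ^ n) (fun l => (y - x l) ^ n) (vand x ^ M₀)
        (fun l hl => hrel i l (fun h => hi (h ▸ hl)))
      refine ⟨M₀ * s.card + M', fun Z hZ => ?_⟩
      obtain ⟨z', hz'⟩ := hM' Z fun l hl => hZ l (Finset.mem_insert_of_mem hl)
      obtain ⟨z'', hz''⟩ := hZ i (Finset.mem_insert_self i s)
      rw [Finset.prod_insert hi, pow_add, pow_mul, huW]
      refine ⟨u * z' + W * vand x ^ M' * z'', ?_⟩
      calc (u * (y - x i) ^ n + W * ∏ l ∈ s, (y - x l) ^ n) * vand x ^ M' * Z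
          = u * (y - x i) ^ n * (vand x ^ M' * Z) +
            W * (∏ l ∈ s, (y - x l) ^ n) * vand x ^ M' * Z := by ring
        _ = u * (y - x i) ^ n * ((∏ l ∈ s, (y - x l) ^ n) * z') +
            W * (∏ l ∈ s, (y - x l) ^ n) * vand x ^ M' * ((y - x i) ^ n * z'') := by
            rw [hz', ← hz'']
        _ = _ := by ring
  obtain ⟨M', hM'⟩ := main Finset.univ
  refine ⟨M', fun Z hZ => ?_⟩
  rw [← Finset.prod_pow]
  exact hM' Z fun l _ => hZ l

end RingSepSec

section SepASec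

open scoped BigOperators

variable {k : Type u} [CommRing k] {Γ : Type} [AddCommMonoid Γ] [Expo Γ]
variable {R : Type w} [Ring R] [Algebra k R]

/-- If `Z` is divisible by every `(y - x_l) ^ n`, `n ≥ N`, then `Op Z = 0`, since the Vandermonde
product is invertible. Hint: `inter_to_prod` in `B k Γ (Option (Fin r))` gives
`chi ^ n ∣ pf some Delta ^ M' * Z`, so `Op (pf some (Delta ^ M') * Z) = 0` by `h.loc`;
`Op_smul`; cancel the unit `act Delta ^ M'`. -/
theorem Op_eq_zero {r N : ℕ} {act : B k Γ (Fin r) →ₐ[k] R} {rho : A k Γ →ₗ[k] R}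
    (h : IsSys r N act rho) (hd : IsUnit (act (Delta k Γ r))) (n : ℕ) (hn : N ≤ n)
    (Z : B k Γ (Option (Fin r))) (hZ : ∀ l, (X none - X (some l)) ^ n ∣ Z) :
    Op act rho Z = 0 := by
  obtain ⟨M', hM'⟩ := inter_to_prod (X none : B k Γ (Option (Fin r)))
    (fun l : Fin r => (X (some l) : B k Γ (Option (Fin r)))) n
  obtain ⟨W, hW⟩ := hM' Z hZ
  have h1 : vand (fun l : Fin r => (X (some l) : B k Γ (Option (Fin r)))) =
      pf some (Delta k Γ r) := (pf_Delta some).symm
  rw [h1, ← map_pow] at hW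
  have h2 : (∏ l, (X none - X (some l)) : B k Γ (Option (Fin r))) ^ n * W =
      chi k Γ r ^ N * (chi k Γ r ^ (n - N) * W) := by
    rw [← mul_assoc, ← pow_add, Nat.add_sub_cancel' hn]
    rfl
  have h3 : Op act rho (pf some (Delta k Γ r ^ M') * Z) = 0 := by
    rw [hW, h2]
    exact h.loc _
  rw [Op_smul, map_pow] at h3
  exact (IsUnit.mul_right_eq_zero (hd.pow M')).1 h3

private theorem pow_mul_pow_SepA {R : Type w} [Ring R] {d u : R} (hdu : d * u = 1) (n : ℕ) :
    d ^ n * u ^ n = 1 := by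
  induction n with
  | zero => simp
  | succ n ih =>
    rw [pow_succ d, pow_succ' u]
    calc d ^ n * d * (u * u ^ n) = d ^ n * (d * u) * u ^ n := by noncomm_ring
      _ = 1 := by rw [hdu, mul_one, ih]

private theorem key_SepA {R : Type w} [Ring R] (d u P c : R) (hdu : d * u = 1)
    (hud : u * d = 1) (h1 : P * d - d * P = c) (hc : d * c = c * d) (M : ℕ) :
    P * u ^ M = u ^ M * P - M • (u ^ (M + 1) * c) := by
  have huc : u * c = c * u := by
    calc u * c = u * c * (d * u) := by rw [hdu, mul_one]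
      _ = u * (c * d) * u := by noncomm_ring
      _ = u * (d * c) * u := by rw [hc]
      _ = (u * d) * c * u := by noncomm_ring
      _ = c * u := by rw [hud, one_mul]
  have h2 : P * u = u * P - u ^ 2 * c := by
    have h3 : u * (P * d - d * P) * u = u * c * u := by rw [h1]
    have h4 : u * (P * d - d * P) * u = u * P * (d * u) - (u * d) * P * u := by noncomm_ring
    rw [h4, hdu, hud, mul_one, one_mul] at h3
    have h5 : u * c * u = u ^ 2 * c := by
      rw [mul_assoc, ← huc, pow_two, mul_assoc]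
    rw [h5] at h3
    rw [← h3]
    noncomm_ring
  induction M with
  | zero => simp
  | succ M ih =>
    calc P * u ^ (M + 1) = (P * u ^ M) * u := by rw [pow_succ, mul_assoc]
      _ = (u ^ M * P - M • (u ^ (M + 1) * c)) * u := by rw [ih]
      _ = u ^ M * (P * u) - M • (u ^ (M + 1) * (c * u)) := by
          rw [sub_mul, smul_mul_assoc, mul_assoc, mul_assoc]
      _ = u ^ M * (u * P - u ^ 2 * c) - M • (u ^ (M + 1) * (u * c)) := by rw [h2, ← huc]
      _ = u ^ (M + 1) * P - (M + 1) • (u ^ (M + 1 + 1) * c) := by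
          have e1 : u ^ M * (u * P - u ^ 2 * c) = u ^ (M + 1) * P - u ^ (M + 2) * c := by
            rw [mul_sub, ← mul_assoc, ← mul_assoc, ← pow_succ, ← pow_add]
          have e2 : u ^ (M + 1) * (u * c) = u ^ (M + 2) * c := by
            rw [← mul_assoc, ← pow_succ]
          rw [e1, e2, add_smul, one_smul]
          abel

/-- Commutators and inverses. Hint: `P * u ^ M = u ^ M * P - M • (u ^ (M + 1) * c)` by induction on `M`
for `P * d = d * P + c`, `d * c = c * d`. -/
theorem ring_comm_inv {R : Type w} [Ring R] (d u P₁ P₂ c₁ c₂ : R) (hdu : d * u = 1)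
    (hud : u * d = 1) (h1 : P₁ * d - d * P₁ = c₁) (h2 : P₂ * d - d * P₂ = c₂)
    (hc1 : d * c₁ = c₁ * d) (hc2 : d * c₂ = c₂ * d) (M : ℕ) :
    d ^ (2 * M + 1) * ((u ^ M * P₁) * (u ^ M * P₂) - (u ^ M * P₂) * (u ^ M * P₁)) =
      d * (P₁ * P₂ - P₂ * P₁) - M • (c₁ * P₂ - c₂ * P₁) := by
  have k1 := key_SepA d u P₁ c₁ hdu hud h1 hc1 M
  have k2 := key_SepA d u P₂ c₂ hdu hud h2 hc2 M
  have main : ∀ P c Q : R, P * u ^ M = u ^ M * P - M • (u ^ (M + 1) * c) →
      d ^ (2 * M + 1) * ((u ^ M * P) * (u ^ M * Q)) = d * (P * Q) - M • (c * Q) := by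
    intro P c Q hP
    have e1 : (u ^ M * P) * (u ^ M * Q) = u ^ (2 * M) * (P * Q) - M • (u ^ (2 * M + 1) * (c * Q)) := by
      calc (u ^ M * P) * (u ^ M * Q) = u ^ M * (P * u ^ M) * Q := by
            simp only [mul_assoc]
        _ = u ^ M * (u ^ M * P - M • (u ^ (M + 1) * c)) * Q := by rw [hP]
        _ = u ^ M * (u ^ M * P) * Q - M • (u ^ M * (u ^ (M + 1) * c) * Q) := by
            rw [mul_sub, sub_mul, mul_smul_comm, smul_mul_assoc]
        _ = _ := by
            have a1 : u ^ M * (u ^ M * P) * Q = u ^ (2 * M) * (P * Q) := by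
              rw [two_mul, pow_add]
              simp only [mul_assoc]
            have a2 : u ^ M * (u ^ (M + 1) * c) * Q = u ^ (2 * M + 1) * (c * Q) := by
              have a3 : u ^ (2 * M + 1) = u ^ M * u ^ (M + 1) := by
                rw [← pow_add]
                congr 1
                ring
              rw [a3]
              simp only [mul_assoc]
            rw [a1, a2]
    have e2 : d ^ (2 * M + 1) * u ^ (2 * M) = d := by
      rw [pow_succ', mul_assoc, pow_mul_pow_SepA hdu, mul_one]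
    have e3 : d ^ (2 * M + 1) * u ^ (2 * M + 1) = 1 := pow_mul_pow_SepA hdu _
    rw [e1, mul_sub, mul_smul_comm, ← mul_assoc (d ^ (2 * M + 1)) (u ^ (2 * M)),
      ← mul_assoc (d ^ (2 * M + 1)) (u ^ (2 * M + 1)), e2, e3, one_mul]
  rw [mul_sub, main P₁ c₁ P₂ k1, main P₂ c₂ P₁ k2, mul_sub, smul_sub]
  abel

end SepASec

section SepBASec

open scoped BigOperators

variable {k : Type u} [CommRing k] {Γ : Type} [AddCommMonoid Γ] [Expo Γ] {r : ℕ}

/-- The data of the separating element `ε` at the index `i`: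
`ε ≡ 0 mod (y - x_l) ^ n` for `l ≠ i`, `ε ≡ Delta ^ M mod (y - x_i) ^ n`. -/
structure IsEps (i : Fin r) (n M : ℕ) (ε : B k Γ (Option (Fin r))) : Prop where
  off : ∀ l, l ≠ i → (X none - X (some l)) ^ n ∣ ε
  on : (X none - X (some i)) ^ n ∣ ε - pf some (Delta k Γ r) ^ M

/-- the derivation `Σ_j Z (x_j) ∂_j` applied to `Delta` -/
noncomputable def thD (Z : B k Γ (Option (Fin r))) : B k Γ (Fin r) :=
  ∑ j, ev j Z * dd j (Delta k Γ r)

/-- `dd` lowers the divisibility by one. Hint: `dd_mul`, `dd_pow`. -/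
theorem dd_dvd {κ : Type} [DecidableEq κ] (i a b : κ) (n : ℕ) (F : B k Γ κ)
    (h : (X a - X b : B k Γ κ) ^ (n + 1) ∣ F) : (X a - X b : B k Γ κ) ^ n ∣ dd i F := by
  obtain ⟨G, rfl⟩ := h
  rw [dd_mul, dd_pow, Nat.add_sub_cancel]
  refine dvd_add ?_ ?_
  · refine ⟨((n + 1 : ℕ) : B k Γ κ) * dd i (X a - X b) * G, ?_⟩
    ring
  · refine ⟨(X a - X b) * dd i G, ?_⟩
    ring

private theorem ev_dvd_SepBA {j : Fin r} {n : ℕ} {Z : B k Γ (Option (Fin r))}
    (h : (X none - X (some j) : B k Γ (Option (Fin r))) ^ (n + 1) ∣ Z) : ev j Z = 0 := by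
  obtain ⟨G, rfl⟩ := h
  rw [map_mul, map_pow, map_sub, ev_X_none, ev_X_some, sub_self, zero_pow (Nat.succ_ne_zero n),
    zero_mul]

theorem ev_eps_off {i j : Fin r} (hij : j ≠ i) {n M : ℕ} {ε : B k Γ (Option (Fin r))}
    (h : IsEps i (n + 1) M ε) : ev j ε = 0 := ev_dvd_SepBA (h.off j hij)

theorem ev_eps_on {i : Fin r} {n M : ℕ} {ε : B k Γ (Option (Fin r))}
    (h : IsEps i (n + 1) M ε) : ev i ε = Delta k Γ r ^ M := by
  have h1 := ev_dvd_SepBA h.on
  rw [map_sub, map_pow, ev_pf_some, sub_eq_zero] at h1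
  exact h1

/-- `thD` of `f (y) ε`. -/
theorem thD_eps {i : Fin r} {n M : ℕ} {ε : B k Γ (Option (Fin r))} (h : IsEps i (n + 1) M ε)
    (f : A k Γ) :
    thD (inj none f * ε) = inj i f * Delta k Γ r ^ M * dd i (Delta k Γ r) := by
  unfold thD
  rw [Finset.sum_eq_single i]
  · rw [map_mul, ev_inj_none, ev_eps_on h]
  · intro j _ hj
    rw [map_mul, ev_eps_off hj h, mul_zero, zero_mul]
  · intro hi
    exact absurd (Finset.mem_univ _) hi

end SepBASec

section SepBBSec

open scoped BigOperators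

variable {k : Type u} [CommRing k] {Γ : Type} [AddCommMonoid Γ] [Expo Γ] {r : ℕ}

/-- the bracket of `f (y) ε₁`, `h (y) ε₂` -/
private theorem SepBB_brk {i j : Fin r} {n M : ℕ} {ε₁ ε₂ : B k Γ (Option (Fin r))}
    (h1 : IsEps i (n + 1) M ε₁) (h2 : IsEps j (n + 1) M ε₂) (f h : A k Γ) :
    brk Finset.univ (inj none f * ε₁) (inj none h * ε₂) =
      inj none f * ε₁ * dd none (inj none h * ε₂) - inj none h * ε₂ * dd none (inj none f * ε₁) +
      (inj (some i) f * pf some (Delta k Γ r) ^ M * dd (some i) (inj none h * ε₂) -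
        inj (some j) h * pf some (Delta k Γ r) ^ M * dd (some j) (inj none f * ε₁)) := by
  unfold brk
  congr 1
  rw [Finset.sum_sub_distrib]
  congr 1
  · rw [Finset.sum_eq_single i]
    · rw [map_mul (ev i), ev_inj_none, ev_eps_on h1, map_mul (pf some), pf_inj,
        map_pow (pf some)]
    · intro l _ hl
      rw [map_mul (ev l), ev_eps_off hl h1, mul_zero, map_zero, zero_mul]
    · intro h; exact absurd (Finset.mem_univ _) h
  · rw [Finset.sum_eq_single j]
    · rw [map_mul (ev j), ev_inj_none, ev_eps_on h2, map_mul (pf some), pf_inj,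
        map_pow (pf some)]
    · intro l _ hl
      rw [map_mul (ev l), ev_eps_off hl h2, mul_zero, map_zero, zero_mul]
    · intro h; exact absurd (Finset.mem_univ _) h

private theorem SepBB_thD {i : Fin r} {n M : ℕ} {ε : B k Γ (Option (Fin r))}
    (h : IsEps i (n + 1) M ε) (f : A k Γ) :
    (pf some (thD (inj none f * ε)) : B k Γ (Option (Fin r))) =
      inj (some i) f * pf some (Delta k Γ r) ^ M * dd (some i) (pf some (Delta k Γ r)) := by
  rw [thD_eps h, map_mul, map_mul, map_pow, pf_inj, dd_pf]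
  congr 1
  rw [Finset.sum_eq_single i]
  · rw [if_pos rfl]
  · intro j _ hj
    rw [if_neg]
    exact fun h => hj (Option.some_injective _ h)
  · intro h; exact absurd (Finset.mem_univ _) h

private theorem SepBB_dd_none (D : B k Γ (Fin r)) :
    dd none (pf some D : B k Γ (Option (Fin r))) = 0 := by
  rw [dd_pf]
  exact Finset.sum_eq_zero fun i _ => if_neg (by simp)

private theorem SepBB_mk {κ : Type} [DecidableEq κ] (a b : κ) (n : ℕ) (Z W : B k Γ κ)
    (h : (X a - X b : B k Γ κ) ^ (n + 1) ∣ Z - W) :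
    Ideal.Quotient.mk (Ideal.span {(X a - X b : B k Γ κ) ^ n}) Z =
      Ideal.Quotient.mk (Ideal.span {(X a - X b : B k Γ κ) ^ n}) W ∧ ∀ i,
    Ideal.Quotient.mk (Ideal.span {(X a - X b : B k Γ κ) ^ n}) (dd i Z) =
      Ideal.Quotient.mk (Ideal.span {(X a - X b : B k Γ κ) ^ n}) (dd i W) := by
  refine ⟨?_, fun i => ?_⟩
  · rw [Ideal.Quotient.eq, Ideal.mem_span_singleton]
    exact (pow_dvd_pow _ (Nat.le_succ n)).trans h
  · rw [Ideal.Quotient.eq, Ideal.mem_span_singleton, ← map_sub]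
    exact dd_dvd i a b n _ h

private theorem SepBB_pow {S : Type*} [CommRing S] (D E : S) (M : ℕ) :
    D * ((M : S) * D ^ (M - 1) * E) = (M : S) * D ^ M * E := by
  cases M with
  | zero => simp
  | succ m => rw [Nat.add_sub_cancel, pow_succ]; ring

/-- the two approximations of `ε` -/
private theorem SepBB_cases {i : Fin r} {n M : ℕ} {ε : B k Γ (Option (Fin r))}
    (h : IsEps i (n + 1) M ε) (f : A k Γ) (l : Fin r) :
    (l = i → (X none - X (some l) : B k Γ (Option (Fin r))) ^ (n + 1) ∣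
      inj none f * ε - inj none f * pf some (Delta k Γ r) ^ M) ∧
    (l ≠ i → (X none - X (some l) : B k Γ (Option (Fin r))) ^ (n + 1) ∣
      inj none f * ε - 0) := by
  refine ⟨fun hl => ?_, fun hl => ?_⟩
  · subst hl
    rw [← mul_sub]
    exact Dvd.dvd.mul_left h.on _
  · rw [sub_zero]
    exact Dvd.dvd.mul_left (h.off l hl) _

private theorem SepBB_dds (D : B k Γ (Fin r)) (f : A k Γ) (M : ℕ) (a : Fin r) :
    dd (some a) (inj none f * pf some D ^ M : B k Γ (Option (Fin r))) =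
      inj none f * ((M : B k Γ (Option (Fin r))) * pf some D ^ (M - 1) * dd (some a) (pf some D)) := by
  rw [dd_mul, dd_inj, if_neg (by simp), zero_mul, zero_add, dd_pow]

private theorem SepBB_ddn (D : B k Γ (Fin r)) (f : A k Γ) (M : ℕ) :
    dd none (inj none f * pf some D ^ M : B k Γ (Option (Fin r))) =
      inj none (Dt f) * pf some D ^ M := by
  rw [dd_mul, dd_inj, if_pos rfl, dd_pow, SepBB_dd_none, mul_zero, mul_zero, add_zero]

private theorem SepBB_alg1 {S : Type*} [CommRing S] (D Di Dj Fi Hj Z1 Z2 dn1 dn2 di2 dj1 Fy m : S)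
    (M : ℕ) (hZ1 : Z1 = Fy * D ^ M) (hZ2 : Z2 = 0) (hdn2 : dn2 = 0) (hdi2 : di2 = 0)
    (hdj1 : dj1 = Fy * (m * D ^ (M - 1) * Dj)) (hp : D * (m * D ^ (M - 1) * Dj) = m * D ^ M * Dj) :
    D * (Z1 * dn2 - Z2 * dn1 + (Fi * D ^ M * di2 - Hj * D ^ M * dj1)) -
      m * (Fi * D ^ M * Di * Z2 - Hj * D ^ M * Dj * Z1) = 0 := by
  rw [hZ1, hZ2, hdn2, hdi2, hdj1]
  linear_combination (-Hj * D ^ M * Fy) * hp

private theorem SepBB_alg2 {S : Type*} [CommRing S] (D Di Dj Fi Hj Z1 Z2 dn1 dn2 di2 dj1 Hy m : S)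
    (M : ℕ) (hZ2 : Z2 = Hy * D ^ M) (hZ1 : Z1 = 0) (hdn1 : dn1 = 0) (hdj1 : dj1 = 0)
    (hdi2 : di2 = Hy * (m * D ^ (M - 1) * Di)) (hp : D * (m * D ^ (M - 1) * Di) = m * D ^ M * Di) :
    D * (Z1 * dn2 - Z2 * dn1 + (Fi * D ^ M * di2 - Hj * D ^ M * dj1)) -
      m * (Fi * D ^ M * Di * Z2 - Hj * D ^ M * Dj * Z1) = 0 := by
  rw [hZ1, hZ2, hdn1, hdi2, hdj1]
  linear_combination (Fi * D ^ M * Hy) * hp

private theorem SepBB_alg3 {S : Type*} [CommRing S]
    (D Di Fi Hi Z1 Z2 dn1 dn2 di1 di2 Fy Hy Fy' Hy' m e : S)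
    (M : ℕ) (hZ1 : Z1 = Fy * D ^ M) (hZ2 : Z2 = Hy * D ^ M) (hdn1 : dn1 = Fy' * D ^ M)
    (hdn2 : dn2 = Hy' * D ^ M)
    (hdi1 : di1 = Fy * (m * D ^ (M - 1) * Di)) (hdi2 : di2 = Hy * (m * D ^ (M - 1) * Di))
    (he : e = D ^ M)
    (hp : D * (m * D ^ (M - 1) * Di) = m * D ^ M * Di) :
    D * (Z1 * dn2 - Z2 * dn1 + (Fi * D ^ M * di2 - Hi * D ^ M * di1)) -
      m * (Fi * D ^ M * Di * Z2 - Hi * D ^ M * Di * Z1) -
      D ^ (M + 1) * ((Fy * Hy' - Hy * Fy') * e) = 0 := by
  rw [hZ1, hZ2, hdn1, hdn2, hdi1, hdi2, he]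
  linear_combination (Fi * D ^ M * Hy - Hi * D ^ M * Fy) * hp

/-- The bracket for two different indices. Hint: fix `l`, work modulo `(y - x_l) ^ n` (write the
differences explicitly with `dd_dvd`); three cases `l ≠ i, j`, `l = i`, `l = j`; note
`dd none (pf some _) = 0` and `dd (some a) (pf some b) = pf some (dd a b)` (`dd_pf`). For `l = i`:
`ε_i ≡ Delta ^ M`, `ε_j ≡ 0`, `dd none ε_i ≡ 0`, `dd (some a) ε_i ≡ dd (some a) (Delta ^ M)`, so the
bracket is `≡ - (h (x_j) Delta ^ M) f (y) ∂_j (Delta ^ M)`, and `Delta ∂_j (Delta^M) = M Delta^M ∂_j Delta`. -/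
theorem brk_cross {i j : Fin r} (hij : i ≠ j) {n M : ℕ} {ε₁ ε₂ : B k Γ (Option (Fin r))}
    (h1 : IsEps i (n + 1) M ε₁) (h2 : IsEps j (n + 1) M ε₂) (f h : A k Γ) (l : Fin r) :
    (X none - X (some l) : B k Γ (Option (Fin r))) ^ n ∣
      pf some (Delta k Γ r) * brk Finset.univ (inj none f * ε₁) (inj none h * ε₂) -
        M • (pf some (thD (inj none f * ε₁)) * (inj none h * ε₂) -
          pf some (thD (inj none h * ε₂)) * (inj none f * ε₁)) := by
  rw [SepBB_brk h1 h2, SepBB_thD h1, SepBB_thD h2]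
  rw [← Ideal.mem_span_singleton, ← Ideal.Quotient.eq_zero_iff_mem]
  have e1 := SepBB_cases h1 f l
  have e2 := SepBB_cases h2 h l
  rw [nsmul_eq_mul]
  by_cases hli : l = i
  · have hlj : l ≠ j := fun h' => hij (hli.symm.trans h')
    obtain ⟨a1, b1⟩ := SepBB_mk none (some l) n _ _ (e1.1 hli)
    obtain ⟨a2, b2⟩ := SepBB_mk none (some l) n _ _ (e2.2 hlj)
    have b1j := b1 (some j)
    rw [SepBB_dds] at b1j
    have hp := congrArg (Ideal.Quotient.mk
      (Ideal.span {(X none - X (some l) : B k Γ (Option (Fin r))) ^ n}))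
      (SepBB_pow (pf some (Delta k Γ r) : B k Γ (Option (Fin r)))
        (dd (some j) (pf some (Delta k Γ r))) M)
    have b2n := b2 none
    have b2i := b2 (some i)
    simp only [map_mul, map_sub, map_add, map_pow, map_natCast, map_zero] at a1 a2 b1j b2n b2i hp ⊢
    exact SepBB_alg1 _ _ _ _ _ _ _ _ _ _ _ _ _ M a1 a2 b2n b2i b1j hp
  · by_cases hlj : l = j
    · obtain ⟨a1, b1⟩ := SepBB_mk none (some l) n _ _ (e1.2 hli)
      obtain ⟨a2, b2⟩ := SepBB_mk none (some l) n _ _ (e2.1 hlj)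
      have b2i := b2 (some i)
      rw [SepBB_dds] at b2i
      have hp := congrArg (Ideal.Quotient.mk
        (Ideal.span {(X none - X (some l) : B k Γ (Option (Fin r))) ^ n}))
        (SepBB_pow (pf some (Delta k Γ r) : B k Γ (Option (Fin r)))
          (dd (some i) (pf some (Delta k Γ r))) M)
      have b1n := b1 none
      have b1j := b1 (some j)
      simp only [map_mul, map_sub, map_add, map_pow, map_natCast, map_zero]
        at a1 a2 b1j b1n b2i hp ⊢
      exact SepBB_alg2 _ _ _ _ _ _ _ _ _ _ _ _ _ M a2 a1 b1n b1j b2i hp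
    · obtain ⟨a1, b1⟩ := SepBB_mk none (some l) n _ _ (e1.2 hli)
      obtain ⟨a2, b2⟩ := SepBB_mk none (some l) n _ _ (e2.2 hlj)
      have b1n := b1 none
      have b1j := b1 (some j)
      have b2n := b2 none
      have b2i := b2 (some i)
      simp only [map_mul, map_sub, map_add, map_pow, map_natCast, map_zero]
        at a1 a2 b1j b1n b2i b2n ⊢
      rw [a1, a2, b1j, b1n, b2i, b2n]
      ring

/-- The bracket for equal indices, same computation. -/
theorem brk_same {i : Fin r} {n M : ℕ} {ε : B k Γ (Option (Fin r))}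
    (h1 : IsEps i (n + 1) M ε) (f h : A k Γ) (l : Fin r) :
    (X none - X (some l) : B k Γ (Option (Fin r))) ^ n ∣
      pf some (Delta k Γ r) * brk Finset.univ (inj none f * ε) (inj none h * ε) -
        M • (pf some (thD (inj none f * ε)) * (inj none h * ε) -
          pf some (thD (inj none h * ε)) * (inj none f * ε)) -
        pf some (Delta k Γ r) ^ (M + 1) * (inj none (f * Dt h - h * Dt f) * ε) := by
  rw [SepBB_brk h1 h1, SepBB_thD h1, SepBB_thD h1]
  rw [← Ideal.mem_span_singleton, ← Ideal.Quotient.eq_zero_iff_mem]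
  have e1 := SepBB_cases h1 f l
  have e2 := SepBB_cases h1 h l
  rw [nsmul_eq_mul]
  by_cases hli : l = i
  · obtain ⟨a1, b1⟩ := SepBB_mk none (some l) n _ _ (e1.1 hli)
    obtain ⟨a2, b2⟩ := SepBB_mk none (some l) n _ _ (e2.1 hli)
    obtain ⟨a3, -⟩ := SepBB_mk none (some l) n ε (pf some (Delta k Γ r) ^ M) (by
      rw [hli]; exact h1.on)
    have b1i := b1 (some i)
    have b2i := b2 (some i)
    rw [SepBB_dds] at b1i b2i
    have b1n := b1 none
    have b2n := b2 none
    rw [SepBB_ddn] at b1n b2n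
    have hp := congrArg (Ideal.Quotient.mk
      (Ideal.span {(X none - X (some l) : B k Γ (Option (Fin r))) ^ n}))
      (SepBB_pow (pf some (Delta k Γ r) : B k Γ (Option (Fin r)))
        (dd (some i) (pf some (Delta k Γ r))) M)
    simp only [map_mul, map_sub, map_add, map_pow, map_natCast, map_zero]
      at a1 a2 a3 b1i b1n b2n b2i hp ⊢
    exact SepBB_alg3 _ _ _ _ _ _ _ _ _ _ _ _ _ _ _ _ M a1 a2 b1n b2n b1i b2i a3 hp
  · obtain ⟨a1, b1⟩ := SepBB_mk none (some l) n _ _ (e1.2 hli)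
    obtain ⟨a2, b2⟩ := SepBB_mk none (some l) n _ _ (e2.2 hli)
    obtain ⟨a3, -⟩ := SepBB_mk none (some l) n ε 0 (by
      rw [sub_zero]; exact h1.off l hli)
    have b1i := b1 (some i)
    have b2i := b2 (some i)
    have b1n := b1 none
    have b2n := b2 none
    simp only [map_mul, map_sub, map_add, map_pow, map_natCast, map_zero]
      at a1 a2 a3 b1i b1n b2n b2i ⊢
    rw [a1, a2, a3, b1i, b1n, b2i, b2n]
    ring

end SepBBSec

section SepCSec

open scoped BigOperators

variable {k : Type u} [CommRing k] {Γ : Type} [AddCommMonoid Γ] [Expo Γ]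
variable {R : Type w} [Ring R] [Algebra k R]

/-- the maps `f ↦ v * Op (f (y) ε)` -/
private noncomputable def SepC_rho {r : ℕ} (act : B k Γ (Fin r) →ₐ[k] R) (rho : A k Γ →ₗ[k] R)
    (v : R) (ε : B k Γ (Option (Fin r))) : A k Γ →ₗ[k] R :=
  (LinearMap.mulLeft k v) ∘ₗ (Op act rho) ∘ₗ (LinearMap.mulRight k ε) ∘ₗ
    (inj none : A k Γ →ₐ[k] B k Γ (Option (Fin r))).toLinearMap

omit [Expo Γ] in
private theorem SepC_rho_apply {r : ℕ} (act : B k Γ (Fin r) →ₐ[k] R) (rho : A k Γ →ₗ[k] R)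
    (v : R) (ε : B k Γ (Option (Fin r))) (f : A k Γ) :
    SepC_rho act rho v ε f = v * Op act rho (inj none f * ε) := rfl

private theorem SepC_comm {r N M : ℕ} {act : B k Γ (Fin r) →ₐ[k] R} {rho : A k Γ →ₗ[k] R}
    (h : IsSys r N act rho) (u : R) (hdu : act (Delta k Γ r) * u = 1)
    (hud : u * act (Delta k Γ r) = 1)
    {i j : Fin r} {ε₁ ε₂ : B k Γ (Option (Fin r))} (f g : A k Γ) :
    act (Delta k Γ r) ^ (2 * M + 1) *
      (SepC_rho act rho (u ^ M) ε₁ f * SepC_rho act rho (u ^ M) ε₂ g -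
        SepC_rho act rho (u ^ M) ε₂ g * SepC_rho act rho (u ^ M) ε₁ f) =
    Op act rho (pf some (Delta k Γ r) * brk Finset.univ (inj none f * ε₁) (inj none g * ε₂) -
        M • (pf some (thD (inj none f * ε₁)) * (inj none g * ε₂) -
          pf some (thD (inj none g * ε₂)) * (inj none f * ε₁))) := by
  have hc : ∀ b c : B k Γ (Fin r), act b * act c = act c * act b := fun b c => by
    rw [← map_mul, ← map_mul, mul_comm]
  have h3 := ring_comm_inv (act (Delta k Γ r)) u (Op act rho (inj none f * ε₁))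
    (Op act rho (inj none g * ε₂)) (act (thD (inj none f * ε₁))) (act (thD (inj none g * ε₂)))
    hdu hud (Op_comm h.commOn _ _) (Op_comm h.commOn _ _) (hc _ _) (hc _ _) M
  rw [SepC_rho_apply, SepC_rho_apply, h3, Op_bracket h.lie h.commOn, map_sub, Op_smul, map_nsmul,
    map_sub, Op_smul, Op_smul]

/-- Separation. Hint: `n = N + 1`; by `exists_sep_elt` (in `B k Γ (Option (Fin r))`, with
`pf some Delta = vand (fun i => X (some i))`, `pf_Delta`) choose `M` and `ε i` with
`IsEps i (N + 1) M (ε i)`. Let `u` be the inverse of `d = act Delta`, it commutes with all `act b`;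
`rhos i f = u ^ M * Op act rho (inj none f * ε i)`.
Sum: `Op (inj none f * (∑ ε i - pf some Delta ^ M)) = 0` by `Op_eq_zero`, `Op_smul`, `Op_apply`.
`comm`: `Op_comm` and `ev_eps_off`, `ev_eps_on`. `lie`, `cross`: `ring_comm_inv` with
`P₁ = Op (inj none f * ε i)`, `c₁ = act (thD (inj none f * ε i))` (`Op_comm`), `Op_bracket`,
`brk_cross`, `brk_same`, `Op_eq_zero` with `n = N`, and cancel powers of `d`.
`loc`: `Op act (rhos i) Z = u ^ M * Op act rho (Z * ε i)` (`B_option_induction`), and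
`(y - x_i) ^ N * F * ε i` is divisible by all `(y - x_l) ^ N`. -/
theorem sep_of_sys {r N : ℕ} {act : B k Γ (Fin r) →ₐ[k] R} {rho : A k Γ →ₗ[k] R}
    (h : IsSys r N act rho) (hd : IsUnit (act (Delta k Γ r))) :
    ∃ rhos : Fin r → (A k Γ →ₗ[k] R), IsSep r N act rhos ∧ rho = ∑ i, rhos i := by
  obtain ⟨M, hM⟩ := exists_sep_elt (X none : B k Γ (Option (Fin r)))
    (fun i => X (some i)) (N + 1)
  choose ε hoff hon using hM M le_rfl
  have hv : (vand (fun i : Fin r => (X (some i) : B k Γ (Option (Fin r))))) =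
      pf some (Delta k Γ r) := by rw [pf_Delta]
  have he : ∀ i, IsEps i (N + 1) M (ε i) := by
    intro i
    refine ⟨fun l hl => hoff i l hl, ?_⟩
    rw [← hv]
    exact hon i
  obtain ⟨u, hdu, hud⟩ : ∃ u, act (Delta k Γ r) * u = 1 ∧ u * act (Delta k Γ r) = 1 :=
    ⟨_, hd.mul_val_inv, hd.val_inv_mul⟩
  have hc : ∀ b c : B k Γ (Fin r), act b * act c = act c * act b := fun b c => by
    rw [← map_mul, ← map_mul, mul_comm]
  have huc : ∀ b : B k Γ (Fin r), u * act b = act b * u := by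
    intro b
    calc u * act b = u * act b * (act (Delta k Γ r) * u) := by rw [hdu, mul_one]
      _ = u * (act b * act (Delta k Γ r)) * u := by simp only [mul_assoc]
      _ = (u * act (Delta k Γ r)) * act b * u := by rw [hc b]; simp only [mul_assoc]
      _ = act b * u := by rw [hud, one_mul]
  have hucM : ∀ b : B k Γ (Fin r), u ^ M * act b = act b * u ^ M := by
    intro b
    exact ((show Commute u (act b) from huc b).pow_left M).eq
  have huM : ∀ n : ℕ, u ^ n * act (Delta k Γ r) ^ n = 1 := by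
    intro n
    rw [← (show Commute u (act (Delta k Γ r)) from huc _).mul_pow, hud, one_pow]
  have hMu : ∀ n : ℕ, act (Delta k Γ r) ^ n * u ^ n = 1 := by
    intro n
    rw [← (show Commute (act (Delta k Γ r)) u from (huc _).symm).mul_pow, hdu, one_pow]
  have hcancel : ∀ (n : ℕ) (a b : R), act (Delta k Γ r) ^ n * a = act (Delta k Γ r) ^ n * b →
      a = b := by
    intro n a b hab
    have h1 := congrArg (fun z => u ^ n * z) hab
    simp only [← mul_assoc, huM, one_mul] at h1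
    exact h1
  refine ⟨fun i => SepC_rho act rho (u ^ M) (ε i), ⟨?_, ?_, ?_, ?_⟩, ?_⟩
  · -- lie
    intro i f g
    apply hcancel (2 * M + 1)
    rw [SepC_comm (i := i) (j := i) h u hdu hud]
    have h1 := Op_eq_zero h hd N le_rfl _ (brk_same (he i) f g)
    rw [map_sub, sub_eq_zero] at h1
    rw [h1, ← map_pow, Op_smul, map_pow, SepC_rho_apply]
    have h2 : 2 * M + 1 = (M + 1) + M := by ring
    rw [h2, pow_add (act (Delta k Γ r)) (M + 1) M, mul_assoc (act (Delta k Γ r) ^ (M + 1)),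
      ← mul_assoc (act (Delta k Γ r) ^ M), hMu, one_mul]
  · -- cross
    intro i j hij f g
    rw [← sub_eq_zero]
    apply hcancel (2 * M + 1)
    rw [SepC_comm (i := i) (j := j) h u hdu hud, mul_zero]
    exact Op_eq_zero h hd N le_rfl _ (brk_cross hij (he i) (he j) f g)
  · -- comm
    intro i f b
    have h1 := Op_comm h.commOn (inj none f * ε i) b
    have h2 : (∑ j, ev j (inj none f * ε i) * dd j b) = Delta k Γ r ^ M * (inj i f * dd i b) := by
      rw [Finset.sum_eq_single i]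
      · rw [map_mul (ev i), ev_inj_none, ev_eps_on (he i)]
        ring
      · intro j _ hj
        rw [map_mul (ev j), ev_eps_off hj (he i), mul_zero, zero_mul]
      · intro h; exact absurd (Finset.mem_univ _) h
    rw [SepC_rho_apply, mul_assoc, ← mul_assoc (act b), ← hucM, mul_assoc, ← mul_sub, h1, h2,
      map_mul, map_pow, ← mul_assoc, huM, one_mul]
  · -- loc
    intro i F
    have h1 : ∀ Z, Op act (SepC_rho act rho (u ^ M) (ε i)) Z = u ^ M * Op act rho (Z * ε i) := by
      intro Z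
      refine B_option_induction (P := fun Z => Op act (SepC_rho act rho (u ^ M) (ε i)) Z =
        u ^ M * Op act rho (Z * ε i)) Z ?_ ?_ ?_
      · rw [map_zero, zero_mul, map_zero, mul_zero]
      · intro F G hF hG
        rw [map_add, hF, hG, add_mul, map_add, mul_add]
      · intro a b
        rw [Op_apply, SepC_rho_apply]
        have h2 : inj none (tt k a) * pf some b * ε i = pf some b * (inj none (tt k a) * ε i) := by
          ring
        rw [h2, Op_smul, ← mul_assoc, ← mul_assoc, hucM]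
    rw [h1, Op_eq_zero h hd N le_rfl, mul_zero]
    intro l
    by_cases hl : l = i
    · subst hl
      rw [mul_assoc]
      exact dvd_mul_right _ _
    · exact Dvd.dvd.mul_left ((pow_dvd_pow _ (Nat.le_succ N)).trans ((he i).off l hl)) _
  · -- sum
    apply LinearMap.ext
    intro f
    rw [LinearMap.sum_apply]
    simp only [SepC_rho_apply]
    rw [← Finset.mul_sum, ← map_sum, ← Finset.mul_sum]
    have h1 : Op act rho (inj none f * (∑ i, ε i - pf some (Delta k Γ r) ^ M)) = 0 := by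
      refine Op_eq_zero h hd N le_rfl _ fun l => ?_
      refine Dvd.dvd.mul_left ?_ _
      rw [← Finset.add_sum_erase Finset.univ ε (Finset.mem_univ l)]
      have h2 : ε l + ∑ i ∈ Finset.univ.erase l, ε i - pf some (Delta k Γ r) ^ M =
          (ε l - pf some (Delta k Γ r) ^ M) + ∑ i ∈ Finset.univ.erase l, ε i := by ring
      rw [h2]
      refine dvd_add ((pow_dvd_pow _ (Nat.le_succ N)).trans (he l).on) ?_
      refine Finset.dvd_sum fun i hi => ?_
      exact (pow_dvd_pow _ (Nat.le_succ N)).trans ((he i).off l (Finset.ne_of_mem_erase hi).symm)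
    rw [mul_sub, map_sub, sub_eq_zero] at h1
    rw [h1, ← map_pow, Op_apply, map_pow, ← mul_assoc, huM, one_mul]

end SepCSec

end W94
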