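import Pool.Agent.LibWitt94.Base
import Pool.Agent.LibWitt94.OpCalc
import Pool.Agent.LibWitt94.Sep

universe u w

namespace W94

section LemZSec

open scoped BigOperators

variable {k : Type u} [CommRing k] {Γ : Type} [AddCommMonoid Γ] [Expo Γ] {r : ℕ}
variable {V : Type w} [AddCommGroup V] [Module k V]

/-- An operator of finite order that kills `Delta ^ i v` for all large `i` kills `v`.
Hint: `Ord.binom` with `b = Delta` applied to `Delta ^ i v`: if `q` kills `Delta ^ (i + l) v` for
`l = 1, ..., d` then `Delta ^ d (q (Delta ^ i v)) = 0` (the term `l = 0`), so `q (Delta ^ i v) = 0`;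
downward induction on `i`. -/
theorem ord_kill {act : B k Γ (Fin r) →ₐ[k] Module.End k V}
    (hd : Function.Injective (act (Delta k Γ r))) {d : ℕ} {q : Module.End k V}
    (hq : Ord act d q) (v : V) (i₀ : ℕ)
    (h : ∀ i, i₀ ≤ i → q (act (Delta k Γ r ^ i) v) = 0) : q v = 0 := by
  have key : ∀ n i, i₀ ≤ i + n → q (act (Delta k Γ r ^ i) v) = 0 := by
    intro n
    induction n with
    | zero => exact fun i hi => h i hi
    | succ n ih =>
      intro i hi
      have hb := Ord.binom hq (Delta k Γ r)
      have hb2 := congrArg (fun g : Module.End k V => g (act (Delta k Γ r ^ i) v)) hb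
      simp only [LinearMap.zero_apply, LinearMap.sum_apply, LinearMap.smul_apply] at hb2
      rw [Finset.sum_range_succ'] at hb2
      have hz : ∑ l ∈ Finset.range d, ((-1 : k) ^ (l + 1) * (d.choose (l + 1) : k)) •
          (act (Delta k Γ r) ^ (d - (l + 1)) * q * act (Delta k Γ r) ^ (l + 1))
            (act (Delta k Γ r ^ i) v) = 0 := by
        refine Finset.sum_eq_zero fun l _ => ?_
        have e1 : (act (Delta k Γ r) ^ (l + 1)) (act (Delta k Γ r ^ i) v) =
            act (Delta k Γ r ^ (i + (l + 1))) v := by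
          rw [← map_pow, ← Module.End.mul_apply, ← map_mul, ← pow_add, add_comm]
        rw [Module.End.mul_apply, Module.End.mul_apply, e1, ih (i + (l + 1)) (by omega), map_zero,
          smul_zero]
      rw [hz, zero_add] at hb2
      simp only [pow_zero, Nat.choose_zero_right, Nat.cast_one, mul_one, one_smul, Nat.sub_zero,
        Module.End.mul_apply] at hb2
      have hinj : Function.Injective ((act (Delta k Γ r) ^ d : Module.End k V)) := by
        rw [Module.End.coe_pow]
        exact hd.iterate d
      exact hinj (by rw [hb2, map_zero])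
  have := key i₀ 0 (by omega)
  simpa using this

end LemZSec

section LemRSec

open scoped BigOperators

variable {k : Type u} [CommRing k] {Γ : Type} [AddCommMonoid Γ] [Expo Γ] {r : ℕ}
variable {R : Type w} [Ring R] [Algebra k R]

/-- auxiliary operators: a symbol `(y - x_j) ^ a` left of `q` -/
noncomputable def OpT (act : B k Γ (Fin r) →ₐ[k] R) (rho : A k Γ →ₗ[k] R) (j : Fin r) (a : ℕ)
    (q : R) : B k Γ (Option (Fin r)) →ₗ[k] R :=
  lin (fun γ => OpR act rho 1 ((X none - X (some j)) ^ a * inj none (tt k (γ none))) * q *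
    act (mon k (fun i => γ (some i))))

private theorem inj_none_mul_pf_some (a : Γ) (β : Fin r → Γ) :
    (inj none (tt k a) : B k Γ (Option (Fin r))) * pf some (mon k β) =
      mon k (fun o : Option (Fin r) => o.elim a β) := by
  rw [inj_tt, pf_mon, mon_mul]
  congr 1
  funext o
  cases o with
  | none => simp [push_apply]
  | some i => simp [push_apply]

private theorem OpT_apply (act : B k Γ (Fin r) →ₐ[k] R) (rho : A k Γ →ₗ[k] R) (j : Fin r) (a : ℕ)
    (q : R) (c : Γ) (b : B k Γ (Fin r)) :
    OpT act rho j a q (inj none (tt k c) * pf some b) =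
      OpR act rho 1 ((X none - X (some j)) ^ a * inj none (tt k c)) * q * act b := by
  induction b using mon_induction with
  | h0 => simp
  | hadd F G hF hG => rw [map_add, mul_add, map_add, hF, hG, map_add, mul_add]
  | hmon e β =>
    rw [map_smul, mul_smul_comm, map_smul, inj_none_mul_pf_some, OpT, lin_mon, map_smul,
      mul_smul_comm]
    rfl

private theorem OpT_zero_eq (act : B k Γ (Fin r) →ₐ[k] R) (rho : A k Γ →ₗ[k] R) (j : Fin r) (q : R)
    (F : B k Γ (Option (Fin r))) : OpT act rho j 0 q F = OpR act rho q F := by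
  induction F using B_option_induction with
  | h0 => simp
  | hadd F G hF hG => rw [map_add, map_add, hF, hG]
  | h a b =>
    rw [OpT_apply, pow_zero, one_mul, OpR_apply]
    have h1 := OpR_apply act rho 1 (tt k a) (1 : B k Γ (Fin r))
    rw [map_one, mul_one, map_one, mul_one, mul_one] at h1
    rw [h1]

private theorem OpT_step (act : B k Γ (Fin r) →ₐ[k] R) (rho : A k Γ →ₗ[k] R) (j : Fin r) (a : ℕ)
    (q : R) (F : B k Γ (Option (Fin r))) :
    OpT act rho j a q ((X none - X (some j)) * F) =
      OpT act rho j (a + 1) q F - OpT act rho j a (q * act (X j) - act (X j) * q) F := by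
  induction F using B_option_induction with
  | h0 => simp
  | hadd F G hF hG => rw [mul_add, map_add, hF, hG, map_add, map_add]; abel
  | h c b =>
    have e1 : (X none - X (some j)) * (inj none (tt k c) * pf some b) =
        inj none (tt k (Expo.one + c)) * pf some b - inj none (tt k c) * pf some (X j * b) := by
      rw [← tt_mul, map_mul, map_mul, pf_X, ← X_eq_inj]
      ring
    rw [e1, map_sub, OpT_apply, OpT_apply, OpT_apply, OpT_apply]
    have e2 : (X none - X (some j)) ^ (a + 1) * inj none (tt k c) =
        (X none - X (some j) : B k Γ (Option (Fin r))) ^ a * inj none (tt k (Expo.one + c)) -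
          ((X none - X (some j)) ^ a * inj none (tt k c)) * pf some (X j) := by
      rw [← tt_mul, map_mul, pf_X, ← X_eq_inj]
      ring
    rw [e2, map_sub, OpR_smul, map_mul act]
    noncomm_ring

private theorem OpT_vanish {N : ℕ} {act : B k Γ (Fin r) →ₐ[k] R} {rho : A k Γ →ₗ[k] R} {j : Fin r}
    (h : CommOn {j} act rho) (hl : LocAt act rho j N) (b : ℕ) : ∀ (a d : ℕ) (q : R),
    Ord act d q → max N 2 + d ≤ a + b → ∀ F : B k Γ (Option (Fin r)),
      OpT act rho j a q ((X none - X (some j)) ^ b * F) = 0 := by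
  induction b with
  | zero =>
    intro a d q hq hab F
    have hl' : LocAt act rho j a := by
      intro G
      have h1 : N ≤ a := by omega
      have h2 := hl ((X none - X (some j)) ^ (a - N) * G)
      rwa [← mul_assoc, ← pow_add, Nat.add_sub_cancel' h1] at h2
    have h2 : 2 ≤ a := by omega
    rw [pow_zero, one_mul]
    induction F using B_option_induction with
    | h0 => simp
    | hadd F G hF hG => rw [map_add, hF, hG, add_zero]
    | h c b =>
      rw [OpT_apply, OpR_one_pow h h2 hl', zero_mul, zero_mul]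
  | succ b ih =>
    intro a d q hq hab F
    rw [pow_succ', mul_assoc, OpT_step, ih (a + 1) d q hq (by omega) F, zero_sub, neg_eq_zero]
    cases d with
    | zero =>
      have hq0 : q = 0 := hq
      have h5 : q * act (X j) - act (X j) * q = 0 := by rw [hq0]; simp
      rw [h5]
      have h6 : OpT act rho j a 0 = 0 := by
        refine lext fun γ => ?_
        rw [OpT, lin_mon]
        simp
      rw [h6]
      rfl
    | succ d =>
      exact ih a d _ (hq (X j)) (by omega) F

/-- Lemma R: `q` between the letter and the functions. Hint: write `x = X (some j)`, `y = X none`.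
Introduce two copies of `x`: for `a, b : ℕ`, `g : A`, `c : B` let
`T (a, b, q) = ∑_{l ≤ a} ∑_{l' ≤ b} (-1)^(l+l') C(a,l) C(b,l') rho (t^(a-l+b-l') g) act (X j ^ l) q act (X j ^ l' * c)`
(the symbol `(y - x')^a (y - x'')^b g(y) c(x'')` with `x'` left and `x''` right of `q`). Then
`T (a, b + 1, q) = T (a + 1, b, q) - T (a, b, q x - x q)`. Show by induction on `b` (for all `a`, `d`,
`q`) that `T (a, b, q) = 0` if `a + b ≥ max N 2 + d` and `Ord act d q`: for `b = 0` it is
`OpR act rho 1 ((y - x)^a g) * q * act c = 0` by `OpR_one_pow` (`a ≥ max N 2`);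
if `d = 0` then `q = 0`. Alternatively prove the statement directly by induction on `d`, for
`OpR act rho q ((y - x) * Z) = OpR' ...`. By `B_option_induction` and bilinearity it is enough to
treat `F = inj none g * pf some c`. -/
theorem OpR_zero {N : ℕ} {act : B k Γ (Fin r) →ₐ[k] R} {rho : A k Γ →ₗ[k] R} {j : Fin r}
    (h : CommOn {j} act rho) (hl : LocAt act rho j N) {d : ℕ} {q : R} (hq : Ord act d q) {n : ℕ}
    (hn : max N 2 + d ≤ n) (F : B k Γ (Option (Fin r))) :
    OpR act rho q ((X none - X (some j)) ^ n * F) = 0 := by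
  rw [← OpT_zero_eq act rho j]
  exact OpT_vanish h hl n 0 d q hq (by omega) F

end LemRSec

section LemSASec

open scoped BigOperators

variable {k : Type u} [CommRing k] {Γ : Type} [AddCommMonoid Γ] [Expo Γ] {r : ℕ}
variable {R : Type w} [Ring R] [Algebra k R]

/-- One letter `rhos i f` can be absorbed after multiplication by a power of `Delta` on the right.
Hint: `n = max N 2 + d`, `M` and `ε` from `exists_sep_elt` for `n` in `B k Γ (Option (Fin r))`, and
`Z = inj none f * ε`. `OpR act (∑ rhos) q Z = ∑_j OpR act (rhos j) q Z` (`OpR_sum`); for `j ≠ i`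
the term is zero by `OpR_zero`; for `j = i` it is `OpR act (rhos i) q (inj none f * pf some Delta ^ M)
= rhos i f * q * act Delta ^ M` by `OpR_zero`, `OpR_apply`. `M` does not depend on `q`, `f`. -/
theorem letter_absorb {N : ℕ} {act : B k Γ (Fin r) →ₐ[k] R} {rhos : Fin r → (A k Γ →ₗ[k] R)}
    (h : IsSep r N act rhos) (d : ℕ) :
    ∃ M, ∀ i f, ∃ Z : B k Γ (Option (Fin r)), ∀ q, Ord act d q →
      rhos i f * q * act (Delta k Γ r ^ M) = OpR act (∑ j, rhos j) q Z := by
  obtain ⟨M, hM⟩ := exists_sep_elt (X none : B k Γ (Option (Fin r)))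
    (fun i : Fin r => (X (some i) : B k Γ (Option (Fin r)))) (max N 2 + d)
  refine ⟨M, fun i f => ?_⟩
  obtain ⟨ε, hoff, hon⟩ := hM M le_rfl i
  refine ⟨inj none f * ε, fun q hq => ?_⟩
  have hv : vand (fun i : Fin r => (X (some i) : B k Γ (Option (Fin r)))) ^ M =
      pf some (Delta k Γ r ^ M) := by
    rw [map_pow, pf_Delta]
  have hj : ∀ j, j ≠ i → OpR act (rhos j) q (inj none f * ε) = 0 := by
    intro j hji
    obtain ⟨w, hw⟩ := hoff j hji
    have e1 : inj none f * ε = (X none - X (some j)) ^ (max N 2 + d) * (inj none f * w) := by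
      rw [hw]; ring
    rw [e1]
    exact OpR_zero (h.commOn j) (h.loc j) hq le_rfl _
  rw [OpR_sum, Finset.sum_eq_single i (fun j _ hji => hj j hji)
    (fun hi => absurd (Finset.mem_univ i) hi)]
  obtain ⟨w, hw⟩ := hon
  have e2 : inj none f * ε = inj none f * pf some (Delta k Γ r ^ M) +
      (X none - X (some i)) ^ (max N 2 + d) * (inj none f * w) := by
    have e3 : ε = pf some (Delta k Γ r ^ M) + (X none - X (some i)) ^ (max N 2 + d) * w := by
      rw [← hw, hv]; ring
    rw [e3]; ring
  rw [e2, map_add, OpR_zero (h.commOn i) (h.loc i) hq le_rfl, add_zero, OpR_apply]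

end LemSASec

section LemSBSec

open scoped BigOperators

variable {k : Type u} [CommRing k] {Γ : Type} [AddCommMonoid Γ] [Expo Γ] {r : ℕ}
variable {R : Type w} [Ring R] [Algebra k R]

/-- the span of the operators `rho (p) act (b)`, `p ∈ P` -/
def SS (act : B k Γ (Fin r) →ₐ[k] R) (rho : A k Γ →ₗ[k] R)
    (P : Set (TensorAlgebra k (A k Γ))) : Submodule k R :=
  Submodule.span k {x | ∃ p ∈ P, ∃ b, x = TensorAlgebra.lift k rho p * act b}

private theorem SS_mul_act {act : B k Γ (Fin r) →ₐ[k] R} {rho : A k Γ →ₗ[k] R}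
    {P : Set (TensorAlgebra k (A k Γ))} {x : R} (hx : x ∈ SS act rho P) (b : B k Γ (Fin r)) :
    x * act b ∈ SS act rho P := by
  induction hx using Submodule.span_induction with
  | mem x hx =>
    obtain ⟨p, hp, c, rfl⟩ := hx
    refine Submodule.subset_span ⟨p, hp, c * b, ?_⟩
    rw [map_mul, mul_assoc]
  | zero => rw [zero_mul]; exact Submodule.zero_mem _
  | add x y _ _ hx hy => rw [add_mul]; exact Submodule.add_mem _ hx hy
  | smul c x _ hx => rw [smul_mul_assoc]; exact Submodule.smul_mem _ _ hx

private theorem SS_mem {act : B k Γ (Fin r) →ₐ[k] R} {rho : A k Γ →ₗ[k] R}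
    {P : Set (TensorAlgebra k (A k Γ))} {p : TensorAlgebra k (A k Γ)} (hp : p ∈ P)
    (b : B k Γ (Fin r)) : TensorAlgebra.lift k rho p * act b ∈ SS act rho P :=
  Submodule.subset_span ⟨p, hp, b, rfl⟩

private theorem lemS_words {N : ℕ} {act : B k Γ (Fin r) →ₐ[k] R}
    {rhos : Fin r → (A k Γ →ₗ[k] R)}
    (h : IsSep r N act rhos) (P : Set (TensorAlgebra k (A k Γ)))
    (hP : ∀ f, ∀ p ∈ P, TensorAlgebra.ι k f * p ∈ P) (L : ℕ) : ∀ d : ℕ,
    ∃ M, ∀ p ∈ P, Ord act d (TensorAlgebra.lift k (∑ j, rhos j) p) →
      ∀ l : List R, l.length ≤ L → (∀ y ∈ l, y ∈ ⋃ i, Set.range (rhos i)) →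
        l.prod * TensorAlgebra.lift k (∑ j, rhos j) p * act (Delta k Γ r ^ M) ∈
          SS act (∑ j, rhos j) P := by
  have hcomm : CommOn Finset.univ act (∑ j, rhos j) := by
    intro f b
    rw [LinearMap.sum_apply, Finset.sum_mul, Finset.mul_sum, ← Finset.sum_sub_distrib, map_sum]
    exact Finset.sum_congr rfl fun i _ => h.comm i f b
  induction L with
  | zero =>
    intro d
    refine ⟨0, fun p hp _ l hl _ => ?_⟩
    have hl0 : l = [] := List.length_eq_zero_iff.1 (by omega)
    rw [hl0, List.prod_nil, one_mul]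
    exact SS_mem hp _
  | succ L ih =>
    intro d
    obtain ⟨M₁, hM₁⟩ := letter_absorb h d
    obtain ⟨M₂, hM₂⟩ := ih (d + 2)
    refine ⟨M₁ + M₂, fun p hp hord l hl hmem => ?_⟩
    rcases List.eq_nil_or_concat l with hl0 | ⟨l', x, hl'⟩
    · rw [hl0, List.prod_nil, one_mul]
      exact SS_mem hp _
    · rw [List.concat_eq_append] at hl'
      subst hl'
      have hlen : l'.length ≤ L := by
        rw [List.length_append, List.length_singleton] at hl
        omega
      have hmem' : ∀ y ∈ l', y ∈ ⋃ i, Set.range (rhos i) := fun y hy =>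
        hmem y (List.mem_append_left _ hy)
      have hx : x ∈ ⋃ i, Set.range (rhos i) := hmem x (by simp)
      obtain ⟨i, hi⟩ := Set.mem_iUnion.1 hx
      obtain ⟨f, hf⟩ := hi
      obtain ⟨Z, hZ⟩ := hM₁ i f
      have key := hZ _ hord
      have e1 : (l' ++ [x]).prod * TensorAlgebra.lift k (∑ j, rhos j) p *
          act (Delta k Γ r ^ (M₁ + M₂)) =
          l'.prod * OpR act (∑ j, rhos j) (TensorAlgebra.lift k (∑ j, rhos j) p) Z *
            act (Delta k Γ r ^ M₂) := by
        rw [← key, List.prod_append, List.prod_singleton, ← hf, pow_add, map_mul act]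
        simp only [mul_assoc]
      rw [e1]
      clear hZ key e1
      induction Z using mon_induction with
      | h0 => rw [map_zero, mul_zero, zero_mul]; exact Submodule.zero_mem _
      | hadd F G hF hG => rw [map_add, mul_add, add_mul]; exact Submodule.add_mem _ hF hG
      | hmon c γ =>
        rw [map_smul, mul_smul_comm, smul_mul_assoc, OpR_mon]
        refine Submodule.smul_mem _ _ ?_
        have h2 := hM₂ (TensorAlgebra.ι k (tt k (γ none)) * p) (hP _ p hp) (by
          rw [map_mul, TensorAlgebra.lift_ι_apply, add_comm]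
          exact Ord.mul (Ord.rho hcomm _) hord) l' hlen hmem'
        have h3 := SS_mul_act h2 (mon k (fun i => γ (some i)))
        rw [map_mul, TensorAlgebra.lift_ι_apply] at h3
        have e3 : l'.prod * ((∑ j, rhos j) (tt k (γ none)) *
            TensorAlgebra.lift k (∑ j, rhos j) p * act (mon k fun i => γ (some i))) *
            act (Delta k Γ r ^ M₂) =
            l'.prod * ((∑ j, rhos j) (tt k (γ none)) * TensorAlgebra.lift k (∑ j, rhos j) p) *
              act (Delta k Γ r ^ M₂) * act (mon k fun i => γ (some i)) := by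
          have e4 : act (mon k fun i => γ (some i)) * act (Delta k Γ r ^ M₂) =
              act (Delta k Γ r ^ M₂) * act (mon k fun i => γ (some i)) := by
            rw [← map_mul, ← map_mul, mul_comm]
          simp only [mul_assoc]
          rw [e4]
        rw [e3]
        exact h3

/-- Lemma S. Hint: induction on `L`, for all `d`. A word of length `≤ L + 1` is `1` or `u * rhos i f`
with `u` a word of length `≤ L` (last letter, `List.eq_nil_or_concat`). For `L = 0`: `M = 0`.
Step: `M₁` from `letter_absorb` for `d`; `OpR act rho (rho (p)) Z` is a sum of terms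
`rho (tt a) * rho (p) * act b = rho (ι (tt a) * p) * act b` (`mon_induction`, `OpR_mon`), where
`ι (tt a) * p ∈ P` by `hP` and `rho (ι (tt a) * p)` has order `d + 2` (`Ord.mul`, `Ord.rho`).
By the induction hypothesis for `d + 2`, with `M₂`, all
`u * rho (ι (tt a) * p) * act Delta ^ M₂` are in `SS`; `SS` is stable under right multiplication by
`act b` and `act` is commutative. Take `M = M₁ + M₂` (and the maximum with the other cases:
if `M` works then so does every larger `M`). -/
theorem lemS {N : ℕ} {act : B k Γ (Fin r) →ₐ[k] R} {rhos : Fin r → (A k Γ →ₗ[k] R)}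
    (h : IsSep r N act rhos) (P : Set (TensorAlgebra k (A k Γ)))
    (hP : ∀ f, ∀ p ∈ P, TensorAlgebra.ι k f * p ∈ P) (L d : ℕ) :
    ∃ M, ∀ p ∈ P, Ord act d (TensorAlgebra.lift k (∑ j, rhos j) p) →
      ∀ u ∈ WSpan k (⋃ i, Set.range (rhos i)) L,
        u * TensorAlgebra.lift k (∑ j, rhos j) p * act (Delta k Γ r ^ M) ∈
          SS act (∑ j, rhos j) P := by
  obtain ⟨M, hM⟩ := lemS_words h P hP L d
  refine ⟨M, fun p hp hord u hu => ?_⟩
  induction hu using Submodule.span_induction with
  | mem x hx =>
    obtain ⟨l, hl, hmem, rfl⟩ := hx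
    exact hM p hp hord l hl hmem
  | zero => rw [zero_mul, zero_mul]; exact Submodule.zero_mem _
  | add x y _ _ hx hy => rw [add_mul, add_mul]; exact Submodule.add_mem _ hx hy
  | smul c x _ hx => rw [smul_mul_assoc, smul_mul_assoc]; exact Submodule.smul_mem _ _ hx

end LemSBSec

end W94
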