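import Mathlib

universe u w

namespace W94

/-!
Definitions for the project MP_940f41 (ascending chains of primitive ideals of enveloping algebras
of Witt type Lie algebras). Everything is a polynomial identity in the algebras
`B k Γ ι = k[Γ ^ ι]` (polynomials or Laurent polynomials in the variables `X i`, `i : ι`).
-/

section DefsSec

open scoped BigOperators

/-- The exponents of the variable `t`: a class with exactly two instances in practice, the natural
numbers and the integers. -/
class Expo (Γ : Type) [AddCommMonoid Γ] where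
  /-- the exponent as an integer -/
  v : Γ →+ ℤ
  v_inj : Function.Injective v
  /-- the exponent 1 -/
  one : Γ
  v_one : v one = 1
  /-- the exponent minus 1 (irrelevant at 0) -/
  pred : Γ → Γ
  v_pred : ∀ a, v a ≠ 0 → v (pred a) = v a - 1
  dich : (∀ a, 0 ≤ v a) ∨ Function.Surjective v

instance instExpoNat : Expo ℕ where
  v := Nat.castAddMonoidHom ℤ
  v_inj := fun a b h => by simpa using h
  one := 1
  v_one := by simp
  pred := fun a => a - 1
  v_pred := fun a h => by
    have h1 : 1 ≤ a := by
      rcases Nat.eq_zero_or_pos a with h0 | h0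
      · exact absurd (by simp [h0]) h
      · exact h0
    change ((a - 1 : ℕ) : ℤ) = (a : ℤ) - 1
    omega
  dich := Or.inl fun a => by simp

instance instExpoInt : Expo ℤ where
  v := AddMonoidHom.id ℤ
  v_inj := fun a b h => by simpa using h
  one := 1
  v_one := by simp
  pred := fun a => a - 1
  v_pred := fun a _ => by simp
  dich := Or.inr fun a => ⟨a, by simp⟩

/-- `B k Γ ι` is the algebra of (Laurent) polynomials in variables indexed by `ι` -/
abbrev B (k : Type u) [CommRing k] (Γ : Type) [AddCommMonoid Γ] (ι : Type) : Type u :=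
  AddMonoidAlgebra k (ι → Γ)

/-- `A k Γ` is the algebra of (Laurent) polynomials in one variable `t` -/
abbrev A (k : Type u) [CommRing k] (Γ : Type) [AddCommMonoid Γ] : Type u := B k Γ Unit

section basic

variable (k : Type u) [CommRing k] {Γ : Type} [AddCommMonoid Γ] {ι κ : Type}

/-- the monomial with exponents `α` -/
noncomputable def mon (α : ι → Γ) : B k Γ ι := AddMonoidAlgebra.single α 1

/-- the monomial `t ^ a` -/
noncomputable def tt (a : Γ) : A k Γ := mon k (fun _ => a)

variable {k}

/-- the linear map with given values on the monomials -/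
noncomputable def lin {N : Type*} [AddCommMonoid N] [Module k N] (f : (ι → Γ) → N) :
    B k Γ ι →ₗ[k] N :=
  (Finsupp.linearCombination k f) ∘ₗ (AddMonoidAlgebra.coeffLinearEquiv k).toLinearMap

/-- push forward of exponents along a map of the variables -/
def push [Fintype ι] [DecidableEq κ] (g : ι → κ) : (ι → Γ) →+ (κ → Γ) where
  toFun α := fun j => ∑ i, if g i = j then α i else 0
  map_zero' := by funext j; simp
  map_add' := fun α β => by
    funext j
    simp only [Pi.add_apply, ← Finset.sum_add_distrib]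
    exact Finset.sum_congr rfl fun i _ => by split_ifs <;> simp

/-- the algebra homomorphism `X i ↦ X (g i)` -/
noncomputable def pf [Fintype ι] [DecidableEq κ] (g : ι → κ) : B k Γ ι →ₐ[k] B k Γ κ :=
  AddMonoidAlgebra.mapDomainAlgHom k k (push g)

/-- `f ↦ f (X i)` -/
noncomputable def inj [DecidableEq ι] (i : ι) : A k Γ →ₐ[k] B k Γ ι := pf (fun _ => i)

variable [Expo Γ]

/-- the variable `X i` -/
noncomputable def X [DecidableEq ι] (i : ι) : B k Γ ι := mon k (Pi.single i (Expo.one : Γ))

/-- the partial derivative with respect to `X i` -/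
noncomputable def dd [DecidableEq ι] (i : ι) : B k Γ ι →ₗ[k] B k Γ ι :=
  lin (fun α => ((Expo.v (α i) : ℤ) : k) • mon k (Function.update α i (Expo.pred (α i))))

/-- the derivative of a polynomial in one variable -/
noncomputable def Dt : A k Γ →ₗ[k] A k Γ := dd ()

/-- the derivation `Σ f (X i) ∂_i` -/
noncomputable def del [Fintype ι] [DecidableEq ι] (f : A k Γ) : B k Γ ι →ₗ[k] B k Γ ι :=
  ∑ i, LinearMap.mulLeft k (inj i f) ∘ₗ dd i

/-- the operator `L_f F = Σ f (X i) ∂_i F - Σ f' (X i) F` -/
noncomputable def LL [Fintype ι] [DecidableEq ι] (f : A k Γ) : B k Γ ι →ₗ[k] B k Γ ι :=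
  del f - LinearMap.mulLeft k (∑ i, inj i (Dt f))

end basic

/-- the Vandermonde product `∏_{i < j} (x i - x j)` in a commutative ring -/
def vand {S : Type*} [CommRing S] {n : ℕ} (x : Fin n → S) : S :=
  ∏ i, ∏ j ∈ Finset.Ioi i, (x i - x j)

/-- the Vandermonde product of the variables -/
noncomputable def Delta (k : Type u) [CommRing k] (Γ : Type) [AddCommMonoid Γ] [Expo Γ] (n : ℕ) :
    B k Γ (Fin n) := vand (fun i => X i)

/-- `χ = ∏ (y - x_i)`, where `y = X none` and `x_i = X (some i)` -/
noncomputable def chi (k : Type u) [CommRing k] (Γ : Type) [AddCommMonoid Γ] [Expo Γ] (r : ℕ) :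
    B k Γ (Option (Fin r)) := ∏ i, (X none - X (some i))

section maps

variable {k : Type u} [CommRing k] {Γ : Type} [AddCommMonoid Γ]
variable {R : Type w} [Ring R] [Algebra k R]

/-- the words: `t^{a_0} ⊗ ... ⊗ t^{a_{n-1}} ↦ es_0 (t^{a_0}) ... es_{n-1} (t^{a_{n-1}})` -/
noncomputable def EE {n : ℕ} (es : Fin n → (A k Γ →ₗ[k] R)) : B k Γ (Fin n) →ₗ[k] R :=
  lin (fun α => (List.ofFn (fun l => es l (tt k (α l)))).prod)

/-- the words with all letters equal to `e` -/
noncomputable abbrev E (n : ℕ) (e : A k Γ →ₗ[k] R) : B k Γ (Fin n) →ₗ[k] R :=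
  EE (fun _ : Fin n => e)

/-- the operator `y^a x^β ↦ act (x^β) rho (t^a)` -/
noncomputable def Op {ι : Type} (act : B k Γ ι →ₐ[k] R) (rho : A k Γ →ₗ[k] R) :
    B k Γ (Option ι) →ₗ[k] R :=
  lin (fun γ => act (mon k (fun i => γ (some i))) * rho (tt k (γ none)))

variable [Expo Γ]

/-- Lie maps -/
def LieMap (e : A k Γ →ₗ[k] R) : Prop :=
  ∀ f h, e f * e h - e h * e f = e (f * Dt h - h * Dt f)

/-- the local condition -/
def Loc (s N : ℕ) (e : A k Γ →ₗ[k] R) : Prop := ∀ F, E s e (Delta k Γ s ^ N * F) = 0

/-- locality at the diagonal `y = x_i` -/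
def LocAt {r : ℕ} (act : B k Γ (Fin r) →ₐ[k] R) (rho : A k Γ →ₗ[k] R) (i : Fin r) (n : ℕ) : Prop :=
  ∀ F, Op act rho ((X none - X (some i)) ^ n * F) = 0

/-- a system of type `(r, N)` in the algebra `R` -/
structure IsSys (r N : ℕ) (act : B k Γ (Fin r) →ₐ[k] R) (rho : A k Γ →ₗ[k] R) : Prop where
  lie : LieMap rho
  comm : ∀ f b, rho f * act b - act b * rho f = act (del f b)
  loc : ∀ F, Op act rho (chi k Γ r ^ N * F) = 0

/-- a separated system -/
structure IsSep (r N : ℕ) (act : B k Γ (Fin r) →ₐ[k] R) (rho : Fin r → (A k Γ →ₗ[k] R)) :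
    Prop where
  lie : ∀ i, LieMap (rho i)
  cross : ∀ i j, i ≠ j → ∀ f h, rho i f * rho j h = rho j h * rho i f
  comm : ∀ i f b, rho i f * act b - act b * rho i f = act (inj i f * dd i b)
  loc : ∀ i, LocAt act (rho i) i N

/-- operators of finite order: `d` iterated commutators with `act` vanish -/
def Ord {ι : Type} (act : B k Γ ι →ₐ[k] R) : ℕ → R → Prop
  | 0, q => q = 0
  | d + 1, q => ∀ b, Ord act d (q * act b - act b * q)

/-- the span of the words of length at most `L` with letters in `S` -/
def WSpan (k : Type u) [CommRing k] {R : Type w} [Ring R] [Algebra k R] (S : Set R) (L : ℕ) :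
    Submodule k R :=
  Submodule.span k {x | ∃ l : List R, l.length ≤ L ∧ (∀ y ∈ l, y ∈ S) ∧ x = l.prod}

/-- simple modules over a family of operators `e f` -/
structure Simple {M : Type w} [AddCommGroup M] [Module k M] (e : A k Γ →ₗ[k] Module.End k M) :
    Prop where
  nontriv : Nontrivial M
  simple : ∀ U : Submodule k M, (∀ f, ∀ x ∈ U, e f x ∈ U) → U = ⊥ ∨ U = ⊤

/-- the graph `G` of a linear map from a submodule of `V` to `M`, compatible with the operators -/
structure Cover {M V : Type w} [AddCommGroup M] [Module k M] [AddCommGroup V] [Module k V] {r : ℕ}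
    (act : B k Γ (Fin r) →ₐ[k] Module.End k V) (rho : A k Γ →ₗ[k] Module.End k V)
    (e : A k Γ →ₗ[k] Module.End k M) (G : Submodule k (V × M)) : Prop where
  fn : ∀ m, ((0 : V), m) ∈ G → m = 0
  rho_mem : ∀ f v m, (v, m) ∈ G → (rho f v, e f m) ∈ G
  act_mem : ∀ b v m, (v, m) ∈ G → ∃ m', (act b v, m') ∈ G
  k1 : ∀ v m, (v, m) ∈ G → (∀ b, (act b v, (0 : M)) ∈ G) → v = 0
  exh : ∀ v, ∃ j m, (act (Delta k Γ r ^ j) v, m) ∈ G

end maps

end DefsSec

/-!
Basic interface for the algebras `B k Γ ι`.
-/

section BasicSec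

open scoped BigOperators

variable {k : Type u} [CommRing k] {Γ : Type} [AddCommMonoid Γ] {ι κ μ : Type}

@[simp] theorem lin_mon {N : Type*} [AddCommMonoid N] [Module k N] (f : (ι → Γ) → N) (α : ι → Γ) :
    lin (k := k) f (mon k α) = f α := by
  simp [lin, mon]

theorem lext {N : Type*} [AddCommMonoid N] [Module k N] {f g : B k Γ ι →ₗ[k] N}
    (h : ∀ α, f (mon k α) = g (mon k α)) : f = g := by
  refine AddMonoidAlgebra.lhom_ext' fun α => ?_
  refine LinearMap.ext_ring ?_
  simpa [mon, AddMonoidAlgebra.lsingle_apply] using h α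

/-- every element is in the span of the monomials -/
theorem mon_induction {P : B k Γ ι → Prop} (F : B k Γ ι) (h0 : P 0)
    (hadd : ∀ F G, P F → P G → P (F + G)) (hmon : ∀ (c : k) (α : ι → Γ), P (c • mon k α)) : P F := by
  refine AddMonoidAlgebra.induction_linear F h0 hadd fun α c => ?_
  have := hmon c α
  rwa [mon, AddMonoidAlgebra.smul_single, smul_eq_mul, mul_one] at this

theorem mon_mul (α β : ι → Γ) : mon k α * mon k β = mon k (α + β) := by
  simp [mon, AddMonoidAlgebra.single_mul_single]

theorem mon_zero : mon k (0 : ι → Γ) = 1 := rfl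

theorem mon_pow (α : ι → Γ) (n : ℕ) : mon k α ^ n = mon k (n • α) := by
  simp [mon, AddMonoidAlgebra.single_pow]

theorem mon_prod {σ : Type*} (s : Finset σ) (f : σ → ι → Γ) :
    ∏ i ∈ s, mon k (f i) = mon k (∑ i ∈ s, f i) := by
  classical
  induction s using Finset.induction_on with
  | empty => simp [mon_zero]
  | insert a s ha ih => rw [Finset.prod_insert ha, ih, mon_mul, Finset.sum_insert ha]

theorem tt_mul (a b : Γ) : tt k a * tt k b = tt k (a + b) := mon_mul _ _

theorem tt_zero : tt k (0 : Γ) = 1 := rfl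

theorem mon_unit (α : Unit → Γ) : mon k α = tt k (α ()) := rfl

/-- two linear maps on `A` that agree on the powers of `t` -/
theorem aext {N : Type*} [AddCommMonoid N] [Module k N] {f g : A k Γ →ₗ[k] N}
    (h : ∀ a, f (tt k a) = g (tt k a)) : f = g := lext fun α => h (α ())

section pf

variable [Fintype ι] [DecidableEq κ]

@[simp] theorem pf_mon (g : ι → κ) (α : ι → Γ) : pf g (mon k α) = mon k (push g α) := by
  simp [pf, mon]

theorem push_apply (g : ι → κ) (α : ι → Γ) (j : κ) :
    push g α j = ∑ i, if g i = j then α i else 0 := rfl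

theorem push_single [DecidableEq ι] (g : ι → κ) (i : ι) (a : Γ) :
    push g (Pi.single i a) = Pi.single (g i) a := by
  funext j
  rw [push_apply, Finset.sum_eq_single i]
  · by_cases h : g i = j
    · subst h; simp
    · have h' : j ≠ g i := fun hh => h hh.symm
      simp [h, h']
  · intro b _ hb
    simp [hb]
  · intro h; exact absurd (Finset.mem_univ _) h

theorem push_push [Fintype κ] [DecidableEq μ] (g : ι → κ) (h : κ → μ) (α : ι → Γ) :
    push h (push g α) = push (h ∘ g) α := by
  funext j
  simp only [push_apply, Function.comp]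
  have : ∀ i : κ, (if h i = j then ∑ l, if g l = i then α l else 0 else 0) =
      ∑ l, if g l = i then (if h i = j then α l else 0) else 0 := by
    intro i
    split_ifs with h1
    · rfl
    · simp
  simp only [this]
  rw [Finset.sum_comm]
  refine Finset.sum_congr rfl fun l _ => ?_
  simp

theorem pf_pf [Fintype κ] [DecidableEq μ] (g : ι → κ) (h : κ → μ) (F : B k Γ ι) :
    pf h (pf g F) = pf (h ∘ g) F := by
  have : (pf h).toLinearMap ∘ₗ (pf g : B k Γ ι →ₐ[k] B k Γ κ).toLinearMap =
      (pf (h ∘ g)).toLinearMap := lext fun α => by simp [push_push]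
  exact congrArg (fun f => f F) this

theorem push_id [DecidableEq ι] (α : ι → Γ) : push (id : ι → ι) α = α := by
  funext j
  simp [push_apply]

theorem pf_id [DecidableEq ι] (F : B k Γ ι) : pf (id : ι → ι) F = F := by
  have : (pf (id : ι → ι) : B k Γ ι →ₐ[k] B k Γ ι).toLinearMap = LinearMap.id :=
    lext fun α => by simp [push_id]
  exact congrArg (fun f => f F) this

theorem pf_inj [DecidableEq ι] (g : ι → κ) (i : ι) (f : A k Γ) :
    pf g (inj i f) = inj (g i) f := pf_pf _ _ _

end pf

theorem inj_tt [DecidableEq ι] (i : ι) (a : Γ) : inj i (tt k a) = mon k (Pi.single i a) := by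
  rw [inj, tt, pf_mon]
  congr 1
  funext j
  by_cases h : i = j
  · subst h; simp [push_apply]
  · have h' : j ≠ i := fun hh => h hh.symm
    simp [push_apply, h, h']

/-- a monomial is the product of its one variable factors -/
theorem mon_eq_prod_inj [Fintype ι] [DecidableEq ι] (α : ι → Γ) :
    mon k α = ∏ i, inj i (tt k (α i)) := by
  simp only [inj_tt]
  rw [mon_prod]
  congr 1
  exact (Finset.univ_sum_single α).symm

section expo

variable [Expo Γ] [DecidableEq ι] [DecidableEq κ]

theorem pf_X [Fintype ι] (g : ι → κ) (i : ι) : pf g (X i : B k Γ ι) = X (g i) := by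
  rw [X, X, pf_mon, push_single]

theorem X_eq_inj (i : ι) : (X i : B k Γ ι) = inj i (tt k Expo.one) := by
  rw [inj_tt, X]

@[simp] theorem dd_mon (i : ι) (α : ι → Γ) :
    dd i (mon k α) = ((Expo.v (α i) : ℤ) : k) • mon k (Function.update α i (Expo.pred (α i))) := by
  rw [dd, lin_mon]

/-- multiplying the derivative of a monomial by the variable -/
theorem X_mul_dd_mon (i : ι) (α : ι → Γ) :
    X i * dd i (mon k α) = ((Expo.v (α i) : ℤ) : k) • mon k α := by
  rw [dd_mon, mul_smul_comm, X, mon_mul]
  by_cases h : Expo.v (α i) = 0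
  · simp [h]
  · congr 2
    funext j
    by_cases hj : j = i
    · subst hj
      apply Expo.v_inj
      simp [map_add, Expo.v_one, Expo.v_pred _ h]
    · simp [hj]

end expo

end BasicSec

section DdMulSec

open scoped BigOperators

variable {k : Type u} [CommRing k] {Γ : Type} [AddCommMonoid Γ] {ι κ μ : Type}
variable [Expo Γ] [DecidableEq ι] [DecidableEq κ]

private theorem add_left_cancel_expo (a b c : Γ) (h : a + b = a + c) : b = c := by
  apply Expo.v_inj
  have := congrArg (fun x => Expo.v x) h
  simp only [map_add] at this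
  linarith

private theorem coeff_X_mul (i : ι) (F : B k Γ ι) (α : ι → Γ) :
    (X i * F : B k Γ ι).coeff (Pi.single i (Expo.one : Γ) + α) = F.coeff α := by
  rw [X, mon]
  rw [AddMonoidAlgebra.coeff_single_mul_eq_mul_coeff α, one_mul]
  intro α' _
  constructor
  · intro h
    funext j
    exact add_left_cancel_expo _ _ _ (congrFun h j)
  · intro h
    rw [h]

/-- Hint: compare coefficients: the coefficient of `X i * F` at `α + single i one` is the
coefficient of `F` at `α` (`AddMonoidAlgebra.coeff_single_mul_apply`-like lemmas for cancellative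
monoids; `Γ` is cancellative because `Expo.v` is injective). -/
theorem X_mul_cancel (i : ι) {F G : B k Γ ι} (h : X i * F = X i * G) : F = G := by
  ext α
  rw [← coeff_X_mul i F α, ← coeff_X_mul i G α, h]

private theorem dd_mul_mon (i : ι) (α β : ι → Γ) :
    dd i (mon k α * mon k β) = dd i (mon k α) * mon k β + mon k α * dd i (mon k β) := by
  apply X_mul_cancel i
  rw [mul_add, ← mul_assoc, X_mul_dd_mon, mul_left_comm, X_mul_dd_mon, mon_mul, X_mul_dd_mon,
    Pi.add_apply, map_add, Int.cast_add, add_smul, smul_mul_assoc, mul_smul_comm, mon_mul]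

/-- Leibniz rule. Hint: both sides are bilinear, so `F = mon α`, `G = mon β` (two uses of `lext`, or
`mon_induction`); multiply by `X i` (use `X_mul_cancel`) and use `X_mul_dd_mon`. -/
theorem dd_mul (i : ι) (F G : B k Γ ι) : dd i (F * G) = dd i F * G + F * dd i G := by
  induction F using mon_induction with
  | h0 => simp
  | hadd F F' hF hF' => rw [add_mul, map_add, hF, hF', map_add]; ring
  | hmon c α =>
    induction G using mon_induction with
    | h0 => simp
    | hadd G G' hG hG' => rw [mul_add, map_add, hG, hG', map_add]; ring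
    | hmon d β =>
      simp only [smul_mul_assoc, mul_smul_comm, map_smul]
      rw [dd_mul_mon, smul_add, smul_add]

theorem dd_one (i : ι) : dd i (1 : B k Γ ι) = 0 := by
  have := dd_mul i (1 : B k Γ ι) 1
  simpa using this

theorem dd_X (i j : ι) : dd i (X j : B k Γ ι) = if i = j then 1 else 0 := by
  apply X_mul_cancel i
  refine (X_mul_dd_mon (k := k) i (Pi.single j (Expo.one : Γ))).trans ?_
  by_cases h : i = j
  · subst h
    simp [Expo.v_one, X]
  · simp [h]

theorem dd_pow (i : ι) (F : B k Γ ι) (n : ℕ) : dd i (F ^ n) = n * F ^ (n - 1) * dd i F := by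
  induction n with
  | zero => simp [dd_one]
  | succ n ih =>
    rw [pow_succ, dd_mul, ih]
    cases n with
    | zero => simp
    | succ n =>
      rw [Nat.add_sub_cancel, Nat.add_sub_cancel]
      push_cast
      ring

end DdMulSec

section DdPfSec

open scoped BigOperators

variable {k : Type u} [CommRing k] {Γ : Type} [AddCommMonoid Γ] {ι κ μ : Type}
variable [Expo Γ] [DecidableEq ι] [DecidableEq κ]

theorem dd_comm (i j : ι) (F : B k Γ ι) : dd i (dd j F) = dd j (dd i F) := by
  by_cases hij : i = j
  · subst hij; rfl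
  have hji : j ≠ i := fun h => hij h.symm
  have h : (dd i ∘ₗ dd j : B k Γ ι →ₗ[k] B k Γ ι) = dd j ∘ₗ dd i := by
    refine lext fun α => ?_
    simp only [LinearMap.comp_apply, dd_mon, map_smul]
    rw [Function.update_of_ne hij, Function.update_of_ne hji, smul_comm,
      Function.update_comm hji]
  exact congrArg (fun f => f F) h

private theorem dd_pf_mon [Fintype ι] (g : ι → κ) (j : κ) (α : ι → Γ) :
    dd j (pf g (mon k α)) = ∑ i, if g i = j then pf g (dd i (mon k α)) else 0 := by
  apply X_mul_cancel j
  rw [pf_mon, X_mul_dd_mon, Finset.mul_sum]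
  have h : ∀ i : ι, (X j : B k Γ κ) * (if g i = j then pf g (dd i (mon k α)) else 0)
      = (((if g i = j then Expo.v (α i) else 0 : ℤ) : ℤ) : k) • mon k (push g α) := by
    intro i
    by_cases hi : g i = j
    · subst hi
      rw [if_pos rfl, if_pos rfl, ← pf_X g i, ← map_mul, X_mul_dd_mon, map_smul, pf_mon]
    · rw [if_neg hi, if_neg hi, mul_zero, Int.cast_zero, zero_smul]
  have e : (∑ i, (Expo.v (if g i = j then α i else 0) : ℤ) : ℤ)
      = ∑ i, (if g i = j then Expo.v (α i) else 0) := by
    refine Finset.sum_congr rfl (fun i _ => ?_)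
    split_ifs
    · rfl
    · exact map_zero _
  rw [Finset.sum_congr rfl (fun i _ => h i), ← Finset.sum_smul, push_apply, map_sum,
    ← Int.cast_sum, e]

/-- chain rule. Hint: both sides are derivations along `pf g`; on monomials multiply by `X j`
(`X_mul_cancel`): `X j * dd j (mon β) = v (β j) • mon β` and
`X j * pf g (dd i (mon α)) = pf g (X i * dd i (mon α)) = v (α i) • pf g (mon α)` if `g i = j`;
and `v` is additive. -/
theorem dd_pf [Fintype ι] (g : ι → κ) (j : κ) (F : B k Γ ι) :
    dd j (pf g F) = ∑ i, if g i = j then pf g (dd i F) else 0 := by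
  induction F using mon_induction with
  | h0 => simp
  | hadd F G hF hG =>
    rw [map_add, map_add, hF, hG, ← Finset.sum_add_distrib]
    refine Finset.sum_congr rfl (fun i _ => ?_)
    split_ifs <;> simp
  | hmon c α =>
    rw [map_smul, map_smul, dd_pf_mon, Finset.smul_sum]
    refine Finset.sum_congr rfl (fun i _ => ?_)
    split_ifs <;> simp

theorem dd_inj (i j : ι) (f : A k Γ) :
    dd j (inj i f) = if i = j then inj i (Dt f) else 0 := by
  rw [inj, dd_pf]
  simp [Dt]

end DdPfSec

section SubMemSec

open scoped BigOperators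

variable {k : Type u} [CommRing k] {Γ : Type} [AddCommMonoid Γ] [Expo Γ] {ι κ μ : Type}

private theorem inj_tt_nonneg_SubMem [DecidableEq κ] (j : κ) (a : Γ) (n : ℕ)
    (hn : Expo.v a = (n : ℤ)) : inj j (tt k a) = (X j : B k Γ κ) ^ n := by
  rw [X_eq_inj, ← map_pow]
  congr 1
  unfold tt
  rw [mon_pow]
  congr 1
  funext x
  apply Expo.v_inj
  rw [Pi.smul_apply, map_nsmul, Expo.v_one, hn]
  simp

private theorem inj_tt_eq_SubMem [DecidableEq κ] {Q : Type*} [CommRing Q] (π : B k Γ κ →+* Q)
    (i j : κ) (h : π (X i) = π (X j)) (a : Γ) : π (inj i (tt k a)) = π (inj j (tt k a)) := by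
  have hpos : ∀ b : Γ, 0 ≤ Expo.v b → π (inj i (tt k b)) = π (inj j (tt k b)) := by
    intro b hb
    obtain ⟨n, hn⟩ := Int.eq_ofNat_of_zero_le hb
    rw [inj_tt_nonneg_SubMem i b n hn, inj_tt_nonneg_SubMem j b n hn, map_pow, map_pow, h]
  by_cases ha : 0 ≤ Expo.v a
  · exact hpos a ha
  · rcases Expo.dich (Γ := Γ) with h1 | h1
    · exact absurd (h1 a) ha
    · obtain ⟨a', ha'⟩ := h1 (-Expo.v a)
      have h2 := hpos a' (by rw [ha']; omega)
      have h3 : a + a' = 0 := by
        apply Expo.v_inj
        rw [map_add, ha', map_zero]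
        ring
      have h4 : ∀ l : κ, π (inj l (tt k a)) * π (inj l (tt k a')) = 1 := by
        intro l
        rw [← map_mul, ← map_mul, tt_mul, h3, tt_zero, map_one, map_one]
      calc π (inj i (tt k a)) = π (inj i (tt k a)) * (π (inj j (tt k a)) * π (inj j (tt k a'))) := by
            rw [h4 j, mul_one]
        _ = (π (inj i (tt k a)) * π (inj i (tt k a'))) * π (inj j (tt k a)) := by
            rw [h2]; ring
        _ = π (inj j (tt k a)) := by rw [h4 i, one_mul]

variable [Fintype ι] [DecidableEq ι] [DecidableEq κ]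

/-- Substituting other variables changes `F` by an element of the ideal of the differences.
Hint: by `mon_induction` and the product formula `mon_eq_prod_inj` one reduces (induction over the
product, an ideal is stable under `a b - a' b' = (a - a') b + a' (b - b')`) to
`inj i (tt a) - inj j (tt a) ∈ (X i - X j)`; use `Expo.dich`: if `v a = n ≥ 0` this is
`X i ^ n - X j ^ n`; if `v a = - n` multiply by the units `inj _ (tt a')`, `a' + a = 0`. -/
theorem pf_sub_pf_mem (g h : ι → κ) (F : B k Γ ι) :
    pf g F - pf h F ∈ Ideal.span (Set.range fun i => (X (g i) - X (h i) : B k Γ κ)) := by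
  set I := Ideal.span (Set.range fun i => (X (g i) - X (h i) : B k Γ κ)) with hI
  have hX : ∀ i, Ideal.Quotient.mk I (X (g i)) = Ideal.Quotient.mk I (X (h i)) := by
    intro i
    exact Ideal.Quotient.eq.2 (Ideal.subset_span ⟨i, rfl⟩)
  have main : Ideal.Quotient.mkₐ k I (pf g F) = Ideal.Quotient.mkₐ k I (pf h F) := by
    refine mon_induction (P := fun F => Ideal.Quotient.mkₐ k I (pf g F) =
      Ideal.Quotient.mkₐ k I (pf h F)) F ?_ ?_ ?_
    · simp only [map_zero]
    · intro F G hF hG
      rw [map_add, map_add, map_add, map_add, hF, hG]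
    · intro c α
      rw [map_smul, map_smul, map_smul, map_smul]
      congr 1
      rw [mon_eq_prod_inj, map_prod, map_prod, map_prod, map_prod]
      refine Finset.prod_congr rfl fun i _ => ?_
      rw [pf_inj, pf_inj]
      exact inj_tt_eq_SubMem (Ideal.Quotient.mk I) (g i) (h i) (hX i) (α i)
  exact Ideal.Quotient.eq.1 main

/-- Divided difference: `f (X i) - f (X j)` is divisible by `X i - X j`. -/
theorem inj_sub_inj (i j : κ) (f : A k Γ) :
    (X i - X j : B k Γ κ) ∣ inj i f - inj j f := by
  have h := pf_sub_pf_mem (fun _ : Unit => i) (fun _ => j) f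
  have h2 : (Set.range fun _ : Unit => (X i - X j : B k Γ κ)) = {X i - X j} := by
    ext x; simp [eq_comm]
  rw [h2, Ideal.mem_span_singleton] at h
  exact h

end SubMemSec

section DelBSec

open scoped BigOperators

variable {k : Type u} [CommRing k] {Γ : Type} [AddCommMonoid Γ] [Expo Γ] {ι κ μ : Type}

variable [Fintype ι] [DecidableEq ι]

theorem del_apply (f : A k Γ) (F : B k Γ ι) : del f F = ∑ i, inj i f * dd i F := by
  simp [del]

theorem LL_apply (f : A k Γ) (F : B k Γ ι) :
    LL f F = del f F - (∑ i, inj i (Dt f)) * F := by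
  simp [LL]

theorem del_mul (f : A k Γ) (F G : B k Γ ι) : del f (F * G) = del f F * G + F * del f G := by
  simp only [del_apply, dd_mul, Finset.sum_mul, Finset.mul_sum, ← Finset.sum_add_distrib]
  exact Finset.sum_congr rfl fun i _ => by ring

theorem LL_mul (f : A k Γ) (F G : B k Γ ι) : LL f (F * G) = F * LL f G + del f F * G := by
  rw [LL_apply, LL_apply, del_mul]; ring

theorem del_one (f : A k Γ) : del f (1 : B k Γ ι) = 0 := by
  simp [del_apply, dd_one]

theorem del_X (f : A k Γ) (i : ι) : del f (X i : B k Γ ι) = inj i f := by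
  rw [del_apply, Finset.sum_eq_single i]
  · simp [dd_X]
  · intro b _ hb; simp [dd_X, hb]
  · intro h; exact absurd (Finset.mem_univ _) h

/-- linearity of `del` in `f` -/
theorem del_add (f h : A k Γ) (F : B k Γ ι) : del (f + h) F = del f F + del h F := by
  simp [del_apply, add_mul, Finset.sum_add_distrib]

theorem del_smul (c : k) (f : A k Γ) (F : B k Γ ι) : del (c • f) F = c • del f F := by
  simp [del_apply, Finset.smul_sum]

/-- the operators `LL f` as a linear map in `f` -/
noncomputable def LLm (k : Type u) [CommRing k] (Γ : Type) [AddCommMonoid Γ] [Expo Γ] (ι : Type)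
    [Fintype ι] [DecidableEq ι] : A k Γ →ₗ[k] Module.End k (B k Γ ι) where
  toFun f := LL f
  map_add' := fun f h => by
    apply LinearMap.ext; intro F
    simp only [LL_apply, LinearMap.add_apply, del_add, map_add, Finset.sum_add_distrib, add_mul]
    abel
  map_smul' := fun c f => by
    apply LinearMap.ext; intro F
    simp only [LL_apply, LinearMap.smul_apply, RingHom.id_apply, del_smul, map_smul,
      ← Finset.smul_sum, smul_mul_assoc, smul_sub]

theorem LLm_apply (f : A k Γ) (F : B k Γ ι) : LLm k Γ ι f F = LL f F := rfl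

end DelBSec

section DelLieSec

open scoped BigOperators

variable {k : Type u} [CommRing k] {Γ : Type} [AddCommMonoid Γ] [Expo Γ] {ι κ μ : Type}

variable [Fintype ι] [DecidableEq ι]

/-- the derivation `del` is a Lie map. Hint: both sides are derivations in `F`; expand with
`del_apply`, `dd_mul`, `dd_inj`, `dd_comm`. -/
theorem del_lie (f h : A k Γ) (F : B k Γ ι) :
    del f (del h F) - del h (del f F) = del (f * Dt h - h * Dt f) F := by
  have key : ∀ f h : A k Γ, del f (del h F) = ∑ i, inj i (f * Dt h) * dd i F +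
      ∑ i, ∑ j, inj i f * inj j h * dd i (dd j F) := by
    intro f h
    simp only [del_apply, map_sum, dd_mul, dd_inj, mul_add, Finset.sum_add_distrib]
    congr 1
    · refine Finset.sum_congr rfl fun i _ => ?_
      rw [Finset.sum_eq_single i]
      · rw [if_pos rfl, map_mul, mul_assoc]
      · intro j _ hj
        rw [if_neg (Ne.symm hj), zero_mul, mul_zero]
      · intro h
        exact absurd (Finset.mem_univ _) h
    · rw [Finset.sum_comm]
      exact Finset.sum_congr rfl fun i _ => Finset.sum_congr rfl fun j _ => by ring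
  have hsw : ∑ i, ∑ j, inj i h * inj j f * dd i (dd j F) =
      ∑ i, ∑ j, inj i f * inj j h * dd i (dd j F) := by
    rw [Finset.sum_comm]
    refine Finset.sum_congr rfl fun i _ => Finset.sum_congr rfl fun j _ => ?_
    rw [dd_comm j i]
    ring
  rw [key f h, key h f, hsw, del_apply]
  simp only [map_sub, sub_mul, Finset.sum_sub_distrib]
  ring

end DelLieSec

section VandSec

open scoped BigOperators

theorem map_vand {S T : Type*} [CommRing S] [CommRing T] (φ : S →+* T) {n : ℕ} (x : Fin n → S) :
    φ (vand x) = vand (fun i => φ (x i)) := by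
  simp [vand]

private theorem vand_eq_det {S : Type*} [CommRing S] {n : ℕ} (x : Fin n → S) :
    vand x = (∏ i : Fin n, ∏ _j ∈ Finset.Ioi i, (-1 : S)) * (Matrix.vandermonde x).det := by
  rw [Matrix.det_vandermonde, vand, ← Finset.prod_mul_distrib]
  refine Finset.prod_congr rfl fun i _ => ?_
  rw [← Finset.prod_mul_distrib]
  refine Finset.prod_congr rfl fun j _ => ?_
  ring

/-- permuting the variables changes the Vandermonde product by a sign -/
theorem vand_perm {S : Type*} [CommRing S] {n : ℕ} (x : Fin n → S) (σ : Equiv.Perm (Fin n)) :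
    vand (fun i => x (σ i)) = vand x ∨ vand (fun i => x (σ i)) = - vand x := by
  have h1 : Matrix.vandermonde (fun i => x (σ i)) = (Matrix.vandermonde x).submatrix σ id := by
    ext i j
    simp [Matrix.vandermonde_apply]
  rw [vand_eq_det, vand_eq_det, h1, Matrix.det_permute]
  rcases Int.units_eq_one_or (Equiv.Perm.sign σ) with h | h
  · left
    rw [h]
    simp
  · right
    rw [h]
    simp

/-- two equal entries: the Vandermonde product is zero -/
theorem vand_eq_zero {S : Type*} [CommRing S] {n : ℕ} (x : Fin n → S) (i j : Fin n) (hij : i ≠ j)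
    (h : x i = x j) : vand x = 0 := by
  rcases lt_or_gt_of_ne hij with h1 | h1
  · exact Finset.prod_eq_zero (Finset.mem_univ i)
      (Finset.prod_eq_zero (Finset.mem_Ioi.2 h1) (sub_eq_zero.2 h))
  · exact Finset.prod_eq_zero (Finset.mem_univ j)
      (Finset.prod_eq_zero (Finset.mem_Ioi.2 h1) (sub_eq_zero.2 h.symm))

private theorem vand_prod_Ioi {S : Type*} [CommMonoid S] {n : ℕ} (i : Fin n) (f : Fin n → S) :
    ∏ j ∈ Finset.Ioi i, f j = ∏ j, if i < j then f j else 1 := by
  rw [← Finset.prod_filter]
  refine Finset.prod_congr ?_ fun _ _ => rfl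
  ext j
  simp

/-- splitting off the last variable -/
theorem vand_snoc {S : Type*} [CommRing S] {n : ℕ} (x : Fin n → S) (y : S) :
    vand (Fin.snoc x y : Fin (n + 1) → S) = vand x * ∏ i, (x i - y) := by
  unfold vand
  rw [Fin.prod_univ_castSucc]
  have h1 : ∏ j ∈ Finset.Ioi (Fin.last n), ((Fin.snoc x y : Fin (n + 1) → S) (Fin.last n) -
      (Fin.snoc x y : Fin (n + 1) → S) j) = 1 := by
    have : Finset.Ioi (Fin.last n) = ∅ := by
      ext j
      simp [Fin.le_last]
    rw [this, Finset.prod_empty]
  rw [h1, mul_one, ← Finset.prod_mul_distrib]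
  refine Finset.prod_congr rfl fun i _ => ?_
  rw [vand_prod_Ioi, Fin.prod_univ_castSucc, vand_prod_Ioi]
  simp only [Fin.snoc_castSucc, Fin.snoc_last, Fin.castSucc_lt_last, if_true,
    Fin.castSucc_lt_castSucc_iff]

/-- splitting off the first variable -/
theorem vand_cons {S : Type*} [CommRing S] {n : ℕ} (x : Fin n → S) (y : S) :
    vand (Fin.cons y x : Fin (n + 1) → S) = (∏ i, (y - x i)) * vand x := by
  unfold vand
  rw [Fin.prod_univ_succ, Fin.prod_Ioi_zero]
  simp only [Fin.prod_Ioi_succ, Fin.cons_zero, Fin.cons_succ]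

/-- the difference of two variables divides the Vandermonde product -/
theorem sub_dvd_vand {S : Type*} [CommRing S] {n : ℕ} (x : Fin n → S) (i j : Fin n) (hij : i ≠ j) :
    x i - x j ∣ vand x := by
  have key : ∀ i j : Fin n, i < j → x i - x j ∣ vand x := by
    intro i j h
    exact (Finset.dvd_prod_of_mem (fun j => x i - x j) (Finset.mem_Ioi.2 h)).trans
      (Finset.dvd_prod_of_mem (fun i => ∏ j ∈ Finset.Ioi i, (x i - x j)) (Finset.mem_univ i))
  rcases lt_or_gt_of_ne hij with h1 | h1
  · exact key i j h1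
  · have h2 := key j i h1
    have h3 : x i - x j = -(x j - x i) := by ring
    rw [h3, neg_dvd]
    exact h2

end VandSec

section DeltaDelSec

open scoped BigOperators

variable {k : Type u} [CommRing k] {Γ : Type} [AddCommMonoid Γ] [Expo Γ] {ι κ μ : Type}

theorem pf_Delta [DecidableEq κ] {n : ℕ} (g : Fin n → κ) :
    pf g (Delta k Γ n) = vand (fun i => (X (g i) : B k Γ κ)) := by
  have := map_vand ((pf g : B k Γ (Fin n) →ₐ[k] B k Γ κ) : B k Γ (Fin n) →+* B k Γ κ)
    (fun i => (X i : B k Γ (Fin n)))
  simpa [Delta, pf_X] using this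

private theorem prod_dvd_del_aux {σ : Type*} [Fintype ι] [DecidableEq ι] (f : A k Γ)
    (s : Finset σ) (p : σ → B k Γ ι) (h : ∀ i ∈ s, p i ∣ del f (p i)) :
    ∏ i ∈ s, p i ∣ del f (∏ i ∈ s, p i) := by
  classical
  induction s using Finset.induction_on with
  | empty =>
    rw [Finset.prod_empty, del_one]
    exact dvd_zero _
  | insert a s ha ih =>
    obtain ⟨u, hu⟩ := h a (Finset.mem_insert_self a s)
    obtain ⟨v, hv⟩ := ih fun i hi => h i (Finset.mem_insert_of_mem hi)
    rw [Finset.prod_insert ha, del_mul, hu, hv]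
    exact ⟨u + v, by ring⟩

private theorem del_sub_aux [Fintype ι] [DecidableEq ι] (f : A k Γ) (F G : B k Γ ι) :
    del f (F - G) = del f F - del f G := map_sub (del f) F G

private theorem pow_dvd_del_aux [Fintype ι] [DecidableEq ι] (f : A k Γ) (p : B k Γ ι)
    (h : p ∣ del f p) (K : ℕ) : p ^ K ∣ del f (p ^ K) := by
  have h1 := prod_dvd_del_aux f (Finset.range K) (fun _ => p) fun _ _ => h
  simpa using h1

/-- `del f` of the Vandermonde product is divisible by it.
Hint: `del f` is a derivation; on a factor `X i - X j` it gives `inj i f - inj j f`, divisible by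
`X i - X j` by `inj_sub_inj`; induct over the product. -/
theorem Delta_dvd_del {n : ℕ} (f : A k Γ) : Delta k Γ n ∣ del f (Delta k Γ n) := by
  unfold Delta vand
  refine prod_dvd_del_aux f _ _ fun i _ => ?_
  refine prod_dvd_del_aux f _ _ fun j _ => ?_
  rw [del_sub_aux, del_X, del_X]
  exact inj_sub_inj i j f

/-- `del f (Delta ^ K * F)` is divisible by `Delta ^ K` -/
private theorem del_Delta_pow_aux {n : ℕ} (f : A k Γ) (K : ℕ) (F : B k Γ (Fin n)) :
    ∃ G, del f (Delta k Γ n ^ K * F) = Delta k Γ n ^ K * G := by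
  obtain ⟨u, hu⟩ := pow_dvd_del_aux f (Delta k Γ n) (Delta_dvd_del f) K
  refine ⟨u * F + del f F, ?_⟩
  rw [del_mul, hu]
  ring

/-- `LL f (Delta ^ K * F)` is divisible by `Delta ^ K` -/
theorem LL_Delta_pow {n : ℕ} (f : A k Γ) (K : ℕ) (F : B k Γ (Fin n)) :
    ∃ G, LL f (Delta k Γ n ^ K * F) = Delta k Γ n ^ K * G := by
  obtain ⟨u, hu⟩ := del_Delta_pow_aux f K F
  refine ⟨u - (∑ i, inj i (Dt f)) * F, ?_⟩
  rw [LL_apply, hu]
  ring

/-- `del f (Delta ^ K * F)` is divisible by `Delta ^ K` -/
theorem del_Delta_pow {n : ℕ} (f : A k Γ) (K : ℕ) (F : B k Γ (Fin n)) :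
    ∃ G, del f (Delta k Γ n ^ K * F) = Delta k Γ n ^ K * G :=
  del_Delta_pow_aux f K F

end DeltaDelSec

section BRingSec

open scoped BigOperators

variable {k : Type u} [CommRing k] {Γ : Type} [AddCommMonoid Γ] [Expo Γ] {ι κ μ : Type}

private theorem uniqueSums_pi [Finite ι] : UniqueSums (ι → Γ) := by
  let f : (ι → Γ) →ₙ+ (ι → ℤ) :=
    { toFun := fun α i => Expo.v (α i)
      map_add' := fun α β => by funext i; simp }
  have hf : Function.Injective f := by
    intro α β h
    funext i
    exact Expo.v_inj (congrFun h i)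
  have : UniqueSums (ι → ℤ) := inferInstance
  exact UniqueSums.of_addHom f (fun a b c d _ h => ⟨hf h.1, hf h.2⟩)

/-- `B` has no zero divisors. Hint: `UniqueSums` for `ι → Γ` (finite or not: `Pi` instance) and for
`Γ` (it embeds in `ℤ` by `Expo.v`, which is linearly ordered). -/
theorem B_noZeroDivisors [IsDomain k] [Finite ι] : NoZeroDivisors (B k Γ ι) := by
  have : UniqueSums (ι → Γ) := uniqueSums_pi
  infer_instance

private theorem one_ne : (Expo.one : Γ) ≠ 0 := by
  intro h
  have h1 := Expo.v_one (Γ := Γ)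
  rw [h, map_zero] at h1
  exact zero_ne_one h1

private theorem X_ne [Nontrivial k] [DecidableEq ι] {i j : ι} (hij : i ≠ j) :
    (X i : B k Γ ι) ≠ X j := by
  intro h
  have h1 : (Pi.single i (Expo.one : Γ) : ι → Γ) = Pi.single j (Expo.one : Γ) := by
    refine AddMonoidAlgebra.single_left_injective (R := k) one_ne_zero ?_
    exact h
  have h2 := congrFun h1 i
  rw [Pi.single_eq_same, Pi.single_eq_of_ne hij] at h2
  exact one_ne h2

theorem Delta_ne_zero [IsDomain k] (n : ℕ) : Delta k Γ n ≠ 0 := by
  have : NoZeroDivisors (B k Γ (Fin n)) := B_noZeroDivisors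
  have : Nontrivial (B k Γ (Fin n)) := inferInstance
  rw [Delta, vand, Finset.prod_ne_zero_iff]
  intro i _
  rw [Finset.prod_ne_zero_iff]
  intro j hj
  rw [Finset.mem_Ioi] at hj
  exact sub_ne_zero.2 (X_ne (ne_of_lt hj))

private theorem fg_Gam : AddMonoid.FG Γ := by
  rcases Expo.dich (Γ := Γ) with h | h
  · refine AddMonoid.fg_of_surjective (M := ℕ) (multiplesHom Γ (Expo.one : Γ)) ?_
    intro a
    refine ⟨(Expo.v a).toNat, ?_⟩
    apply Expo.v_inj
    rw [multiplesHom_apply, map_nsmul, Expo.v_one]
    simp [h a]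
  · let e : Γ ≃+ ℤ := AddEquiv.ofBijective (Expo.v (Γ := Γ)) ⟨Expo.v_inj, h⟩
    have : AddMonoid.FG ℤ := inferInstance
    exact AddMonoid.fg_of_surjective (M := ℤ) (e.symm : ℤ →+ Γ) e.symm.surjective

/-- `B` is a noetherian ring. Hint: `AddMonoidAlgebra.finiteType_of_fg` (the additive monoid
`ι → Γ` is finitely generated, by `Expo.dich` and `Expo.v_inj`: `Γ` is generated by `one` or by
`one` and its opposite) and `Algebra.FiniteType.isNoetherianRing`. -/
theorem B_noetherian [IsNoetherianRing k] [Finite ι] : IsNoetherianRing (B k Γ ι) := by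
  have : AddMonoid.FG Γ := fg_Gam
  have : AddMonoid.FG (ι → Γ) := inferInstance
  exact Algebra.FiniteType.isNoetherianRing k (B k Γ ι)

end BRingSec

end W94
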