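import Pool.Agent.LibWitt94.OpCalc

universe u w

namespace W94

section QuadSec

open scoped BigOperators

variable {k : Type u} [CommRing k] {Γ : Type} [AddCommMonoid Γ] [Expo Γ]
variable {R : Type w} [Ring R] [Algebra k R] {r : ℕ}

private theorem quad_sub_pow {S : Type*} [CommRing S] [Algebra k S] (a b : S) (n : ℕ) :
    (a - b) ^ n = ∑ l ∈ Finset.range (n + 1),
      ((-1 : k) ^ l * (n.choose l : k)) • (a ^ (n - l) * b ^ l) := by
  have h : a - b = -b + a := by ring
  rw [h, add_pow]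
  refine Finset.sum_congr rfl fun l _ => ?_
  rw [Algebra.smul_def, map_mul, map_pow, map_neg, map_one, map_natCast, neg_pow]
  ring

private theorem quad_X_pow (n : ℕ) : (X () : A k Γ) ^ n = tt k (n • (Expo.one : Γ)) := by
  rw [X, mon_pow, tt]
  congr 1

private theorem quad_X_none (n : ℕ) {ι : Type} [DecidableEq ι] [Fintype ι] :
    (X none : B k Γ (Option ι)) ^ n = inj none ((X () : A k Γ) ^ n) := by
  rw [map_pow, inj, pf_X]

private theorem quad_X_some (n : ℕ) {ι : Type} [DecidableEq ι] [Fintype ι] (i : ι) :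
    (X (some i) : B k Γ (Option ι)) ^ n = pf some ((X i : B k Γ ι) ^ n) := by
  rw [map_pow, pf_X]

/-- `OpR act rho q Z` for a product: insert `Em` between: the general principle
`OpR act rho (q * s) Z`. Left form and right form of the powers of `y - x`, binomial expansions. -/
theorem Em_eq_sum (act : B k Γ (Fin r) →ₐ[k] R) (rho : A k Γ →ₗ[k] R) (i : Fin r) (m : ℕ) :
    Em act rho i m = ∑ l ∈ Finset.range (m + 1),
      ((-1 : k) ^ l * (m.choose l : k)) • (act (X i ^ l) * rho (X () ^ (m - l))) := by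
  rw [Em, quad_sub_pow (k := k), map_sum]
  refine Finset.sum_congr rfl fun l _ => ?_
  rw [map_smul, quad_X_none, quad_X_some, Op_apply]

/-- the right form of `(y - x)^m g(y)` -/
theorem OpR_one_eq_sum (act : B k Γ (Fin r) →ₐ[k] R) (rho : A k Γ →ₗ[k] R) (i : Fin r) (m : ℕ)
    (g : A k Γ) :
    OpR act rho 1 ((X none - X (some i)) ^ m * inj none g) = ∑ l ∈ Finset.range (m + 1),
      ((-1 : k) ^ l * (m.choose l : k)) • (rho (X () ^ (m - l) * g) * act (X i ^ l)) := by
  rw [quad_sub_pow (k := k), Finset.sum_mul, map_sum]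
  refine Finset.sum_congr rfl fun l _ => ?_
  rw [smul_mul_assoc, map_smul, quad_X_none, quad_X_some]
  have h1 : inj none ((X () : A k Γ) ^ (m - l)) * pf some ((X i : B k Γ (Fin r)) ^ l) * inj none g =
      inj none ((X () : A k Γ) ^ (m - l) * g) * pf some ((X i : B k Γ (Fin r)) ^ l) := by
    rw [map_mul]
    ring
  rw [h1, OpR_apply, mul_one]

/-- the trilinear map -/
private noncomputable def quadPhi (act : B k Γ (Fin r) →ₐ[k] R) (rho : A k Γ →ₗ[k] R) (i : Fin r)
    (g : A k Γ) : B k Γ (Fin 3) →ₗ[k] R :=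
  lin (fun γ : Fin 3 → Γ => rho (tt k (γ 0) * g) * act (inj i (tt k (γ 1))) * rho (tt k (γ 2)))

private theorem quadPhi_apply (act : B k Γ (Fin r) →ₐ[k] R) (rho : A k Γ →ₗ[k] R) (i : Fin r)
    (g : A k Γ) (p q s : ℕ) :
    quadPhi act rho i g (X 0 ^ p * X 1 ^ q * X 2 ^ s) =
      rho (X () ^ p * g) * act (X i ^ q) * rho (X () ^ s) := by
  have h1 : (X 0 : B k Γ (Fin 3)) ^ p * X 1 ^ q * X 2 ^ s =
      mon k (p • Pi.single 0 (Expo.one : Γ) + q • Pi.single 1 (Expo.one : Γ) +
        s • Pi.single 2 (Expo.one : Γ)) := by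
    rw [X, X, X, mon_pow, mon_pow, mon_pow, mon_mul, mon_mul]
  have h2 : act (X i ^ q) = act (inj i (tt k (q • (Expo.one : Γ)))) := by
    refine congrArg act ?_
    rw [← quad_X_pow, map_pow, inj, pf_X]
  rw [h1, quadPhi, lin_mon, quad_X_pow, quad_X_pow, h2]
  simp

private theorem quadPhi_prod (act : B k Γ (Fin r) →ₐ[k] R) (rho : A k Γ →ₗ[k] R) (i : Fin r)
    (g : A k Γ) (p j : ℕ) :
    quadPhi act rho i g ((X 0 - X 1) ^ p * (X 2 - X 1) ^ j) =
      OpR act rho 1 ((X none - X (some i)) ^ p * inj none g) * Em act rho i j := by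
  rw [OpR_one_eq_sum, Em_eq_sum, quad_sub_pow (k := k), quad_sub_pow (k := k), Finset.sum_mul,
    Finset.sum_mul, map_sum]
  refine Finset.sum_congr rfl fun a _ => ?_
  rw [Finset.mul_sum, Finset.mul_sum, map_sum]
  refine Finset.sum_congr rfl fun b _ => ?_
  rw [smul_mul_smul_comm, smul_mul_smul_comm, map_smul]
  congr 1
  have h1 : (X 0 : B k Γ (Fin 3)) ^ (p - a) * X 1 ^ a * (X 2 ^ (j - b) * X 1 ^ b) =
      X 0 ^ (p - a) * X 1 ^ (a + b) * X 2 ^ (j - b) := by ring
  rw [h1, quadPhi_apply, pow_add, map_mul act]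
  noncomm_ring

private theorem quadPhi_sum (act : B k Γ (Fin r) →ₐ[k] R) (rho : A k Γ →ₗ[k] R) (i : Fin r)
    (g : A k Γ) (n : ℕ) :
    ∑ l ∈ Finset.range (n + 1), ((-1 : k) ^ l * (n.choose l : k)) •
        (rho (X () ^ (n - l) * g) * rho (X () ^ l)) =
      ∑ j ∈ Finset.range (n + 1), ((-1 : k) ^ j * (n.choose j : k)) •
        (OpR act rho 1 ((X none - X (some i)) ^ (n - j) * inj none g) * Em act rho i j) := by
  have h1 : quadPhi act rho i g ((X 0 - X 2) ^ n) =
      ∑ l ∈ Finset.range (n + 1), ((-1 : k) ^ l * (n.choose l : k)) •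
        (rho (X () ^ (n - l) * g) * rho (X () ^ l)) := by
    rw [quad_sub_pow (k := k), map_sum]
    refine Finset.sum_congr rfl fun l _ => ?_
    rw [map_smul]
    congr 1
    have h2 : (X 0 : B k Γ (Fin 3)) ^ (n - l) * X 2 ^ l = X 0 ^ (n - l) * X 1 ^ 0 * X 2 ^ l := by
      ring
    rw [h2, quadPhi_apply, pow_zero, map_one, mul_one]
  rw [← h1]
  have h3 : (X 0 - X 2 : B k Γ (Fin 3)) = (X 0 - X 1) - (X 2 - X 1) := by ring
  rw [h3, quad_sub_pow (k := k), map_sum]
  refine Finset.sum_congr rfl fun j _ => ?_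
  rw [map_smul, quadPhi_prod]

/-- The quadratic identity. Hint: both sides come from
`(y - z) ^ (2m) = ∑_j (-1)^j C(2m,j) (y - x)^(2m-j) (z - x)^j` with the `x` between the two letters:
`∑_l (-1)^l C(2m,l) rho(t^(2m-l) g) rho(t^l) = ∑_j (-1)^j C(2m,j) OpR 1 ((y-x)^(2m-j) g) * Em j`
(expand both with `OpR_one_eq_sum`, `Em_eq_sum`; it is a consequence of the commutative identity,
for instance apply the linear map `lin (fun γ : Fin 3 → Γ => rho (tt (γ 0) * g) * act (inj i (tt (γ 1))) * rho (tt (γ 2)))`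
on `B k Γ (Fin 3)` to the binomial identity for `X 0 - X 2 = (X 0 - X 1) - (X 2 - X 1)`).
Terms `j ≥ m + 1`: `Em j = 0` (`hloc` with `F = (y - x)^(j-m-1)`). Terms `j < m`: `2m - j ≥ m + 1 ≥ 2`,
`OpR_one_pow`. Term `j = m`: `OpR_one`, `Op_pow_mul` and `hloc` give
`OpR 1 ((y-x)^m g) = act (inj i g) * (Em m - [m = 1])`. -/
theorem quad {act : B k Γ (Fin r) →ₐ[k] R} {rho : A k Γ →ₗ[k] R} {i : Fin r}
    (h : CommOn {i} act rho) {m : ℕ} (hm : 1 ≤ m) (hloc : LocAt act rho i (m + 1)) (g : A k Γ) :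
    ∑ l ∈ Finset.range (2 * m + 1), ((-1 : k) ^ l * ((2 * m).choose l : k)) •
        (rho (X () ^ (2 * m - l) * g) * rho (X () ^ l)) =
      ((-1 : k) ^ m * ((2 * m).choose m : k)) •
        (act (inj i g) * (Em act rho i m - if m = 1 then 1 else 0) * Em act rho i m) := by
  have hEm : ∀ j, m + 1 ≤ j → Em act rho i j = 0 := by
    intro j hj
    have h1 := hloc ((X none - X (some i)) ^ (j - (m + 1)))
    rw [← pow_add, Nat.add_sub_cancel' hj] at h1
    exact h1
  have hR : ∀ n, m + 1 ≤ n →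
      OpR act rho 1 ((X none - X (some i)) ^ n * inj none g) = 0 := by
    intro n hn
    have h1 := OpR_one_pow h (show 2 ≤ m + 1 by omega) hloc
      ((X none - X (some i)) ^ (n - (m + 1)) * inj none g)
    rw [← mul_assoc, ← pow_add, Nat.add_sub_cancel' hn] at h1
    exact h1
  rw [quadPhi_sum act rho i g (2 * m), Finset.sum_eq_single m]
  · congr 1
    have h2 : 2 * m - m = m := by omega
    rw [h2]
    congr 1
    obtain ⟨G, hG⟩ := Op_pow_mul act rho i m (inj none g)
    rw [OpR_one h, hG, hloc, add_zero, ev_inj_none]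
    have h3 : dd (some i) (inj none g : B k Γ (Option (Fin r))) = 0 := by
      rw [dd_inj, if_neg (by simp)]
    rw [dd_mul, h3, mul_zero, add_zero, dd_pow, map_sub, dd_X, dd_X, if_neg (by simp),
      if_pos rfl]
    simp only [map_mul, map_pow, map_sub, map_natCast, map_zero, ev_X_none, ev_X_some,
      ev_inj_none, sub_self, zero_sub]
    by_cases hm1 : m = 1
    · subst hm1
      simp [mul_sub]
      abel
    · rw [if_neg hm1, sub_zero, zero_pow (by omega)]
      simp
  · intro j hj hjm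
    rcases lt_or_gt_of_ne hjm with h4 | h4
    · rw [hR (2 * m - j) (by omega), zero_mul, smul_zero]
    · rw [hEm j (by omega), mul_zero, smul_zero]
  · intro h5
    exact absurd (Finset.mem_range.2 (by omega)) h5

end QuadSec

section NuASec

open scoped BigOperators

variable {k : Type u} [CommRing k] {Γ : Type} [AddCommMonoid Γ] [Expo Γ] {r : ℕ}
variable {V : Type w} [AddCommGroup V] [Module k V]

/-- the possible types at the point `i` -/
def Good (act : B k Γ (Fin r) →ₐ[k] Module.End k V) (rho : A k Γ →ₗ[k] Module.End k V)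
    (i : Fin r) : Prop :=
  LocAt act rho i 1 ∨ (LocAt act rho i 2 ∧ Em act rho i 1 = 1) ∨
    (∃ m, 1 ≤ m ∧ LocAt act rho i (m + 1) ∧ (∀ v, Em act rho i m v = 0 → v = 0) ∧
      (m = 1 → ∀ v, Em act rho i m v = v → v = 0))

/-- the multiplier `ν` at the point `i`: it belongs to the algebra of the point, absorbs functions
into words of length at most 3, and is injective on operators of finite order -/
def IsNu {R : Type w} [Ring R] [Algebra k R] (act : B k Γ (Fin r) →ₐ[k] R)
    (rhos : Fin r → (A k Γ →ₗ[k] R)) (i : Fin r) (ν : R) : Prop :=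
  ν ∈ AlgI act rhos i ∧
  (∀ f g, rhos i f * act (inj i g) * ν ∈ WSpan k (Set.range (rhos i)) 3) ∧
  (∀ d q, Ord act d q → ν * q = 0 → q = 0)

/-- Type (a), `ν = rho 1`. Hint: `rhos i f * act (inj i g) * rhos i 1 = rhos i f * rhos i g` by
`rho_of_loc_one`. If `rho 1 * q = 0` and `Ord act d q`, put `x = act (X i)`,
`q_0 = q`, `q_{j+1} = q_j x - x q_j` (so `q_d = 0`). From `rho 1 * x - x * rho 1 = 1` one gets
`rho 1 * q_j = - j • q_{j-1}` (induction on `j`), so `q_{j-1} = 0` if `q_j = 0` and `j` is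
invertible in `k`; descend from `j = d` to `q_0 = q`. -/
theorem nu_a (hQ : ∀ n : ℕ, n ≠ 0 → IsUnit (n : k)) {R : Type w} [Ring R] [Algebra k R] {N : ℕ}
    {act : B k Γ (Fin r) →ₐ[k] R} {rhos : Fin r → (A k Γ →ₗ[k] R)} (h : IsSep r N act rhos)
    (i : Fin r) (h1 : LocAt act (rhos i) i 1) : IsNu act rhos i (rhos i 1) := by
  refine ⟨rhos_mem_AlgI act rhos i 1, fun f g => ?_, fun d q hq h0 => ?_⟩
  · rw [mul_assoc, ← rho_of_loc_one h1 g]
    refine Submodule.subset_span ⟨[rhos i f, rhos i g], by simp, ?_, by simp⟩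
    intro y hy
    simp only [List.mem_cons, List.not_mem_nil, or_false] at hy
    rcases hy with rfl | rfl
    · exact ⟨f, rfl⟩
    · exact ⟨g, rfl⟩
  · set x := act (X i) with hx
    set ρ := rhos i 1 with hρ
    have hc : ρ * x - x * ρ = 1 := by
      have h2 := h.comm i 1 (X i)
      rw [dd_X, if_pos rfl, mul_one, map_one (inj i), map_one act] at h2
      exact h2
    let Q : ℕ → R := fun j => Nat.rec q (fun _ z => z * x - x * z) j
    have hQ0 : Q 0 = q := rfl
    have hQs : ∀ j, Q (j + 1) = Q j * x - x * Q j := fun j => rfl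
    have hord : ∀ j, ∀ e, Ord act (e + j) q → Ord act e (Q j) := by
      intro j
      induction j with
      | zero => intro e he; exact he
      | succ j ih =>
        intro e he
        have h3 : Ord act (e + 1) (Q j) := ih (e + 1) (by rwa [Nat.add_right_comm] )
        exact h3 (X i)
    have hQd : Q d = 0 := hord d 0 (by rwa [Nat.zero_add])
    have hrec : ∀ j, ρ * Q (j + 1) = -(((j + 1 : ℕ) : k) • Q j) := by
      intro j
      have hstep : ∀ z : R, ρ * (z * x - x * z) = (ρ * z) * x - x * (ρ * z) - z := by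
        intro z
        have h4 : ρ * x = x * ρ + 1 := by rw [← hc]; abel
        calc ρ * (z * x - x * z) = (ρ * z) * x - (ρ * x) * z := by noncomm_ring
          _ = (ρ * z) * x - (x * ρ + 1) * z := by rw [h4]
          _ = _ := by noncomm_ring
      induction j with
      | zero =>
        rw [hQs, hstep, hQ0, h0]
        simp
      | succ j ih =>
        rw [hQs (j + 1), hstep, ih]
        have h5 : -(((j + 1 : ℕ) : k) • Q j) * x - x * -(((j + 1 : ℕ) : k) • Q j) =
            -(((j + 1 : ℕ) : k) • Q (j + 1)) := by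
          rw [hQs j, smul_sub, neg_mul, mul_neg, smul_mul_assoc, mul_smul_comm]
          abel
        rw [h5]
        have h6 : ((j + 1 + 1 : ℕ) : k) • Q (j + 1) = ((j + 1 : ℕ) : k) • Q (j + 1) + Q (j + 1) := by
          rw [Nat.cast_succ (j + 1), add_smul, one_smul]
        rw [h6]
        abel
    have hdesc : ∀ j, Q (j + 1) = 0 → Q j = 0 := by
      intro j hj
      have h7 := hrec j
      rw [hj, mul_zero, eq_comm, neg_eq_zero] at h7
      obtain ⟨u, hu⟩ := hQ (j + 1) (Nat.succ_ne_zero j)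
      rw [← hu] at h7
      have h8 := congrArg (fun z => ((u⁻¹ : kˣ) : k) • z) h7
      simpa only [smul_smul, Units.inv_mul, one_smul, smul_zero] using h8
    have hall : ∀ e, Q e = 0 → Q 0 = 0 := by
      intro e
      induction e with
      | zero => exact fun h => h
      | succ e ih => exact fun h => ih (hdesc e h)
    exact hall d hQd

end NuASec

section NuBSec

open scoped BigOperators

variable {k : Type u} [CommRing k] {Γ : Type} [AddCommMonoid Γ] [Expo Γ] {r : ℕ}
variable {V : Type w} [AddCommGroup V] [Module k V]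

/-- Type (b), `ν = 1`. Hint: `rho_of_loc_two` gives `rhos i f * act (inj i g) = rhos i (f * g)`. -/
theorem nu_b {R : Type w} [Ring R] [Algebra k R] {N : ℕ}
    {act : B k Γ (Fin r) →ₐ[k] R} {rhos : Fin r → (A k Γ →ₗ[k] R)} (h : IsSep r N act rhos)
    (i : Fin r) (h1 : LocAt act (rhos i) i 2) (h2 : Em act (rhos i) i 1 = 1) :
    IsNu act rhos i 1 := by
  refine ⟨one_mem _, ?_, ?_⟩
  · intro f g
    rw [mul_one, rho_of_loc_two (h.commOn i) h1 h2 f, mul_assoc, ← map_mul, ← map_mul,
      ← rho_of_loc_two (h.commOn i) h1 h2 (f * g)]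
    refine Submodule.subset_span ⟨[rhos i (f * g)], by simp, ?_, by simp⟩
    intro y hy
    rw [List.mem_singleton] at hy
    exact ⟨f * g, hy.symm⟩
  · intro d q _ hq
    rwa [one_mul] at hq

/-- Type (c), (d): `ν = (E - [m = 1]) E`, `E = Em m`. Hint: `quad` for the words (the binomial
coefficient is invertible), `Em_mem_AlgI`. -/
theorem nu_c (hQ : ∀ n : ℕ, n ≠ 0 → IsUnit (n : k)) {N : ℕ}
    {act : B k Γ (Fin r) →ₐ[k] Module.End k V} {rhos : Fin r → (A k Γ →ₗ[k] Module.End k V)}
    (h : IsSep r N act rhos) (i : Fin r) {m : ℕ} (hm : 1 ≤ m)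
    (h1 : LocAt act (rhos i) i (m + 1)) (h2 : ∀ v, Em act (rhos i) i m v = 0 → v = 0)
    (h3 : m = 1 → ∀ v, Em act (rhos i) i m v = v → v = 0) :
    IsNu act rhos i ((Em act (rhos i) i m - if m = 1 then 1 else 0) * Em act (rhos i) i m) := by
  refine ⟨?_, ?_, ?_⟩
  · refine mul_mem (sub_mem (Em_mem_AlgI act rhos i m) ?_) (Em_mem_AlgI act rhos i m)
    split_ifs
    · exact one_mem _
    · exact zero_mem _
  · intro f g
    have hq := quad (h.commOn i) hm h1 g
    obtain ⟨u, hu⟩ := hQ ((2 * m).choose m) (Nat.choose_pos (by omega)).ne'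
    have h4 : act (inj i g) * ((Em act (rhos i) i m - if m = 1 then 1 else 0) *
        Em act (rhos i) i m) = ((-1 : k) ^ m * ((u⁻¹ : kˣ) : k)) •
        ∑ l ∈ Finset.range (2 * m + 1), ((-1 : k) ^ l * ((2 * m).choose l : k)) •
        (rhos i (X () ^ (2 * m - l) * g) * rhos i (X () ^ l)) := by
      rw [hq, smul_smul, ← mul_assoc, ← hu]
      have h5 : ((-1 : k) ^ m * ((u⁻¹ : kˣ) : k)) * ((-1 : k) ^ m * (u : k)) = 1 := by
        calc ((-1 : k) ^ m * ((u⁻¹ : kˣ) : k)) * ((-1 : k) ^ m * (u : k)) =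
            (((-1 : k) ^ m) * ((-1 : k) ^ m)) * (((u⁻¹ : kˣ) : k) * (u : k)) := by ring
          _ = 1 := by rw [Units.inv_mul, mul_one, ← mul_pow]; simp
      rw [h5, one_smul]
    rw [mul_assoc, h4, mul_smul_comm, Finset.mul_sum]
    refine Submodule.smul_mem _ _ (Submodule.sum_mem _ fun l _ => ?_)
    rw [mul_smul_comm]
    refine Submodule.smul_mem _ _ (Submodule.subset_span
      ⟨[rhos i f, rhos i (X () ^ (2 * m - l) * g), rhos i (X () ^ l)], by simp, ?_, by simp⟩)
    intro y hy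
    simp only [List.mem_cons, List.not_mem_nil, or_false] at hy
    rcases hy with rfl | rfl | rfl
    · exact ⟨_, rfl⟩
    · exact ⟨_, rfl⟩
    · exact ⟨_, rfl⟩
  · intro d q _ hq
    apply LinearMap.ext
    intro v
    have h4 := congrArg (fun T : Module.End k V => T v) hq
    simp only [Module.End.mul_apply, LinearMap.zero_apply, LinearMap.sub_apply] at h4
    rw [LinearMap.zero_apply]
    apply h2
    by_cases hm1 : m = 1
    · rw [if_pos hm1] at h4
      exact h3 hm1 _ (sub_eq_zero.1 h4)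
    · rw [if_neg hm1, LinearMap.zero_apply, sub_zero] at h4
      exact h2 _ h4

theorem exists_nu (hQ : ∀ n : ℕ, n ≠ 0 → IsUnit (n : k)) {N : ℕ}
    {act : B k Γ (Fin r) →ₐ[k] Module.End k V} {rhos : Fin r → (A k Γ →ₗ[k] Module.End k V)}
    (h : IsSep r N act rhos) (i : Fin r) (hg : Good act (rhos i) i) :
    ∃ ν, IsNu act rhos i ν := by
  rcases hg with h1 | ⟨h1, h2⟩ | ⟨m, hm, h1, h2, h3⟩
  · exact ⟨_, nu_a hQ h i h1⟩
  · exact ⟨_, nu_b h i h1 h2⟩
  · exact ⟨_, nu_c hQ h i hm h1 h2 h3⟩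

end NuBSec

end W94
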