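import Pool.Agent.LibWitt94.Base

universe u w

namespace W94

section EWordsASec

open scoped BigOperators

variable {k : Type u} [CommRing k] {Γ : Type} [AddCommMonoid Γ]
variable {R : Type w} [Ring R] [Algebra k R]

@[simp] theorem EE_mon {n : ℕ} (es : Fin n → (A k Γ →ₗ[k] R)) (α : Fin n → Γ) :
    EE es (mon k α) = (List.ofFn (fun l => es l (tt k (α l)))).prod := by
  simp [EE]

/-- words of length zero -/
theorem EE_zero_one (es : Fin 0 → (A k Γ →ₗ[k] R)) : EE es (1 : B k Γ (Fin 0)) = 1 := by
  rw [← mon_zero, EE_mon]; simp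

private theorem cons_mon {n : ℕ} (a : Γ) (α : Fin n → Γ) :
    inj 0 (tt k a) * pf Fin.succ (mon k α) = mon k (Fin.cons a α : Fin (n + 1) → Γ) := by
  rw [inj_tt, pf_mon, mon_mul]
  congr 1
  funext j
  rw [Pi.add_apply, push_apply]
  refine Fin.cases ?_ (fun j => ?_) j
  · rw [Fin.cons_zero, Pi.single_eq_same]
    simp [Fin.succ_ne_zero]
  · rw [Fin.cons_succ, Pi.single_eq_of_ne (Fin.succ_ne_zero j)]
    simp [Fin.succ_inj]

private theorem snoc_mon {n : ℕ} (a : Γ) (α : Fin n → Γ) :
    pf Fin.castSucc (mon k α) * inj (Fin.last n) (tt k a)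
      = mon k (Fin.snoc (α := fun _ => Γ) α a : Fin (n + 1) → Γ) := by
  rw [inj_tt, pf_mon, mon_mul]
  congr 1
  funext j
  rw [Pi.add_apply, push_apply]
  refine Fin.lastCases ?_ (fun j => ?_) j
  · rw [Fin.snoc_last, Pi.single_eq_same]
    have : ∀ i : Fin n, ¬ (Fin.castSucc i = Fin.last n) := fun i => (Fin.castSucc_lt_last i).ne
    simp [this]
  · rw [Fin.snoc_castSucc, Pi.single_eq_of_ne (Fin.castSucc_lt_last j).ne]
    simp [Fin.castSucc_inj]

/-- splitting off the first letter. Hint: bilinear in `f`, `F`: monomials, `List.ofFn_succ`. -/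
theorem EE_succ {n : ℕ} (es : Fin (n + 1) → (A k Γ →ₗ[k] R)) (f : A k Γ) (F : B k Γ (Fin n)) :
    EE es (inj 0 f * pf Fin.succ F) = es 0 f * EE (fun l => es l.succ) F := by
  induction F using mon_induction with
  | h0 => simp
  | hadd F F' hF hF' => rw [map_add, mul_add, map_add, hF, hF', map_add, mul_add]
  | hmon c α =>
    induction f using mon_induction with
    | h0 => simp
    | hadd f f' hf hf' => rw [map_add, add_mul, map_add, hf, hf', map_add, add_mul]
    | hmon d β =>
      simp only [map_smul, smul_mul_assoc, mul_smul_comm]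
      rw [mon_unit, cons_mon, EE_mon, EE_mon, List.ofFn_succ, List.prod_cons]
      simp only [Fin.cons_zero, Fin.cons_succ]

/-- splitting off the last letter. Hint: `List.ofFn_succ'`. -/
theorem EE_snoc {n : ℕ} (es : Fin (n + 1) → (A k Γ →ₗ[k] R)) (f : A k Γ) (F : B k Γ (Fin n)) :
    EE es (pf Fin.castSucc F * inj (Fin.last n) f) = EE (fun l => es l.castSucc) F * es (Fin.last n) f := by
  induction F using mon_induction with
  | h0 => simp
  | hadd F F' hF hF' => rw [map_add, add_mul, map_add, hF, hF', map_add, add_mul]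
  | hmon c α =>
    induction f using mon_induction with
    | h0 => simp
    | hadd f f' hf hf' => rw [map_add, mul_add, map_add, hf, hf', map_add, mul_add]
    | hmon d β =>
      simp only [map_smul, smul_mul_assoc, mul_smul_comm]
      rw [mon_unit, snoc_mon, EE_mon, EE_mon, List.ofFn_succ', List.prod_concat]
      simp only [Fin.snoc_last, Fin.snoc_castSucc]

/-- every element is a sum of products `inj 0 f * pf Fin.succ F` -/
theorem B_succ_induction {n : ℕ} {P : B k Γ (Fin (n + 1)) → Prop} (Z : B k Γ (Fin (n + 1)))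
    (h0 : P 0) (hadd : ∀ F G, P F → P G → P (F + G))
    (h : ∀ (a : Γ) (F : B k Γ (Fin n)), P (inj 0 (tt k a) * pf Fin.succ F)) : P Z := by
  refine mon_induction Z h0 hadd (fun c α => ?_)
  have h1 := h (α 0) (c • mon k (fun i => α i.succ))
  rw [map_smul, mul_smul_comm, cons_mon] at h1
  have h2 : (Fin.cons (α 0) (fun i => α i.succ) : Fin (n + 1) → Γ) = α := Fin.cons_self_tail α
  rwa [h2] at h1

/-- every element is a sum of products `pf Fin.castSucc F * inj (Fin.last n) f` -/
theorem B_snoc_induction {n : ℕ} {P : B k Γ (Fin (n + 1)) → Prop} (Z : B k Γ (Fin (n + 1)))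
    (h0 : P 0) (hadd : ∀ F G, P F → P G → P (F + G))
    (h : ∀ (a : Γ) (F : B k Γ (Fin n)), P (pf Fin.castSucc F * inj (Fin.last n) (tt k a))) :
    P Z := by
  refine mon_induction Z h0 hadd (fun c α => ?_)
  have h1 := h (α (Fin.last n)) (c • mon k (fun i => α i.castSucc))
  rw [map_smul, smul_mul_assoc, snoc_mon] at h1
  have h2 : (Fin.snoc (α := fun _ => Γ) (fun i => α i.castSucc) (α (Fin.last n)) :
      Fin (n + 1) → Γ) = α := Fin.snoc_init_self α
  rwa [h2] at h1

end EWordsASec

section EWordsBSec

open scoped BigOperators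

variable {k : Type u} [CommRing k] {Γ : Type} [AddCommMonoid Γ]
variable {R : Type w} [Ring R] [Algebra k R]

private theorem append_mon {m n : ℕ} (α : Fin m → Γ) (β : Fin n → Γ) :
    pf (Fin.castAdd n) (mon k α) * pf (Fin.natAdd m) (mon k β)
      = mon k (Fin.append α β : Fin (m + n) → Γ) := by
  rw [pf_mon, pf_mon, mon_mul]
  congr 1
  funext j
  rw [Pi.add_apply, push_apply, push_apply]
  refine Fin.addCases (fun j => ?_) (fun j => ?_) j
  · rw [Fin.append_left]
    have h1 : ∀ i : Fin m, (Fin.castAdd n i = Fin.castAdd n j) ↔ i = j := fun i =>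
      ⟨fun h => Fin.castAdd_injective m n h, fun h => by rw [h]⟩
    have h2 : ∀ i : Fin n, ¬ (Fin.natAdd m i = Fin.castAdd n j) := by
      intro i h
      have := congrArg Fin.val h
      simp only [Fin.val_natAdd, Fin.val_castAdd] at this
      omega
    simp [h1, h2]
  · rw [Fin.append_right]
    have h1 : ∀ i : Fin n, (Fin.natAdd m i = Fin.natAdd m j) ↔ i = j := fun i =>
      ⟨fun h => Fin.natAdd_injective n m h, fun h => by rw [h]⟩
    have h2 : ∀ i : Fin m, ¬ (Fin.castAdd n i = Fin.natAdd m j) := by
      intro i h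
      have := congrArg Fin.val h
      simp only [Fin.val_natAdd, Fin.val_castAdd] at this
      omega
    simp [h1, h2]

/-- concatenation -/
theorem E_mul_E {m n : ℕ} (e : A k Γ →ₗ[k] R) (F : B k Γ (Fin m)) (G : B k Γ (Fin n)) :
    E m e F * E n e G = E (m + n) e (pf (Fin.castAdd n) F * pf (Fin.natAdd m) G) := by
  induction F using mon_induction with
  | h0 => simp
  | hadd F F' hF hF' => rw [map_add, add_mul, hF, hF', map_add, add_mul, map_add]
  | hmon c α =>
    induction G using mon_induction with
    | h0 => simp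
    | hadd G G' hG hG' => rw [map_add, mul_add, hG, hG', map_add, mul_add, map_add]
    | hmon d β =>
      simp only [map_smul, smul_mul_assoc, mul_smul_comm]
      rw [append_mon, E, E, E, EE_mon, EE_mon, EE_mon]
      have h : (fun l => e (tt k ((Fin.append α β : Fin (m + n) → Γ) l)))
          = Fin.append (fun l => e (tt k (α l))) (fun l => e (tt k (β l))) := by
        funext j
        refine Fin.addCases (fun j => ?_) (fun j => ?_) j
        · rw [Fin.append_left, Fin.append_left]
        · rw [Fin.append_right, Fin.append_right]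
      rw [h, List.ofFn_fin_append, List.prod_append]

/-- functoriality -/
theorem map_EE {R' : Type*} [Ring R'] [Algebra k R'] (φ : R →ₐ[k] R') {n : ℕ}
    (es : Fin n → (A k Γ →ₗ[k] R)) (F : B k Γ (Fin n)) :
    φ (EE es F) = EE (fun l => φ.toLinearMap ∘ₗ es l) F := by
  induction F using mon_induction with
  | h0 => simp
  | hadd F F' hF hF' => rw [map_add, map_add, hF, hF', map_add]
  | hmon c α =>
    rw [map_smul, map_smul, map_smul, EE_mon, EE_mon, map_list_prod, List.map_ofFn]
    rfl

private theorem prod_sum_ofFn {ι : Type} [Fintype ι] [DecidableEq ι] : ∀ {n : ℕ}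
    (x : Fin n → ι → R), (List.ofFn (fun l => ∑ i, x l i)).prod
      = ∑ τ : Fin n → ι, (List.ofFn (fun l => x l (τ l))).prod := by
  intro n
  induction n with
  | zero => intro x; simp
  | succ n ih =>
    intro x
    rw [List.ofFn_succ, List.prod_cons, ih (fun l => x l.succ)]
    rw [← (Fin.consEquiv (fun _ : Fin (n + 1) => ι)).sum_comp, Fintype.sum_prod_type,
      Finset.sum_mul_sum]
    refine Finset.sum_congr rfl fun i _ => Finset.sum_congr rfl fun τ _ => ?_
    rw [List.ofFn_succ, List.prod_cons]
    rfl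

/-- expansion of the words in a sum of maps -/
theorem E_sum {ι : Type} [Fintype ι] [DecidableEq ι] {n : ℕ} (rho : ι → (A k Γ →ₗ[k] R))
    (F : B k Γ (Fin n)) :
    E n (∑ i, rho i) F = ∑ τ : Fin n → ι, EE (fun l => rho (τ l)) F := by
  induction F using mon_induction with
  | h0 => simp
  | hadd F F' hF hF' => rw [map_add, hF, hF', ← Finset.sum_add_distrib]; simp only [map_add]
  | hmon c α =>
    simp only [map_smul]
    rw [← Finset.smul_sum, E, EE_mon]
    simp only [EE_mon, LinearMap.sum_apply]
    rw [prod_sum_ofFn]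

end EWordsBSec

section AdEASec

open scoped BigOperators

variable {k : Type u} [CommRing k] {Γ : Type} [AddCommMonoid Γ] [Expo Γ]
variable {R : Type w} [Ring R] [Algebra k R]

private theorem AdEA_mon_succ {n : ℕ} (α : Fin (n + 1) → Γ) :
    mon k α = inj 0 (tt k (α 0)) * pf Fin.succ (mon k (fun i : Fin n => α i.succ)) := by
  rw [mon_eq_prod_inj α, Fin.prod_univ_succ, mon_eq_prod_inj (fun i : Fin n => α i.succ), map_prod]
  congr 1
  exact Finset.prod_congr rfl fun i _ => (pf_inj _ _ _).symm

private theorem AdEA_del_pf {n : ℕ} (f : A k Γ) (F : B k Γ (Fin n)) :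
    del f (pf Fin.succ F : B k Γ (Fin (n + 1))) = pf Fin.succ (del f F) := by
  rw [del_apply, del_apply, map_sum]
  have h1 : ∀ j : Fin (n + 1), inj j f * dd j (pf Fin.succ F : B k Γ (Fin (n + 1))) =
      ∑ i : Fin n, if i.succ = j then inj j f * pf Fin.succ (dd i F) else 0 := by
    intro j
    rw [dd_pf, Finset.mul_sum]
    exact Finset.sum_congr rfl fun i _ => by split_ifs <;> simp
  rw [Finset.sum_congr rfl fun j _ => h1 j, Finset.sum_comm]
  refine Finset.sum_congr rfl fun i _ => ?_
  rw [Finset.sum_ite_eq, if_pos (Finset.mem_univ _), map_mul, pf_inj]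

private theorem AdEA_LL_succ {n : ℕ} (f g : A k Γ) (F : B k Γ (Fin n)) :
    LL f (inj 0 g * pf Fin.succ F : B k Γ (Fin (n + 1))) =
      inj 0 (f * Dt g - g * Dt f) * pf Fin.succ F + inj 0 g * pf Fin.succ (LL f F) := by
  have h1 : del f (inj 0 g : B k Γ (Fin (n + 1))) = inj 0 f * inj 0 (Dt g) := by
    rw [del_apply, Finset.sum_eq_single 0]
    · rw [dd_inj, if_pos rfl]
    · intro b _ hb
      rw [dd_inj, if_neg (fun h => hb h.symm), mul_zero]
    · intro h; exact absurd (Finset.mem_univ _) h
  have h2 : (∑ i : Fin (n + 1), inj i (Dt f) : B k Γ (Fin (n + 1))) =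
      inj 0 (Dt f) + pf Fin.succ (∑ i : Fin n, inj i (Dt f)) := by
    rw [Fin.sum_univ_succ, map_sum]
    congr 1
    exact Finset.sum_congr rfl fun i _ => (pf_inj _ _ _).symm
  rw [LL_apply, del_mul, AdEA_del_pf, h1, h2, LL_apply, map_sub, map_mul, map_sub, map_mul, map_mul]
  ring

/-- relative commutation formula for monomials: only the letters of the monomial matter.
Hint: induction on `n` with `Fin.cons`; both sides are a sum over the positions; by `mon_eq_prod_inj`
the term of `LL (tt a) (mon α)` at `i` is obtained from `mon α` by replacing the letter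
`tt (α i)` by `tt a * Dt (tt (α i)) - tt (α i) * Dt (tt a)`. With `EE_succ`. -/
theorem ad_E_mon {n : ℕ} (e : A k Γ →ₗ[k] R) (f : A k Γ) (α : Fin n → Γ)
    (h : ∀ i, e f * e (tt k (α i)) - e (tt k (α i)) * e f =
      e (f * Dt (tt k (α i)) - tt k (α i) * Dt f)) :
    e f * E n e (mon k α) - E n e (mon k α) * e f = E n e (LL f (mon k α)) := by
  induction n with
  | zero =>
    have h0 : mon k α = 1 := by
      rw [show α = 0 from funext fun i => i.elim0, mon_zero]
    rw [h0, E, EE_zero_one, LL_apply, del_one]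
    simp
  | succ n ih =>
    have h1 := ih (fun i => α i.succ) (fun i => h i.succ)
    have h2 := h 0
    rw [AdEA_mon_succ α, AdEA_LL_succ, map_add, E, EE_succ, EE_succ, EE_succ, ← h2]
    change _ = _ + e (tt k (α 0)) * E n e (LL f (mon k fun i : Fin n => α i.succ))
    rw [← h1]
    noncomm_ring

/-- the commutation formula for a Lie map -/
theorem ad_E {n : ℕ} (e : A k Γ →ₗ[k] R) (he : LieMap e) (f : A k Γ) (F : B k Γ (Fin n)) :
    e f * E n e F - E n e F * e f = E n e (LL f F) := by
  induction F using mon_induction with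
  | h0 => simp
  | hadd F G hF hG => rw [map_add, map_add, map_add, ← hF, ← hG]; noncomm_ring
  | hmon c α =>
    rw [map_smul, map_smul, map_smul, ← ad_E_mon e f α fun i => he _ _]
    simp only [mul_smul_comm, smul_mul_assoc, smul_sub]

end AdEASec

section AdEBSec

open scoped BigOperators

variable {k : Type u} [CommRing k] {Γ : Type} [AddCommMonoid Γ] [Expo Γ]
variable {R : Type w} [Ring R] [Algebra k R]

omit [Expo Γ] in
private theorem E_cons {n : ℕ} (e : A k Γ →ₗ[k] R) (a : Γ) (α : Fin n → Γ) :
    E (n + 1) e (mon k (Fin.cons a α : Fin (n + 1) → Γ)) = e (tt k a) * E n e (mon k α) := by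
  simp [E, EE_mon, List.ofFn_succ]

omit [Expo Γ] in
private theorem push_cons {m n : ℕ} (g : Fin (m + 1) → Fin (n + 1)) (g' : Fin m → Fin n)
    (h0 : g 0 = 0) (hs : ∀ l, g l.succ = (g' l).succ) (a : Γ) (α : Fin m → Γ) :
    push g (Fin.cons a α : Fin (m + 1) → Γ) = (Fin.cons a (push g' α) : Fin (n + 1) → Γ) := by
  funext j
  refine Fin.cases ?_ (fun j => ?_) j
  · simp [push_apply, Fin.sum_univ_succ, h0, hs]
  · rw [Fin.cons_succ, push_apply, push_apply, Fin.sum_univ_succ, h0]
    have h1 : (0 : Fin (n + 1)) ≠ j.succ := (Fin.succ_ne_zero j).symm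
    simp [h1, hs, Fin.succ_inj]

private theorem Dt_tt (a : Γ) :
    Dt (tt k a) = ((Expo.v a : ℤ) : k) • tt k (Expo.pred a) := by
  rw [Dt, tt, dd_mon]
  rfl

private theorem swap_mon (e : A k Γ →ₗ[k] R) (he : LieMap e) :
    ∀ {n : ℕ} (i : Fin n) (α : Fin (n + 1) → Γ),
    E (n + 1) e (mon k α) - E (n + 1) e (mon k (push (Equiv.swap i.castSucc i.succ) α)) =
      ((Expo.v (α i.succ) : ℤ) : k) • E n e (mon k (push (Fin.predAbove i)
        (Function.update α i.succ (Expo.pred (α i.succ))))) -
      ((Expo.v (α i.castSucc) : ℤ) : k) • E n e (mon k (push (Fin.predAbove i)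
        (Function.update α i.castSucc (Expo.pred (α i.castSucc))))) := by
  intro n
  induction n with
  | zero => intro i; exact i.elim0
  | succ m ih =>
    intro i α
    obtain ⟨a, α', rfl⟩ : ∃ a α', α = (Fin.cons a α' : Fin (m + 2) → Γ) :=
      ⟨α 0, Fin.tail α, (Fin.cons_self_tail α).symm⟩
    refine Fin.cases ?_ (fun j => ?_) i
    · obtain ⟨b, γ, rfl⟩ : ∃ b γ, α' = (Fin.cons b γ : Fin (m + 1) → Γ) :=
        ⟨α' 0, Fin.tail α', (Fin.cons_self_tail α').symm⟩
      have hsw : push (Equiv.swap (Fin.castSucc (0 : Fin (m + 1))) (Fin.succ 0))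
          (Fin.cons a (Fin.cons b γ : Fin (m + 1) → Γ) : Fin (m + 2) → Γ) =
          (Fin.cons b (Fin.cons a γ : Fin (m + 1) → Γ) : Fin (m + 2) → Γ) := by
        have hp : ∀ (σ : Equiv.Perm (Fin (m + 2))) (β : Fin (m + 2) → Γ) (j : Fin (m + 2)),
            push σ β j = β (σ.symm j) := by
          intro σ β j
          rw [push_apply, Finset.sum_eq_single (σ.symm j)]
          · simp
          · intro l _ hl
            rw [if_neg]
            intro h
            exact hl (by rw [← h]; simp)
          · intro h; exact absurd (Finset.mem_univ _) h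
        funext j
        rw [hp, Equiv.symm_swap]
        refine Fin.cases ?_ (fun j => ?_) j
        · rw [Fin.castSucc_zero, Equiv.swap_apply_left]; rfl
        · refine Fin.cases ?_ (fun j => ?_) j
          · rw [Equiv.swap_apply_right]; rfl
          · rw [Equiv.swap_apply_of_ne_of_ne]
            · rfl
            · intro h
              have := congrArg Fin.val h
              simp at this
            · intro h
              have := congrArg Fin.val h
              simp at this
      have hpa : ∀ x y : Γ, push (Fin.predAbove (0 : Fin (m + 1)))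
          (Fin.cons x (Fin.cons y γ : Fin (m + 1) → Γ) : Fin (m + 2) → Γ) =
          (Fin.cons (x + y) γ : Fin (m + 1) → Γ) := by
        intro x y
        have g0 : Fin.predAbove (0 : Fin (m + 1)) (0 : Fin (m + 2)) = 0 := by simp
        have gs : ∀ l : Fin (m + 1), Fin.predAbove (0 : Fin (m + 1)) l.succ = l := by
          intro l; simp
        funext j
        rw [push_apply, Fin.sum_univ_succ, g0]
        simp only [gs, Fin.cons_zero, Fin.cons_succ]
        rw [Finset.sum_ite_eq' Finset.univ j]
        refine Fin.cases ?_ (fun j => ?_) j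
        · simp
        · have h1 : (0 : Fin (m + 1)) ≠ j.succ := (Fin.succ_ne_zero j).symm
          simp [h1]
      have hu1 : ∀ x : Γ, Function.update
          (Fin.cons a (Fin.cons b γ : Fin (m + 1) → Γ) : Fin (m + 2) → Γ) (Fin.succ 0) x =
          (Fin.cons a (Fin.cons x γ : Fin (m + 1) → Γ) : Fin (m + 2) → Γ) := by
        intro x
        rw [← Fin.cons_update, Fin.update_cons_zero]
      have hu0 : ∀ x : Γ, Function.update
          (Fin.cons a (Fin.cons b γ : Fin (m + 1) → Γ) : Fin (m + 2) → Γ)
            (Fin.castSucc (0 : Fin (m + 1))) x =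
          (Fin.cons x (Fin.cons b γ : Fin (m + 1) → Γ) : Fin (m + 2) → Γ) := by
        intro x
        rw [Fin.castSucc_zero, Fin.update_cons_zero]
      rw [hsw, hu1, hu0, hpa, hpa]
      have hv1 : (Fin.cons a (Fin.cons b γ : Fin (m + 1) → Γ) : Fin (m + 2) → Γ) (Fin.succ 0) = b := by
        rfl
      have hv0 : (Fin.cons a (Fin.cons b γ : Fin (m + 1) → Γ) : Fin (m + 2) → Γ)
          (Fin.castSucc (0 : Fin (m + 1))) = a := by
        rfl
      rw [hv1, hv0]
      simp only [E_cons]
      have h := he (tt k a) (tt k b)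
      rw [Dt_tt, Dt_tt, mul_smul_comm, mul_smul_comm, tt_mul, tt_mul, map_sub, map_smul, map_smul,
        add_comm b] at h
      rw [← mul_assoc, ← mul_assoc, ← sub_mul, h, sub_mul, smul_mul_assoc, smul_mul_assoc]
    · have hsw : push (Equiv.swap (Fin.castSucc j.succ) (Fin.succ j.succ))
          (Fin.cons a α' : Fin (m + 2) → Γ) =
          (Fin.cons a (push (Equiv.swap j.castSucc j.succ) α') : Fin (m + 2) → Γ) := by
        refine push_cons _ _ ?_ ?_ a α'
        · rw [Equiv.swap_apply_of_ne_of_ne]
          · intro h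
            have := congrArg Fin.val h
            simp at this
          · intro h
            have := congrArg Fin.val h
            simp at this
        · intro l
          rw [Fin.castSucc_succ]
          by_cases h1 : l = j.castSucc
          · subst h1; rw [Equiv.swap_apply_left, Equiv.swap_apply_left]
          · by_cases h2 : l = j.succ
            · subst h2; rw [Equiv.swap_apply_right, Equiv.swap_apply_right]
            · rw [Equiv.swap_apply_of_ne_of_ne h1 h2, Equiv.swap_apply_of_ne_of_ne]
              · exact fun h => h1 (Fin.succ_injective _ h)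
              · exact fun h => h2 (Fin.succ_injective _ h)
      have hpa : ∀ x, push (Fin.predAbove j.succ) (Fin.cons a x : Fin (m + 2) → Γ) =
          (Fin.cons a (push (Fin.predAbove j) x) : Fin (m + 1) → Γ) := by
        intro x
        refine push_cons _ _ ?_ ?_ a x
        · simp
        · intro l
          simp [Fin.succ_predAbove_succ]
      have hu : ∀ (l : Fin (m + 1)) (x : Γ), Function.update (Fin.cons a α' : Fin (m + 2) → Γ) l.succ x =
          (Fin.cons a (Function.update α' l x) : Fin (m + 2) → Γ) := by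
        intro l x
        rw [Fin.cons_update]
      have hc : Fin.castSucc j.succ = j.castSucc.succ := rfl
      rw [hsw, hc, hu, hu, hpa, hpa, Fin.cons_succ, Fin.cons_succ]
      simp only [E_cons]
      rw [← mul_sub, ih j α', mul_sub, mul_smul_comm, mul_smul_comm]

/-- exchange of two neighbours -/
theorem swap_E {n : ℕ} (e : A k Γ →ₗ[k] R) (he : LieMap e) (i : Fin n)
    (F : B k Γ (Fin (n + 1))) :
    E (n + 1) e F - E (n + 1) e (pf (Equiv.swap i.castSucc i.succ) F) =
      E n e (pf (Fin.predAbove i) (dd i.succ F - dd i.castSucc F)) := by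
  induction F using mon_induction with
  | h0 => simp
  | hadd F G hF hG =>
    simp only [map_add, map_sub] at hF hG ⊢
    rw [add_sub_add_comm, hF, hG]; abel
  | hmon c α =>
    have h := swap_mon e he i α
    simp only [map_smul, map_sub, pf_mon, dd_mon] at h ⊢
    rw [← smul_sub, h, smul_sub]

end AdEBSec

section LocExtASec

open scoped BigOperators

variable {k : Type u} [CommRing k] {Γ : Type} [AddCommMonoid Γ] [Expo Γ]
variable {R : Type w} [Ring R] [Algebra k R]

/-- If a power `a ≥ 1` of `vand (X ∘ g)` divides `F` then the power `a - 1` divides `dd i F`. -/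
theorem dd_vand_pow {s n : ℕ} (g : Fin s → Fin n) (i : Fin n) (a : ℕ) (F : B k Γ (Fin n)) :
    ∃ G, dd i (vand (fun l => X (g l)) ^ (a + 1) * F) = vand (fun l => X (g l)) ^ a * G := by
  refine ⟨((a + 1 : ℕ) : B k Γ (Fin n)) * dd i (vand fun l => X (g l)) * F +
    vand (fun l => X (g l)) * dd i F, ?_⟩
  rw [dd_mul, dd_pow, Nat.add_sub_cancel, pow_succ]
  ring

/-- One exchange: the statement for `n` letters and the statement of the lemma for `g` composed with
the exchange of `i, i+1` imply the statement for `g`, if `i` or `i + 1` is not in the image of `g`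
(then `predAbove i ∘ g` is injective). Hint: `swap_E`, `dd_vand_pow`. -/
theorem loc_exchange {s n : ℕ} {e : A k Γ →ₗ[k] R} (he : LieMap e) (g : Fin s → Fin (n + 1))
    (i : Fin n) (a : ℕ)
    (h1 : ∀ F, E n e (vand (fun l => X (Fin.predAbove i (g l))) ^ a * F) = 0)
    (h2 : ∀ F, E (n + 1) e (vand (fun l => X (Equiv.swap i.castSucc i.succ (g l))) ^ (a + 1) * F) = 0)
    (F : B k Γ (Fin (n + 1))) :
    E (n + 1) e (vand (fun l => X (g l)) ^ (a + 1) * F) = 0 := by
  have hv : ∀ {p q : ℕ} (h : Fin p → Fin q) (g' : Fin s → Fin p) (b : ℕ) (G : B k Γ (Fin p)),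
      pf h (vand (fun l => X (g' l)) ^ b * G) = vand (fun l => X (h (g' l))) ^ b * pf h G := by
    intro p q h g' b G
    rw [map_mul, map_pow]
    congr 2
    have h3 := map_vand ((pf h : B k Γ (Fin p) →ₐ[k] B k Γ (Fin q)) : B k Γ (Fin p) →+* B k Γ (Fin q))
      (fun l => (X (g' l) : B k Γ (Fin p)))
    simpa [pf_X] using h3
  have h3 := swap_E e he i (vand (fun l => X (g l)) ^ (a + 1) * F)
  obtain ⟨G1, hG1⟩ := dd_vand_pow g i.succ a F
  obtain ⟨G2, hG2⟩ := dd_vand_pow g i.castSucc a F
  rw [hG1, hG2, ← mul_sub, hv, hv, h1, h2, sub_zero] at h3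
  exact h3

end LocExtASec

section LocExtBSec

open scoped BigOperators

variable {k : Type u} [CommRing k] {Γ : Type} [AddCommMonoid Γ] [Expo Γ]
variable {R : Type w} [Ring R] [Algebra k R]

private theorem LocExtB_predAbove_val {n : ℕ} (i : Fin n) (x : Fin (n + 1)) :
    ((Fin.predAbove i x : Fin n) : ℕ) = if (i : ℕ) < x then (x : ℕ) - 1 else x := by
  unfold Fin.predAbove
  by_cases h : (i : ℕ) < x
  · rw [if_pos h, dif_pos (by exact h)]
    rfl
  · rw [if_neg h, dif_neg (by exact h)]
    rfl

private theorem LocExtB_predAbove_inj {n : ℕ} (i : Fin n) (x y : Fin (n + 1))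
    (hx : x ≠ i.castSucc) (hy : y ≠ i.castSucc) (h : Fin.predAbove i x = Fin.predAbove i y) :
    x = y := by
  have h1 := congrArg Fin.val h
  rw [LocExtB_predAbove_val, LocExtB_predAbove_val] at h1
  have hx' : (x : ℕ) ≠ i := fun h => hx (Fin.ext h)
  have hy' : (y : ℕ) ≠ i := fun h => hy (Fin.ext h)
  apply Fin.ext
  split_ifs at h1 <;> omega

private theorem LocExtB_pf_vand {s p q : ℕ} (h : Fin p → Fin q) (g' : Fin s → Fin p) (b : ℕ) :
    pf h (vand (fun l => X (g' l)) ^ b : B k Γ (Fin p)) =
      (vand (fun l => X (h (g' l))) ^ b : B k Γ (Fin q)) := by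
  rw [map_pow]
  congr 1
  have h3 := map_vand ((pf h : B k Γ (Fin p) →ₐ[k] B k Γ (Fin q)) : B k Γ (Fin p) →+* B k Γ (Fin q))
    (fun l => (X (g' l) : B k Γ (Fin p)))
  simpa [pf_X] using h3

private theorem LocExtB_eq {n N : ℕ} {e : A k Γ →ₗ[k] R} (h : Loc n N e)
    (g : Fin n → Fin n) (hg : Function.Injective g) (a : ℕ) (ha : N ≤ a)
    (F : B k Γ (Fin n)) : E n e (vand (fun l => X (g l)) ^ a * F) = 0 := by
  obtain ⟨σ, hσ⟩ : ∃ σ : Equiv.Perm (Fin n), ∀ l, g l = σ l :=
    ⟨Equiv.ofBijective g (Finite.injective_iff_bijective.mp hg), fun _ => rfl⟩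
  have h1 : ∃ c : B k Γ (Fin n), vand (fun l => X (g l)) ^ a = Delta k Γ n ^ N * c := by
    obtain ⟨b, rfl⟩ := Nat.exists_eq_add_of_le ha
    have h2 : (fun l => X (g l) : Fin n → B k Γ (Fin n)) = fun l => X (σ l) := by
      funext l; rw [hσ]
    rw [h2]
    rcases vand_perm (fun i => (X i : B k Γ (Fin n))) σ with h3 | h3
    · rw [h3, pow_add]
      exact ⟨_, rfl⟩
    · rw [h3, neg_pow, pow_add]
      refine ⟨(-1) ^ (N + b) * Delta k Γ n ^ b, ?_⟩
      rw [pow_add]
      unfold Delta
      ring
  obtain ⟨c, hc⟩ := h1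
  rw [hc, mul_assoc]
  exact h _

/-- The extension lemma. Proof by induction on `n`; `s ≤ n` since `g` is injective. If `n = s`, `g`
is a permutation and `vand (X ∘ g) = ± Delta`: use the hypothesis `h` (`a ≥ N`, split the power).
If `n + 1 > s` there is `j` not in the image of `g`. Second induction on `n - j`:
if `j = Fin.last n`, then `g = castSucc ∘ g'`, and by `B_snoc_induction` and `EE_snoc` the
statement reduces to `g'`, `n`; otherwise `j = i.castSucc` for some `i : Fin n`, use `loc_exchange`
(the first hypothesis is the induction hypothesis for `n`, `a - 1` and the injective map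
`predAbove i ∘ g`, the second the one for `j + 1`). Note `a ≥ 1` since `N + n + 1 ≤ a + s`, `s ≤ n`. -/
theorem loc_extend {s N n : ℕ} {e : A k Γ →ₗ[k] R} (he : LieMap e) (h : Loc s N e)
    (g : Fin s → Fin n) (hg : Function.Injective g) (a : ℕ) (ha : N + n ≤ a + s)
    (F : B k Γ (Fin n)) : E n e (vand (fun l => X (g l)) ^ a * F) = 0 := by
  induction n generalizing a with
  | zero =>
    have hs : s = 0 := by
      have h1 := Fintype.card_le_of_injective g hg
      simpa using h1
    subst hs
    exact LocExtB_eq h g hg a (by omega) F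
  | succ n ihn =>
    have hsn : s ≤ n + 1 := by
      have h1 := Fintype.card_le_of_injective g hg
      simpa using h1
    rcases Nat.eq_or_lt_of_le hsn with hs | hs
    · subst hs
      exact LocExtB_eq h g hg a (by omega) F
    · have hj : ∃ j, ∀ l, g l ≠ j := by
        by_contra hcon
        push Not at hcon
        have h1 := Fintype.card_le_of_surjective g hcon
        simp at h1
        omega
      obtain ⟨j, hj⟩ := hj
      have key : ∀ j : Fin (n + 1), ∀ g : Fin s → Fin (n + 1), Function.Injective g →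
          (∀ l, g l ≠ j) → ∀ a, N + (n + 1) ≤ a + s → ∀ F : B k Γ (Fin (n + 1)),
          E (n + 1) e (vand (fun l => X (g l)) ^ a * F) = 0 := by
        intro j
        induction j using Fin.reverseInduction with
        | last =>
          intro g hg hj a ha F
          have h1 : ∃ g' : Fin s → Fin n, ∀ l, g l = (g' l).castSucc :=
            ⟨fun l => (g l).castPred (hj l), fun l => (Fin.castSucc_castPred _ _).symm⟩
          obtain ⟨g', hg'⟩ := h1
          have hg'i : Function.Injective g' := by
            intro x y hxy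
            apply hg
            rw [hg', hg', hxy]
          have h2 : (vand (fun l => X (g l)) ^ a : B k Γ (Fin (n + 1))) =
              pf Fin.castSucc (vand (fun l => X (g' l)) ^ a : B k Γ (Fin n)) := by
            rw [LocExtB_pf_vand]
            congr 2
            funext l
            rw [hg']
          rw [h2]
          refine B_snoc_induction (P := fun F => E (n + 1) e
            (pf Fin.castSucc (vand (fun l => X (g' l)) ^ a : B k Γ (Fin n)) * F) = 0) F ?_ ?_ ?_
          · rw [mul_zero, map_zero]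
          · intro F G hF hG
            rw [mul_add, map_add, hF, hG, add_zero]
          · intro b F
            rw [← mul_assoc, ← map_mul, EE_snoc, ihn g' hg'i a (by omega) F, zero_mul]
        | cast i ih =>
          intro g hg hj a ha F
          obtain ⟨a', rfl⟩ : ∃ a', a = a' + 1 := ⟨a - 1, by omega⟩
          refine loc_exchange he g i a' (fun F => ?_) (fun F => ?_) F
          · exact ihn (fun l => Fin.predAbove i (g l))
              (fun x y hxy => hg (LocExtB_predAbove_inj i _ _ (hj x) (hj y) hxy)) a' (by omega) F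
          · refine ih (fun l => Equiv.swap i.castSucc i.succ (g l))
              (fun x y hxy => hg ((Equiv.swap i.castSucc i.succ).injective hxy)) ?_ (a' + 1)
              (by omega) F
            intro l hl
            have h1 := congrArg (Equiv.swap i.castSucc i.succ) hl
            rw [Equiv.swap_apply_self, Equiv.swap_apply_right] at h1
            exact hj l h1
      exact key j g hg hj a ha F

end LocExtBSec

section TStableASec

open scoped BigOperators

variable {k : Type u} [CommRing k] {Γ : Type} [AddCommMonoid Γ] [Expo Γ]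
variable {M : Type w} [AddCommGroup M] [Module k M]

/-- the span of the images of the operators `E n e (Delta ^ K * F)` -/
def TT (n K : ℕ) (e : A k Γ →ₗ[k] Module.End k M) : Submodule k M :=
  Submodule.span k {x | ∃ F m, x = E n e (Delta k Γ n ^ K * F) m}

/-- the intersection of the kernels of the operators `E n e (Delta ^ K * F)` -/
def KK (n K : ℕ) (e : A k Γ →ₗ[k] Module.End k M) : Submodule k M where
  carrier := {m | ∀ F, E n e (Delta k Γ n ^ K * F) m = 0}
  add_mem' := fun {a b} ha hb F => by rw [map_add, ha F, hb F, add_zero]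
  zero_mem' := fun F => map_zero _
  smul_mem' := fun c x hx F => by rw [map_smul, hx F, smul_zero]

/-- Hint: `ad_E` and `LL_Delta_pow`. -/
theorem TT_stable {n K : ℕ} {e : A k Γ →ₗ[k] Module.End k M} (he : LieMap e) (f : A k Γ) (x : M)
    (hx : x ∈ TT n K e) : e f x ∈ TT n K e := by
  have hmain : TT n K e ≤ (TT n K e).comap (e f) := by
    unfold TT
    rw [Submodule.span_le]
    rintro _ ⟨F, m, rfl⟩
    obtain ⟨G, hG⟩ := LL_Delta_pow f K F
    have h1 := congrArg (fun T : Module.End k M => T m) (ad_E e he f (Delta k Γ n ^ K * F))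
    simp only [LinearMap.sub_apply, Module.End.mul_apply] at h1
    rw [hG, sub_eq_iff_eq_add] at h1
    rw [SetLike.mem_coe, Submodule.mem_comap, h1]
    exact Submodule.add_mem _ (Submodule.subset_span ⟨G, m, rfl⟩)
      (Submodule.subset_span ⟨F, e f m, rfl⟩)
  exact hmain hx

/-- Hint: `ad_E` and `LL_Delta_pow`. -/
theorem KK_stable {n K : ℕ} {e : A k Γ →ₗ[k] Module.End k M} (he : LieMap e) (f : A k Γ) (x : M)
    (hx : x ∈ KK n K e) : e f x ∈ KK n K e := by
  intro F
  obtain ⟨G, hG⟩ := LL_Delta_pow f K F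
  have h1 := congrArg (fun T : Module.End k M => T x) (ad_E e he f (Delta k Γ n ^ K * F))
  simp only [LinearMap.sub_apply, Module.End.mul_apply] at h1
  rw [hG, hx F, hx G, map_zero, zero_sub, neg_eq_zero] at h1
  exact h1

end TStableASec

section TStableBSec

open scoped BigOperators

variable {k : Type u} [CommRing k] {Γ : Type} [AddCommMonoid Γ] [Expo Γ]
variable {M : Type w} [AddCommGroup M] [Module k M]

theorem TT_eq_bot_iff {n K : ℕ} {e : A k Γ →ₗ[k] Module.End k M} : TT n K e = ⊥ ↔ Loc n K e := by
  constructor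
  · intro h F
    apply LinearMap.ext
    intro m
    have h1 : E n e (Delta k Γ n ^ K * F) m ∈ TT n K e := Submodule.subset_span ⟨F, m, rfl⟩
    rw [h, Submodule.mem_bot] at h1
    rw [h1, LinearMap.zero_apply]
  · intro h
    rw [eq_bot_iff]
    unfold TT
    rw [Submodule.span_le]
    rintro _ ⟨F, m, rfl⟩
    rw [h F, LinearMap.zero_apply]
    exact Submodule.zero_mem _

theorem TT_eq_top {n K : ℕ} {e : A k Γ →ₗ[k] Module.End k M} (he : LieMap e) (hs : Simple e)
    (h : ¬ Loc n K e) : TT n K e = ⊤ :=
  (hs.simple _ fun f x hx => TT_stable he f x hx).resolve_left fun h1 => h (TT_eq_bot_iff.1 h1)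

theorem KK_eq_bot {n K : ℕ} {e : A k Γ →ₗ[k] Module.End k M} (he : LieMap e) (hs : Simple e)
    (h : ¬ Loc n K e) : KK n K e = ⊥ := by
  refine (hs.simple _ fun f x hx => KK_stable he f x hx).resolve_right fun h1 => h fun F => ?_
  apply LinearMap.ext
  intro m
  have h2 : m ∈ KK n K e := by
    rw [h1]
    exact Submodule.mem_top
  rw [h2 F, LinearMap.zero_apply]

theorem Loc.mono {R : Type w} [Ring R] [Algebra k R] {s N N' : ℕ} {e : A k Γ →ₗ[k] R}
    (h : Loc s N e) (hN : N ≤ N') : Loc s N' e := by
  intro F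
  obtain ⟨d, rfl⟩ := Nat.exists_eq_add_of_le hN
  rw [pow_add, mul_assoc]
  exact h _

end TStableBSec

section RingRadSec

open scoped BigOperators

/-- Radical lemma. Hint: `Ideal.radical_eq_sInf` / `Ideal.mem_radical_iff`: it is enough that
`vand y` lies in every prime ideal `p` containing the right hand side. `p` contains `vand x`, so
`x i ≡ x j` mod `p` for some `i ≠ j`, and every `y l ≡ x (g l)` mod `p` for some `g l`, which may be
chosen `≠ j` (use `i` instead of `j`). So `g` is a map from `Fin q` to `Fin q` minus a point, not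
injective, two of the `y l` agree modulo `p`, and `vand y ∈ p` (`sub_dvd_vand`). -/
theorem vand_radical {S : Type*} [CommRing S] {q : ℕ} (x y : Fin q → S) (j N : ℕ) :
    ∃ a, vand y ^ a ∈ Ideal.span ({vand x ^ j} ∪ Set.range (fun l => (∏ i, (y l - x i)) ^ N)) := by
  classical
  set I := Ideal.span ({vand x ^ j} ∪ Set.range (fun l => (∏ i, (y l - x i)) ^ N)) with hI
  rw [← Ideal.mem_radical_iff, Ideal.radical_eq_sInf, Submodule.mem_sInf]
  rintro p ⟨hIp, hp⟩
  have hx : vand x ∈ p :=
    hp.mem_of_pow_mem j (hIp (Ideal.subset_span (Or.inl rfl)))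
  have hy : ∀ l, ∃ i, y l - x i ∈ p := by
    intro l
    have h1 : (∏ i, (y l - x i)) ∈ p :=
      hp.mem_of_pow_mem N (hIp (Ideal.subset_span (Or.inr ⟨l, rfl⟩)))
    obtain ⟨i, _, hi⟩ := (Ideal.IsPrime.prod_mem_iff (hp := hp)).1 h1
    exact ⟨i, hi⟩
  unfold vand at hx
  obtain ⟨i, _, hi⟩ := (Ideal.IsPrime.prod_mem_iff (hp := hp)).1 hx
  obtain ⟨b, hb, hib⟩ := (Ideal.IsPrime.prod_mem_iff (hp := hp)).1 hi
  have hne : i ≠ b := (Finset.mem_Ioi.1 hb).ne
  choose g hg using hy
  let g' : Fin q → Fin q := fun l => if g l = b then i else g l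
  have hg' : ∀ l, y l - x (g' l) ∈ p := by
    intro l
    by_cases h : g l = b
    · have h1 : g' l = i := if_pos h
      rw [h1]
      have h2 : y l - x i = (y l - x b) - (x i - x b) := by ring
      rw [h2]
      refine p.sub_mem ?_ hib
      rw [← h]
      exact hg l
    · have h1 : g' l = g l := if_neg h
      rw [h1]
      exact hg l
  have hb' : ∀ l, g' l ≠ b := by
    intro l
    by_cases h : g l = b
    · have h1 : g' l = i := if_pos h
      rw [h1]
      exact hne
    · have h1 : g' l = g l := if_neg h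
      rw [h1]
      exact h
  have hinj : ¬ Function.Injective g' := by
    intro h
    obtain ⟨l, hl⟩ := (Finite.injective_iff_surjective.1 h) b
    exact hb' l hl
  unfold Function.Injective at hinj
  push Not at hinj
  obtain ⟨l, l', hll, hne'⟩ := hinj
  have h1 : y l - y l' ∈ p := by
    have h2 : y l - y l' = (y l - x (g' l)) - (y l' - x (g' l')) := by rw [hll]; ring
    rw [h2]
    exact p.sub_mem (hg' l) (hg' l')
  obtain ⟨c, hc⟩ := sub_dvd_vand y l l' hne'
  rw [hc]
  exact Ideal.mul_mem_right c p h1

end RingRadSec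

section StepCASec

open scoped BigOperators

variable {k : Type u} [CommRing k] {Γ : Type} [AddCommMonoid Γ] [Expo Γ]

/-- every element is a sum of products of elements in the first and in the last variables -/
private theorem stepCA_split {q : ℕ} {P : B k Γ (Fin (q + q)) → Prop} (H : B k Γ (Fin (q + q)))
    (h0 : P 0) (hadd : ∀ F G, P F → P G → P (F + G))
    (h : ∀ F G : B k Γ (Fin q), P (pf (Fin.castAdd q) F * pf (Fin.natAdd q) G)) : P H := by
  refine mon_induction H h0 hadd fun c α => ?_
  have h1 := h (c • mon k (fun i => α (Fin.castAdd q i))) (mon k (fun i => α (Fin.natAdd q i)))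
  have h2 : pf (Fin.castAdd q) (c • mon k (fun i => α (Fin.castAdd q i))) *
      pf (Fin.natAdd q) (mon k (fun i => α (Fin.natAdd q i))) = c • mon k α := by
    rw [map_smul, pf_mon, pf_mon, smul_mul_assoc, mon_mul]
    congr 2
    funext j
    rw [Pi.add_apply, push_apply, push_apply]
    induction j using Fin.addCases with
    | left j =>
      rw [Finset.sum_eq_single j, Finset.sum_eq_zero, if_pos rfl, add_zero]
      · intro i _
        rw [if_neg]
        intro hh
        have := congrArg Fin.val hh
        simp only [Fin.val_natAdd, Fin.val_castAdd] at this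
        omega
      · intro i _ hi
        rw [if_neg]
        intro hh
        exact hi (Fin.castAdd_injective _ _ hh)
      · intro hh
        exact absurd (Finset.mem_univ j) hh
    | right j =>
      rw [Finset.sum_eq_zero, Finset.sum_eq_single j, if_pos rfl, zero_add]
      · intro i _ hi
        rw [if_neg]
        intro hh
        exact hi (Fin.natAdd_injective _ _ hh)
      · intro hh
        exact absurd (Finset.mem_univ j) hh
      · intro i _
        rw [if_neg]
        intro hh
        have := congrArg Fin.val hh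
        simp only [Fin.val_natAdd, Fin.val_castAdd] at this
        omega
  rw [← h2]
  exact h1

/-- The product of two families of operators vanishes. Here `x_i = X (castAdd i)`,
`y_i = X (natAdd i)` in `q + q` variables. Hint: `E_mul_E`, then expand `vand y ^ b` in the ideal
(sum of a multiple of `vand x` and of multiples of `(∏_i (y_l - x_i)) ^ N₁`,
`Submodule.span_induction`). The term `vand x * Q` gives
`vand x ^ (K + 1) * G`; write `G` as a sum of products `pf castAdd G₁ * pf natAdd G₂` and use
`E_mul_E` backwards and `h2`. The term `(∏_i (y_l - x_i)) ^ N₁ * Q` gives, up to sign,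
`(vand of x_1, .., x_q, y_l) ^ N₁ * G'` (`vand_snoc`, `N₁ ≤ K`); use `loc_extend` with the injective
map `Fin.snoc (castAdd q) (natAdd q l)` from `Fin (q + 1)` to `Fin (q + q)`. -/
theorem prod_vanish {q N N₁ b K : ℕ} (hN₁ : N + q ≤ N₁ + 1)
    (hb : vand (fun i : Fin q => (X (Fin.natAdd q i) : B k Γ (Fin (q + q)))) ^ b ∈
      Ideal.span ({vand (fun i : Fin q => (X (Fin.castAdd q i) : B k Γ (Fin (q + q))))} ∪
        Set.range (fun l : Fin q =>
          (∏ i : Fin q, (X (Fin.natAdd q l) - X (Fin.castAdd q i) : B k Γ (Fin (q + q)))) ^ N₁)))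
    {R : Type w} [Ring R] [Algebra k R] (e : A k Γ →ₗ[k] R) (he : LieMap e)
    (h1 : Loc (q + 1) N e) (hK : N₁ ≤ K) (h2 : Loc q (K + 1) e) (F G : B k Γ (Fin q)) :
    E q e (Delta k Γ q ^ K * F) * E q e (Delta k Γ q ^ b * G) = 0 := by
  set x : Fin q → B k Γ (Fin (q + q)) := fun i => X (Fin.castAdd q i) with hx
  set y : Fin q → B k Γ (Fin (q + q)) := fun i => X (Fin.natAdd q i) with hy
  have hDx : pf (Fin.castAdd q) (Delta k Γ q) = vand x := by
    have := map_vand (pf (Fin.castAdd q) : B k Γ (Fin q) →ₐ[k] B k Γ (Fin (q + q))).toRingHom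
      (fun i => X i)
    change pf (Fin.castAdd q) (vand fun i => X i) = _
    refine this.trans ?_
    congr 1
    funext i
    exact pf_X _ _
  have hDy : pf (Fin.natAdd q) (Delta k Γ q) = vand y := by
    have := map_vand (pf (Fin.natAdd q) : B k Γ (Fin q) →ₐ[k] B k Γ (Fin (q + q))).toRingHom
      (fun i => X i)
    change pf (Fin.natAdd q) (vand fun i => X i) = _
    refine this.trans ?_
    congr 1
    funext i
    exact pf_X _ _
  -- the first kind of terms
  have hA : ∀ H : B k Γ (Fin (q + q)), E (q + q) e (vand x ^ (K + 1) * H) = 0 := by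
    intro H
    refine stepCA_split (P := fun H => E (q + q) e (vand x ^ (K + 1) * H) = 0) H ?_ ?_ ?_
    · rw [mul_zero, map_zero]
    · intro F G hF hG
      rw [mul_add, map_add, hF, hG, add_zero]
    · intro F G
      have h3 : vand x ^ (K + 1) * (pf (Fin.castAdd q) F * pf (Fin.natAdd q) G) =
          pf (Fin.castAdd q) (Delta k Γ q ^ (K + 1) * F) * pf (Fin.natAdd q) G := by
        rw [map_mul, map_pow, hDx, mul_assoc]
      rw [h3, ← E_mul_E, h2, zero_mul]
  -- the second kind of terms
  have hB : ∀ (l : Fin q) (H : B k Γ (Fin (q + q))),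
      E (q + q) e (vand x ^ K * ((∏ i, (y l - x i)) ^ N₁ * H)) = 0 := by
    intro l H
    have hg : Function.Injective (Fin.snoc (Fin.castAdd q) (Fin.natAdd q l) :
        Fin (q + 1) → Fin (q + q)) := by
      rw [Fin.snoc_injective_iff]
      refine ⟨Fin.castAdd_injective _ _, ?_⟩
      rintro ⟨i, hi⟩
      have := congrArg Fin.val hi
      simp only [Fin.val_natAdd, Fin.val_castAdd] at this
      omega
    have h3 := loc_extend he h1 (Fin.snoc (Fin.castAdd q) (Fin.natAdd q l)) hg N₁ (by omega)
      ((-1) ^ (q * N₁) * vand x ^ (K - N₁) * H)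
    have h4 : (fun l' : Fin (q + 1) => (X ((Fin.snoc (Fin.castAdd q) (Fin.natAdd q l) :
        Fin (q + 1) → Fin (q + q)) l') : B k Γ (Fin (q + q)))) = Fin.snoc x (y l) := by
      funext l'
      refine Fin.lastCases ?_ (fun i => ?_) l'
      · simp [hy]
      · simp [hx]
    rw [h4, vand_snoc] at h3
    have h5 : ∏ i, (x i - y l) = (-1) ^ q * ∏ i, (y l - x i) := by
      have : ∀ i, x i - y l = (-1) * (y l - x i) := fun i => by ring
      simp only [this]
      rw [Finset.prod_mul_distrib, Finset.prod_const, Finset.card_univ, Fintype.card_fin]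
    have h6 : vand x ^ K * ((∏ i, (y l - x i)) ^ N₁ * H) =
        (vand x * ∏ i, (x i - y l)) ^ N₁ * ((-1) ^ (q * N₁) * vand x ^ (K - N₁) * H) := by
      have h7 : ((-1 : B k Γ (Fin (q + q))) ^ (q * N₁)) * (-1) ^ (q * N₁) = 1 := by
        rw [← mul_pow]; simp
      have h8 : vand x ^ K = vand x ^ N₁ * vand x ^ (K - N₁) := by
        rw [← pow_add]; congr 1; omega
      rw [h5, h8, mul_pow, mul_pow, ← pow_mul]
      calc _ = vand x ^ N₁ * vand x ^ (K - N₁) * ((∏ i, (y l - x i)) ^ N₁ * H) *
            (((-1 : B k Γ (Fin (q + q))) ^ (q * N₁)) * (-1) ^ (q * N₁)) := by rw [h7, mul_one]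
        _ = _ := by ring
    rw [h6]
    exact h3
  have hC : ∀ Z ∈ Ideal.span ({vand x} ∪ Set.range (fun l : Fin q => (∏ i : Fin q, (y l - x i)) ^ N₁)),
      ∀ H : B k Γ (Fin (q + q)), E (q + q) e (vand x ^ K * (Z * H)) = 0 := by
    intro Z hZ
    refine Submodule.span_induction ?_ ?_ ?_ ?_ hZ
    · rintro z (hz | ⟨l, rfl⟩) H
      · rw [Set.mem_singleton_iff] at hz
        rw [hz, ← mul_assoc, ← pow_succ]
        exact hA H
      · exact hB l H
    · intro H
      rw [zero_mul, mul_zero, map_zero]
    · intro z w _ _ hz hw H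
      rw [add_mul, mul_add, map_add, hz, hw, add_zero]
    · intro c z _ hz H
      have : c • z * H = z * (c * H) := by rw [smul_eq_mul]; ring
      rw [this]
      exact hz _
  have hF : pf (Fin.castAdd q) (Delta k Γ q ^ K * F) = vand x ^ K * pf (Fin.castAdd q) F := by
    rw [map_mul, map_pow, hDx]
  have hG : pf (Fin.natAdd q) (Delta k Γ q ^ b * G) = vand y ^ b * pf (Fin.natAdd q) G := by
    rw [map_mul, map_pow, hDy]
  rw [E_mul_E, hF, hG]
  have h3 := hC _ hb (pf (Fin.castAdd q) F * pf (Fin.natAdd q) G)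
  rw [← h3]
  congr 1
  ring

end StepCASec

section StepCBSec

open scoped BigOperators

variable {k : Type u} [CommRing k] {Γ : Type} [AddCommMonoid Γ] [Expo Γ]

/-- Step C. Hint: choose `N₁ = N + q`, `b` from `vand_radical` (`j = 1`), `N' = max N₁ b`. Suppose
`¬ Loc q N' e`; let `K + 1` be the least exponent with `Loc q (K + 1) e` (`Nat.find`; it is not `0`
and larger than `N'` by `Loc.mono`). Then `TT q K e = ⊤ = TT q N' e` (`TT_eq_top`) but by
`prod_vanish` every `E q e (Delta ^ K * F)` kills `TT q N' e` (write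
`Delta ^ N' * G = Delta ^ b * (Delta ^ (N' - b) * G)`), so `TT q K e = ⊥`, contradiction. -/
theorem stepC (q N : ℕ) : ∃ N', ∀ (M : Type w) [AddCommGroup M] [Module k M]
    (e : A k Γ →ₗ[k] Module.End k M), LieMap e → Simple e → Loc (q + 1) N e →
    (∃ K, Loc q K e) → Loc q N' e := by
  classical
  obtain ⟨b, hb⟩ := vand_radical (fun i : Fin q => (X (Fin.castAdd q i) : B k Γ (Fin (q + q))))
    (fun i : Fin q => (X (Fin.natAdd q i) : B k Γ (Fin (q + q)))) 1 (N + q)
  rw [pow_one] at hb
  refine ⟨max (N + q) b, ?_⟩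
  intro M _ _ e he hs h1 hex
  by_contra hcon
  have hK1 : Loc q (Nat.find hex) e := Nat.find_spec hex
  have hlt : max (N + q) b < Nat.find hex := by
    by_contra hle
    exact hcon (hK1.mono (not_lt.1 hle))
  obtain ⟨K, hK⟩ : ∃ K, Nat.find hex = K + 1 := ⟨Nat.find hex - 1, by omega⟩
  rw [hK] at hK1 hlt
  have hKn : ¬ Loc q K e := Nat.find_min hex (by omega)
  have hbK : N + q ≤ K := by
    have := le_max_left (N + q) b
    omega
  have t2 : TT q (max (N + q) b) e = ⊤ := TT_eq_top he hs hcon
  apply hKn
  intro F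
  refine LinearMap.ext fun x => ?_
  have hx : x ∈ TT q (max (N + q) b) e := by rw [t2]; trivial
  unfold TT at hx
  induction hx using Submodule.span_induction with
  | mem x hx =>
    obtain ⟨G, m, rfl⟩ := hx
    have h3 : Delta k Γ q ^ (max (N + q) b) * G =
        Delta k Γ q ^ b * (Delta k Γ q ^ (max (N + q) b - b) * G) := by
      rw [← mul_assoc, ← pow_add, Nat.add_sub_cancel' (le_max_right _ _)]
    rw [h3]
    have h4 := prod_vanish (Nat.le_succ (N + q)) hb e he h1 hbK hK1 F
      (Delta k Γ q ^ (max (N + q) b - b) * G)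
    have h5 := congrArg (fun f : Module.End k M => f m) h4
    exact h5
  | zero => rw [map_zero, map_zero]
  | add x y _ _ hx hy => rw [map_add, map_add, hx, hy]
  | smul c x _ hx => rw [map_smul, map_smul, hx]

end StepCBSec

section StepDSec

open scoped BigOperators

variable {k : Type u} [CommRing k] {Γ : Type} [AddCommMonoid Γ] [Expo Γ]

private theorem aux_zero (N : ℕ) (M : Type w) [AddCommGroup M] [Module k M]
    (e : A k Γ →ₗ[k] Module.End k M) (hs : Simple e) (h : Loc 0 N e) : False := by
  have h1 := h 1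
  have h2 : (Delta k Γ 0 ^ N * 1 : B k Γ (Fin 0)) = mon k (0 : Fin 0 → Γ) := by
    rw [mon_zero]
    simp [Delta, vand]
  rw [h2] at h1
  have h3 : E 0 e (mon k (0 : Fin 0 → Γ)) = 1 := by
    simp [E, EE]
  rw [h3] at h1
  have := hs.nontriv
  obtain ⟨x, hx⟩ := exists_ne (0 : M)
  exact hx (by simpa using congrArg (fun f : Module.End k M => f x) h1)

private theorem aux_one (N : ℕ) (M : Type w) [AddCommGroup M] [Module k M]
    (e : A k Γ →ₗ[k] Module.End k M) (h : Loc 1 N e) : e = 0 := by
  refine aext fun a => ?_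
  have h1 := h (mon k (fun _ => a))
  have h2 : (Delta k Γ 1 ^ N * mon k (fun _ => a) : B k Γ (Fin 1)) = mon k (fun _ => a) := by
    simp [Delta, vand]
  rw [h2] at h1
  simpa [E, EE] using h1

/-- Step D. Hint: induction on `s`. For `s = 0`: `Loc 0 N e` says `1 = 0` in `End M`
(`E 0 e (Delta ^ N * 1) = 1`, `Delta k Γ 0 = 1`), contradiction to `Simple.nontriv`. For `s = 1`:
`Loc 1 N e` says `e = 0`. For `s = q + 1`, `q ≥ 1`: let `N₁` be given by `stepC q N` and `N₂` by the
induction hypothesis for `q`, `N₁`; `N' = max N N₂`: either `∀ K, ¬ Loc q K e`, take `r = q`; or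
`Loc q N₁ e`, and the induction hypothesis applies (`Loc.mono`). -/
theorem stepD (s N : ℕ) : ∃ N', ∀ (M : Type w) [AddCommGroup M] [Module k M]
    (e : A k Γ →ₗ[k] Module.End k M), LieMap e → Simple e → e ≠ 0 → Loc s N e →
    ∃ r, 1 ≤ r ∧ r < s ∧ Loc (r + 1) N' e ∧ ∀ K, ¬ Loc r K e := by
  induction s generalizing N with
  | zero =>
    exact ⟨0, fun M _ _ e _ hs _ h => (aux_zero N M e hs h).elim⟩
  | succ q ih =>
    obtain ⟨N₁, hN₁⟩ := stepC.{u, w} (k := k) (Γ := Γ) q N
    obtain ⟨N₂, hN₂⟩ := ih N₁
    refine ⟨max N N₂, fun M _ _ e he hs h0 h => ?_⟩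
    rcases Nat.eq_zero_or_pos q with hq | hq
    · subst hq
      exact (h0 (aux_one N M e h)).elim
    · by_cases hK : ∃ K, Loc q K e
      · obtain ⟨r, hr1, hr2, hr3, hr4⟩ := hN₂ M e he hs h0 (hN₁ M e he hs h hK)
        exact ⟨r, hr1, by omega, hr3.mono (le_max_right _ _), hr4⟩
      · exact ⟨q, hq, by omega, h.mono (le_max_left _ _), fun K hK' => hK ⟨K, hK'⟩⟩

end StepDSec

end W94
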