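import Pool.Agent.LibWitt94.Base
import Pool.Agent.LibWitt94.Nu
import Pool.Agent.LibWitt94.OpCalc
import Pool.Agent.LibWitt94.Words

universe u w

namespace W94

section VanishASec

open scoped BigOperators

variable {k : Type u} [CommRing k] {Γ : Type} [AddCommMonoid Γ] [Expo Γ] {r : ℕ}
variable {R : Type w} [Ring R] [Algebra k R]

/-- words with the functions on the left: variables `y_l = X (inl l)`, `x_i = X (inr i)` -/
noncomputable def WX {n : ℕ} (act : B k Γ (Fin r) →ₐ[k] R) (rhos : Fin r → (A k Γ →ₗ[k] R))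
    (τ : Fin n → Fin r) : B k Γ (Fin n ⊕ Fin r) →ₗ[k] R :=
  lin (fun γ => act (mon k (fun i => γ (Sum.inr i))) *
    (List.ofFn (fun l => rhos (τ l) (tt k (γ (Sum.inl l))))).prod)

theorem WX_apply {n : ℕ} (act : B k Γ (Fin r) →ₐ[k] R) (rhos : Fin r → (A k Γ →ₗ[k] R))
    (τ : Fin n → Fin r) (F : B k Γ (Fin n)) (b : B k Γ (Fin r)) :
    WX act rhos τ (pf Sum.inl F * pf Sum.inr b) = act b * EE (fun l => rhos (τ l)) F := by
  induction F using mon_induction with
  | h0 => simp
  | hadd F G hF hG => rw [map_add, add_mul, map_add, hF, hG, map_add, mul_add]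
  | hmon c α =>
    induction b using mon_induction with
    | h0 => simp
    | hadd F G hF hG => rw [map_add, mul_add, map_add, hF, hG, map_add, add_mul]
    | hmon e β =>
      rw [map_smul, map_smul, smul_mul_assoc, mul_smul_comm, map_smul, map_smul, map_smul, map_smul,
        smul_mul_assoc, mul_smul_comm, pf_mon, pf_mon, mon_mul, smul_comm c e, WX, lin_mon, EE_mon]
      have h1 : (fun i => (push Sum.inl α + push Sum.inr β : Fin n ⊕ Fin r → Γ) (Sum.inr i)) = β := by
        funext i
        simp [push_apply]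
      have h2 : ∀ l, (push Sum.inl α + push Sum.inr β : Fin n ⊕ Fin r → Γ) (Sum.inl l) = α l := by
        intro l
        simp [push_apply]
      simp only [h1, h2]

private theorem B_sum_induction {n : ℕ} {P : B k Γ (Fin n ⊕ Fin r) → Prop}
    (Z : B k Γ (Fin n ⊕ Fin r)) (h0 : P 0) (hadd : ∀ F G, P F → P G → P (F + G))
    (h : ∀ (F : B k Γ (Fin n)) (b : B k Γ (Fin r)), P (pf Sum.inl F * pf Sum.inr b)) : P Z := by
  induction Z using mon_induction with
  | h0 => exact h0
  | hadd F G hF hG => exact hadd F G hF hG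
  | hmon c γ =>
    have e1 : c • mon k γ = pf Sum.inl (c • mon k (fun l => γ (Sum.inl l))) *
        pf Sum.inr (mon k (fun i => γ (Sum.inr i))) := by
      rw [map_smul, smul_mul_assoc, pf_mon, pf_mon, mon_mul]
      congr 2
      funext o
      cases o with
      | inl l => simp [push_apply]
      | inr i => simp [push_apply]
    rw [e1]
    exact h _ _

/-- the inclusion of the variables except the first letter -/
private def sg (n r : ℕ) : Fin n ⊕ Fin r → Fin (n + 1) ⊕ Fin r := Sum.map Fin.succ id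

private theorem B_sumsucc_induction {n : ℕ} {P : B k Γ (Fin (n + 1) ⊕ Fin r) → Prop}
    (Z : B k Γ (Fin (n + 1) ⊕ Fin r)) (h0 : P 0) (hadd : ∀ F G, P F → P G → P (F + G))
    (h : ∀ (a : Γ) (G : B k Γ (Fin n ⊕ Fin r)), P (inj (Sum.inl 0) (tt k a) * pf (sg n r) G)) :
    P Z := by
  induction Z using mon_induction with
  | h0 => exact h0
  | hadd F G hF hG => exact hadd F G hF hG
  | hmon c γ =>
    have e1 : c • mon k γ = inj (Sum.inl 0) (tt k (γ (Sum.inl 0))) *
        pf (sg n r) (c • mon k (fun o => γ (sg n r o))) := by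
      rw [map_smul, mul_smul_comm, inj_tt, pf_mon, mon_mul]
      congr 2
      funext o
      cases o with
      | inl l =>
        refine Fin.cases ?_ (fun l' => ?_) l
        · simp [push_apply, sg]
        · simp [push_apply, sg]
      | inr i => simp [push_apply, sg]
    rw [e1]
    exact h _ _

private theorem WX_succ {N n : ℕ} {act : B k Γ (Fin r) →ₐ[k] R}
    {rhos : Fin r → (A k Γ →ₗ[k] R)} (h : IsSep r N act rhos) (τ : Fin (n + 1) → Fin r)
    (f : A k Γ) (G : B k Γ (Fin n ⊕ Fin r)) :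
    WX act rhos τ (inj (Sum.inl 0) f * pf (sg n r) G) =
      rhos (τ 0) f * WX act rhos (fun l => τ l.succ) G -
        WX act rhos (fun l => τ l.succ) (inj (Sum.inr (τ 0)) f * dd (Sum.inr (τ 0)) G) := by
  induction G using B_sum_induction with
  | h0 => simp
  | hadd F G hF hG =>
    rw [map_add, mul_add, map_add, hF, hG, map_add, mul_add, map_add, mul_add, map_add]
    abel
  | h F b =>
    have e1 : inj (Sum.inl 0) f * pf (sg n r) (pf Sum.inl F * pf Sum.inr b) =
        pf Sum.inl (inj 0 f * pf Fin.succ F) * pf Sum.inr b := by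
      rw [map_mul, map_mul, pf_pf, pf_pf, pf_pf, pf_inj, mul_assoc]
      rfl
    have e2 : inj (Sum.inr (τ 0)) f * dd (Sum.inr (τ 0))
        (pf Sum.inl F * pf Sum.inr b : B k Γ (Fin n ⊕ Fin r)) =
        pf Sum.inl F * pf Sum.inr (inj (τ 0) f * dd (τ 0) b) := by
      rw [dd_mul, dd_pf, dd_pf, map_mul, pf_inj]
      simp
      ring
    rw [e1, e2, WX_apply, WX_apply, WX_apply, EE_succ]
    have e3 := h.comm (τ 0) f b
    have e4 : rhos (τ 0) f * act b = act b * rhos (τ 0) f + act (inj (τ 0) f * dd (τ 0) b) := by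
      rw [← e3]; abel
    rw [← mul_assoc, ← mul_assoc, e4]
    noncomm_ring

/-- the embedding of the variables `y_0`, `x` -/
private def rg (n r : ℕ) : Option (Fin r) → Fin (n + 1) ⊕ Fin r :=
  fun o => o.elim (Sum.inl 0) Sum.inr

private theorem WX_first {n : ℕ} (act : B k Γ (Fin r) →ₐ[k] R)
    (rhos : Fin r → (A k Γ →ₗ[k] R)) (τ : Fin (n + 1) → Fin r)
    (Z : B k Γ (Option (Fin r))) (F : B k Γ (Fin n)) :
    WX act rhos τ (pf (rg n r) Z * pf (Sum.inl ∘ Fin.succ) F) =
      Op act (rhos (τ 0)) Z * EE (fun l => rhos (τ l.succ)) F := by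
  induction Z using B_option_induction with
  | h0 => simp
  | hadd F G hF hG => rw [map_add, add_mul, map_add, hF, hG, map_add, add_mul]
  | h a b =>
    have e1 : pf (rg n r) (inj none (tt k a) * pf some b) * pf (Sum.inl ∘ Fin.succ) F =
        pf Sum.inl (inj 0 (tt k a) * pf Fin.succ F) * pf Sum.inr b := by
      rw [map_mul, map_mul, pf_pf, pf_pf, pf_inj, pf_inj, mul_assoc, mul_assoc]
      congr 1
      exact mul_comm _ _
    rw [e1, WX_apply, EE_succ, Op_apply, mul_assoc]

/-- Vanishing at `y_l = x_{τ l}`. Hint: induction on `n`. If `l = 0` the expression is a sum of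
products `Op act (rhos (τ 0)) ((X none - X (some (τ 0))) ^ M * ..) * (word)`, zero by locality.
If `l = l'.succ`: write the first letter as `act b * rhos (τ 0) f = rhos (τ 0) f * act b -
act (inj (τ 0) f * dd (τ 0) b)` (`h.comm`): the first part has the form `rhos (τ 0) f *` (the
statement for `n - 1` letters, same `M`), the second is the statement for `n - 1` letters and the
derivative with respect to `X (inr (τ 0))`, divisible by `(y_l - x_{τ l}) ^ (M - 1)`. -/
theorem WX_vanish {N n : ℕ} {act : B k Γ (Fin r) →ₐ[k] R} {rhos : Fin r → (A k Γ →ₗ[k] R)}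
    (h : IsSep r N act rhos) (τ : Fin n → Fin r) (l : Fin n) (M : ℕ) (hM : N + n ≤ M)
    (F : B k Γ (Fin n ⊕ Fin r)) :
    WX act rhos τ ((X (Sum.inl l) - X (Sum.inr (τ l))) ^ M * F) = 0 := by
  induction n generalizing M with
  | zero => exact l.elim0
  | succ n ih =>
    refine Fin.cases ?_ (fun l' => ?_) l
    · -- the first letter
      induction F using B_sumsucc_induction with
      | h0 => simp
      | hadd F G hF hG => rw [mul_add, map_add, hF, hG, add_zero]
      | h a G =>
        induction G using B_sum_induction with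
        | h0 => simp
        | hadd F G hF hG => rw [map_add, mul_add, mul_add, map_add, hF, hG, add_zero]
        | h F b =>
          have e1 : (X (Sum.inl 0) - X (Sum.inr (τ 0))) ^ M * (inj (Sum.inl 0) (tt k a) *
              pf (sg n r) (pf Sum.inl F * pf Sum.inr b)) =
              pf (rg n r) ((X none - X (some (τ 0))) ^ N *
                ((X none - X (some (τ 0))) ^ (M - N) * (inj none (tt k a) * pf some b))) *
              pf (Sum.inl ∘ Fin.succ) F := by
            rw [← mul_assoc _ _ (inj none (tt k a) * pf some b), ← pow_add,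
              Nat.add_sub_cancel' (by omega : N ≤ M)]
            rw [map_mul, map_mul, map_mul, map_pow, map_sub, pf_X, pf_X, pf_pf, pf_pf, pf_pf,
              pf_inj]
            have e2 : (sg n r ∘ Sum.inl) = (Sum.inl ∘ Fin.succ) := rfl
            have e3 : (sg n r ∘ Sum.inr) = (Sum.inr : Fin r → Fin (n + 1) ⊕ Fin r) := rfl
            have e4 : (rg n r ∘ some) = (Sum.inr : Fin r → Fin (n + 1) ⊕ Fin r) := rfl
            rw [e2, e3, e4]
            change _ = (X (Sum.inl 0) - X (Sum.inr (τ 0))) ^ M * (inj (Sum.inl 0) (tt k a) *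
              pf Sum.inr b) * _
            ring
          rw [e1, WX_first, h.loc (τ 0), zero_mul]
    · induction F using B_sumsucc_induction with
      | h0 => simp
      | hadd F G hF hG => rw [mul_add, map_add, hF, hG, add_zero]
      | h a G =>
        obtain ⟨M', rfl⟩ : ∃ M', M = M' + 1 := ⟨M - 1, by omega⟩
        have e1 : (X (Sum.inl l'.succ) - X (Sum.inr (τ l'.succ))) ^ (M' + 1) *
            (inj (Sum.inl 0) (tt k a) * pf (sg n r) G) =
            inj (Sum.inl 0) (tt k a) * pf (sg n r)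
              ((X (Sum.inl l') - X (Sum.inr (τ l'.succ))) ^ (M' + 1) * G) := by
          rw [map_mul, map_pow, map_sub, pf_X, pf_X]
          change _ = inj (Sum.inl 0) (tt k a) * ((X (Sum.inl l'.succ) -
            X (Sum.inr (τ l'.succ))) ^ (M' + 1) * _)
          ring
        rw [e1, WX_succ h]
        have e2 := ih (fun l => τ l.succ) l' (M' + 1) (by omega) G
        have e3 : inj (Sum.inr (τ 0)) (tt k a) * dd (Sum.inr (τ 0))
            ((X (Sum.inl l') - X (Sum.inr (τ l'.succ)) : B k Γ (Fin n ⊕ Fin r)) ^ (M' + 1) * G) =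
            (X (Sum.inl l') - X (Sum.inr (τ l'.succ))) ^ M' *
              (inj (Sum.inr (τ 0)) (tt k a) *
                ((X (Sum.inl l') - X (Sum.inr (τ l'.succ))) * dd (Sum.inr (τ 0)) G +
                  (((M' + 1 : ℕ) : B k Γ (Fin n ⊕ Fin r)) *
                    dd (Sum.inr (τ 0)) (X (Sum.inl l') - X (Sum.inr (τ l'.succ)))) * G)) := by
          rw [dd_mul, dd_pow, Nat.add_sub_cancel]
          ring
        rw [e2, e3]
        have e4 := ih (fun l => τ l.succ) l' M' (by omega)
          (inj (Sum.inr (τ 0)) (tt k a) *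
            ((X (Sum.inl l') - X (Sum.inr (τ l'.succ))) * dd (Sum.inr (τ 0)) G +
              (((M' + 1 : ℕ) : B k Γ (Fin n ⊕ Fin r)) *
                dd (Sum.inr (τ 0)) (X (Sum.inl l') - X (Sum.inr (τ l'.succ)))) * G))
        rw [e4]
        simp

end VanishASec

section VanishBSec

open scoped BigOperators

variable {k : Type u} [CommRing k] {Γ : Type} [AddCommMonoid Γ] [Expo Γ] {r : ℕ}
variable {R : Type w} [Ring R] [Algebra k R]

/-- Two letters at the same point. Hint: `(y_a - y_b) ^ K = ((y_a - x) - (y_b - x)) ^ K`, binomial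
formula, each term is divisible by `(y_a - x) ^ (N + n)` or `(y_b - x) ^ (N + n)`; `WX_vanish`. -/
theorem EE_vanish {N n : ℕ} {act : B k Γ (Fin r) →ₐ[k] R} {rhos : Fin r → (A k Γ →ₗ[k] R)}
    (h : IsSep r N act rhos) (τ : Fin n → Fin r) (a b : Fin n) (hab : a ≠ b) (hτ : τ a = τ b)
    (K : ℕ) (hK : 2 * (N + n) ≤ K) (F : B k Γ (Fin n)) :
    EE (fun l => rhos (τ l)) ((X a - X b) ^ K * F) = 0 := by
  have e0 : EE (fun l => rhos (τ l)) ((X a - X b) ^ K * F) =
      WX act rhos τ ((X (Sum.inl a) - X (Sum.inl b)) ^ K * pf Sum.inl F) := by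
    have h1 := WX_apply act rhos τ ((X a - X b) ^ K * F) 1
    rw [map_one, mul_one, map_one, one_mul] at h1
    rw [← h1, map_mul, map_pow, map_sub, pf_X, pf_X]
  rw [e0]
  set x : B k Γ (Fin n ⊕ Fin r) := X (Sum.inr (τ a)) with hx
  have e1 : (X (Sum.inl a) - X (Sum.inl b) : B k Γ (Fin n ⊕ Fin r)) =
      (X (Sum.inl a) - x) + -(X (Sum.inl b) - x) := by ring
  rw [e1, add_pow, Finset.sum_mul, map_sum]
  refine Finset.sum_eq_zero fun m hm => ?_
  by_cases hc : N + n ≤ m
  · have e2 : (X (Sum.inl a) - x) ^ m * (-(X (Sum.inl b) - x)) ^ (K - m) *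
        ((K.choose m : ℕ) : B k Γ (Fin n ⊕ Fin r)) * pf Sum.inl F =
        (X (Sum.inl a) - X (Sum.inr (τ a))) ^ m * ((-(X (Sum.inl b) - x)) ^ (K - m) *
        ((K.choose m : ℕ) : B k Γ (Fin n ⊕ Fin r)) * pf Sum.inl F) := by
      rw [hx]; ring
    rw [e2]
    exact WX_vanish h τ a m hc _
  · have e2 : (X (Sum.inl a) - x) ^ m * (-(X (Sum.inl b) - x)) ^ (K - m) *
        ((K.choose m : ℕ) : B k Γ (Fin n ⊕ Fin r)) * pf Sum.inl F =
        (X (Sum.inl b) - X (Sum.inr (τ b))) ^ (K - m) * ((X (Sum.inl a) - x) ^ m *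
        (-1) ^ (K - m) * ((K.choose m : ℕ) : B k Γ (Fin n ⊕ Fin r)) * pf Sum.inl F) := by
      rw [neg_pow, ← hτ, ← hx]; ring
    rw [e2]
    exact WX_vanish h τ b (K - m) (by omega) _

/-- only bijective `τ` survive. Hint: `E_sum`, `EE_vanish`, `sub_dvd_vand`. -/
theorem E_Delta_eq_sum_perm {N : ℕ} {act : B k Γ (Fin r) →ₐ[k] R}
    {rhos : Fin r → (A k Γ →ₗ[k] R)} (h : IsSep r N act rhos) (K : ℕ) (hK : 2 * (N + r) ≤ K)
    (F : B k Γ (Fin r)) :
    E r (∑ i, rhos i) (Delta k Γ r ^ K * F) =
      ∑ σ : Equiv.Perm (Fin r), EE (fun l => rhos (σ l)) (Delta k Γ r ^ K * F) := by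
  rw [E_sum]
  symm
  refine Fintype.sum_of_injective (fun σ : Equiv.Perm (Fin r) => (σ : Fin r → Fin r))
    DFunLike.coe_injective _ _ ?_ (fun σ => rfl)
  intro τ hτ
  have hinj : ¬ Function.Injective τ := by
    intro hi
    exact hτ ⟨Equiv.ofBijective τ (Finite.injective_iff_bijective.1 hi), rfl⟩
  unfold Function.Injective at hinj
  push Not at hinj
  obtain ⟨a, b, hab, hne⟩ := hinj
  obtain ⟨w, hw⟩ := sub_dvd_vand (fun i => (X i : B k Γ (Fin r))) a b hne
  have e1 : Delta k Γ r ^ K * F = (X a - X b) ^ K * (w ^ K * F) := by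
    rw [Delta, hw, mul_pow, mul_assoc]
  rw [e1]
  exact EE_vanish h τ a b hne hab K hK _

end VanishBSec

section PermWordSec

open scoped BigOperators

variable {k : Type u} [CommRing k] {Γ : Type} [AddCommMonoid Γ] [Expo Γ] {r : ℕ}
variable {R : Type w} [Ring R] [Algebra k R]

private theorem ofFn_prod_mul {n : ℕ} (x y : Fin n → R) (hc : ∀ i j, i ≠ j → x i * y j = y j * x i) :
    (List.ofFn x).prod * (List.ofFn y).prod = (List.ofFn (fun i => x i * y i)).prod := by
  induction n with
  | zero => simp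
  | succ n ih =>
    rw [List.ofFn_succ, List.ofFn_succ, List.ofFn_succ, List.prod_cons, List.prod_cons,
      List.prod_cons]
    have h1 := ih (fun i => x i.succ) (fun i => y i.succ) (fun i j hij => hc _ _ (by simpa using hij))
    have h2 : Commute (y 0) (List.ofFn (fun i : Fin n => x i.succ)).prod := by
      refine Commute.list_prod_right _ _ ?_
      intro z hz
      rw [List.mem_ofFn] at hz
      obtain ⟨i, rfl⟩ := hz
      exact (hc i.succ 0 (Fin.succ_ne_zero i)).symm
    rw [← h1]
    calc x 0 * (List.ofFn (fun i : Fin n => x i.succ)).prod *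
          (y 0 * (List.ofFn (fun i : Fin n => y i.succ)).prod)
        = x 0 * ((List.ofFn (fun i : Fin n => x i.succ)).prod * y 0) *
          (List.ofFn (fun i : Fin n => y i.succ)).prod := by noncomm_ring
      _ = x 0 * (y 0 * (List.ofFn (fun i : Fin n => x i.succ)).prod) *
          (List.ofFn (fun i : Fin n => y i.succ)).prod := by rw [h2.eq]
      _ = _ := by noncomm_ring

private theorem WSpan_mul {S : Set R} {L L' : ℕ} {a b : R} (ha : a ∈ WSpan k S L)
    (hb : b ∈ WSpan k S L') : a * b ∈ WSpan k S (L + L') := by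
  have h1 : a * b ∈ WSpan k S L * WSpan k S L' := Submodule.mul_mem_mul ha hb
  refine (?_ : WSpan k S L * WSpan k S L' ≤ WSpan k S (L + L')) h1
  unfold WSpan
  rw [Submodule.span_mul_span]
  refine Submodule.span_mono ?_
  rintro _ ⟨_, ⟨l, hl, hl', rfl⟩, _, ⟨l', hl2, hl2', rfl⟩, rfl⟩
  refine ⟨l ++ l', by rw [List.length_append]; omega, ?_, by simp⟩
  intro y hy
  rcases List.mem_append.1 hy with h | h
  · exact hl' y h
  · exact hl2' y h

private theorem WSpan_mono {S S' : Set R} {L : ℕ} (h : S ⊆ S') : WSpan k S L ≤ WSpan k S' L := by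
  refine Submodule.span_mono ?_
  rintro _ ⟨l, hl, hl', rfl⟩
  exact ⟨l, hl, fun y hy => h (hl' y hy), rfl⟩

private theorem WSpan_ofFn {S : Set R} {L : ℕ} {n : ℕ} (x : Fin n → R)
    (hx : ∀ i, x i ∈ WSpan k S L) : (List.ofFn x).prod ∈ WSpan k S (L * n) := by
  induction n with
  | zero => exact Submodule.subset_span ⟨[], by simp, by simp, by simp⟩
  | succ n ih =>
    rw [List.ofFn_succ, List.prod_cons]
    have h1 := ih (fun i => x i.succ) (fun i => hx _)
    have h2 := WSpan_mul (hx 0) h1
    have h3 : L + L * n = L * (n + 1) := by ring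
    rwa [h3] at h2

/-- Reordering. Hint: everything at different points commutes (`AlgI_commute`), so for monomials
`F = mon α`, `b = mon β` the product is the product over `i` (in the order of `Fin r`) of
`rhos i (tt (α (σ⁻¹ i))) * act (inj i (tt (β i))) * ν i` (`Finset.noncommProd` and
`Finset.noncommProd_mul_distrib`, or induction on lists), and each factor is in
`WSpan (range (rhos i)) 3`. The product of `r` elements of `WSpan S 3` is in `WSpan S (3 r)`. -/
theorem perm_word {N : ℕ} {act : B k Γ (Fin r) →ₐ[k] R} {rhos : Fin r → (A k Γ →ₗ[k] R)}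
    (h : IsSep r N act rhos) (ν : Fin r → R) (hν : ∀ i, IsNu act rhos i (ν i))
    (σ : Equiv.Perm (Fin r)) (F b : B k Γ (Fin r)) :
    EE (fun l => rhos (σ l)) F * act b * (List.ofFn ν).prod ∈
      WSpan k (⋃ i, Set.range (rhos i)) (3 * r) := by
  refine mon_induction (P := fun F => EE (fun l => rhos (σ l)) F * act b * (List.ofFn ν).prod ∈
      WSpan k (⋃ i, Set.range (rhos i)) (3 * r)) F ?_ ?_ ?_
  · rw [map_zero, zero_mul, zero_mul]; exact Submodule.zero_mem _
  · intro F G hF hG
    rw [map_add, add_mul, add_mul]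
    exact Submodule.add_mem _ hF hG
  intro c α
  rw [map_smul, smul_mul_assoc, smul_mul_assoc]
  refine Submodule.smul_mem _ _ ?_
  refine mon_induction (P := fun b => EE (fun l => rhos (σ l)) (mon k α) * act b *
      (List.ofFn ν).prod ∈ WSpan k (⋃ i, Set.range (rhos i)) (3 * r)) b ?_ ?_ ?_
  · rw [map_zero, mul_zero, zero_mul]; exact Submodule.zero_mem _
  · intro F G hF hG
    rw [map_add, mul_add, add_mul]
    exact Submodule.add_mem _ hF hG
  intro c' β
  rw [map_smul, mul_smul_comm, smul_mul_assoc]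
  refine Submodule.smul_mem _ _ ?_
  -- the letters
  set x : Fin r → R := fun i => rhos i (tt k (α (σ.symm i))) with hx
  set y : Fin r → R := fun i => act (inj i (tt k (β i))) with hy
  have hxm : ∀ i, x i ∈ AlgI act rhos i := fun i => rhos_mem_AlgI act rhos i _
  have hym : ∀ i, y i ∈ AlgI act rhos i := fun i => act_mem_AlgI act rhos i _
  have h1 : EE (fun l => rhos (σ l)) (mon k α) = (List.ofFn x).prod := by
    rw [EE, lin_mon]
    have e1 : (List.ofFn fun l => (rhos (σ l)) (tt k (α l))) = List.ofFn (x ∘ σ) := by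
      congr 1
      funext l
      simp [hx]
    rw [e1]
    refine List.Perm.prod_eq' (Equiv.Perm.ofFn_comp_perm σ x) ?_
    rw [List.pairwise_ofFn]
    intro i j hij
    exact AlgI_commute h (fun hh => hij.ne (σ.injective hh)) (hxm _) (hxm _)
  have h2 : act (mon k β) = (List.ofFn y).prod := by
    rw [mon_eq_prod_inj, ← List.prod_ofFn, map_list_prod, List.map_ofFn]
    rfl
  have h3 : (List.ofFn x).prod * (List.ofFn y).prod * (List.ofFn ν).prod =
      (List.ofFn (fun i => x i * y i * ν i)).prod := by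
    rw [ofFn_prod_mul x y (fun i j hij => AlgI_commute h hij (hxm i) (hym j)),
      ofFn_prod_mul _ ν (fun i j hij => AlgI_commute h hij
        (Subalgebra.mul_mem _ (hxm i) (hym i)) (hν j).1)]
  rw [h1, h2, h3]
  refine WSpan_ofFn _ fun i => ?_
  exact WSpan_mono (Set.subset_iUnion (fun i => Set.range (rhos i)) i) ((hν i).2.1 _ _)

/-- all `ν` have finite order. Hint: `Algebra.adjoin_induction`, `Ord.mul`, `Ord.rho`, `Ord.act`. -/
theorem nu_ord {N : ℕ} {act : B k Γ (Fin r) →ₐ[k] R} {rhos : Fin r → (A k Γ →ₗ[k] R)}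
    (h : IsSep r N act rhos) {i : Fin r} {x : R} (hx : x ∈ AlgI act rhos i) : ∃ d, Ord act d x := by
  unfold AlgI at hx
  induction hx using Algebra.adjoin_induction with
  | mem x hx =>
    rcases hx with ⟨f, rfl⟩ | ⟨f, rfl⟩
    · exact ⟨2, Ord.rho (h.commOn i) f⟩
    · exact ⟨1, Ord.act act _⟩
  | algebraMap c =>
    refine ⟨1, ?_⟩
    rw [Algebra.algebraMap_eq_smul_one]
    have h1 := Ord.smul c (Ord.act act (1 : B k Γ (Fin r)))
    rwa [map_one] at h1
  | add x y _ _ hx hy =>
    obtain ⟨d, hd⟩ := hx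
    obtain ⟨e, he⟩ := hy
    exact ⟨max d e, Ord.add (hd.mono (le_max_left _ _)) (he.mono (le_max_right _ _))⟩
  | mul x y _ _ hx hy =>
    obtain ⟨d, hd⟩ := hx
    obtain ⟨e, he⟩ := hy
    exact ⟨d + e, Ord.mul hd he⟩

omit [Expo Γ] in
private theorem list_ord {act : B k Γ (Fin r) →ₐ[k] R} (l : List R)
    (hl : ∀ x ∈ l, ∃ d, Ord act d x) : ∃ d, Ord act d l.prod := by
  induction l with
  | nil =>
    refine ⟨1, ?_⟩
    have h1 := Ord.act act (1 : B k Γ (Fin r))
    rwa [map_one] at h1
  | cons a l ih =>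
    obtain ⟨d, hd⟩ := ih (fun x hx => hl x (List.mem_cons_of_mem _ hx))
    obtain ⟨e, he⟩ := hl a List.mem_cons_self
    exact ⟨e + d, by rw [List.prod_cons]; exact Ord.mul he hd⟩

omit [Expo Γ] in
private theorem list_cancel {act : B k Γ (Fin r) →ₐ[k] R} (l : List R)
    (hl : ∀ x ∈ l, (∃ d, Ord act d x) ∧ ∀ d q, Ord act d q → x * q = 0 → q = 0) {d : ℕ} {q : R}
    (hq : Ord act d q) (h0 : l.prod * q = 0) : q = 0 := by
  induction l with
  | nil => simpa using h0
  | cons a l ih =>
    have hl' : ∀ x ∈ l, (∃ d, Ord act d x) ∧ ∀ d q, Ord act d q → x * q = 0 → q = 0 :=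
      fun x hx => hl x (List.mem_cons_of_mem _ hx)
    refine ih hl' ?_
    obtain ⟨e, he⟩ := list_ord l (fun x hx => (hl' x hx).1)
    refine (hl a List.mem_cons_self).2 (e + d) _ (Ord.mul he hq) ?_
    rw [← mul_assoc, ← List.prod_cons]
    exact h0

/-- successive cancellation. Hint: induction on the list; `nu_ord`, `Ord.mul`. -/
theorem nu_cancel {N : ℕ} {act : B k Γ (Fin r) →ₐ[k] R} {rhos : Fin r → (A k Γ →ₗ[k] R)}
    (h : IsSep r N act rhos) (ν : Fin r → R) (hν : ∀ i, IsNu act rhos i (ν i)) {d : ℕ} {q : R}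
    (hq : Ord act d q) (h0 : (List.ofFn ν).prod * q = 0) : q = 0 := by
  refine list_cancel (act := act) (List.ofFn ν) ?_ hq h0
  intro x hx
  rw [List.mem_ofFn] at hx
  obtain ⟨i, rfl⟩ := hx
  exact ⟨nu_ord h (hν i).1, (hν i).2.2⟩

end PermWordSec

end W94
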