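import Pool.Agent.LibWitt94.OpCalc
import Pool.Agent.LibWitt94.Vanish
import Pool.Agent.LibWitt94.Words

universe u w

namespace W94

section RhoBSec

open scoped BigOperators

variable {k : Type u} [CommRing k] {Γ : Type} [AddCommMonoid Γ] [Expo Γ] {j : ℕ}

/-- the operators `F ↦ f (X i) ∂_i F - f' (X i) F` on `B` -/
noncomputable def rhoB (k : Type u) [CommRing k] (Γ : Type) [AddCommMonoid Γ] [Expo Γ] (j : ℕ)
    (i : Fin j) : A k Γ →ₗ[k] Module.End k (B k Γ (Fin j)) where
  toFun f := LinearMap.mulLeft k (inj i f) ∘ₗ dd i - LinearMap.mulLeft k (inj i (Dt f))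
  map_add' := fun f h => by
    apply LinearMap.ext; intro F
    simp [add_mul]; abel
  map_smul' := fun c f => by
    apply LinearMap.ext; intro F
    simp [smul_sub]

theorem rhoB_apply (i : Fin j) (f : A k Γ) (F : B k Γ (Fin j)) :
    rhoB k Γ j i f F = inj i f * dd i F - inj i (Dt f) * F := by
  simp [rhoB]

theorem LLm_eq_sum : LLm k Γ (Fin j) = ∑ i, rhoB k Γ j i := by
  apply LinearMap.ext; intro f
  apply LinearMap.ext; intro F
  rw [LLm_apply, LL_apply, del_apply, LinearMap.sum_apply, LinearMap.sum_apply]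
  simp only [rhoB_apply, Finset.sum_sub_distrib, Finset.sum_mul]

private theorem rhoB_Op (i : Fin j) (Z : B k Γ (Option (Fin j))) (G : B k Γ (Fin j)) :
    Op (Algebra.lmul k (B k Γ (Fin j))) (rhoB k Γ j i) Z G =
      ev i Z * dd i G - ev i (dd none Z) * G := by
  refine B_option_induction (P := fun Z => Op (Algebra.lmul k (B k Γ (Fin j))) (rhoB k Γ j i) Z G =
      ev i Z * dd i G - ev i (dd none Z) * G) Z ?_ ?_ ?_
  · simp
  · intro F F' h h'
    simp only [map_add, LinearMap.add_apply, h, h']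
    ring
  · intro a b
    have h1 : dd none (pf some b : B k Γ (Option (Fin j))) = 0 := by
      rw [dd_pf]
      simp
    have h2 : (Algebra.lmul k (B k Γ (Fin j)) b * rhoB k Γ j i (tt k a)) G =
        b * rhoB k Γ j i (tt k a) G := rfl
    rw [Op_apply, h2, dd_mul, h1, dd_inj, mul_zero, add_zero, if_pos rfl, map_mul, map_mul,
      ev_inj_none, ev_inj_none, ev_pf_some, rhoB_apply]
    ring

/-- `B` is a separated system with `N = 2` (functions act by multiplication). Hint for `loc`:
`Op Z F = ev i (dd (some i) Z') - ev i (dd none Z')`-like formula: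
`Op (lmul) (rhoB i) Z F = ev i Z * dd i F - ev i (dd none Z) * F` (`B_option_induction`), and
`(y - x_i) ^ 2` divides `Z`. -/
theorem rhoB_sep : IsSep j 2 (Algebra.lmul k (B k Γ (Fin j))) (rhoB k Γ j) := by
  refine ⟨?_, ?_, ?_, ?_⟩
  · intro i f h
    apply LinearMap.ext; intro F
    rw [LinearMap.sub_apply, Module.End.mul_apply, Module.End.mul_apply]
    have h1 : Dt (f * Dt h - h * Dt f) = f * Dt (Dt h) - h * Dt (Dt f) := by
      simp only [Dt, map_sub, dd_mul]
      ring
    rw [rhoB_apply i (f * Dt h - h * Dt f) F, h1]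
    simp only [rhoB_apply, map_sub, map_mul, dd_mul, dd_inj, if_true]
    ring
  · intro i i' hii f h
    apply LinearMap.ext; intro F
    rw [Module.End.mul_apply, Module.End.mul_apply]
    simp only [rhoB_apply, map_sub, dd_mul, dd_inj, if_neg hii, if_neg (Ne.symm hii),
      dd_comm i i']
    ring
  · intro i f b
    apply LinearMap.ext; intro F
    rw [LinearMap.sub_apply, Module.End.mul_apply, Module.End.mul_apply]
    simp only [rhoB_apply, Algebra.coe_lmul_eq_mul, LinearMap.mul_apply', dd_mul]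
    ring
  · intro i F
    apply LinearMap.ext; intro G
    rw [rhoB_Op, pow_two]
    simp only [map_mul, map_sub, dd_mul, map_add, ev_X_none, ev_X_some, sub_self, zero_mul,
      mul_zero, add_zero, LinearMap.zero_apply]

end RhoBSec

section AdWordSec

open scoped BigOperators

variable {k : Type u} [CommRing k] {Γ : Type} [AddCommMonoid Γ] [Expo Γ]
variable {R : Type w} [Ring R] [Algebra k R]

/-- the elements with all exponents in `U` -/
noncomputable def SuppIn (k : Type u) [CommRing k] {Γ : Type} [AddCommMonoid Γ] {ι : Type} (U : Set Γ) :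
    Submodule k (B k Γ ι) :=
  Submodule.span k {x | ∃ α : ι → Γ, (∀ i, α i ∈ U) ∧ x = mon k α}

/-- `U` exponents of the entries, `T` exponents of the letters -/
structure RelLie (e : A k Γ →ₗ[k] R) (T U : Set Γ) : Prop where
  br : ∀ a ∈ T, ∀ b ∈ U, e (tt k a) * e (tt k b) - e (tt k b) * e (tt k a) =
    e (tt k a * Dt (tt k b) - tt k b * Dt (tt k a))
  cl : ∀ a ∈ T, ∀ b ∈ U, ∀ c, Expo.v c = Expo.v a + Expo.v b - 1 → c ∈ U

theorem RelLie.of_lieMap {e : A k Γ →ₗ[k] R} (he : LieMap e) :
    RelLie e Set.univ Set.univ := ⟨fun _ _ _ _ => he _ _, fun _ _ _ _ _ _ => trivial⟩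

omit [Expo Γ] in
private theorem mon_mem_suppIn {U : Set Γ} {ι : Type} {α : ι → Γ} (h : ∀ i, α i ∈ U) :
    mon k α ∈ SuppIn k (ι := ι) U := Submodule.subset_span ⟨α, h, rfl⟩

private theorem Dt_tt (a : Γ) : Dt (tt k a) = ((Expo.v a : ℤ) : k) • tt k (Expo.pred a) := by
  rw [Dt, tt, dd_mon]
  congr 2

/-- Hint: on monomials `LL (tt a) (mon α) = ∑ i, (v (α i) - v a) • mon (α with α i replaced by c)`,
`v c = v a + v (α i) - 1` (if there is no such `c` the coefficient is zero). -/
theorem LL_suppIn {e : A k Γ →ₗ[k] R} {T U : Set Γ} (h : RelLie e T U) {a : Γ} (ha : a ∈ T) {n : ℕ}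
    (F : B k Γ (Fin n)) (hF : F ∈ SuppIn k U) : LL (tt k a) F ∈ SuppIn k U := by
  induction hF using Submodule.span_induction with
  | zero => rw [map_zero]; exact Submodule.zero_mem _
  | add x y _ _ hx hy => rw [map_add]; exact Submodule.add_mem _ hx hy
  | smul c x _ hx => rw [map_smul]; exact Submodule.smul_mem _ c hx
  | mem x hx =>
    obtain ⟨α, hα, rfl⟩ := hx
    rw [LL_apply, del_apply, Finset.sum_mul]
    refine Submodule.sub_mem _ (Submodule.sum_mem _ fun i _ => ?_)
      (Submodule.sum_mem _ fun i _ => ?_)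
    · rw [dd_mon, inj_tt, mul_smul_comm, mon_mul]
      by_cases h0 : Expo.v (α i) = 0
      · rw [h0, Int.cast_zero, zero_smul]; exact Submodule.zero_mem _
      · refine Submodule.smul_mem _ _ (mon_mem_suppIn fun j => ?_)
        by_cases hj : j = i
        · subst hj
          apply h.cl a ha (α j) (hα j)
          simp only [Pi.add_apply, Pi.single_eq_same, Function.update_self, map_add,
            Expo.v_pred _ h0]
          ring
        · simpa [hj] using hα j
    · rw [Dt_tt, map_smul, inj_tt, smul_mul_assoc, mon_mul]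
      by_cases h0 : Expo.v a = 0
      · rw [h0, Int.cast_zero, zero_smul]; exact Submodule.zero_mem _
      · refine Submodule.smul_mem _ _ (mon_mem_suppIn fun j => ?_)
        by_cases hj : j = i
        · subst hj
          apply h.cl a ha (α j) (hα j)
          simp only [Pi.add_apply, Pi.single_eq_same, map_add, Expo.v_pred _ h0]
          ring
        · simpa [hj] using hα j

/-- Hint: `ad_E_mon` and `Submodule.span_induction`. -/
theorem ad_E_rel {e : A k Γ →ₗ[k] R} {T U : Set Γ} (h : RelLie e T U) {a : Γ} (ha : a ∈ T) {n : ℕ}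
    (F : B k Γ (Fin n)) (hF : F ∈ SuppIn k U) :
    e (tt k a) * E n e F - E n e F * e (tt k a) = E n e (LL (tt k a) F) := by
  induction hF using Submodule.span_induction with
  | zero => simp
  | add x y _ _ hx hy => rw [map_add, map_add, map_add, ← hx, ← hy]; noncomm_ring
  | smul c x _ hx =>
    rw [map_smul, map_smul, map_smul, ← hx]
    simp only [mul_smul_comm, smul_mul_assoc, smul_sub]
  | mem x hx =>
    obtain ⟨α, hα, rfl⟩ := hx
    exact ad_E_mon e (tt k a) α fun i => h.br a ha (α i) (hα i)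

private theorem adword_aux {e : A k Γ →ₗ[k] R} {T U : Set Γ} (h : RelLie e T U) (s : ℕ)
    (F : ∀ j, B k Γ (Fin j)) (hF : ∀ j, F j ∈ SuppIn k U)
    (h0 : ∑ j ∈ Finset.range (s + 1), E j e (F j) = 0) (l : List Γ) (hl : ∀ a ∈ l, a ∈ T) :
    (∀ j, (l.map (fun a => LLm k Γ (Fin j) (tt k a))).prod (F j) ∈ SuppIn k U) ∧
    ∑ j ∈ Finset.range (s + 1),
      E j e ((l.map (fun a => LLm k Γ (Fin j) (tt k a))).prod (F j)) = 0 := by
  induction l with
  | nil =>
    refine ⟨fun j => ?_, ?_⟩
    · simpa using hF j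
    · simpa using h0
  | cons a l ih =>
    obtain ⟨ih1, ih2⟩ := ih fun b hb => hl b (List.mem_cons_of_mem _ hb)
    have ha : a ∈ T := hl a List.mem_cons_self
    refine ⟨fun j => ?_, ?_⟩
    · rw [List.map_cons, List.prod_cons, Module.End.mul_apply, LLm_apply]
      exact LL_suppIn h ha _ (ih1 j)
    · have key : ∀ j ∈ Finset.range (s + 1),
          E j e (((a :: l).map (fun a => LLm k Γ (Fin j) (tt k a))).prod (F j)) =
          e (tt k a) * E j e ((l.map (fun a => LLm k Γ (Fin j) (tt k a))).prod (F j)) -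
          E j e ((l.map (fun a => LLm k Γ (Fin j) (tt k a))).prod (F j)) * e (tt k a) := by
        intro j _
        rw [ad_E_rel h ha _ (ih1 j), List.map_cons, List.prod_cons, Module.End.mul_apply,
          LLm_apply]
      rw [Finset.sum_congr rfl key, Finset.sum_sub_distrib, ← Finset.mul_sum, ← Finset.sum_mul,
        ih2, mul_zero, zero_mul, sub_zero]

/-- Iterated commutators of a relation. Hint: `H = mon α` by linearity; induction on `n` with
`List.ofFn_succ`: `E (n+1) LLm (mon α) = LLm (tt (α 0)) * E n LLm (mon (α ∘ succ))`; the tuple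
`G j = E n LLm (mon (α ∘ succ)) (F j)` is again a relation with entries in `SuppIn U`;
`ad_E_rel` and `LL_suppIn`. -/
theorem adword {e : A k Γ →ₗ[k] R} {T U : Set Γ} (h : RelLie e T U) (s : ℕ)
    (F : ∀ j, B k Γ (Fin j)) (hF : ∀ j, F j ∈ SuppIn k U)
    (h0 : ∑ j ∈ Finset.range (s + 1), E j e (F j) = 0) {n : ℕ} (H : B k Γ (Fin n))
    (hH : H ∈ SuppIn k T) :
    ∑ j ∈ Finset.range (s + 1), E j e (E n (LLm k Γ (Fin j)) H (F j)) = 0 := by
  induction hH using Submodule.span_induction with
  | zero => simp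
  | add x y _ _ hx hy =>
    simp only [map_add, LinearMap.add_apply, Finset.sum_add_distrib]
    rw [hx, hy, add_zero]
  | smul c x _ hx =>
    simp only [map_smul, LinearMap.smul_apply]
    rw [← Finset.smul_sum, hx, smul_zero]
  | mem x hx =>
    obtain ⟨α, hα, rfl⟩ := hx
    have h1 := (adword_aux h s F hF h0 (List.ofFn α) (by
      intro a ha
      obtain ⟨i, rfl⟩ := (List.mem_ofFn' _ _).mp ha
      exact hα i)).2
    rw [← h1]
    refine Finset.sum_congr rfl fun j _ => ?_
    rw [EE_mon, List.map_ofFn]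
    rfl

end AdWordSec

section ClusterASec

open scoped BigOperators

variable {k : Type u} [CommRing k] {Γ : Type} [AddCommMonoid Γ] [Expo Γ]

/-- the cluster of a letter: the letters `castAdd s p` and `natAdd s p` form the cluster `p` -/
def cl {s : ℕ} (a : Fin (s + s)) : Fin s := Fin.addCases id id a

theorem cl_castAdd {s : ℕ} (p : Fin s) : cl (Fin.castAdd s p) = p := by
  unfold cl; exact Fin.addCases_left p

theorem cl_natAdd {s : ℕ} (p : Fin s) : cl (Fin.natAdd s p) = p := by
  unfold cl; exact Fin.addCases_right p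

/-- the factors between different clusters -/
noncomputable def crossF (k : Type u) [CommRing k] (Γ : Type) [AddCommMonoid Γ] [Expo Γ]
    (s K : ℕ) : B k Γ (Fin (s + s)) :=
  ∏ a, ∏ b, if cl a ≠ cl b then (X a - X b) ^ K else 1

/-- the squares in the clusters -/
noncomputable def sqF (k : Type u) [CommRing k] (Γ : Type) [AddCommMonoid Γ] [Expo Γ] (s : ℕ) :
    B k Γ (Fin (s + s)) :=
  ∏ p : Fin s, (X (Fin.castAdd s p) - X (Fin.natAdd s p)) ^ 2

/-- Hint: `EE_vanish` with `N = 2`, `n = s + s`, and `rhoB_sep`. -/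
theorem EE_cross_zero {s j K : ℕ} (hK : 4 * s + 4 ≤ K) (τ : Fin (s + s) → Fin j)
    (a b : Fin (s + s)) (h1 : cl a ≠ cl b) (h2 : τ a = τ b) (Ξ : B k Γ (Fin (s + s))) :
    EE (fun l => rhoB k Γ j (τ l)) (crossF k Γ s K * Ξ) = 0 := by
  have hab : a ≠ b := fun h => h1 (by rw [h])
  have hd : ((X a - X b) ^ K : B k Γ (Fin (s + s))) ∣ crossF k Γ s K := by
    have h3 : (if cl a ≠ cl b then ((X a - X b) ^ K : B k Γ (Fin (s + s))) else 1) ∣
        ∏ b', if cl a ≠ cl b' then ((X a - X b') ^ K : B k Γ (Fin (s + s))) else 1 :=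
      Finset.dvd_prod_of_mem
        (fun b' => if cl a ≠ cl b' then ((X a - X b') ^ K : B k Γ (Fin (s + s))) else 1)
        (Finset.mem_univ b)
    rw [if_pos h1] at h3
    exact h3.trans (Finset.dvd_prod_of_mem
      (fun a' => ∏ b', if cl a' ≠ cl b' then ((X a' - X b') ^ K : B k Γ (Fin (s + s))) else 1)
      (Finset.mem_univ a))
  obtain ⟨F, hF⟩ := hd
  rw [hF, mul_assoc]
  exact EE_vanish (rhoB_sep (k := k) (Γ := Γ) (j := j)) τ a b hab h2 K (by omega) (F * Ξ)

end ClusterASec

section ClusterBSec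

open scoped BigOperators

variable {k : Type u} [CommRing k] {Γ : Type} [AddCommMonoid Γ] [Expo Γ]

/-- fewer than `s` points: everything vanishes. Hint: `LLm_eq_sum`, `E_sum`, `EE_cross_zero`, and the
pigeonhole principle for `p ↦ τ (castAdd s p)`. -/
theorem E_cross_lt {s j K : ℕ} (hK : 4 * s + 4 ≤ K) (hj : j < s) (Ξ : B k Γ (Fin (s + s))) :
    E (s + s) (LLm k Γ (Fin j)) (crossF k Γ s K * Ξ) = 0 := by
  rw [LLm_eq_sum, E_sum]
  refine Finset.sum_eq_zero fun τ _ => ?_
  obtain ⟨p, q, hpq, hτ⟩ := Fintype.exists_ne_map_eq_of_card_lt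
    (fun p : Fin s => τ (Fin.castAdd s p)) (by simpa using hj)
  exact EE_cross_zero hK τ (Fin.castAdd s p) (Fin.castAdd s q)
    (by rw [cl_castAdd, cl_castAdd]; exact hpq) hτ Ξ

/-- exactly `s` points: only the maps `σ ∘ cl` survive. -/
theorem E_cross_eq {s K : ℕ} (hK : 4 * s + 4 ≤ K) (Ξ : B k Γ (Fin (s + s))) :
    E (s + s) (LLm k Γ (Fin s)) (crossF k Γ s K * Ξ) =
      ∑ σ : Equiv.Perm (Fin s), EE (fun l => rhoB k Γ s (σ (cl l))) (crossF k Γ s K * Ξ) := by
  classical
  rw [LLm_eq_sum, E_sum]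
  have hinj : Function.Injective
      (fun (σ : Equiv.Perm (Fin s)) (l : Fin (s + s)) => σ (cl l)) := by
    intro σ σ' h
    apply Equiv.ext
    intro p
    have h1 := congrFun h (Fin.castAdd s p)
    simpa only [cl_castAdd] using h1
  have him : ∑ σ : Equiv.Perm (Fin s), EE (fun l => rhoB k Γ s (σ (cl l)))
      (crossF k Γ s K * Ξ) =
      ∑ τ ∈ Finset.univ.image (fun (σ : Equiv.Perm (Fin s)) (l : Fin (s + s)) => σ (cl l)),
        EE (fun l => rhoB k Γ s (τ l)) (crossF k Γ s K * Ξ) := by
    rw [Finset.sum_image fun a _ b _ h => hinj h]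
  rw [him]
  symm
  apply Finset.sum_subset (Finset.subset_univ _)
  intro τ _ hτ
  by_contra hne
  apply hτ
  have hsep : ∀ a b, cl a ≠ cl b → τ a ≠ τ b := fun a b h1 h2 =>
    hne (EE_cross_zero hK τ a b h1 h2 Ξ)
  have hinj2 : Function.Injective (fun p : Fin s => τ (Fin.castAdd s p)) := by
    intro p q h
    by_contra hpq
    exact hsep (Fin.castAdd s p) (Fin.castAdd s q)
      (by rw [cl_castAdd, cl_castAdd]; exact hpq) h
  have hbij := Finite.injective_iff_bijective.1 hinj2
  rw [Finset.mem_image]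
  refine ⟨Equiv.ofBijective _ hbij, Finset.mem_univ _, ?_⟩
  funext l
  change τ (Fin.castAdd s (cl l)) = τ l
  obtain ⟨q, hq⟩ := hbij.2 (τ l)
  have hq' : τ (Fin.castAdd s q) = τ l := hq
  have h2 : cl l = q := by
    by_contra h3
    apply hsep (Fin.castAdd s q) l _ hq'
    rw [cl_castAdd]
    exact fun h4 => h3 h4.symm
  rw [h2]
  exact hq'

private theorem cB_prod_cl {S : Type*} [CommRing S] {s : ℕ} (H : Fin s → S) :
    ∏ a : Fin (s + s), H (cl a) = (∏ p, H p) ^ 2 := by
  rw [Fin.prod_univ_add]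
  simp only [cl_castAdd, cl_natAdd]
  ring

private theorem cB_sq {S : Type*} [CommRing S] {s : ℕ} (x : Fin s → S) :
    (∏ p, ∏ q, if p ≠ q then (x p - x q) else 1) ^ 2 = vand x ^ 4 := by
  classical
  have e1 : vand x = ∏ p, ∏ q, if p < q then (x p - x q) else 1 := by
    unfold vand
    refine Finset.prod_congr rfl fun p _ => ?_
    rw [← Finset.prod_filter]
    congr 1
    ext q
    simp
  have e2 : (∏ p, ∏ q, if p ≠ q then (x p - x q) else 1) =
      vand x * ∏ p, ∏ q, if q < p then (x p - x q) else 1 := by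
    rw [e1, ← Finset.prod_mul_distrib]
    refine Finset.prod_congr rfl fun p _ => ?_
    rw [← Finset.prod_mul_distrib]
    refine Finset.prod_congr rfl fun q _ => ?_
    rcases lt_trichotomy p q with h | h | h
    · simp [h, h.ne, h.not_gt]
    · simp [h]
    · simp [h, h.ne', h.not_gt]
  have e3 : (∏ p, ∏ q, if q < p then (x p - x q) else 1) ^ 2 = vand x ^ 2 := by
    rw [Finset.prod_comm, e1, ← Finset.prod_pow, ← Finset.prod_pow]
    refine Finset.prod_congr rfl fun p _ => ?_
    rw [← Finset.prod_pow, ← Finset.prod_pow]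
    refine Finset.prod_congr rfl fun q _ => ?_
    split_ifs
    · ring
    · rfl
  rw [e2, mul_pow, e3]
  ring

/-- The value of the cross factors. Hint: `crossF` is `∏ p, ∏ q` of the fourth powers
(`Fin.prod_univ_add`), `∏_{p ≠ q} (x_p - x_q) = ± vand x ^ 2`, even powers; `vand_perm` for `σ`. -/
theorem pf_crossF {s K : ℕ} (σ : Equiv.Perm (Fin s)) :
    pf (fun l : Fin (s + s) => σ (cl l)) (crossF k Γ s K) = Delta k Γ s ^ (8 * K) := by
  classical
  have e1 : pf (fun l : Fin (s + s) => σ (cl l)) (crossF k Γ s K) =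
      ∏ a : Fin (s + s), ∏ b : Fin (s + s),
        (fun p q : Fin s => if p ≠ q then (X (σ p) - X (σ q) : B k Γ (Fin s)) ^ K else 1)
          (cl a) (cl b) := by
    unfold crossF
    rw [map_prod]
    refine Finset.prod_congr rfl fun a _ => ?_
    rw [map_prod]
    refine Finset.prod_congr rfl fun b _ => ?_
    rw [apply_ite (pf (fun l : Fin (s + s) => σ (cl l))), map_pow, map_sub, pf_X, pf_X, map_one]
  rw [e1]
  have e2 : ∀ a : Fin (s + s), (∏ b : Fin (s + s),
      (fun p q : Fin s => if p ≠ q then (X (σ p) - X (σ q) : B k Γ (Fin s)) ^ K else 1)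
          (cl a) (cl b)) =
      (fun p : Fin s => (∏ q, (fun p q : Fin s =>
        if p ≠ q then (X (σ p) - X (σ q) : B k Γ (Fin s)) ^ K else 1) p q) ^ 2) (cl a) :=
    fun a => cB_prod_cl (fun q : Fin s =>
      if cl a ≠ q then (X (σ (cl a)) - X (σ q) : B k Γ (Fin s)) ^ K else 1)
  rw [Finset.prod_congr rfl fun a _ => e2 a]
  refine (cB_prod_cl (fun p : Fin s => (∏ q, (fun p q : Fin s =>
        if p ≠ q then (X (σ p) - X (σ q) : B k Γ (Fin s)) ^ K else 1) p q) ^ 2)).trans ?_
  have e3 : (∏ p : Fin s, (∏ q, (fun p q : Fin s =>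
        if p ≠ q then (X (σ p) - X (σ q) : B k Γ (Fin s)) ^ K else 1) p q) ^ 2) =
      (∏ p : Fin s, ∏ q : Fin s,
        if p ≠ q then (X (σ p) - X (σ q) : B k Γ (Fin s)) else 1) ^ (2 * K) := by
    rw [← Finset.prod_pow]
    refine Finset.prod_congr rfl fun p _ => ?_
    rw [mul_comm 2 K, pow_mul]
    congr 1
    rw [← Finset.prod_pow]
    refine Finset.prod_congr rfl fun q _ => ?_
    by_cases h : p = q
    · simp [h]
    · simp [h]
  rw [e3, pow_mul _ 2 K, cB_sq (fun p => (X (σ p) : B k Γ (Fin s)))]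
  have e5 : vand (fun p => (X (σ p) : B k Γ (Fin s))) ^ 4 = Delta k Γ s ^ 4 := by
    have e6 : Delta k Γ s ^ 4 = vand (fun p => (X p : B k Γ (Fin s))) ^ 4 := rfl
    rw [e6, ← cB_sq, ← cB_sq]
    congr 1
    rw [← Equiv.prod_comp σ (fun p => ∏ q, if p ≠ q then (X p - X q : B k Γ (Fin s)) else 1)]
    refine Finset.prod_congr rfl fun p _ => ?_
    rw [← Equiv.prod_comp σ (fun q => if σ p ≠ q then (X (σ p) - X q : B k Γ (Fin s)) else 1)]
    refine Finset.prod_congr rfl fun q _ => ?_
    simp only [ne_eq, EmbeddingLike.apply_eq_iff_eq]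
  rw [e5, ← pow_mul, ← pow_mul]
  congr 1
  ring

end ClusterBSec

section ProdFormSec

open scoped BigOperators

variable {k : Type u} [CommRing k] {Γ : Type} [AddCommMonoid Γ] [Expo Γ]

/-- the two letter identity at one point. Hint: `rhoB_apply`; a computation with `dd_mul`,
`dd_inj`, `Dt (X ()) = 1`, Leibniz for `Dt`, `dd_comm` is not needed. -/
theorem two_letter {s : ℕ} (i : Fin s) (g h : A k Γ) :
    rhoB k Γ s i (X () ^ 2 * g) * rhoB k Γ s i h -
      (2 : k) • (rhoB k Γ s i (X () * g) * rhoB k Γ s i (X () * h)) +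
      rhoB k Γ s i g * rhoB k Γ s i (X () ^ 2 * h) =
      (-4 : k) • LinearMap.mulLeft k (inj i (g * h)) := by
  have hX : inj i (X () : A k Γ) = (X i : B k Γ (Fin s)) := pf_X _ _
  have hDX : Dt (X () : A k Γ) = 1 := by
    rw [Dt, dd_X, if_pos rfl]
  have hDm : ∀ f f' : A k Γ, Dt (f * f') = Dt f * f' + f * Dt f' := fun f f' => dd_mul () f f'
  have hd : ∀ f : A k Γ, dd i (inj i f : B k Γ (Fin s)) = inj i (Dt f) := by
    intro f
    rw [dd_inj, if_pos rfl]
  have hdX : dd i (X i : B k Γ (Fin s)) = 1 := by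
    rw [dd_X, if_pos rfl]
  have h2 : ∀ F : B k Γ (Fin s), (2 : k) • F = 2 * F := by
    intro F
    rw [Algebra.smul_def, map_ofNat]
  have h4 : ∀ F : B k Γ (Fin s), (-4 : k) • F = -4 * F := by
    intro F
    rw [Algebra.smul_def, map_neg, map_ofNat]
  apply LinearMap.ext
  intro F
  simp only [LinearMap.add_apply, LinearMap.sub_apply, LinearMap.smul_apply, Module.End.mul_apply,
    rhoB_apply, LinearMap.mulLeft_apply, h2, h4, map_sub, dd_mul, hd, hDm, hDX, map_mul, map_pow,
    hX, hdX, map_add, map_one, one_mul, pow_two, mul_one]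
  ring

private theorem pf_commprod {R : Type*} [Monoid R] : ∀ {s : ℕ} (f g : Fin s → R)
    (_ : ∀ i j, i ≠ j → Commute (f i) (g j)),
    (List.ofFn f).prod * (List.ofFn g).prod = (List.ofFn (fun i => f i * g i)).prod
  | 0, f, g, _ => by simp
  | s + 1, f, g, h => by
    have ih := pf_commprod (fun i : Fin s => f i.succ) (fun i => g i.succ)
      (fun i j hij => h _ _ (fun e => hij (Fin.succ_injective _ e)))
    have hc : Commute (List.ofFn (fun i : Fin s => f i.succ)).prod (g 0) := by
      refine Commute.list_prod_left _ _ ?_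
      intro y hy
      obtain ⟨i, rfl⟩ := (List.mem_ofFn' _ _).1 hy
      exact h _ _ (Fin.succ_ne_zero i)
    rw [List.ofFn_succ, List.ofFn_succ, List.ofFn_succ, List.prod_cons, List.prod_cons,
      List.prod_cons, ← ih]
    calc f 0 * (List.ofFn (fun i : Fin s => f i.succ)).prod *
          (g 0 * (List.ofFn (fun i : Fin s => g i.succ)).prod)
        = f 0 * ((List.ofFn (fun i : Fin s => f i.succ)).prod * g 0) *
          (List.ofFn (fun i : Fin s => g i.succ)).prod := by simp only [mul_assoc]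
      _ = f 0 * (g 0 * (List.ofFn (fun i : Fin s => f i.succ)).prod) *
          (List.ofFn (fun i : Fin s => g i.succ)).prod := by rw [hc.eq]
      _ = _ := by simp only [mul_assoc]

/-- the two letters at the point `σ p` -/
private noncomputable def pfWord {s : ℕ} (σ : Equiv.Perm (Fin s)) (α : Fin (s + s) → Γ)
    (p : Fin s) : Module.End k (B k Γ (Fin s)) :=
  rhoB k Γ s (σ p) (tt k (α (Fin.castAdd s p))) * rhoB k Γ s (σ p) (tt k (α (Fin.natAdd s p)))

private theorem pf_EE_mon {s : ℕ} (σ : Equiv.Perm (Fin s)) (α : Fin (s + s) → Γ) :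
    EE (fun l => rhoB k Γ s (σ (cl l))) (mon k α) =
      MultilinearMap.mkPiAlgebraFin k s (Module.End k (B k Γ (Fin s))) (pfWord σ α) := by
  rw [EE_mon, List.ofFn_add, List.prod_append, MultilinearMap.mkPiAlgebraFin_apply]
  have h1 := pf_commprod
    (fun p : Fin s => rhoB k Γ s (σ p) (tt k (α (Fin.castAdd s p))))
    (fun p : Fin s => rhoB k Γ s (σ p) (tt k (α (Fin.natAdd s p))))
    (fun p q hpq => rhoB_sep.cross (σ p) (σ q) (fun e => hpq (σ.injective e)) _ _)
  change (List.ofFn (fun p : Fin s => rhoB k Γ s (σ (cl (Fin.castAdd s p)))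
    (tt k (α (Fin.castAdd s p))))).prod * (List.ofFn (fun p : Fin s =>
    rhoB k Γ s (σ (cl (Fin.natAdd s p))) (tt k (α (Fin.natAdd s p))))).prod = _
  simp only [cl_castAdd, cl_natAdd]
  exact h1

/-- `Pi.single` without dependent types -/
private def pfS {s : ℕ} (a : Fin (s + s)) (c : Γ) : Fin (s + s) → Γ := Pi.single a c

omit [Expo Γ] in
private theorem pfS_same {s : ℕ} (a : Fin (s + s)) (c : Γ) : pfS a c a = c := by
  rw [pfS, Pi.single_eq_same]

omit [Expo Γ] in
private theorem pfS_ne {s : ℕ} {a b : Fin (s + s)} (h : b ≠ a) (c : Γ) : pfS a c b = 0 := by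
  rw [pfS, Pi.single_eq_of_ne h]

private theorem pf_D_mon {s : ℕ} (q : Fin s) (α : Fin (s + s) → Γ) :
    (X (Fin.castAdd s q) - X (Fin.natAdd s q)) ^ 2 * mon k α =
      mon k (α + pfS (Fin.castAdd s q) (Expo.one + Expo.one)) -
      (2 : k) • mon k (α + pfS (Fin.castAdd s q) Expo.one + pfS (Fin.natAdd s q) Expo.one) +
      mon k (α + pfS (Fin.natAdd s q) (Expo.one + Expo.one)) := by
  have e1 : mon k (α + pfS (Fin.castAdd s q) (Expo.one + Expo.one)) =
      (X (Fin.castAdd s q) * X (Fin.castAdd s q) * mon k α : B k Γ (Fin (s + s))) := by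
    rw [X, mon_mul, mon_mul, ← Pi.single_add]
    exact congrArg (mon k) (add_comm _ _)
  have e2 : mon k (α + pfS (Fin.castAdd s q) Expo.one + pfS (Fin.natAdd s q) Expo.one) =
      (X (Fin.castAdd s q) * X (Fin.natAdd s q) * mon k α : B k Γ (Fin (s + s))) := by
    rw [X, X, mon_mul, mon_mul, add_assoc]
    exact congrArg (mon k) (add_comm _ _)
  have e3 : mon k (α + pfS (Fin.natAdd s q) (Expo.one + Expo.one)) =
      (X (Fin.natAdd s q) * X (Fin.natAdd s q) * mon k α : B k Γ (Fin (s + s))) := by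
    rw [X, mon_mul, mon_mul, ← Pi.single_add]
    exact congrArg (mon k) (add_comm _ _)
  rw [e1, e2, e3, Algebra.smul_def, map_ofNat]
  ring

private noncomputable def pfFam {s : ℕ} (σ : Equiv.Perm (Fin s)) (S : Finset (Fin s))
    (α : Fin (s + s) → Γ) (p : Fin s) : Module.End k (B k Γ (Fin s)) :=
  if p ∈ S then (-4 : k) • LinearMap.mulLeft k
    (inj (σ p) (tt k (α (Fin.castAdd s p)) * tt k (α (Fin.natAdd s p)))) else pfWord σ α p

private theorem pf_claim {s : ℕ} (σ : Equiv.Perm (Fin s)) (S : Finset (Fin s)) :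
    ∀ α : Fin (s + s) → Γ, EE (fun l => rhoB k Γ s (σ (cl l)))
      ((∏ p ∈ S, (X (Fin.castAdd s p) - X (Fin.natAdd s p)) ^ 2) * mon k α) =
      MultilinearMap.mkPiAlgebraFin k s (Module.End k (B k Γ (Fin s))) (pfFam σ S α) := by
  classical
  induction S using Finset.induction_on with
  | empty =>
    intro α
    rw [Finset.prod_empty, one_mul, pf_EE_mon]
    rfl
  | insert q S hq ih =>
    intro α
    have hne : ∀ p : Fin s, p ≠ q → Fin.castAdd s p ≠ Fin.castAdd s q := fun p hp e =>
      hp (Fin.castAdd_injective s s e)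
    have hne2 : ∀ p : Fin s, p ≠ q → Fin.natAdd s p ≠ Fin.natAdd s q := fun p hp e =>
      hp (Fin.natAdd_injective s s e)
    have hne3 : ∀ p p' : Fin s, Fin.castAdd s p ≠ Fin.natAdd s p' := by
      intro p p' e
      have := congrArg Fin.val e
      rw [Fin.val_castAdd, Fin.val_natAdd] at this
      have h1 := p.2
      omega
    have key : ∀ β : Fin (s + s) → Γ, (∀ p, p ≠ q → β (Fin.castAdd s p) = α (Fin.castAdd s p)) →
        (∀ p, p ≠ q → β (Fin.natAdd s p) = α (Fin.natAdd s p)) →
        pfFam (k := k) σ S β = Function.update (pfFam σ S α) q (pfWord σ β q) := by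
      intro β h1 h2
      funext p
      by_cases hp : p = q
      · subst hp
        rw [Function.update_self, pfFam, if_neg hq]
      · rw [Function.update_of_ne hp, pfFam, pfFam, pfWord, pfWord, h1 p hp, h2 p hp]
    have hlast : pfFam (k := k) σ (insert q S) α = Function.update (pfFam σ S α) q
        ((-4 : k) • LinearMap.mulLeft k
          (inj (σ q) (tt k (α (Fin.castAdd s q)) * tt k (α (Fin.natAdd s q))))) := by
      funext p
      by_cases hp : p = q
      · subst hp
        rw [Function.update_self, pfFam, if_pos (Finset.mem_insert_self _ _)]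
      · rw [Function.update_of_ne hp, pfFam, pfFam]
        by_cases hpS : p ∈ S
        · rw [if_pos hpS, if_pos (Finset.mem_insert_of_mem hpS)]
        · rw [if_neg hpS, if_neg (fun h => (Finset.mem_insert.1 h).elim hp hpS)]
    have hX1 : (X () : A k Γ) = tt k Expo.one := by
      rw [X, mon_unit, Pi.single_eq_same]
    have w1 : pfWord (k := k) σ (α + pfS (Fin.castAdd s q) (Expo.one + Expo.one)) q =
        rhoB k Γ s (σ q) (X () ^ 2 * tt k (α (Fin.castAdd s q))) *
          rhoB k Γ s (σ q) (tt k (α (Fin.natAdd s q))) := by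
      rw [pfWord, Pi.add_apply, Pi.add_apply, pfS_same, pfS_ne (hne3 q q).symm, add_zero, hX1,
        pow_two, tt_mul, tt_mul, add_comm (α (Fin.castAdd s q))]
    have w2 : pfWord (k := k) σ (α + pfS (Fin.castAdd s q) Expo.one +
        pfS (Fin.natAdd s q) Expo.one) q =
        rhoB k Γ s (σ q) (X () * tt k (α (Fin.castAdd s q))) *
          rhoB k Γ s (σ q) (X () * tt k (α (Fin.natAdd s q))) := by
      rw [pfWord, Pi.add_apply, Pi.add_apply, Pi.add_apply, Pi.add_apply, pfS_same,
        pfS_same, pfS_ne (hne3 q q), pfS_ne (hne3 q q).symm,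
        add_zero, add_zero, hX1, tt_mul, tt_mul, add_comm (α (Fin.castAdd s q)),
        add_comm (α (Fin.natAdd s q))]
    have w3 : pfWord (k := k) σ (α + pfS (Fin.natAdd s q) (Expo.one + Expo.one)) q =
        rhoB k Γ s (σ q) (tt k (α (Fin.castAdd s q))) *
          rhoB k Γ s (σ q) (X () ^ 2 * tt k (α (Fin.natAdd s q))) := by
      rw [pfWord, Pi.add_apply, Pi.add_apply, pfS_same, pfS_ne (hne3 q q), add_zero, hX1,
        pow_two, tt_mul, tt_mul, add_comm (α (Fin.natAdd s q))]
    have k1 := key (α + pfS (Fin.castAdd s q) (Expo.one + Expo.one))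
      (fun p hp => by rw [Pi.add_apply, pfS_ne (hne p hp), add_zero])
      (fun p hp => by rw [Pi.add_apply, pfS_ne (hne3 q p).symm, add_zero])
    have k2 := key (α + pfS (Fin.castAdd s q) Expo.one + pfS (Fin.natAdd s q) Expo.one)
      (fun p hp => by rw [Pi.add_apply, Pi.add_apply, pfS_ne (hne p hp), pfS_ne (hne3 p q),
        add_zero, add_zero])
      (fun p hp => by rw [Pi.add_apply, Pi.add_apply, pfS_ne (hne3 q p).symm,
        pfS_ne (hne2 p hp), add_zero, add_zero])
    have k3 := key (α + pfS (Fin.natAdd s q) (Expo.one + Expo.one))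
      (fun p hp => by rw [Pi.add_apply, pfS_ne (hne3 p q), add_zero])
      (fun p hp => by rw [Pi.add_apply, pfS_ne (hne2 p hp), add_zero])
    rw [Finset.prod_insert hq, mul_comm ((X (Fin.castAdd s q) - X (Fin.natAdd s q)) ^ 2),
      mul_assoc, pf_D_mon, mul_add, mul_sub, mul_smul_comm, map_add, map_sub, map_smul,
      ih, ih, ih, k1, k2, k3, hlast, ← two_letter, w1, w2, w3,
      MultilinearMap.map_update_add, MultilinearMap.map_update_sub,
      MultilinearMap.map_update_smul]

/-- The product formula: words in which the letters `castAdd s p`, `natAdd s p` both act at the point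
`σ p`. Hint: `Ξ = mon α` by linearity. Expand the squares:
`(X a - X b) ^ 2 = X a ^ 2 - 2 X a X b + X b ^ 2`; the word is a product of operators at the points
`σ p` and operators at different points commute (`rhoB_sep.cross`), so it is the product over the
points of the two letter expressions of `two_letter` (one point after the other, for instance by
induction over a finset `S` of clusters for which the square is included), each of which is
`-4 • multiplication`. -/
theorem prod_form {s : ℕ} (σ : Equiv.Perm (Fin s)) (Ξ : B k Γ (Fin (s + s))) :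
    EE (fun l => rhoB k Γ s (σ (cl l))) (sqF k Γ s * Ξ) =
      ((-4 : k) ^ s) • LinearMap.mulLeft k (pf (fun l : Fin (s + s) => σ (cl l)) Ξ) := by
  induction Ξ using mon_induction with
  | h0 => simp
  | hadd F G hF hG =>
    rw [mul_add, map_add, hF, hG, map_add, ← smul_add]
    congr 1
    apply LinearMap.ext
    intro Z
    simp [add_mul]
  | hmon c α =>
    rw [mul_smul_comm, map_smul, map_smul]
    have h1 := pf_claim (k := k) σ Finset.univ α
    rw [sqF, h1]
    have h2 : pfFam (k := k) σ Finset.univ α = fun p => (-4 : k) • (Algebra.lmul k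
        (B k Γ (Fin s)) (inj (σ p) (tt k (α (Fin.castAdd s p)) * tt k (α (Fin.natAdd s p)))) :
          Module.End k (B k Γ (Fin s))) := by
      funext p
      rw [pfFam, if_pos (Finset.mem_univ _)]
      rfl
    have h3 : pf (fun l : Fin (s + s) => σ (cl l)) (mon k α) =
        ∏ p, inj (σ p) (tt k (α (Fin.castAdd s p)) * tt k (α (Fin.natAdd s p))) := by
      rw [mon_eq_prod_inj, map_prod, Fin.prod_univ_add, ← Finset.prod_mul_distrib]
      refine Finset.prod_congr rfl fun p _ => ?_
      rw [pf_inj, pf_inj, cl_castAdd, cl_natAdd, map_mul]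
    rw [h2, MultilinearMap.map_smul_univ, Finset.prod_const, Finset.card_univ, Fintype.card_fin,
      MultilinearMap.mkPiAlgebraFin_apply, h3]
    have h4 : (List.ofFn (fun p : Fin s => (Algebra.lmul k (B k Γ (Fin s))
        (inj (σ p) (tt k (α (Fin.castAdd s p)) * tt k (α (Fin.natAdd s p)))) :
          Module.End k (B k Γ (Fin s))))).prod =
        Algebra.lmul k (B k Γ (Fin s))
          (∏ p, inj (σ p) (tt k (α (Fin.castAdd s p)) * tt k (α (Fin.natAdd s p)))) := by
      rw [← List.prod_ofFn, map_list_prod, List.map_ofFn]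
      rfl
    rw [h4]
    apply LinearMap.ext
    intro Z
    change c • ((-4 : k) ^ s • ((∏ p, inj (σ p) (tt k (α (Fin.castAdd s p)) *
      tt k (α (Fin.natAdd s p)))) * Z)) = (-4 : k) ^ s • ((c • ∏ p, inj (σ p)
      (tt k (α (Fin.castAdd s p)) * tt k (α (Fin.natAdd s p)))) * Z)
    rw [smul_mul_assoc, smul_comm]

end ProdFormSec

section PureRelSec

open scoped BigOperators

variable {k : Type u} [CommRing k] {Γ : Type} [AddCommMonoid Γ] [Expo Γ]
variable {R : Type w} [Ring R] [Algebra k R]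

/-- Pure relations. Hint: `adword` with `H = crossF k Γ s K * (sqF k Γ s * Ξ)`, `E_cross_lt`,
`E_cross_eq`, `prod_form`, `pf_crossF`; cancel `(-4) ^ s`. -/
theorem pure_rel [IsDomain k] [CharZero k] (htf : ∀ (c : k) (x : R), c • x = 0 → c = 0 ∨ x = 0)
    {e : A k Γ →ₗ[k] R} {T U : Set Γ} (h : RelLie e T U) (s K : ℕ) (hK : 4 * s + 4 ≤ K)
    (F : ∀ j, B k Γ (Fin j)) (hF : ∀ j, F j ∈ SuppIn k U)
    (h0 : ∑ j ∈ Finset.range (s + 1), E j e (F j) = 0) (Ξ : B k Γ (Fin (s + s)))
    (hΞ : crossF k Γ s K * (sqF k Γ s * Ξ) ∈ SuppIn k T) :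
    E s e (Delta k Γ s ^ (8 * K) *
      (∑ σ : Equiv.Perm (Fin s), pf (fun l : Fin (s + s) => σ (cl l)) Ξ) * F s) = 0 := by
  have h1 := adword h s F hF h0 _ hΞ
  rw [Finset.sum_range_succ, Finset.sum_eq_zero, zero_add, E_cross_eq hK] at h1
  · have h2 : (∑ σ : Equiv.Perm (Fin s), EE (fun l => rhoB k Γ s (σ (cl l)))
        (crossF k Γ s K * (sqF k Γ s * Ξ))) =
        ((-4 : k) ^ s) • LinearMap.mulLeft k (Delta k Γ s ^ (8 * K) *
          (∑ σ : Equiv.Perm (Fin s), pf (fun l : Fin (s + s) => σ (cl l)) Ξ)) := by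
      have h3 : ∀ σ : Equiv.Perm (Fin s), EE (fun l => rhoB k Γ s (σ (cl l)))
          (crossF k Γ s K * (sqF k Γ s * Ξ)) = ((-4 : k) ^ s) • LinearMap.mulLeft k
          (Delta k Γ s ^ (8 * K) * pf (fun l : Fin (s + s) => σ (cl l)) Ξ) := by
        intro σ
        rw [mul_left_comm, prod_form, map_mul, pf_crossF]
      rw [Finset.sum_congr rfl fun σ _ => h3 σ, ← Finset.smul_sum]
      congr 1
      apply LinearMap.ext
      intro x
      rw [LinearMap.sum_apply, LinearMap.mulLeft_apply, Finset.mul_sum, Finset.sum_mul]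
      rfl
    rw [h2, LinearMap.smul_apply, LinearMap.mulLeft_apply, map_smul] at h1
    rcases htf _ _ h1 with h4 | h4
    · exfalso
      have h5 : (-4 : k) ≠ 0 := by
        rw [neg_ne_zero]
        have h6 : ((4 : ℕ) : k) ≠ 0 := Nat.cast_ne_zero.2 (by norm_num)
        exact_mod_cast h6
      exact pow_ne_zero s h5 h4
    · exact h4
  · intro j hj
    rw [E_cross_lt hK (Finset.mem_range.1 hj), LinearMap.zero_apply, map_zero]

end PureRelSec

end W94
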