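import Pool.Agent.LibWitt94.Base
import Pool.Agent.LibWitt94.Cluster
import Pool.Agent.LibWitt94.OpCalc
import Pool.Agent.LibWitt94.Words

universe u w

namespace W94

section SymESec

open scoped BigOperators

variable {k : Type u} [CommRing k] {Γ : Type} [AddCommMonoid Γ] [Expo Γ]
variable {R : Type w} [Ring R] [Algebra k R]

private theorem symE_dd_sq {ι : Type} [DecidableEq ι] (j : ι) (D H : B k Γ ι) :
    dd j (D ^ 2 * H) = D * (2 * dd j D * H + D * dd j H) := by
  rw [dd_mul, pow_two, dd_mul]; ring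

private theorem symE_pf_Delta_sq {n : ℕ} (σ : Equiv.Perm (Fin n)) (m : ℕ) :
    pf σ (Delta k Γ n ^ (2 * m + 2)) = Delta k Γ n ^ (2 * m + 2) := by
  rw [map_pow, pf_Delta]
  have h2 : 2 * m + 2 = 2 * (m + 1) := by ring
  rcases vand_perm (fun i => (X i : B k Γ (Fin n))) σ with h | h
  · rw [h]; rfl
  · rw [h, h2, pow_mul, neg_sq, ← pow_mul]; rfl

private theorem symE_gen {n : ℕ} {e : A k Γ →ₗ[k] R} (he : LieMap e) (i : Fin n) (m : ℕ)
    (G : B k Γ (Fin (n + 1))) :
    E (n + 1) e (Delta k Γ (n + 1) ^ (2 * m + 2) * pf (Equiv.swap i.castSucc i.succ) G) =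
      E (n + 1) e (Delta k Γ (n + 1) ^ (2 * m + 2) * G) := by
  have hne : i.castSucc ≠ i.succ := (Fin.castSucc_lt_succ).ne
  obtain ⟨c, hc⟩ : (X i.castSucc - X i.succ : B k Γ (Fin (n + 1))) ∣ Delta k Γ (n + 1) :=
    sub_dvd_vand (fun i => (X i : B k Γ (Fin (n + 1)))) _ _ hne
  set D : B k Γ (Fin (n + 1)) := X i.castSucc - X i.succ with hD
  have hF : Delta k Γ (n + 1) ^ (2 * m + 2) * G =
      D ^ 2 * (D ^ (2 * m) * c ^ (2 * m + 2) * G) := by
    rw [hc, mul_pow, pow_add D (2 * m) 2]
    ring
  have hpD : pf (Fin.predAbove i) D = (0 : B k Γ (Fin n)) := by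
    rw [hD, map_sub, pf_X, pf_X, Fin.predAbove_castSucc_self, Fin.predAbove_succ_self, sub_self]
  have hz1 : ∀ Y : B k Γ (Fin (n + 1)), pf (Fin.predAbove i) (D * Y) = (0 : B k Γ (Fin n)) :=
    fun Y => by rw [map_mul, hpD, zero_mul]
  have key := swap_E e he i (Delta k Γ (n + 1) ^ (2 * m + 2) * G)
  have hz : pf (Fin.predAbove i) (dd i.succ (Delta k Γ (n + 1) ^ (2 * m + 2) * G) -
      dd i.castSucc (Delta k Γ (n + 1) ^ (2 * m + 2) * G)) = (0 : B k Γ (Fin n)) := by
    rw [hF, symE_dd_sq, symE_dd_sq, map_sub, hz1, hz1, sub_zero]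
  have hpf : pf (Equiv.swap i.castSucc i.succ) (Delta k Γ (n + 1) ^ (2 * m + 2) * G) =
      Delta k Γ (n + 1) ^ (2 * m + 2) * pf (Equiv.swap i.castSucc i.succ) G := by
    rw [map_mul, symE_pf_Delta_sq]
  rw [hz, map_zero, hpf] at key
  exact (sub_eq_zero.mp key).symm

/-- Symmetry of the words with a square of the Vandermonde product. Hint: it is enough to treat
`σ = swap i.castSucc i.succ` (`Equiv.Perm.mclosure_swap_castSucc_succ`, `pf_pf`); by `swap_E` the
difference is `E n e (pf (predAbove i) (dd i.succ Z - dd i.castSucc Z))` with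
`Z = Delta ^ (2m+2) * G` divisible by `(X i.castSucc - X i.succ) ^ 2` (`sub_dvd_vand`), so its
derivatives are divisible by `X i.castSucc - X i.succ`, which `pf (predAbove i)` kills; and
`pf σ (Delta ^ (2m+2)) = Delta ^ (2m+2)` (`vand_perm`, `pf_Delta`). -/
theorem E_perm {n : ℕ} {e : A k Γ →ₗ[k] R} (he : LieMap e) (σ : Equiv.Perm (Fin n)) (m : ℕ)
    (G : B k Γ (Fin n)) :
    E n e (Delta k Γ n ^ (2 * m + 2) * pf σ G) = E n e (Delta k Γ n ^ (2 * m + 2) * G) := by
  cases n with
  | zero =>
    have h : (σ : Fin 0 → Fin 0) = id := by funext i; exact i.elim0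
    rw [h, pf_id]
  | succ n =>
    have hmem : σ ∈ Submonoid.closure
        (Set.range fun i : Fin n => Equiv.swap i.castSucc i.succ) := by
      rw [Equiv.Perm.mclosure_swap_castSucc_succ]; trivial
    induction hmem using Submonoid.closure_induction generalizing G with
    | mem x hx =>
      obtain ⟨i, rfl⟩ := hx
      exact symE_gen he i m G
    | one =>
      have h : ((1 : Equiv.Perm (Fin (n + 1))) : Fin (n + 1) → Fin (n + 1)) = id := rfl
      rw [h, pf_id]
    | mul x y _ _ hx hy =>
      have h : ((x * y : Equiv.Perm (Fin (n + 1))) : Fin (n + 1) → Fin (n + 1)) =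
        (x : Fin (n + 1) → Fin (n + 1)) ∘ y := rfl
      rw [h, ← pf_pf, hx, hy]

end SymESec

section IdealDSec

open scoped BigOperators

variable {k : Type u} [CommRing k] [IsDomain k] [CharZero k] {Γ : Type} [AddCommMonoid Γ] [Expo Γ]

omit [IsDomain k] [CharZero k] in
private theorem idealD_cancel {ι : Type} (β α α' : ι → Γ) : β + α = β + α' ↔ α = α' := by
  constructor
  · intro h
    funext i
    apply Expo.v_inj
    have h1 : β i + α i = β i + α' i := congrFun h i
    have h2 := congrArg Expo.v h1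
    rw [map_add, map_add] at h2
    exact add_left_cancel h2
  · rintro rfl
    rfl

omit [IsDomain k] [CharZero k] in
private theorem idealD_coeff_mon_mul {ι : Type} (β α : ι → Γ) (F : B k Γ ι) :
    (mon k β * F).coeff (β + α) = F.coeff α := by
  rw [mon, AddMonoidAlgebra.coeff_single_mul_eq_mul_coeff α
    (fun m' _ => idealD_cancel β m' α), one_mul]

omit [IsDomain k] [CharZero k] in
private theorem idealD_coeff_X_dd {n : ℕ} (i : Fin n) (F : B k Γ (Fin n)) :
    ∀ α, (X i * dd i F).coeff α = ((Expo.v (α i) : ℤ) : k) * F.coeff α := by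
  refine mon_induction (P := fun F : B k Γ (Fin n) => ∀ α,
    (X i * dd i F).coeff α = ((Expo.v (α i) : ℤ) : k) * F.coeff α) F ?_ ?_ ?_
  · intro α
    simp
  · intro F G hF hG α
    rw [map_add, mul_add, AddMonoidAlgebra.coeff_add, Finsupp.add_apply, hF, hG,
      AddMonoidAlgebra.coeff_add, Finsupp.add_apply, mul_add]
  · intro c β α
    rw [map_smul, mul_smul_comm, X_mul_dd_mon]
    by_cases h : β = α
    · subst h
      simp [mon, mul_comm]
    · simp [mon, h]

private theorem idealD_aux {n : ℕ} (N : ℕ) : ∀ F : B k Γ (Fin n), F ≠ 0 →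
    (∀ α ∈ F.coeff.support, ∀ i, 0 ≤ Expo.v (α i)) →
    (∀ α ∈ F.coeff.support, ∑ i, Expo.v (α i) ≤ (N : ℤ)) →
    ∃ (l : List (Fin n)) (c : k), c ≠ 0 ∧
      l.foldr (fun i G => dd i G) F = algebraMap k _ c := by
  induction N with
  | zero =>
    intro F hF h0 h1
    have hz : ∀ α ∈ F.coeff.support, α = 0 := by
      intro α hα
      funext i
      apply Expo.v_inj
      have h2 : ∑ i, Expo.v (α i) = 0 :=
        le_antisymm (by simpa using h1 α hα) (Finset.sum_nonneg fun i _ => h0 α hα i)
      have h3 := (Finset.sum_eq_zero_iff_of_nonneg (fun i _ => h0 α hα i)).mp h2 i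
        (Finset.mem_univ i)
      rw [h3, Pi.zero_apply, map_zero]
    have hF1 : F = AddMonoidAlgebra.single 0 (F.coeff 0) := by
      classical
      ext α
      by_cases hα : α = 0
      · subst hα
        simp
      · have : F.coeff α = 0 := by
          by_contra hne
          exact hα (hz α (Finsupp.mem_support_iff.mpr hne))
        rw [this, AddMonoidAlgebra.coeff_single, Finsupp.single_apply, if_neg (Ne.symm hα)]
    refine ⟨[], F.coeff 0, ?_, ?_⟩
    · intro hc
      rw [hc] at hF1
      exact hF (by rw [hF1]; simp)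
    · rw [List.foldr_nil]
      conv_lhs => rw [hF1]
      rfl
  | succ N ih =>
    intro F hF h0 h1
    by_cases hz : ∀ α ∈ F.coeff.support, ∑ i, Expo.v (α i) ≤ (N : ℤ)
    · exact ih F hF h0 hz
    push Not at hz
    obtain ⟨α, hα, hαN⟩ := hz
    have hex : ∃ i, Expo.v (α i) ≠ 0 := by
      by_contra hne
      push Not at hne
      rw [Finset.sum_eq_zero fun i _ => hne i] at hαN
      omega
    obtain ⟨i, hi⟩ := hex
    have hG : dd i F ≠ 0 := by
      intro hG
      have h2 := idealD_coeff_X_dd i F α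
      rw [hG, mul_zero, AddMonoidAlgebra.coeff_zero, Finsupp.zero_apply] at h2
      have h3 : ((Expo.v (α i) : ℤ) : k) ≠ 0 := Int.cast_ne_zero.mpr hi
      exact (mul_ne_zero h3 (Finsupp.mem_support_iff.mp hα)) h2.symm
    have key : ∀ γ ∈ (dd i F).coeff.support,
        Expo.v ((Pi.single i Expo.one + γ : Fin n → Γ) i) ≠ 0 ∧
        (Pi.single i Expo.one + γ : Fin n → Γ) ∈ F.coeff.support := by
      intro γ hγ
      have h2 := idealD_coeff_X_dd i F (Pi.single i Expo.one + γ)
      rw [X, idealD_coeff_mon_mul] at h2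
      have h3 : ((Expo.v ((Pi.single i Expo.one + γ : Fin n → Γ) i) : ℤ) : k) *
          F.coeff (Pi.single i Expo.one + γ) ≠ 0 := by
        rw [← h2]
        exact Finsupp.mem_support_iff.mp hγ
      refine ⟨fun h4 => h3 ?_, Finsupp.mem_support_iff.mpr (right_ne_zero_of_mul h3)⟩
      rw [h4, Int.cast_zero, zero_mul]
    have hval : ∀ γ : Fin n → Γ, ∀ j, Expo.v ((Pi.single i Expo.one + γ : Fin n → Γ) j) =
        (if j = i then 1 else 0) + Expo.v (γ j) := by
      intro γ j
      rw [Pi.add_apply, map_add]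
      congr 1
      by_cases hj : j = i
      · subst hj
        rw [Pi.single_eq_same, Expo.v_one, if_pos rfl]
      · rw [Pi.single_eq_of_ne hj, map_zero, if_neg hj]
    obtain ⟨l, c, hc, hl⟩ := ih (dd i F) hG (by
      intro γ hγ j
      obtain ⟨h2, h3⟩ := key γ hγ
      have h4 := h0 _ h3 j
      rw [hval] at h4
      by_cases hj : j = i
      · subst hj
        rw [hval, if_pos rfl] at h2
        rw [if_pos rfl] at h4
        omega
      · rw [if_neg hj] at h4
        omega) (by
      intro γ hγ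
      obtain ⟨h2, h3⟩ := key γ hγ
      have h4 := h1 _ h3
      simp_rw [hval] at h4
      rw [Finset.sum_add_distrib, Finset.sum_ite_eq' Finset.univ i] at h4
      simp only [Finset.mem_univ, if_true] at h4
      push_cast at h4
      omega)
    refine ⟨l ++ [i], c, hc, ?_⟩
    rw [List.foldr_append, List.foldr_cons, List.foldr_nil]
    exact hl

/-- From a nonzero element one reaches a nonzero constant by multiplying by a monomial and
differentiating. Hint: multiply by a monomial so that all exponents have `v ≥ 0` (if `Expo.v` is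
surjective; nothing to do otherwise). Then induction on the total degree (maximum over the support
of `∑ v (α i)`): if `F` is not a constant, some `dd i F ≠ 0` (`CharZero`) has smaller total degree.
The list `l` records the differentiated variables. -/
theorem exists_diff {n : ℕ} (F : B k Γ (Fin n)) (hF : F ≠ 0) :
    ∃ (β : Fin n → Γ) (l : List (Fin n)) (c : k), c ≠ 0 ∧
      l.foldr (fun i G => dd i G) (mon k β * F) = algebraMap k _ c := by
  have hb : ∃ β : Fin n → Γ, ∀ α ∈ F.coeff.support, ∀ i, 0 ≤ Expo.v (β i) + Expo.v (α i) := by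
    rcases (Expo.dich : (∀ a : Γ, 0 ≤ Expo.v a) ∨ Function.Surjective (Expo.v : Γ →+ ℤ)) with
      hd | hd
    · exact ⟨0, fun α _ i => by
        have := hd (α i)
        simpa using this⟩
    · obtain ⟨b, hb⟩ := hd (∑ α ∈ F.coeff.support, ∑ i, |Expo.v (α i)|)
      refine ⟨fun _ => b, fun α hα i => ?_⟩
      have h1 : |Expo.v (α i)| ≤ ∑ i, |Expo.v (α i)| :=
        Finset.single_le_sum (f := fun i => |Expo.v (α i)|) (fun j _ => abs_nonneg _)
          (Finset.mem_univ i)
      have h2 : ∑ i, |Expo.v (α i)| ≤ ∑ α ∈ F.coeff.support, ∑ i, |Expo.v (α i)| :=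
        Finset.single_le_sum (f := fun α : Fin n → Γ => ∑ i, |Expo.v (α i)|)
          (fun α _ => Finset.sum_nonneg fun j _ => abs_nonneg _) hα
      have h3 := neg_abs_le (Expo.v (α i))
      rw [hb]
      linarith
  obtain ⟨β, hβ⟩ := hb
  have hsupp : ∀ γ ∈ (mon k β * F).coeff.support, ∃ α ∈ F.coeff.support, γ = β + α := by
    intro γ hγ
    by_contra hne
    push Not at hne
    apply Finsupp.mem_support_iff.mp hγ
    by_cases h : ∃ d, β + d = γ
    · obtain ⟨d, rfl⟩ := h
      rw [idealD_coeff_mon_mul]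
      by_contra h2
      exact hne d (Finsupp.mem_support_iff.mpr h2) rfl
    · push Not at h
      rw [mon, AddMonoidAlgebra.coeff_single_mul_of_forall_add_ne _ _ h]
  have hne : mon k β * F ≠ 0 := by
    intro h
    apply hF
    ext α
    rw [← idealD_coeff_mon_mul β α F, h]
    simp
  obtain ⟨l, c, hc, hl⟩ := idealD_aux
    (∑ α ∈ (mon k β * F).coeff.support, (∑ i, Expo.v (α i)).toNat) (mon k β * F) hne (by
      intro γ hγ i
      obtain ⟨α, hα, rfl⟩ := hsupp γ hγ
      rw [Pi.add_apply, map_add]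
      exact hβ α hα i) (by
      intro γ hγ
      have h1 : (∑ i, Expo.v (γ i)).toNat ≤
          ∑ α ∈ (mon k β * F).coeff.support, (∑ i, Expo.v (α i)).toNat :=
        Finset.single_le_sum (f := fun α : Fin n → Γ => (∑ i, Expo.v (α i)).toNat)
          (fun _ _ => Nat.zero_le _) hγ
      have h2 := Int.self_le_toNat (∑ i, Expo.v (γ i))
      have h3 : (((∑ i, Expo.v (γ i)).toNat : ℕ) : ℤ) ≤
          ((∑ α ∈ (mon k β * F).coeff.support, (∑ i, Expo.v (α i)).toNat : ℕ) : ℤ) := by
        exact_mod_cast h1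
      exact h2.trans h3)
  exact ⟨β, l, c, hc, hl⟩

/-- Hint: show by induction on the list `l`: `Delta ^ l.length * (l.foldr .. (mon β * F)) ∈ V`
(`Delta * dd i (Delta ^ m * G) = Delta ^ (m+1) * dd i G + m * dd i Delta * (Delta ^ m * G)`). -/
theorem ideal_contains {n : ℕ} (V : Ideal (B k Γ (Fin n)))
    (h : ∀ i, ∀ F ∈ V, Delta k Γ n * dd i F ∈ V) (F : B k Γ (Fin n)) (hF : F ∈ V) (h0 : F ≠ 0) :
    ∃ (N : ℕ) (c : k), c ≠ 0 ∧ c • Delta k Γ n ^ N ∈ V := by
  obtain ⟨β, l, c, hc, hl⟩ := exists_diff F h0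
  have key : ∀ l : List (Fin n), ∀ G ∈ V,
      Delta k Γ n ^ l.length * (l.foldr (fun i G => dd i G) G) ∈ V := by
    intro l
    induction l with
    | nil =>
      intro G hG
      simpa using hG
    | cons i l ih =>
      intro G hG
      have h1 := h i _ (ih G hG)
      have h2 := V.mul_mem_left (dd i (Delta k Γ n)) (ih G hG)
      set H := l.foldr (fun i G => dd i G) G with hH
      rw [List.foldr_cons, List.length_cons, ← hH]
      rw [dd_mul, dd_pow] at h1
      cases hm : l.length with
      | zero =>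
        rw [hm] at h1
        simpa using h1
      | succ m =>
        rw [hm] at h1 h2
        have h3 : Delta k Γ n ^ (m + 1 + 1) * dd i H =
            Delta k Γ n * (((m + 1 : ℕ) : B k Γ (Fin n)) * Delta k Γ n ^ (m + 1 - 1) *
              dd i (Delta k Γ n) * H + Delta k Γ n ^ (m + 1) * dd i H) -
            ((m + 1 : ℕ) : B k Γ (Fin n)) *
              (dd i (Delta k Γ n) * (Delta k Γ n ^ (m + 1) * H)) := by
          rw [Nat.add_sub_cancel]
          ring
        rw [h3]
        exact V.sub_mem h1 (V.mul_mem_left _ h2)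
  refine ⟨l.length, c, hc, ?_⟩
  have h1 := key l _ (V.mul_mem_left (mon k β) hF)
  rw [hl] at h1
  rw [Algebra.smul_def, mul_comm]
  exact h1

end IdealDSec

section PureLocASec

open scoped BigOperators

variable {k : Type u} [CommRing k] {Γ : Type} [AddCommMonoid Γ] [Expo Γ]
variable {R : Type w} [Ring R] [Algebra k R]

/-- the ideal of the pure relations -/
noncomputable def pureIdeal (s m : ℕ) (e : A k Γ →ₗ[k] R) : Ideal (B k Γ (Fin s)) where
  carrier := {F | ∀ a, E s e (Delta k Γ s ^ m * a * F) = 0}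
  zero_mem' := fun a => by rw [mul_zero, map_zero]
  add_mem' := fun {F G} hF hG a => by rw [mul_add, map_add, hF a, hG a, add_zero]
  smul_mem' := fun c F hF a => by
    have h1 := hF (a * c)
    have h2 : Delta k Γ s ^ m * a * c • F = Delta k Γ s ^ m * (a * c) * F := by
      rw [smul_eq_mul]; ring
    rw [h2]; exact h1

/-- Hint: `0 = [e f, E s e (Delta ^ m * a * F)] = E s e (LL f (Delta ^ m * a * F))` and
`LL f ((Delta ^ m * a) * F) = Delta ^ m * a * del f F + LL f (Delta ^ m * a) * F`
(`LL_mul`, commuted), with `LL f (Delta ^ m * a) = Delta ^ m * G` by `LL_Delta_pow`. -/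
theorem pureIdeal_del {s m : ℕ} {e : A k Γ →ₗ[k] R} (he : LieMap e) (f : A k Γ)
    (F : B k Γ (Fin s)) (hF : F ∈ pureIdeal s m e) : del f F ∈ pureIdeal s m e := by
  have hF' : ∀ a, E s e (Delta k Γ s ^ m * a * F) = 0 := hF
  change ∀ a, E s e (Delta k Γ s ^ m * a * del f F) = 0
  intro a
  have h1 := ad_E e he f (Delta k Γ s ^ m * a * F)
  rw [hF' a, mul_zero, zero_mul, sub_zero] at h1
  obtain ⟨G, hG⟩ := LL_Delta_pow f m a
  have h2 : LL f (Delta k Γ s ^ m * a * F) =
      Delta k Γ s ^ m * G * F + Delta k Γ s ^ m * a * del f F := by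
    rw [mul_comm (Delta k Γ s ^ m * a) F, LL_mul, hG]
    ring
  rw [h2, map_add, hF' G, zero_add] at h1
  exact h1.symm

private theorem pLA_dvd {S : Type*} [CommRing S] {n : ℕ} (x : Fin n → S) (i : Fin n) :
    (∏ j ∈ Finset.univ.erase i, (x i - x j)) ∣ vand x := by
  classical
  have e1 : vand x = ∏ pq : Fin n × Fin n, if pq.1 < pq.2 then (x pq.1 - x pq.2) else 1 := by
    rw [Fintype.prod_prod_type]
    unfold vand
    refine Finset.prod_congr rfl fun p _ => ?_
    rw [← Finset.prod_filter]
    congr 1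
    ext q
    simp
  have hinj : Set.InjOn (fun j : Fin n => (min i j, max i j))
      (Finset.univ.erase i : Finset (Fin n)) := by
    intro j _ j' _ h
    have h1 : min i j = min i j' := congrArg Prod.fst h
    have h2 : max i j = max i j' := congrArg Prod.snd h
    rcases le_total i j with h3 | h3 <;> rcases le_total i j' with h4 | h4 <;>
      simp_all
  rw [e1]
  refine dvd_trans ?_ (Finset.prod_dvd_prod_of_subset
    ((Finset.univ.erase i).image (fun j : Fin n => (min i j, max i j))) _ _
    (Finset.subset_univ _))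
  rw [Finset.prod_image hinj]
  apply Finset.prod_dvd_prod_of_dvd
  intro j hj
  have hne : j ≠ i := Finset.ne_of_mem_erase hj
  rcases lt_or_gt_of_ne hne with h | h
  · simp only [min_eq_right h.le, max_eq_left h.le, if_pos h]
    rw [← neg_sub (x i) (x j)]
    exact (dvd_neg).2 dvd_rfl
  · simp only [min_eq_left h.le, max_eq_right h.le, if_pos h]
    exact dvd_rfl

/-- Hint: for `Z : B k Γ (Option (Fin s))`, `∑ l, ev l Z * dd l F ∈ pureIdeal` (`B_option_induction`
and `pureIdeal_del`); take `Z = ∏_{j ≠ i} (X none - X (some j))`: only `l = i` remains and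
`ev i Z = ∏_{j ≠ i} (X i - X j)` divides `Delta`. -/
theorem pureIdeal_dd {s m : ℕ} {e : A k Γ →ₗ[k] R} (he : LieMap e) (i : Fin s)
    (F : B k Γ (Fin s)) (hF : F ∈ pureIdeal s m e) : Delta k Γ s * dd i F ∈ pureIdeal s m e := by
  have h1 : ∀ Z : B k Γ (Option (Fin s)), ∑ l, ev l Z * dd l F ∈ pureIdeal s m e := by
    intro Z
    induction Z using B_option_induction with
    | h0 => simp
    | hadd G H hG hH =>
      simp only [map_add, add_mul, Finset.sum_add_distrib]
      exact add_mem hG hH
    | h a b =>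
      have h2 : ∑ l, ev l (inj none (tt k a) * pf some b : B k Γ (Option (Fin s))) * dd l F =
          b * del (tt k a) F := by
        rw [del_apply, Finset.mul_sum]
        refine Finset.sum_congr rfl fun l _ => ?_
        rw [map_mul, ev_inj_none, ev_pf_some]
        ring
      rw [h2]
      exact Ideal.mul_mem_left _ _ (pureIdeal_del he _ F hF)
  have h3 := h1 (∏ j ∈ Finset.univ.erase i, (X none - X (some j)))
  rw [Finset.sum_eq_single i] at h3
  · obtain ⟨c, hc⟩ := pLA_dvd (fun j => (X j : B k Γ (Fin s))) i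
    have h4 : ev i (∏ j ∈ Finset.univ.erase i, (X none - X (some j)) : B k Γ (Option (Fin s))) =
        ∏ j ∈ Finset.univ.erase i, (X i - X j : B k Γ (Fin s)) := by
      rw [map_prod]
      refine Finset.prod_congr rfl fun j _ => ?_
      rw [map_sub, ev_X_none, ev_X_some]
    rw [h4] at h3
    have h5 : Delta k Γ s * dd i F =
        c * ((∏ j ∈ Finset.univ.erase i, (X i - X j : B k Γ (Fin s))) * dd i F) := by
      have h6 : Delta k Γ s = (∏ j ∈ Finset.univ.erase i, (X i - X j : B k Γ (Fin s))) * c := hc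
      rw [h6]
      ring
    rw [h5]
    exact Ideal.mul_mem_left _ _ h3
  · intro l _ hl
    rw [map_prod, Finset.prod_eq_zero (i := l)]
    · rw [zero_mul]
    · exact Finset.mem_erase.2 ⟨hl, Finset.mem_univ _⟩
    · rw [map_sub, ev_X_none, ev_X_some, sub_self]
  · intro h
    exact absurd (Finset.mem_univ _) h

end PureLocASec

section PureLocBSec

open scoped BigOperators

variable {k : Type u} [CommRing k] {Γ : Type} [AddCommMonoid Γ] [Expo Γ]
variable {R : Type w} [Ring R] [Algebra k R]

/-- Hint: `E_perm`: all terms of the sum over `σ` are equal, and `s!` can be cancelled: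
`E s e (Delta ^ (2m+2) * a * F) = 0` for all `a`; so `F ∈ pureIdeal`; `ideal_contains`. -/
theorem loc_of_sym [IsDomain k] [CharZero k] (htf : ∀ (c : k) (x : R), c • x = 0 → c = 0 ∨ x = 0)
    {e : A k Γ →ₗ[k] R} (he : LieMap e) (s m : ℕ) (F : B k Γ (Fin s)) (hF : F ≠ 0)
    (hsym : ∀ σ : Equiv.Perm (Fin s), pf σ F = F)
    (h : ∀ a, E s e (Delta k Γ s ^ (2 * m + 2) * (∑ σ : Equiv.Perm (Fin s), pf σ a) * F) = 0) :
    ∃ N, Loc s N e := by
  have hV : F ∈ pureIdeal s (2 * m + 2) e := by
    change ∀ a, E s e (Delta k Γ s ^ (2 * m + 2) * a * F) = 0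
    intro a
    have h1 := h a
    have h2 : Delta k Γ s ^ (2 * m + 2) * (∑ σ : Equiv.Perm (Fin s), pf σ a) * F =
        ∑ σ : Equiv.Perm (Fin s), Delta k Γ s ^ (2 * m + 2) * pf σ (a * F) := by
      rw [Finset.mul_sum, Finset.sum_mul]
      refine Finset.sum_congr rfl fun σ _ => ?_
      rw [map_mul, hsym σ]
      ring
    rw [h2, map_sum, Finset.sum_congr rfl fun σ _ => E_perm he σ m (a * F), Finset.sum_const,
      Finset.card_univ, Fintype.card_perm, Fintype.card_fin, ← mul_assoc] at h1
    rw [← Nat.cast_smul_eq_nsmul k] at h1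
    rcases htf _ _ h1 with h3 | h3
    · exact absurd h3 (Nat.cast_ne_zero.2 (Nat.factorial_ne_zero s))
    · exact h3
  obtain ⟨N, c, hc, hcV⟩ := ideal_contains (pureIdeal s (2 * m + 2) e)
    (fun i G hG => pureIdeal_dd he i G hG) F hV hF
  have hcV' : ∀ a, E s e (Delta k Γ s ^ (2 * m + 2) * a * (c • Delta k Γ s ^ N)) = 0 := hcV
  refine ⟨2 * m + 2 + N, fun G => ?_⟩
  have h4 := hcV' G
  have h5 : Delta k Γ s ^ (2 * m + 2) * G * (c • Delta k Γ s ^ N) =
      c • (Delta k Γ s ^ (2 * m + 2 + N) * G) := by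
    rw [mul_smul_comm]
    congr 1
    ring
  rw [h5, map_smul] at h4
  rcases htf _ _ h4 with h6 | h6
  · exact absurd h6 hc
  · exact h6

end PureLocBSec

section ClaimASec

open scoped BigOperators

variable {k : Type u} [CommRing k] {Γ : Type} [AddCommMonoid Γ] [Expo Γ]
variable {R : Type w} [Ring R] [Algebra k R]

theorem suppIn_univ {ι : Type} (F : B k Γ ι) : F ∈ SuppIn k (Set.univ : Set Γ) := by
  induction F using mon_induction with
  | h0 => exact Submodule.zero_mem _
  | hadd F G hF hG => exact Submodule.add_mem _ hF hG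
  | hmon c α => exact Submodule.smul_mem _ _ (Submodule.subset_span ⟨α, fun _ => trivial, rfl⟩)

/-- A relation with a nonzero symmetric leading term gives locality. -/
theorem claimA [IsDomain k] [CharZero k] (htf : ∀ (c : k) (x : R), c • x = 0 → c = 0 ∨ x = 0)
    {e : A k Γ →ₗ[k] R} (he : LieMap e) (s : ℕ) (F : ∀ j, B k Γ (Fin j))
    (h0 : ∑ j ∈ Finset.range (s + 1), E j e (F j) = 0) (hs : F s ≠ 0)
    (hsym : ∀ σ : Equiv.Perm (Fin s), pf σ (F s) = F s) : ∃ N, Loc s N e := by
  refine loc_of_sym htf he s (4 * (4 * s + 4) - 1) (F s) hs hsym fun a => ?_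
  have h := pure_rel htf (RelLie.of_lieMap he) s (4 * s + 4) le_rfl F (fun j => suppIn_univ _) h0
    (pf (Fin.natAdd s) a) (suppIn_univ _)
  have h2 : 2 * (4 * (4 * s + 4) - 1) + 2 = 8 * (4 * s + 4) := by omega
  rw [h2]
  have h3 : ∀ σ : Equiv.Perm (Fin s), pf (fun l : Fin (s + s) => σ (cl l)) (pf (Fin.natAdd s) a) =
      pf σ a := fun σ => by
    rw [pf_pf]
    have h4 : ((fun l : Fin (s + s) => σ (cl l)) ∘ Fin.natAdd s) = (fun p : Fin s => σ p) := by
      funext p
      change σ (cl (Fin.natAdd s p)) = σ p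
      rw [cl_natAdd]
    rw [h4]
  simp only [h3] at h
  exact h

end ClaimASec

section SymRepASec

open scoped BigOperators

variable {k : Type u} [CommRing k] {Γ : Type} [AddCommMonoid Γ]
variable {R : Type w} [Ring R] [Algebra k R]

theorem WSpan_mono (S : Set R) {a b : ℕ} (h : a ≤ b) : WSpan k S a ≤ WSpan k S b := by
  refine Submodule.span_mono ?_
  rintro x ⟨l, hl, hl2, rfl⟩
  exact ⟨l, hl.trans h, hl2, rfl⟩

theorem WSpan_mul (S : Set R) {a b : ℕ} {x y : R} (hx : x ∈ WSpan k S a) (hy : y ∈ WSpan k S b) :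
    x * y ∈ WSpan k S (a + b) := by
  have h := Submodule.mul_mem_mul hx hy
  rw [WSpan, WSpan, Submodule.span_mul_span] at h
  refine Submodule.span_mono ?_ h
  rintro z ⟨x, ⟨l, hl, hl2, rfl⟩, y, ⟨l', hl', hl2', rfl⟩, rfl⟩
  refine ⟨l ++ l', ?_, ?_, ?_⟩
  · rw [List.length_append]; omega
  · intro y hy
    rcases List.mem_append.1 hy with h | h
    · exact hl2 y h
    · exact hl2' y h
  · simp

theorem E_mem_WSpan (e : A k Γ →ₗ[k] R) {n : ℕ} (F : B k Γ (Fin n)) :
    E n e F ∈ WSpan k (Set.range e) n := by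
  refine mon_induction (P := fun F => E n e F ∈ WSpan k (Set.range e) n) F ?_ ?_ ?_
  · rw [map_zero]; exact Submodule.zero_mem _
  · intro F G hF hG
    rw [map_add]; exact Submodule.add_mem _ hF hG
  · intro c α
    rw [map_smul, EE_mon]
    refine Submodule.smul_mem _ _ (Submodule.subset_span ⟨_, ?_, ?_, rfl⟩)
    · simp
    · intro y hy
      rw [List.mem_ofFn] at hy
      obtain ⟨i, rfl⟩ := hy
      exact ⟨_, rfl⟩

private theorem symRepA_prod (e : A k Γ →ₗ[k] R) : ∀ (n : ℕ) (f : Fin n → A k Γ),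
    E n e (∏ i, inj i (f i)) = (List.ofFn (fun i => e (f i))).prod := by
  intro n
  induction n with
  | zero =>
    intro f
    rw [Finset.univ_eq_empty, Finset.prod_empty, List.ofFn_zero, List.prod_nil]
    exact EE_zero_one _
  | succ n ih =>
    intro f
    rw [Fin.prod_univ_succ, List.ofFn_succ, List.prod_cons]
    have h1 : ∏ i : Fin n, inj (Fin.succ i) (f (Fin.succ i)) =
        pf Fin.succ (∏ i : Fin n, inj i (f (Fin.succ i))) := by
      rw [map_prod]
      refine Finset.prod_congr rfl fun i _ => ?_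
      rw [pf_inj]
    rw [h1]
    have h2 := EE_succ (fun _ : Fin (n + 1) => e) (f 0) (∏ i : Fin n, inj i (f (Fin.succ i)))
    rw [E, h2]
    congr 1
    exact ih (fun i => f (Fin.succ i))

omit [Ring R] in
private theorem symRepA_list (l : List R) : ∀ (n : ℕ) (h : n = l.length),
    List.ofFn (fun i => l.get (Fin.cast h i)) = l := by
  rintro n rfl
  exact List.ofFn_get l

/-- Hint: `Submodule.span_induction`; a word `e f_1 ... e f_n` is multilinear, so it is
`E n e (∏ inj i (f_i))` (or expand the `f_i` in powers of `t`). -/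
theorem exists_of_mem_WSpan (e : A k Γ →ₗ[k] R) (d : ℕ) (x : R)
    (hx : x ∈ WSpan k (Set.range e) (d + 1)) :
    ∃ F : B k Γ (Fin (d + 1)), x - E (d + 1) e F ∈ WSpan k (Set.range e) d := by
  refine Submodule.span_induction ?_ ?_ ?_ ?_ hx
  · rintro x ⟨l, hl, hl2, rfl⟩
    rcases Nat.lt_or_ge l.length (d + 1) with h | h
    · refine ⟨0, ?_⟩
      rw [map_zero, sub_zero]
      exact Submodule.subset_span ⟨l, by omega, hl2, rfl⟩
    · have hlen : l.length = d + 1 := le_antisymm hl h
      have hget : ∀ i : Fin (d + 1), ∃ f : A k Γ, e f = l.get (Fin.cast hlen.symm i) := by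
        intro i
        exact hl2 _ (List.get_mem _ _)
      choose f hf using hget
      refine ⟨∏ i, inj i (f i), ?_⟩
      rw [symRepA_prod]
      have hl' : List.ofFn (fun i => e (f i)) = l := by
        rw [← symRepA_list l (d + 1) hlen.symm]
        congr 1
        funext i
        exact hf i
      rw [hl', sub_self]
      exact Submodule.zero_mem _
  · refine ⟨0, ?_⟩
    rw [map_zero, sub_zero]
    exact Submodule.zero_mem _
  · rintro x y - - ⟨F, hF⟩ ⟨G, hG⟩
    refine ⟨F + G, ?_⟩
    rw [map_add, add_sub_add_comm]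
    exact Submodule.add_mem _ hF hG
  · rintro c x - ⟨F, hF⟩
    refine ⟨c • F, ?_⟩
    rw [map_smul, ← smul_sub]
    exact Submodule.smul_mem _ _ hF

end SymRepASec

section SymRepBSec

open scoped BigOperators

variable {k : Type u} [CommRing k] {Γ : Type} [AddCommMonoid Γ]
variable {R : Type w} [Ring R] [Algebra k R]

private theorem symRepB_one (S : Set R) {x : R} (hx : x ∈ S) : x ∈ WSpan k S 1 :=
  Submodule.subset_span ⟨[x], by simp, by simpa using hx, by simp⟩

private theorem symRepB_ofFn (S : Set R) {n : ℕ} (g : Fin n → R) (hg : ∀ i, g i ∈ S) :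
    (List.ofFn g).prod ∈ WSpan k S n := by
  refine Submodule.subset_span ⟨List.ofFn g, by simp, ?_, rfl⟩
  intro y hy
  rw [List.mem_ofFn] at hy
  obtain ⟨i, rfl⟩ := hy
  exact hg i

private theorem symRepB_swap (S : Set R) (hS : ∀ x ∈ S, ∀ y ∈ S, x * y - y * x ∈ WSpan k S 1) :
    ∀ (n : ℕ) (g : Fin (n + 1) → R) (_ : ∀ i, g i ∈ S) (i : Fin n),
      (List.ofFn g).prod - (List.ofFn (g ∘ Equiv.swap i.castSucc i.succ)).prod ∈ WSpan k S n := by
  intro n
  induction n with
  | zero => exact fun g hg i => i.elim0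
  | succ n ih =>
    intro g hg i
    refine Fin.cases ?_ (fun j => ?_) i
    · have e1 : (List.ofFn g).prod =
          g 0 * g 1 * (List.ofFn (fun l : Fin n => g l.succ.succ)).prod := by
        rw [List.ofFn_succ, List.prod_cons, List.ofFn_succ, List.prod_cons, mul_assoc]
        rfl
      have e2 : (List.ofFn (g ∘ Equiv.swap (0 : Fin (n + 1)).castSucc (0 : Fin (n + 1)).succ)).prod =
          g 1 * g 0 * (List.ofFn (fun l : Fin n => g l.succ.succ)).prod := by
        rw [List.ofFn_succ, List.prod_cons, List.ofFn_succ, List.prod_cons, mul_assoc]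
        have h0 : (g ∘ Equiv.swap (0 : Fin (n + 1)).castSucc (0 : Fin (n + 1)).succ) 0 = g 1 := by
          simp
        have h1 : (g ∘ Equiv.swap (0 : Fin (n + 1)).castSucc (0 : Fin (n + 1)).succ)
            (Fin.succ 0) = g 0 := by
          simp
        have h2 : ∀ l : Fin n, (g ∘ Equiv.swap (0 : Fin (n + 1)).castSucc
            (0 : Fin (n + 1)).succ) l.succ.succ = g l.succ.succ := by
          intro l
          rw [Function.comp_apply, Equiv.swap_apply_of_ne_of_ne]
          · exact Fin.succ_ne_zero _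
          · intro h
            exact Fin.succ_ne_zero _ (Fin.succ_injective _ h)
        rw [h0, h1]
        simp only [h2]
      rw [e1, e2, ← sub_mul]
      exact WSpan_mono S (add_comm 1 n).le
        (WSpan_mul S (hS _ (hg 0) _ (hg 1)) (symRepB_ofFn S _ fun l => hg _))
    · have e1 : (List.ofFn g).prod = g 0 * (List.ofFn (fun l : Fin (n + 1) => g l.succ)).prod := by
        rw [List.ofFn_succ, List.prod_cons]
      have e2 : (List.ofFn (g ∘ Equiv.swap j.succ.castSucc j.succ.succ)).prod =
          g 0 * (List.ofFn ((fun l : Fin (n + 1) => g l.succ) ∘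
            Equiv.swap j.castSucc j.succ)).prod := by
        rw [List.ofFn_succ, List.prod_cons]
        have h0 : (g ∘ Equiv.swap j.succ.castSucc j.succ.succ) 0 = g 0 := by
          rw [Function.comp_apply, Equiv.swap_apply_of_ne_of_ne]
          · rw [← Fin.succ_castSucc]; exact (Fin.succ_ne_zero _).symm
          · exact (Fin.succ_ne_zero _).symm
        have h1 : ∀ l : Fin (n + 1), (g ∘ Equiv.swap j.succ.castSucc j.succ.succ) l.succ =
            ((fun l : Fin (n + 1) => g l.succ) ∘ Equiv.swap j.castSucc j.succ) l := by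
          intro l
          simp only [Function.comp_apply]
          congr 1
          rw [← Fin.succ_castSucc]
          exact (Function.Injective.swap_apply (Fin.succ_injective _) _ _ _)
        rw [h0]
        simp only [h1]
      rw [e1, e2, ← mul_sub]
      exact WSpan_mono S (add_comm 1 n).le
        (WSpan_mul S (symRepB_one S (hg 0)) (ih _ (fun l => hg _) j))

private theorem symRepB_push {n : ℕ} (σ : Equiv.Perm (Fin n)) (α : Fin n → Γ) :
    push (σ : Fin n → Fin n) α = α ∘ σ.symm := by
  funext j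
  rw [push_apply, Finset.sum_eq_single (σ.symm j)]
  · simp
  · intro b _ hb
    rw [if_neg]
    intro h
    exact hb (by rw [← h]; simp)
  · intro h
    exact absurd (Finset.mem_univ _) h

/-- Hint: adjacent transpositions (`Equiv.Perm.mclosure_swap_castSucc_succ`), and for these a
monomial: `w₁ (e f * e h - e h * e f) w₂`, `WSpan_mul`. -/
theorem E_sub_perm_mem (e : A k Γ →ₗ[k] R)
    (hbr : ∀ f h, e f * e h - e h * e f ∈ WSpan k (Set.range e) 1) (d : ℕ)
    (σ : Equiv.Perm (Fin (d + 1))) (F : B k Γ (Fin (d + 1))) :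
    E (d + 1) e F - E (d + 1) e (pf σ F) ∈ WSpan k (Set.range e) d := by
  have hS : ∀ x ∈ Set.range e, ∀ y ∈ Set.range e, x * y - y * x ∈ WSpan k (Set.range e) 1 := by
    rintro x ⟨f, rfl⟩ y ⟨h, rfl⟩
    exact hbr f h
  have hσ : σ ∈ Submonoid.closure (Set.range fun i : Fin d => Equiv.swap i.castSucc i.succ) := by
    rw [Equiv.Perm.mclosure_swap_castSucc_succ]
    exact Submonoid.mem_top σ
  revert F
  refine Submonoid.closure_induction ?_ ?_ ?_ hσ
  · rintro _ ⟨i, rfl⟩ F
    refine mon_induction (P := fun F => E (d + 1) e F - E (d + 1) e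
      (pf (Equiv.swap i.castSucc i.succ) F) ∈ WSpan k (Set.range e) d) F ?_ ?_ ?_
    · simp only [map_zero, sub_zero]
      exact Submodule.zero_mem _
    · intro F G hF hG
      simp only [map_add]
      rw [add_sub_add_comm]
      exact Submodule.add_mem _ hF hG
    · intro c α
      simp only [map_smul]
      rw [← smul_sub]
      refine Submodule.smul_mem _ _ ?_
      rw [pf_mon, EE_mon, EE_mon, symRepB_push]
      exact symRepB_swap (Set.range e) hS d (fun l => e (tt k (α l))) (fun l => ⟨_, rfl⟩) i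
  · intro F
    have : pf ((1 : Equiv.Perm (Fin (d + 1))) : Fin (d + 1) → Fin (d + 1)) F = F := pf_id F
    rw [this, sub_self]
    exact Submodule.zero_mem _
  · intro σ τ _ _ hσ hτ F
    have h1 : pf ((σ * τ : Equiv.Perm (Fin (d + 1))) : Fin (d + 1) → Fin (d + 1)) F =
        pf σ (pf τ F) := by
      rw [pf_pf]
      rfl
    rw [h1]
    have := Submodule.add_mem _ (hτ F) (hσ (pf τ F))
    simpa using this

/-- Symmetric representation. Hint: induction on `d` with `exists_of_mem_WSpan`, `E_sub_perm_mem`; the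
symmetrization is `(1 / (d + 1)!) ∑_σ pf σ F`. For `d = 0`: scalars. -/
theorem sym_rep (hQ : ∀ n : ℕ, n ≠ 0 → IsUnit (n : k)) (e : A k Γ →ₗ[k] R)
    (hbr : ∀ f h, e f * e h - e h * e f ∈ WSpan k (Set.range e) 1) (d : ℕ) (x : R)
    (hx : x ∈ WSpan k (Set.range e) d) :
    ∃ F : ∀ j, B k Γ (Fin j), (∀ j (σ : Equiv.Perm (Fin j)), pf σ (F j) = F j) ∧
      x = ∑ j ∈ Finset.range (d + 1), E j e (F j) := by
  induction d generalizing x with
  | zero =>
    have h1 : x ∈ Submodule.span k {(1 : R)} := by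
      refine Submodule.span_mono ?_ hx
      rintro y ⟨l, hl, -, rfl⟩
      have : l = [] := List.length_eq_zero_iff.1 (by omega)
      simp [this]
    obtain ⟨c, rfl⟩ := Submodule.mem_span_singleton.1 h1
    refine ⟨fun j => c • 1, ?_, ?_⟩
    · intro j σ
      rw [map_smul, map_one]
    · rw [zero_add, Finset.sum_range_one, map_smul]
      congr 1
      exact (EE_zero_one _).symm
  | succ d ih =>
    obtain ⟨F, hF⟩ := exists_of_mem_WSpan e d x hx
    obtain ⟨u, hu⟩ := hQ (d + 1).factorial (Nat.factorial_ne_zero _)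
    set F' : B k Γ (Fin (d + 1)) :=
      ((u⁻¹ : kˣ) : k) • ∑ σ : Equiv.Perm (Fin (d + 1)), pf σ F with hF'
    have hsym : ∀ τ : Equiv.Perm (Fin (d + 1)), pf τ F' = F' := by
      intro τ
      rw [hF', map_smul, map_sum]
      congr 1
      have : ∀ σ : Equiv.Perm (Fin (d + 1)), pf τ (pf σ F) =
          pf ((τ * σ : Equiv.Perm (Fin (d + 1))) : Fin (d + 1) → Fin (d + 1)) F := by
        intro σ
        rw [pf_pf]
        rfl
      simp only [this]
      exact Equiv.sum_comp (Equiv.mulLeft τ)
        (fun σ : Equiv.Perm (Fin (d + 1)) => pf (σ : Fin (d + 1) → Fin (d + 1)) F)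
    have hmem : E (d + 1) e F - E (d + 1) e F' ∈ WSpan k (Set.range e) d := by
      have h1 : E (d + 1) e F - E (d + 1) e F' = ((u⁻¹ : kˣ) : k) •
          ∑ σ : Equiv.Perm (Fin (d + 1)), (E (d + 1) e F - E (d + 1) e (pf σ F)) := by
        rw [Finset.sum_sub_distrib, smul_sub, hF', map_smul, map_sum]
        congr 1
        rw [Finset.sum_const, Finset.card_univ, Fintype.card_perm, Fintype.card_fin,
          ← Nat.cast_smul_eq_nsmul k, ← hu, smul_smul, Units.inv_mul, one_smul]
      rw [h1]
      exact Submodule.smul_mem _ _ (Submodule.sum_mem _ fun σ _ => E_sub_perm_mem e hbr d σ F)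
    have hmem2 : x - E (d + 1) e F' ∈ WSpan k (Set.range e) d := by
      have := Submodule.add_mem _ hF hmem
      simpa using this
    obtain ⟨G, hG, hx'⟩ := ih _ hmem2
    refine ⟨Function.update G (d + 1) F', ?_, ?_⟩
    · intro j σ
      by_cases hj : j = d + 1
      · subst hj
        rw [Function.update_self]
        exact hsym σ
      · rw [Function.update_of_ne hj]
        exact hG j σ
    · rw [Finset.sum_range_succ, Function.update_self]
      have : ∑ j ∈ Finset.range (d + 1), E j e (Function.update G (d + 1) F' j) =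
          ∑ j ∈ Finset.range (d + 1), E j e (G j) := by
        refine Finset.sum_congr rfl fun j hj => ?_
        rw [Function.update_of_ne]
        exact (Finset.mem_range.1 hj).ne
      rw [this, ← hx', sub_add_cancel]

theorem adjoin_mem_WSpan (e : A k Γ →ₗ[k] R) (x : R)
    (hx : x ∈ Algebra.adjoin k (Set.range e)) : ∃ d, x ∈ WSpan k (Set.range e) d := by
  refine Algebra.adjoin_induction (p := fun x _ => ∃ d, x ∈ WSpan k (Set.range e) d)
    ?_ ?_ ?_ ?_ hx
  · intro x hx
    exact ⟨1, symRepB_one _ hx⟩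
  · intro r
    refine ⟨0, ?_⟩
    rw [Algebra.algebraMap_eq_smul_one]
    exact Submodule.smul_mem _ _ (Submodule.subset_span ⟨[], by simp, by simp, by simp⟩)
  · rintro x y - - ⟨a, ha⟩ ⟨b, hb⟩
    exact ⟨max a b, Submodule.add_mem _ (WSpan_mono _ (le_max_left _ _) ha)
      (WSpan_mono _ (le_max_right _ _) hb)⟩
  · rintro x y - - ⟨a, ha⟩ ⟨b, hb⟩
    exact ⟨a + b, WSpan_mul _ ha hb⟩

theorem lift_mem_WSpan (e : A k Γ →ₗ[k] R) (p : TensorAlgebra k (A k Γ)) :
    ∃ d, TensorAlgebra.lift k e p ∈ WSpan k (Set.range e) d := by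
  apply adjoin_mem_WSpan
  refine TensorAlgebra.induction (C := fun p => TensorAlgebra.lift k e p ∈
    Algebra.adjoin k (Set.range e)) ?_ ?_ ?_ ?_ p
  · intro r
    rw [AlgHom.commutes]
    exact Subalgebra.algebraMap_mem _ _
  · intro x
    rw [TensorAlgebra.lift_ι_apply]
    exact Algebra.subset_adjoin ⟨x, rfl⟩
  · intro a b ha hb
    rw [map_mul]
    exact Subalgebra.mul_mem _ ha hb
  · intro a b ha hb
    rw [map_add]
    exact Subalgebra.add_mem _ ha hb

end SymRepBSec

end W94
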