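import Pool.Agent.LibWitt94.WMain

universe u

namespace W94

section DerPolySec

open scoped Polynomial

variable {k : Type u} [Field k] [CharZero k]

private noncomputable def LP : A k ℕ →ₗ[k] k[X] := lin (fun α => Polynomial.X ^ (α ()))

omit [CharZero k] in
private theorem LP_mon (α : Unit → ℕ) : LP (mon k α : A k ℕ) = Polynomial.X ^ (α ()) := by
  rw [LP, lin_mon]

omit [CharZero k] in
private theorem LP_tt (n : ℕ) : LP (tt k n : A k ℕ) = Polynomial.X ^ n := by
  rw [tt, LP_mon]

omit [CharZero k] in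
private theorem LP_mul (f h : A k ℕ) : LP (f * h) = LP f * LP h := by
  refine mon_induction (P := fun f => LP (f * h) = LP f * LP h) f (by simp)
    (fun F G hF hG => by rw [add_mul, map_add, hF, hG, map_add, add_mul]) fun c α => ?_
  refine mon_induction (P := fun h => LP (c • mon k α * h) = LP (c • mon k α) * LP h) h (by simp)
    (fun F G hF hG => by rw [mul_add, map_add, hF, hG, map_add, mul_add]) fun d β => ?_
  rw [smul_mul_smul_comm, mon_mul, map_smul, map_smul, map_smul, LP_mon, LP_mon, LP_mon,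
    smul_mul_smul_comm, Pi.add_apply, pow_add]

omit [CharZero k] in
private theorem LP_Dt (h : A k ℕ) : LP (Dt h) = Polynomial.derivative (LP h) := by
  refine mon_induction (P := fun h => LP (Dt h) = Polynomial.derivative (LP h)) h (by simp)
    (fun F G hF hG => by rw [map_add, map_add, hF, hG, map_add, Polynomial.derivative_add])
    fun d β => ?_
  rw [map_smul, map_smul, map_smul, LP_mon, Polynomial.derivative_smul, Polynomial.derivative_X_pow]
  congr 1
  rw [Dt, dd_mon, map_smul, LP_mon]
  simp only [Function.update_self]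
  change (((β () : ℕ) : ℤ) : k) • Polynomial.X ^ (β () - 1) = _
  rw [Polynomial.smul_eq_C_mul]
  simp

omit [CharZero k] in
private theorem LP_surj : Function.Surjective (LP : A k ℕ →ₗ[k] k[X]) := by
  intro p
  induction p using Polynomial.induction_on' with
  | add p q hp hq =>
    obtain ⟨a, rfl⟩ := hp
    obtain ⟨b, rfl⟩ := hq
    exact ⟨a + b, map_add _ _ _⟩
  | monomial n a =>
    refine ⟨a • tt k n, ?_⟩
    rw [map_smul, LP_tt, Polynomial.smul_X_eq_monomial]

/-- `Der k[t]` is `k[t] ∂`. Hint: `φ (t^n) = mkDerivation (X^n)`, that is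
`φ = Polynomial.mkDerivation ∘ (linear isomorphism A k ℕ ≃ k[X])`,
`(mkDerivation a) f = derivative f • a`; a derivation is determined by its value at `X`
(`Polynomial.mkDerivationEquiv`); the bracket of `a ∂`, `b ∂` is `(a b' - b a') ∂`. -/
theorem exists_der_poly : ∃ φ : A k ℕ →ₗ[k] Derivation k k[X] k[X], Function.Surjective φ ∧
    ∀ f h, ⁅φ f, φ h⁆ = φ (f * Dt h - h * Dt f) := by
  refine ⟨(Polynomial.mkDerivationEquiv k).toLinearMap ∘ₗ LP, ?_, ?_⟩
  · rw [LinearMap.coe_comp]
    exact (Polynomial.mkDerivationEquiv k).surjective.comp LP_surj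
  · intro f h
    refine Polynomial.derivation_ext ?_
    simp only [LinearMap.comp_apply, LinearEquiv.coe_coe, Polynomial.mkDerivationEquiv_apply,
      Derivation.commutator_apply, Polynomial.mkDerivation_X]
    simp only [Polynomial.mkDerivation_apply, smul_eq_mul, map_sub, LP_mul, LP_Dt]
    ring

theorem acc_witt_plus :
    AccPrimitive (UniversalEnvelopingAlgebra k (Derivation k k[X] k[X])) := by
  obtain ⟨φ, hs, hφ⟩ := exists_der_poly (k := k)
  exact acc_of_lieAlgebra φ hs hφ

end DerPolySec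

section DerLaurentSec

open scoped LaurentPolynomial

variable {k : Type u} [Field k] [CharZero k]

private noncomputable def LQ : A k ℤ →ₗ[k] k[T;T⁻¹] := lin (fun α => LaurentPolynomial.T (α ()))

omit [CharZero k] in
private theorem LQ_mon (α : Unit → ℤ) : LQ (mon k α : A k ℤ) = LaurentPolynomial.T (α ()) := by
  rw [LQ, lin_mon]

omit [CharZero k] in
private theorem LQ_tt (n : ℤ) : LQ (tt k n : A k ℤ) = LaurentPolynomial.T n := by
  rw [tt, LQ_mon]

omit [CharZero k] in
private theorem LQ_mul (f h : A k ℤ) : LQ (f * h) = LQ f * LQ h := by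
  refine mon_induction (P := fun f => LQ (f * h) = LQ f * LQ h) f (by simp)
    (fun F G hF hG => by rw [add_mul, map_add, hF, hG, map_add, add_mul]) fun c α => ?_
  refine mon_induction (P := fun h => LQ (c • mon k α * h) = LQ (c • mon k α) * LQ h) h (by simp)
    (fun F G hF hG => by rw [mul_add, map_add, hF, hG, map_add, mul_add]) fun d β => ?_
  rw [smul_mul_smul_comm, mon_mul, map_smul, map_smul, map_smul, LQ_mon, LQ_mon, LQ_mon,
    smul_mul_smul_comm, Pi.add_apply, LaurentPolynomial.T_add]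

private noncomputable def dL : k[T;T⁻¹] →ₗ[k] k[T;T⁻¹] :=
  (Finsupp.linearCombination k (fun n : ℤ => (n : k) • (LaurentPolynomial.T (n - 1) : k[T;T⁻¹]))) ∘ₗ
    (AddMonoidAlgebra.coeffLinearEquiv k).toLinearMap

omit [CharZero k] in
private theorem dL_T (n : ℤ) : dL (LaurentPolynomial.T n : k[T;T⁻¹]) =
    (n : k) • (LaurentPolynomial.T (n - 1) : k[T;T⁻¹]) := by
  have h : (AddMonoidAlgebra.coeffLinearEquiv k) (LaurentPolynomial.T n : k[T;T⁻¹]) =
      Finsupp.single n (1 : k) := rfl
  rw [dL, LinearMap.comp_apply, LinearEquiv.coe_coe, h, Finsupp.linearCombination_single, one_smul]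

omit [CharZero k] in
private theorem T_ind {P : k[T;T⁻¹] → Prop} (p : k[T;T⁻¹])
    (hadd : ∀ p q, P p → P q → P (p + q))
    (hT : ∀ (c : k) (n : ℤ), P (c • (LaurentPolynomial.T n : k[T;T⁻¹]))) : P p := by
  refine LaurentPolynomial.induction_on' p hadd fun n a => ?_
  rw [← LaurentPolynomial.smul_eq_C_mul]
  exact hT a n

omit [CharZero k] in
private theorem dL_mul (a b : k[T;T⁻¹]) : dL (a * b) = a • dL b + b • dL a := by
  refine T_ind (P := fun a => dL (a * b) = a • dL b + b • dL a) a
    (fun p q hp hq => by rw [add_mul, map_add, hp, hq, map_add, add_smul, smul_add]; abel)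
    fun c n => ?_
  refine T_ind (P := fun b => dL (c • LaurentPolynomial.T n * b) =
    (c • (LaurentPolynomial.T n : k[T;T⁻¹])) • dL b + b • dL (c • LaurentPolynomial.T n)) b
    (fun p q hp hq => by rw [mul_add, map_add, hp, hq, map_add, add_smul, smul_add]; abel)
    fun d m => ?_
  rw [smul_mul_smul_comm, ← LaurentPolynomial.T_add, map_smul, map_smul, map_smul, dL_T, dL_T, dL_T,
    smul_eq_mul, smul_eq_mul, smul_mul_smul_comm, smul_mul_smul_comm, mul_smul_comm, mul_smul_comm,
    ← LaurentPolynomial.T_add, ← LaurentPolynomial.T_add,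
    show n + (m - 1) = n + m - 1 by ring, show m + (n - 1) = n + m - 1 by ring, smul_smul, smul_smul,
    smul_smul, ← add_smul]
  congr 1
  push_cast
  ring

private noncomputable def D0 : Derivation k k[T;T⁻¹] k[T;T⁻¹] := Derivation.mk' dL dL_mul

omit [CharZero k] in
private theorem D0_apply (x : k[T;T⁻¹]) : D0 x = dL x := rfl

omit [CharZero k] in
private theorem LQ_Dt (h : A k ℤ) : LQ (Dt h) = D0 (LQ h) := by
  refine mon_induction (P := fun h => LQ (Dt h) = D0 (LQ h)) h (by simp)
    (fun F G hF hG => by rw [map_add, map_add, hF, hG, map_add, map_add])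
    fun d β => ?_
  rw [map_smul, map_smul, map_smul, LQ_mon, Derivation.map_smul]
  congr 1
  rw [Dt, dd_mon, map_smul, LQ_mon, D0_apply, dL_T]
  simp only [Function.update_self]
  rfl

omit [CharZero k] in
private theorem LQ_surj : Function.Surjective (LQ : A k ℤ →ₗ[k] k[T;T⁻¹]) := by
  intro p
  refine T_ind (P := fun p => ∃ a, LQ a = p) p ?_ fun c n => ⟨c • tt k n, ?_⟩
  · rintro p q ⟨a, rfl⟩ ⟨b, rfl⟩
    exact ⟨a + b, map_add _ _ _⟩
  · rw [map_smul, LQ_tt]

omit [CharZero k] in
private theorem der_T (D : Derivation k k[T;T⁻¹] k[T;T⁻¹]) (n : ℤ) :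
    D (LaurentPolynomial.T n) = D (LaurentPolynomial.T 1) * D0 (LaurentPolynomial.T n) := by
  have key : ∀ m : ℤ, D (LaurentPolynomial.T (m + 1)) =
      LaurentPolynomial.T m * D (LaurentPolynomial.T 1) +
        LaurentPolynomial.T 1 * D (LaurentPolynomial.T m) := by
    intro m
    rw [LaurentPolynomial.T_add, Derivation.leibniz, smul_eq_mul, smul_eq_mul]
  have key0 : ∀ m : ℤ, D0 (LaurentPolynomial.T (m + 1) : k[T;T⁻¹]) =
      LaurentPolynomial.T m +
        LaurentPolynomial.T 1 * D0 (LaurentPolynomial.T m) := by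
    intro m
    rw [LaurentPolynomial.T_add, Derivation.leibniz, smul_eq_mul, smul_eq_mul]
    congr 1
    rw [D0_apply, dL_T]
    simp
  refine Int.induction_on n ?_ ?_ ?_
  · simp
  · intro i hi
    rw [key, key0, hi]
    ring
  · intro i hi
    have h1 := key (-(i : ℤ) - 1)
    have h2 := key0 (-(i : ℤ) - 1)
    rw [sub_add_cancel] at h1 h2
    rw [hi, h2] at h1
    have h3 : LaurentPolynomial.T 1 * D (LaurentPolynomial.T (-(i : ℤ) - 1)) =
        LaurentPolynomial.T 1 *
          (D (LaurentPolynomial.T 1) * D0 (LaurentPolynomial.T (-(i : ℤ) - 1))) := by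
      linear_combination -h1
    exact (LaurentPolynomial.isUnit_T 1).mul_left_cancel h3

/-- `Der k[t, 1/t]` is `k[t, 1/t] ∂`. Hint: the derivation `∂` with `∂ (T n) = n • T (n - 1)` (linear
extension, Leibniz on monomials); `φ f = f • ∂` for `f` in Laurent polynomials
(`A k ℤ` is linearly isomorphic to `k[T;T⁻¹]`, `tt n ↦ T n`). A derivation `D` satisfies
`D (T n) = n • T (n - 1) * D (T 1)` (induction for `n ≥ 0`, and `T n * T (-n) = 1`), so
`D = φ (D (T 1))`. -/
theorem exists_der_laurent : ∃ φ : A k ℤ →ₗ[k] Derivation k k[T;T⁻¹] k[T;T⁻¹],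
    Function.Surjective φ ∧ ∀ f h, ⁅φ f, φ h⁆ = φ (f * Dt h - h * Dt f) := by
  refine ⟨((LinearMap.toSpanSingleton k[T;T⁻¹] (Derivation k k[T;T⁻¹] k[T;T⁻¹])
    D0).restrictScalars k) ∘ₗ LQ, ?_, ?_⟩
  · intro D
    obtain ⟨a, ha⟩ := LQ_surj (D (LaurentPolynomial.T 1))
    refine ⟨a, ?_⟩
    rw [LinearMap.comp_apply, ha]
    refine Derivation.ext fun x => ?_
    refine T_ind (P := fun x => ((LinearMap.toSpanSingleton k[T;T⁻¹]
      (Derivation k k[T;T⁻¹] k[T;T⁻¹]) D0).restrictScalars k (D (LaurentPolynomial.T 1))) x = D x) x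
      (fun p q hp hq => by rw [map_add, hp, hq, map_add]) fun c n => ?_
    rw [Derivation.map_smul, Derivation.map_smul, der_T D n]
    rfl
  · intro f h
    refine Derivation.ext fun x => ?_
    change (⁅LQ f • D0, LQ h • D0⁆ : Derivation k k[T;T⁻¹] k[T;T⁻¹]) x =
      (LQ (f * Dt h - h * Dt f) • D0) x
    simp only [Derivation.commutator_apply, Derivation.smul_apply, smul_eq_mul, map_sub, LQ_mul,
      LQ_Dt, Derivation.leibniz]
    ring

theorem acc_witt :
    AccPrimitive (UniversalEnvelopingAlgebra k (Derivation k k[T;T⁻¹] k[T;T⁻¹])) := by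
  obtain ⟨φ, hs, hφ⟩ := exists_der_laurent (k := k)
  exact acc_of_lieAlgebra φ hs hφ

end DerLaurentSec

end W94
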