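import Pool.Agent.LibWitt94.Absorb
import Pool.Agent.LibWitt94.Vanish
import Pool.Agent.LibWitt94.Words

universe u w

namespace W94

section MainCoverASec

open scoped BigOperators

variable {k : Type u} [CommRing k] {Γ : Type} [AddCommMonoid Γ] [Expo Γ] {r : ℕ}
variable {M V : Type w} [AddCommGroup M] [Module k M] [AddCommGroup V] [Module k V]
variable {act : B k Γ (Fin r) →ₐ[k] Module.End k V} {rho : A k Γ →ₗ[k] Module.End k V}
  {e : A k Γ →ₗ[k] Module.End k M} {G : Submodule k (V × M)}

theorem cover_lift (hG : Cover act rho e G) (p : TensorAlgebra k (A k Γ)) (v : V) (m : M)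
    (h : (v, m) ∈ G) : (TensorAlgebra.lift k rho p v, TensorAlgebra.lift k e p m) ∈ G := by
  induction p using TensorAlgebra.induction generalizing v m with
  | algebraMap c =>
    have : (TensorAlgebra.lift k rho (algebraMap k _ c) v,
        TensorAlgebra.lift k e (algebraMap k _ c) m) = c • (v, m) := by
      rw [AlgHom.commutes, AlgHom.commutes, Module.algebraMap_end_apply,
        Module.algebraMap_end_apply]
      rfl
    rw [this]
    exact G.smul_mem c h
  | ι x =>
    rw [TensorAlgebra.lift_ι_apply, TensorAlgebra.lift_ι_apply]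
    exact hG.rho_mem x v m h
  | mul a b ha hb =>
    rw [map_mul, map_mul, Module.End.mul_apply, Module.End.mul_apply]
    exact ha _ _ (hb _ _ h)
  | add a b ha hb =>
    have := G.add_mem (ha v m h) (hb v m h)
    rw [map_add, map_add, LinearMap.add_apply, LinearMap.add_apply]
    exact this

theorem cover_E (hG : Cover act rho e G) {n : ℕ} (F : B k Γ (Fin n)) (v : V) (m : M)
    (h : (v, m) ∈ G) : (E n rho F v, E n e F m) ∈ G := by
  induction F using mon_induction with
  | h0 =>
    rw [map_zero, map_zero]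
    exact G.zero_mem
  | hadd F F' hF hF' =>
    have := G.add_mem hF hF'
    rw [map_add, map_add, LinearMap.add_apply, LinearMap.add_apply]
    exact this
  | hmon c α =>
    have key : ∀ {U : Type w} [AddCommGroup U] [Module k U] (e' : A k Γ →ₗ[k] Module.End k U),
        E n e' (mon k α) = TensorAlgebra.lift k e'
          (List.ofFn (fun l => TensorAlgebra.ι k (tt k (α l)))).prod := by
      intro U _ _ e'
      rw [E, EE, lin_mon, map_list_prod, List.map_ofFn]
      congr 2
      funext l
      simp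
    have := G.smul_mem c (cover_lift hG
      (List.ofFn (fun l => TensorAlgebra.ι k (tt k (α l)))).prod v m h)
    rw [← key, ← key] at this
    rw [map_smul, map_smul, LinearMap.smul_apply, LinearMap.smul_apply]
    exact this

/-- the operators in `SS` for the annihilator of `M` map the domain of `G` to the kernel -/
theorem cover_SS (hG : Cover act rho e G) (x : Module.End k V)
    (hx : x ∈ SS act rho {p | TensorAlgebra.lift k e p = 0}) (v : V) (m : M) (h : (v, m) ∈ G) :
    (x v, (0 : M)) ∈ G := by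
  induction hx using Submodule.span_induction with
  | mem x hx =>
    obtain ⟨p, hp, b, rfl⟩ := hx
    obtain ⟨m', hm'⟩ := hG.act_mem b v m h
    have := cover_lift hG p _ _ hm'
    rw [Set.mem_ofPred_eq] at hp
    rw [hp, LinearMap.zero_apply] at this
    exact this
  | zero => exact G.zero_mem
  | add x y _ _ hx hy =>
    have := G.add_mem hx hy
    rw [Prod.mk_add_mk, add_zero] at this
    exact this
  | smul c x _ hx =>
    have := G.smul_mem c hx
    rw [Prod.smul_mk, smul_zero] at this
    exact this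

theorem cover_pow (hG : Cover act rho e G) (v : V) : ∃ j, ∀ i, j ≤ i →
    ∃ m, (act (Delta k Γ r ^ i) v, m) ∈ G := by
  obtain ⟨j, m, hj⟩ := hG.exh v
  refine ⟨j, fun i hi => ?_⟩
  obtain ⟨m', hm'⟩ := hG.act_mem (Delta k Γ r ^ (i - j)) _ _ hj
  refine ⟨m', ?_⟩
  rw [← Module.End.mul_apply, ← map_mul, ← pow_add, Nat.sub_add_cancel hi] at hm'
  exact hm'

end MainCoverASec

section MainCoverBSec

open scoped BigOperators

variable {k : Type u} [CommRing k] {Γ : Type} [AddCommMonoid Γ] [Expo Γ] {r : ℕ}
variable {M V : Type w} [AddCommGroup M] [Module k M] [AddCommGroup V] [Module k V]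
variable {act : B k Γ (Fin r) →ₐ[k] Module.End k V} {rho : A k Γ →ₗ[k] Module.End k V}
  {e : A k Γ →ₗ[k] Module.End k M} {G : Submodule k (V × M)}

/-- Key step. Hint: let `w = (ν q Delta ^ M) v`. By `cover_pow`, `(act (Delta ^ j) w, _) ∈ G` for some
`j`; show `act (Delta ^ j) w = 0` by `hG.k1`: for `a : B`, `(act (a * Delta ^ j) w, m') ∈ G` for some
`m'` (`act_mem`), and `m' = 0`: by `k2` (`KK r K e = ⊥`) it is enough that
`E r e (Delta ^ K * F) m' = 0` for all `F`, `K = 2 (N + r)`. By `cover_E` the pair of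
`E r rho (Delta ^ K * F) (act (a * Delta ^ j) w)` and `E r e (Delta ^ K * F) m'` is in `G`, and the first
entry is `x v` with `x ∈ SS` by `E_Delta_eq_sum_perm`, `perm_word`, and the property `hM` of `M`; so
`(x v, 0) ∈ G` (`cover_SS`) and `hG.fn` applies to the difference. -/
theorem key_step {N : ℕ} {rhos : Fin r → (A k Γ →ₗ[k] Module.End k V)}
    (h : IsSep r N act rhos) (hd : Function.Injective (act (Delta k Γ r)))
    (hG : Cover act (∑ i, rhos i) e G) (k2 : ∀ K, KK r K e = ⊥)
    (ν : Fin r → Module.End k V) (hν : ∀ i, IsNu act rhos i (ν i)) (q : Module.End k V) (M' : ℕ)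
    (hM : ∀ u ∈ WSpan k (⋃ i, Set.range (rhos i)) (3 * r), u * q * act (Delta k Γ r ^ M') ∈
      SS act (∑ i, rhos i) {p | TensorAlgebra.lift k e p = 0})
    (v : V) (m : M) (hv : (v, m) ∈ G) :
    ((List.ofFn ν).prod * q * act (Delta k Γ r ^ M')) v = 0 := by
  set w : V := ((List.ofFn ν).prod * q * act (Delta k Γ r ^ M')) v with hw
  obtain ⟨j, hj⟩ := cover_pow hG w
  obtain ⟨m₁, hm₁⟩ := hj j le_rfl
  have hinj : Function.Injective (act (Delta k Γ r ^ j)) := by
    rw [map_pow, Module.End.coe_pow]
    exact hd.iterate j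
  apply hinj
  rw [map_zero]
  refine hG.k1 _ _ hm₁ fun b => ?_
  obtain ⟨m', hm'⟩ := hG.act_mem b _ _ hm₁
  have hm0 : m' = 0 := by
    have hk : m' ∈ KK r (2 * (N + r)) e := by
      intro F
      have h1 := cover_E hG (Delta k Γ r ^ (2 * (N + r)) * F) _ _ hm'
      have h2 : E r (∑ i, rhos i) (Delta k Γ r ^ (2 * (N + r)) * F) * act (b * Delta k Γ r ^ j) *
          (List.ofFn ν).prod * q * act (Delta k Γ r ^ M') ∈
          SS act (∑ i, rhos i) {p | TensorAlgebra.lift k e p = 0} := by
        rw [E_Delta_eq_sum_perm h _ le_rfl F]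
        simp only [Finset.sum_mul]
        exact Submodule.sum_mem _ fun σ _ => hM _ (perm_word h ν hν σ _ _)
      have h3 := cover_SS hG _ h2 v m hv
      have h4 : (E r (∑ i, rhos i) (Delta k Γ r ^ (2 * (N + r)) * F) *
          act (b * Delta k Γ r ^ j) * (List.ofFn ν).prod * q * act (Delta k Γ r ^ M')) v =
          E r (∑ i, rhos i) (Delta k Γ r ^ (2 * (N + r)) * F)
            (act b (act (Delta k Γ r ^ j) w)) := by
        rw [hw, map_mul act b (Delta k Γ r ^ j)]
        simp only [Module.End.mul_apply]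
      rw [h4] at h3
      have h5 := G.sub_mem h1 h3
      rw [Prod.mk_sub_mk, sub_self, sub_zero] at h5
      exact hG.fn _ h5
    rw [k2] at hk
    exact (Submodule.mem_bot k).1 hk
  rw [hm0] at hm'
  exact hm'

end MainCoverBSec

section MainCoverCSec

open scoped BigOperators

variable {k : Type u} [CommRing k] {Γ : Type} [AddCommMonoid Γ] [Expo Γ] {r : ℕ}
variable {M V : Type w} [AddCommGroup M] [Module k M] [AddCommGroup V] [Module k V]
variable {act : B k Γ (Fin r) →ₐ[k] Module.End k V} {rho : A k Γ →ₗ[k] Module.End k V}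
  {e : A k Γ →ₗ[k] Module.End k M} {G : Submodule k (V × M)}

/-- Hint: `ν` from `exists_nu`; `q = rho (p)`, of finite order `d` (`Ord.lift`); `M'` from `lemS` with
`P = {p | lift e p = 0}`, `L = 3 r`; `key_step`; then `ν q` kills `Delta ^ i v` for all large `i`
(`cover_pow`), so `ν q = 0` by `ord_kill` (`nu_ord`, `Ord.mul`; the product of the `ν i` has finite
order), and `q = 0` by `nu_cancel`. -/
theorem main_forward (hQ : ∀ n : ℕ, n ≠ 0 → IsUnit (n : k)) {N : ℕ}
    {rhos : Fin r → (A k Γ →ₗ[k] Module.End k V)}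
    (h : IsSep r N act rhos) (hd : Function.Injective (act (Delta k Γ r)))
    (hG : Cover act (∑ i, rhos i) e G) (k2 : ∀ K, KK r K e = ⊥)
    (hg : ∀ i, Good act (rhos i) i) (p : TensorAlgebra k (A k Γ))
    (hp : TensorAlgebra.lift k e p = 0) : TensorAlgebra.lift k (∑ i, rhos i) p = 0 := by
  have hcomm : CommOn Finset.univ act (∑ i, rhos i) := by
    intro f b
    rw [LinearMap.sum_apply, Finset.sum_mul, Finset.mul_sum, ← Finset.sum_sub_distrib]
    simp only [h.comm, map_sum]
  obtain ⟨d, hord⟩ := Ord.lift hcomm p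
  choose ν hν using fun i => exists_nu hQ h i (hg i)
  obtain ⟨M', hM'⟩ := lemS h {p | TensorAlgebra.lift k e p = 0} (fun f p hp => by
    rw [Set.mem_ofPred_eq] at hp ⊢
    rw [map_mul, hp, mul_zero]) (3 * r) d
  have key : ∀ v m, (v, m) ∈ G → ((List.ofFn ν).prod * TensorAlgebra.lift k (∑ i, rhos i) p *
      act (Delta k Γ r ^ M')) v = 0 := fun v m hv =>
    key_step h hd hG k2 ν hν _ M' (fun u hu => hM' p hp hord u hu) v m hv
  have hlist : ∀ l : List (Module.End k V), (∀ x ∈ l, ∃ d, Ord act d x) →
      ∃ d, Ord act d l.prod := by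
    intro l
    induction l with
    | nil =>
      intro _
      refine ⟨1, ?_⟩
      have := Ord.act act (1 : B k Γ (Fin r))
      rwa [map_one] at this
    | cons a l ih =>
      intro hl
      obtain ⟨d₁, h₁⟩ := hl a (List.mem_cons_self)
      obtain ⟨d₂, h₂⟩ := ih (fun x hx => hl x (List.mem_cons_of_mem _ hx))
      exact ⟨d₁ + d₂, by rw [List.prod_cons]; exact Ord.mul h₁ h₂⟩
  obtain ⟨d', hd'⟩ := hlist (List.ofFn ν) (by
    intro x hx
    rw [List.mem_ofFn] at hx
    obtain ⟨i, rfl⟩ := hx
    exact nu_ord h (hν i).1)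
  refine nu_cancel h ν hν hord ?_
  apply LinearMap.ext
  intro v
  rw [LinearMap.zero_apply]
  obtain ⟨j, hj⟩ := cover_pow hG v
  refine ord_kill hd (Ord.mul hd' hord) v (j + M') fun i hi => ?_
  obtain ⟨m, hm⟩ := hj (i - M') (by omega)
  have := key _ _ hm
  rw [Module.End.mul_apply, ← Module.End.mul_apply (act (Delta k Γ r ^ M')), ← map_mul,
    ← pow_add, Nat.add_sub_cancel' (by omega : M' ≤ i)] at this
  exact this

/-- Hint: the projection of `G` to `M` is stable and nonzero (`hG.k1`), so it is `⊤`. -/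
theorem main_backward [Nontrivial V] (hs : Simple e) (hd : Function.Injective (act (Delta k Γ r)))
    (hG : Cover act rho e G) (p : TensorAlgebra k (A k Γ))
    (hp : TensorAlgebra.lift k rho p = 0) : TensorAlgebra.lift k e p = 0 := by
  have hU := hs.simple (G.map (LinearMap.snd k V M)) (by
    rintro f x ⟨⟨v, m⟩, hvm, rfl⟩
    exact ⟨(rho f v, e f m), hG.rho_mem f v m hvm, rfl⟩)
  rcases hU with hU | hU
  · exfalso
    obtain ⟨v, hv⟩ := exists_ne (0 : V)
    obtain ⟨j, m, hj⟩ := hG.exh v
    have hinj : Function.Injective (act (Delta k Γ r ^ j)) := by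
      rw [map_pow, Module.End.coe_pow]
      exact hd.iterate j
    apply hv
    apply hinj
    rw [map_zero]
    refine hG.k1 _ _ hj fun b => ?_
    obtain ⟨m', hm'⟩ := hG.act_mem b _ _ hj
    have h0 : m' ∈ G.map (LinearMap.snd k V M) := ⟨_, hm', rfl⟩
    rw [hU, Submodule.mem_bot] at h0
    rw [h0] at hm'
    exact hm'
  · apply LinearMap.ext
    intro x
    rw [LinearMap.zero_apply]
    have hx : x ∈ G.map (LinearMap.snd k V M) := by rw [hU]; exact Submodule.mem_top
    obtain ⟨⟨v, m⟩, hvm, rfl⟩ := hx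
    have := cover_lift hG p v m hvm
    rw [hp, LinearMap.zero_apply] at this
    exact hG.fn _ this

end MainCoverCSec

end W94
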