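import Pool.Agent.LibWitt94.Nu
import Pool.Agent.LibWitt94.OpCalc

universe u w

namespace W94

section GoodOnASec

open scoped BigOperators

variable {k : Type u} [CommRing k] {Γ : Type} [AddCommMonoid Γ] [Expo Γ] {r : ℕ}
variable {V : Type w} [AddCommGroup V] [Module k V]

/-- locality on a subspace -/
def LocOn (act : B k Γ (Fin r) →ₐ[k] Module.End k V) (rho : A k Γ →ₗ[k] Module.End k V)
    (i : Fin r) (n : ℕ) (Y : Submodule k V) : Prop :=
  ∀ F, ∀ v ∈ Y, Op act rho ((X none - X (some i)) ^ n * F) v = 0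

/-- the types at `i` on a subspace -/
def GoodOn (act : B k Γ (Fin r) →ₐ[k] Module.End k V) (rho : A k Γ →ₗ[k] Module.End k V)
    (i : Fin r) (Y : Submodule k V) : Prop :=
  LocOn act rho i 1 Y ∨ (LocOn act rho i 2 Y ∧ ∀ v ∈ Y, Em act rho i 1 v = v) ∨
    (∃ m, 1 ≤ m ∧ LocOn act rho i (m + 1) Y ∧ (∀ v ∈ Y, Em act rho i m v = 0 → v = 0) ∧
      (m = 1 → ∀ v ∈ Y, Em act rho i m v = v → v = 0))

/-- stable subspaces -/
structure Stab (act : B k Γ (Fin r) →ₐ[k] Module.End k V)
    (rhos : Fin r → (A k Γ →ₗ[k] Module.End k V)) (Y : Submodule k V) : Prop where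
  act_mem : ∀ b, ∀ v ∈ Y, act b v ∈ Y
  rho_mem : ∀ i f, ∀ v ∈ Y, rhos i f v ∈ Y
  div_mem : ∀ v, act (Delta k Γ r) v ∈ Y → v ∈ Y

variable {N : ℕ} {act : B k Γ (Fin r) →ₐ[k] Module.End k V}
  {rhos : Fin r → (A k Γ →ₗ[k] Module.End k V)}

theorem LocOn.mono {i : Fin r} {n : ℕ} {Y Y' : Submodule k V} (h : LocOn act (rhos i) i n Y)
    (hY : Y' ≤ Y) : LocOn act (rhos i) i n Y' := fun F v hv => h F v (hY hv)

theorem GoodOn.mono {i : Fin r} {Y Y' : Submodule k V} (h : GoodOn act (rhos i) i Y)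
    (hY : Y' ≤ Y) : GoodOn act (rhos i) i Y' := by
  rcases h with h | ⟨h, h'⟩ | ⟨m, hm, h, h', h''⟩
  · exact Or.inl (h.mono hY)
  · exact Or.inr (Or.inl ⟨h.mono hY, fun v hv => h' v (hY hv)⟩)
  · exact Or.inr (Or.inr ⟨m, hm, h.mono hY, fun v hv => h' v (hY hv),
      fun hm1 v hv => h'' hm1 v (hY hv)⟩)

private theorem Em_act_apply (h : IsSep r N act rhos) {i : Fin r} {m : ℕ} (hm : 1 ≤ m)
    (b : B k Γ (Fin r)) (v : V) :
    Em act (rhos i) i m (act b v) = act b (Em act (rhos i) i m v) := by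
  have h1 := congrArg (fun T : Module.End k V => T v) (Em_act (h.commOn i) hm b)
  exact h1

private theorem Em_rho_ne (h : IsSep r N act rhos) {i j : Fin r} (hij : i ≠ j) (m : ℕ)
    (f : A k Γ) (v : V) :
    Em act (rhos i) i m (rhos j f v) = rhos j f (Em act (rhos i) i m v) := by
  have h1 := congrArg (fun T : Module.End k V => T v)
    (AlgI_commute h hij (Em_mem_AlgI act rhos i m) (rhos_mem_AlgI act rhos j f))
  exact h1

private theorem Em_rho_eq (h : IsSep r N act rhos) {i : Fin r} {m : ℕ} {Y : Submodule k V}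
    (hl : LocOn act (rhos i) i (m + 1) Y) (f : A k Γ) {v : V} (hv : v ∈ Y) :
    rhos i f (Em act (rhos i) i m v) - Em act (rhos i) i m (rhos i f v) =
      ((m : k) - 1) • act (inj i (Dt f)) (Em act (rhos i) i m v) := by
  obtain ⟨G, hG⟩ := rho_Em (h.lie i) (h.commOn i) m f
  have h1 := congrArg (fun T : Module.End k V => T v) hG
  simp only [LinearMap.sub_apply, Module.End.mul_apply, LinearMap.add_apply,
    LinearMap.smul_apply] at h1
  rw [h1, hl G v hv, add_zero]

/-- The subspace of `Y` where `Em` is zero is stable. Hint: `Em_act`, `rho_Em`, `AlgI_commute` (with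
`Em_mem_AlgI`, `rhos_mem_AlgI`), `hd`. -/
theorem ker_stab (h : IsSep r N act rhos) (hd : Function.Injective (act (Delta k Γ r)))
    {i : Fin r} {m : ℕ} (hm : 1 ≤ m) {Y : Submodule k V} (hY : Stab act rhos Y)
    (hl : LocOn act (rhos i) i (m + 1) Y) :
    Stab act rhos (Y ⊓ LinearMap.ker (Em act (rhos i) i m)) := by
  refine ⟨?_, ?_, ?_⟩
  · rintro b v ⟨hv1, hv2⟩
    have hv2' : Em act (rhos i) i m v = 0 := hv2
    refine ⟨hY.act_mem b v hv1, ?_⟩
    show Em act (rhos i) i m (act b v) = 0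
    rw [Em_act_apply h hm, hv2', map_zero]
  · rintro j f v ⟨hv1, hv2⟩
    have hv2' : Em act (rhos i) i m v = 0 := hv2
    refine ⟨hY.rho_mem j f v hv1, ?_⟩
    show Em act (rhos i) i m (rhos j f v) = 0
    by_cases hij : i = j
    · subst hij
      have h1 := Em_rho_eq h hl f hv1
      rw [hv2', map_zero, map_zero, smul_zero, zero_sub, neg_eq_zero] at h1
      exact h1
    · rw [Em_rho_ne h hij, hv2', map_zero]
  · rintro v ⟨hv1, hv2⟩
    have hv2' : Em act (rhos i) i m (act (Delta k Γ r) v) = 0 := hv2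
    refine ⟨hY.div_mem v hv1, ?_⟩
    show Em act (rhos i) i m v = 0
    rw [Em_act_apply h hm] at hv2'
    exact hd (hv2'.trans (map_zero _).symm)

/-- The subspace of `Y` where `Em 1` is one is stable. -/
theorem ker_one_stab (h : IsSep r N act rhos) (hd : Function.Injective (act (Delta k Γ r)))
    {i : Fin r} {Y : Submodule k V} (hY : Stab act rhos Y)
    (hl : LocOn act (rhos i) i 2 Y) :
    Stab act rhos (Y ⊓ LinearMap.ker (Em act (rhos i) i 1 - 1)) := by
  have hmem : ∀ v : V, v ∈ LinearMap.ker (Em act (rhos i) i 1 - 1) ↔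
      Em act (rhos i) i 1 v = v := by
    intro v
    rw [LinearMap.mem_ker, LinearMap.sub_apply, Module.End.one_apply, sub_eq_zero]
  refine ⟨?_, ?_, ?_⟩
  · rintro b v ⟨hv1, hv2⟩
    have hv2' := (hmem v).1 hv2
    refine ⟨hY.act_mem b v hv1, (hmem _).2 ?_⟩
    rw [Em_act_apply h le_rfl, hv2']
  · rintro j f v ⟨hv1, hv2⟩
    have hv2' := (hmem v).1 hv2
    refine ⟨hY.rho_mem j f v hv1, (hmem _).2 ?_⟩
    by_cases hij : i = j
    · subst hij
      have h1 := Em_rho_eq (m := 1) h hl f hv1
      rw [hv2', Nat.cast_one, sub_self, zero_smul, sub_eq_zero] at h1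
      exact h1.symm
    · rw [Em_rho_ne h hij, hv2']
  · rintro v ⟨hv1, hv2⟩
    have hv2' := (hmem _).1 hv2
    refine ⟨hY.div_mem v hv1, (hmem _).2 ?_⟩
    rw [Em_act_apply h le_rfl] at hv2'
    exact hd hv2'

/-- Hint: `Op_pow_mul`. -/
theorem locOn_ker {i : Fin r} {m : ℕ} {Y : Submodule k V}
    (hl : LocOn act (rhos i) i (m + 1) Y) :
    LocOn act (rhos i) i m (Y ⊓ LinearMap.ker (Em act (rhos i) i m)) := by
  rintro F v ⟨hv1, hv2⟩
  have hv2' : Em act (rhos i) i m v = 0 := hv2
  obtain ⟨G, hG⟩ := Op_pow_mul act (rhos i) i m F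
  rw [hG, LinearMap.add_apply, Module.End.mul_apply, hv2', map_zero, zero_add]
  exact hl G v hv1

end GoodOnASec

section GoodOnBSec

open scoped BigOperators

variable {k : Type u} [CommRing k] {Γ : Type} [AddCommMonoid Γ] [Expo Γ] {r : ℕ}
variable {V : Type w} [AddCommGroup V] [Module k V]

variable {N : ℕ} {act : B k Γ (Fin r) →ₐ[k] Module.End k V}
  {rhos : Fin r → (A k Γ →ₗ[k] Module.End k V)}

/-- Hint: induction on `c`, starting with `c = 2` (`m = 1`): if `Y ⊓ ker (Em 1) ≠ ⊥` take it, type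
(a); if `Y ⊓ ker (Em 1 - 1) ≠ ⊥` take it, type (b); otherwise `Y` itself has type (c).
`c = m + 1 ≥ 3`: if `Y ⊓ ker (Em m) = ⊥` then `Y` is good, otherwise use the induction
hypothesis for `Y ⊓ ker (Em m)`. -/
theorem exists_goodOn (h : IsSep r N act rhos) (hd : Function.Injective (act (Delta k Γ r)))
    (i : Fin r) (c : ℕ) (hc : 2 ≤ c) (Y : Submodule k V) (hY : Stab act rhos Y) (hne : Y ≠ ⊥)
    (hl : LocOn act (rhos i) i c Y) :
    ∃ Y', Y' ≤ Y ∧ Y' ≠ ⊥ ∧ Stab act rhos Y' ∧ GoodOn act (rhos i) i Y' := by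
  classical
  induction c, hc using Nat.le_induction generalizing Y with
  | base =>
    by_cases h1 : Y ⊓ LinearMap.ker (Em act (rhos i) i 1) = ⊥
    · by_cases h2 : Y ⊓ LinearMap.ker (Em act (rhos i) i 1 - 1) = ⊥
      · refine ⟨Y, le_refl _, hne, hY, Or.inr (Or.inr ⟨1, le_refl _, hl, ?_, ?_⟩)⟩
        · intro v hv hv0
          have h3 : v ∈ Y ⊓ LinearMap.ker (Em act (rhos i) i 1) :=
            ⟨hv, LinearMap.mem_ker.2 hv0⟩
          rw [h1] at h3
          exact (Submodule.mem_bot k).1 h3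
        · intro _ v hv hv0
          have h3 : v ∈ Y ⊓ LinearMap.ker (Em act (rhos i) i 1 - 1) := by
            refine ⟨hv, LinearMap.mem_ker.2 ?_⟩
            rw [LinearMap.sub_apply, hv0]
            exact sub_self v
          rw [h2] at h3
          exact (Submodule.mem_bot k).1 h3
      · refine ⟨_, inf_le_left, h2, ker_one_stab h hd hY hl, Or.inr (Or.inl ⟨hl.mono inf_le_left, ?_⟩)⟩
        intro v hv
        have h3 := LinearMap.mem_ker.1 hv.2
        rw [LinearMap.sub_apply] at h3
        exact sub_eq_zero.1 h3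
    · exact ⟨_, inf_le_left, h1, ker_stab h hd (le_refl 1) hY hl, Or.inl (locOn_ker hl)⟩
  | succ m hm ih =>
    by_cases h1 : Y ⊓ LinearMap.ker (Em act (rhos i) i m) = ⊥
    · refine ⟨Y, le_refl _, hne, hY, Or.inr (Or.inr ⟨m, by omega, hl, ?_, ?_⟩)⟩
      · intro v hv hv0
        have h3 : v ∈ Y ⊓ LinearMap.ker (Em act (rhos i) i m) :=
          ⟨hv, LinearMap.mem_ker.2 hv0⟩
        rw [h1] at h3
        exact (Submodule.mem_bot k).1 h3
      · intro h4
        omega
    · obtain ⟨Y', h2, h3, h4, h5⟩ := ih (Y ⊓ LinearMap.ker (Em act (rhos i) i m))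
        (ker_stab h hd (by omega) hY hl) h1 (locOn_ker hl)
      exact ⟨Y', h2.trans inf_le_left, h3, h4, h5⟩

/-- Hint: `Finset.induction` over the indices, `exists_goodOn` with `c = max N 2`, `GoodOn.mono`,
starting from `⊤`. -/
theorem exists_all_goodOn [Nontrivial V] (h : IsSep r N act rhos)
    (hd : Function.Injective (act (Delta k Γ r))) :
    ∃ Y : Submodule k V, Y ≠ ⊥ ∧ Stab act rhos Y ∧ ∀ i, GoodOn act (rhos i) i Y := by
  classical
  have key : ∀ S : Finset (Fin r), ∃ Y : Submodule k V, Y ≠ ⊥ ∧ Stab act rhos Y ∧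
      ∀ i ∈ S, GoodOn act (rhos i) i Y := by
    intro S
    induction S using Finset.induction_on with
    | empty =>
      refine ⟨⊤, top_ne_bot, ⟨?_, ?_, ?_⟩, ?_⟩
      · intro _ _ _; trivial
      · intro _ _ _ _; trivial
      · intro _ _; trivial
      · intro i hi
        exact absurd hi (Finset.notMem_empty i)
    | insert i S _ ih =>
      obtain ⟨Y, h1, h2, h3⟩ := ih
      have hl : LocOn act (rhos i) i (max N 2) Y := by
        intro F v _
        obtain ⟨c, hc⟩ : ∃ c, max N 2 = N + c := ⟨max N 2 - N, by omega⟩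
        rw [hc, pow_add, mul_assoc, h.loc i]
        rfl
      obtain ⟨Y', h4, h5, h6, h7⟩ := exists_goodOn h hd i (max N 2) (le_max_right _ _) Y h2 h1 hl
      refine ⟨Y', h5, h6, ?_⟩
      intro j hj
      rcases Finset.mem_insert.1 hj with rfl | hj
      · exact h7
      · exact (h3 j hj).mono h4
  obtain ⟨Y, h1, h2, h3⟩ := key Finset.univ
  exact ⟨Y, h1, h2, fun i => h3 i (Finset.mem_univ i)⟩

end GoodOnBSec

section RestrictSec

open scoped BigOperators

variable {k : Type u} [CommRing k] {Γ : Type} [AddCommMonoid Γ] {ι : Type}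
variable {V : Type w} [AddCommGroup V] [Module k V]

/-- restriction of the function part -/
noncomputable def actR (act : B k Γ ι →ₐ[k] Module.End k V) (Y : Submodule k V)
    (hY : ∀ b, ∀ v ∈ Y, act b v ∈ Y) : B k Γ ι →ₐ[k] Module.End k Y where
  toFun b := (act b).restrict (hY b)
  map_one' := by ext v; simp
  map_mul' := fun a b => by ext v; simp
  map_zero' := by ext v; simp
  map_add' := fun a b => by ext v; simp
  commutes' := fun c => by
    apply LinearMap.ext
    intro v
    apply Subtype.ext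
    change (act (algebraMap k _ c)) v = _
    rw [AlgHom.commutes]
    rfl

/-- restriction of the Lie part -/
noncomputable def rhoR (rho : A k Γ →ₗ[k] Module.End k V) (Y : Submodule k V)
    (hY : ∀ f, ∀ v ∈ Y, rho f v ∈ Y) : A k Γ →ₗ[k] Module.End k Y where
  toFun f := (rho f).restrict (hY f)
  map_add' := fun a b => by ext v; simp
  map_smul' := fun c a => by ext v; simp

theorem actR_apply (act : B k Γ ι →ₐ[k] Module.End k V) (Y : Submodule k V)
    (hY : ∀ b, ∀ v ∈ Y, act b v ∈ Y) (b : B k Γ ι) (v : Y) :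
    ((actR act Y hY b v : Y) : V) = act b v := rfl

theorem rhoR_apply (rho : A k Γ →ₗ[k] Module.End k V) (Y : Submodule k V)
    (hY : ∀ f, ∀ v ∈ Y, rho f v ∈ Y) (f : A k Γ) (v : Y) :
    ((rhoR rho Y hY f v : Y) : V) = rho f v := rfl

theorem Op_restrict (act : B k Γ ι →ₐ[k] Module.End k V) (rho : A k Γ →ₗ[k] Module.End k V)
    (Y : Submodule k V) (hY : ∀ b, ∀ v ∈ Y, act b v ∈ Y) (hY' : ∀ f, ∀ v ∈ Y, rho f v ∈ Y)
    (Z : B k Γ (Option ι)) (v : Y) :
    ((Op (actR act Y hY) (rhoR rho Y hY') Z v : Y) : V) = Op act rho Z v := by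
  induction Z using mon_induction with
  | h0 => simp
  | hadd F G hF hG => simp [map_add, hF, hG]
  | hmon c α => simp [map_smul, Op_mon, actR_apply, rhoR_apply]

variable [Expo Γ] {r N : ℕ}

/-- everything restricts to a stable subspace on which the operators are good -/
theorem restrict_all {M : Type w} [AddCommGroup M] [Module k M]
    {act : B k Γ (Fin r) →ₐ[k] Module.End k V} {rhos : Fin r → (A k Γ →ₗ[k] Module.End k V)}
    {e : A k Γ →ₗ[k] Module.End k M} {G : Submodule k (V × M)}
    (h : IsSep r N act rhos) (hsys : IsSys r N act (∑ i, rhos i))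
    (hd : Function.Bijective (act (Delta k Γ r))) (hG : Cover act (∑ i, rhos i) e G)
    (Y : Submodule k V) (hne : Y ≠ ⊥) (hY : Stab act rhos Y)
    (hg : ∀ i, GoodOn act (rhos i) i Y) :
    ∃ (act' : B k Γ (Fin r) →ₐ[k] Module.End k Y) (rhos' : Fin r → (A k Γ →ₗ[k] Module.End k Y))
      (G' : Submodule k (Y × M)), Nontrivial Y ∧ IsSep r N act' rhos' ∧
      IsSys r N act' (∑ i, rhos' i) ∧ Function.Bijective (act' (Delta k Γ r)) ∧
      Cover act' (∑ i, rhos' i) e G' ∧ ∀ i, Good act' (rhos' i) i := by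
  classical
  have hs : ∀ f, ∀ v ∈ Y, (∑ i, rhos i) f v ∈ Y := by
    intro f v hv
    rw [LinearMap.sum_apply, LinearMap.sum_apply]
    exact Submodule.sum_mem Y fun i _ => hY.rho_mem i f v hv
  have hsum : (∑ i, rhoR (rhos i) Y (hY.rho_mem i)) = rhoR (∑ i, rhos i) Y hs := by
    apply LinearMap.ext
    intro f
    apply LinearMap.ext
    intro v
    apply Subtype.ext
    rw [rhoR_apply, LinearMap.sum_apply, LinearMap.sum_apply, LinearMap.sum_apply,
      LinearMap.sum_apply, AddSubmonoidClass.coe_finset_sum]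
    exact Finset.sum_congr rfl fun i _ => rfl
  have hEm : ∀ (i : Fin r) (m : ℕ) (v : Y),
      ((Em (actR act Y hY.act_mem) (rhoR (rhos i) Y (hY.rho_mem i)) i m v : Y) : V) =
        Em act (rhos i) i m v := fun i m v => Op_restrict _ _ _ _ _ _ _
  refine ⟨actR act Y hY.act_mem, fun i => rhoR (rhos i) Y (hY.rho_mem i),
    G.comap (Y.subtype.prodMap LinearMap.id), ?_, ?_, ?_, ?_, ?_, ?_⟩
  · exact (Submodule.nontrivial_iff_ne_bot).2 hne
  · refine ⟨?_, ?_, ?_, ?_⟩
    · intro i f g
      apply LinearMap.ext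
      intro v
      apply Subtype.ext
      exact congrArg (fun T : Module.End k V => T (v : V)) (h.lie i f g)
    · intro i j hij f g
      apply LinearMap.ext
      intro v
      apply Subtype.ext
      exact congrArg (fun T : Module.End k V => T (v : V)) (h.cross i j hij f g)
    · intro i f b
      apply LinearMap.ext
      intro v
      apply Subtype.ext
      exact congrArg (fun T : Module.End k V => T (v : V)) (h.comm i f b)
    · intro i F
      apply LinearMap.ext
      intro v
      apply Subtype.ext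
      rw [Op_restrict, h.loc i F]
      rfl
  · rw [hsum]
    refine ⟨?_, ?_, ?_⟩
    · intro f g
      apply LinearMap.ext
      intro v
      apply Subtype.ext
      exact congrArg (fun T : Module.End k V => T (v : V)) (hsys.lie f g)
    · intro f b
      apply LinearMap.ext
      intro v
      apply Subtype.ext
      exact congrArg (fun T : Module.End k V => T (v : V)) (hsys.comm f b)
    · intro F
      apply LinearMap.ext
      intro v
      apply Subtype.ext
      rw [Op_restrict, hsys.loc F]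
      rfl
  · constructor
    · intro v w hvw
      apply Subtype.ext
      apply hd.1
      exact congrArg Subtype.val hvw
    · intro w
      obtain ⟨v, hv⟩ := hd.2 (w : V)
      have hvY : v ∈ Y := hY.div_mem v (by
        rw [hv]
        exact w.2)
      exact ⟨⟨v, hvY⟩, Subtype.ext hv⟩
  · rw [hsum]
    refine ⟨?_, ?_, ?_, ?_, ?_⟩
    · intro m hm
      exact hG.fn m hm
    · intro f v m hm
      exact hG.rho_mem f v m hm
    · intro b v m hm
      exact hG.act_mem b v m hm
    · intro v m hm hb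
      apply Subtype.ext
      exact hG.k1 v m hm hb
    · intro v
      obtain ⟨j, m, hm⟩ := hG.exh (v : V)
      exact ⟨j, m, hm⟩
  · intro i
    have hloc : ∀ n, LocOn act (rhos i) i n Y →
        LocAt (actR act Y hY.act_mem) (rhoR (rhos i) Y (hY.rho_mem i)) i n := by
      intro n hn F
      apply LinearMap.ext
      intro v
      apply Subtype.ext
      rw [Op_restrict, hn F v v.2]
      rfl
    rcases hg i with h1 | ⟨h1, h2⟩ | ⟨m, hm, h1, h2, h3⟩
    · exact Or.inl (hloc 1 h1)
    · refine Or.inr (Or.inl ⟨hloc 2 h1, ?_⟩)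
      apply LinearMap.ext
      intro v
      apply Subtype.ext
      rw [hEm, h2 v v.2]
      rfl
    · refine Or.inr (Or.inr ⟨m, hm, hloc _ h1, ?_, ?_⟩)
      · intro v hv
        apply Subtype.ext
        apply h2 v v.2
        rw [← hEm, hv]
        rfl
      · intro hm1 v hv
        apply Subtype.ext
        apply h3 hm1 v v.2
        rw [← hEm, hv]

end RestrictSec

end W94
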