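import Pool.Agent.LibWitt94.Base
import Pool.Agent.LibWitt94.MainCover
import Pool.Agent.LibWitt94.OpCalc
import Pool.Agent.LibWitt94.Sep
import Pool.Agent.LibWitt94.Types
import Pool.Agent.LibWitt94.Words

universe u w

namespace W94

section QuotTorSec

open scoped BigOperators

variable {k : Type u} [CommRing k] {Γ : Type} [AddCommMonoid Γ] [Expo Γ] {r : ℕ}
variable {H : Type w} [AddCommGroup H] [Module k H]

/-- the `Delta`-torsion -/
def tor (actH : B k Γ (Fin r) →ₐ[k] Module.End k H) : Submodule k H where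
  carrier := {x | ∃ j, actH (Delta k Γ r ^ j) x = 0}
  zero_mem' := ⟨0, map_zero _⟩
  add_mem' := by
    rintro a b ⟨i, hi⟩ ⟨j, hj⟩
    refine ⟨i + j, ?_⟩
    rw [map_add]
    have h1 : actH (Delta k Γ r ^ (i + j)) a = 0 := by
      rw [add_comm, pow_add, map_mul, Module.End.mul_apply, hi, map_zero]
    have h2 : actH (Delta k Γ r ^ (i + j)) b = 0 := by
      rw [pow_add, map_mul, Module.End.mul_apply, hj, map_zero]
    rw [h1, h2, add_zero]
  smul_mem' := by
    rintro c x ⟨i, hi⟩
    exact ⟨i, by rw [map_smul, hi, smul_zero]⟩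

/-- Quotient by the torsion. Hint: `Q = H ⧸ tor actH`, operators by `Submodule.mapQ`
(`rhoH f` preserves `tor`: `actH (Delta^(j+1)) (rhoH f x) = rhoH f (actH (Delta^(j+1)) x) -
actH (del f (Delta^(j+1))) x` and `Delta^j ∣ del f (Delta^(j+1))` by `del_Delta_pow`), which are
multiplicative/linear; injectivity of `Delta` on the quotient by definition of `tor`. -/
theorem exists_quot (actH : B k Γ (Fin r) →ₐ[k] Module.End k H)
    (rhoH : A k Γ →ₗ[k] Module.End k H) (hl : LieMap rhoH)
    (hc : ∀ f b, rhoH f * actH b - actH b * rhoH f = actH (del f b))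
    (hs : Function.Surjective (actH (Delta k Γ r))) :
    ∃ (Q : Type w) (_ : AddCommGroup Q) (_ : Module k Q)
      (act : B k Γ (Fin r) →ₐ[k] Module.End k Q) (rho : A k Γ →ₗ[k] Module.End k Q)
      (π : H →ₗ[k] Q), LieMap rho ∧ (∀ f b, rho f * act b - act b * rho f = act (del f b)) ∧
      Function.Bijective (act (Delta k Γ r)) ∧ Function.Surjective π ∧
      (∀ x, π x = 0 ↔ ∃ j, actH (Delta k Γ r ^ j) x = 0) ∧
      (∀ b x, π (actH b x) = act b (π x)) ∧ (∀ f x, π (rhoH f x) = rho f (π x)) := by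
  have stA : ∀ b : B k Γ (Fin r), tor actH ≤ (tor actH).comap (actH b) := by
    rintro b x ⟨j, hj⟩
    refine ⟨j, ?_⟩
    change actH (Delta k Γ r ^ j) (actH b x) = 0
    rw [← Module.End.mul_apply, ← map_mul, mul_comm, map_mul, Module.End.mul_apply, hj, map_zero]
  have stR : ∀ f : A k Γ, tor actH ≤ (tor actH).comap (rhoH f) := by
    rintro f x ⟨j, hj⟩
    refine ⟨j + 1, ?_⟩
    change actH (Delta k Γ r ^ (j + 1)) (rhoH f x) = 0
    have h1 := congrArg (fun g : Module.End k H => g x) (hc f (Delta k Γ r ^ (j + 1)))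
    simp only [LinearMap.sub_apply, Module.End.mul_apply] at h1
    obtain ⟨G, hG⟩ := del_Delta_pow (k := k) (Γ := Γ) (n := r) f j (Delta k Γ r)
    rw [← pow_succ] at hG
    have h2 : actH (Delta k Γ r ^ (j + 1)) x = 0 := by
      rw [pow_succ', map_mul, Module.End.mul_apply, hj, map_zero]
    have h3 : actH (del f (Delta k Γ r ^ (j + 1))) x = 0 := by
      rw [hG, mul_comm, map_mul, Module.End.mul_apply, hj, map_zero]
    rw [h2, h3, map_zero, zero_sub, neg_eq_zero] at h1
    exact h1
  let T := tor actH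
  let aQ : B k Γ (Fin r) → Module.End k (H ⧸ T) := fun b => T.mapQ T (actH b) (stA b)
  have aQ_mk : ∀ b x, aQ b (T.mkQ x) = T.mkQ (actH b x) := fun b x => rfl
  let act : B k Γ (Fin r) →ₐ[k] Module.End k (H ⧸ T) :=
    AlgHom.ofLinearMap
      { toFun := aQ
        map_add' := fun b c => by
          apply LinearMap.ext
          intro q
          obtain ⟨x, rfl⟩ := T.mkQ_surjective q
          rw [LinearMap.add_apply, aQ_mk, aQ_mk, aQ_mk, map_add, LinearMap.add_apply, map_add]
        map_smul' := fun c b => by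
          apply LinearMap.ext
          intro q
          obtain ⟨x, rfl⟩ := T.mkQ_surjective q
          rw [LinearMap.smul_apply, aQ_mk, aQ_mk, map_smul, LinearMap.smul_apply, map_smul]
          rfl }
      (by
        apply LinearMap.ext
        intro q
        obtain ⟨x, rfl⟩ := T.mkQ_surjective q
        change aQ 1 (T.mkQ x) = _
        rw [aQ_mk, map_one]
        rfl)
      (fun b c => by
        apply LinearMap.ext
        intro q
        obtain ⟨x, rfl⟩ := T.mkQ_surjective q
        change aQ (b * c) (T.mkQ x) = aQ b (aQ c (T.mkQ x))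
        rw [aQ_mk, aQ_mk, aQ_mk, map_mul, Module.End.mul_apply])
  let rQ : A k Γ → Module.End k (H ⧸ T) := fun f => T.mapQ T (rhoH f) (stR f)
  have rQ_mk : ∀ f x, rQ f (T.mkQ x) = T.mkQ (rhoH f x) := fun f x => rfl
  let rho : A k Γ →ₗ[k] Module.End k (H ⧸ T) :=
    { toFun := rQ
      map_add' := fun b c => by
        apply LinearMap.ext
        intro q
        obtain ⟨x, rfl⟩ := T.mkQ_surjective q
        rw [LinearMap.add_apply, rQ_mk, rQ_mk, rQ_mk, map_add, LinearMap.add_apply, map_add]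
      map_smul' := fun c b => by
        apply LinearMap.ext
        intro q
        obtain ⟨x, rfl⟩ := T.mkQ_surjective q
        rw [LinearMap.smul_apply, rQ_mk, rQ_mk, map_smul, LinearMap.smul_apply, map_smul]
        rfl }
  have hact : ∀ b x, act b (T.mkQ x) = T.mkQ (actH b x) := fun b x => rfl
  have hrho : ∀ f x, rho f (T.mkQ x) = T.mkQ (rhoH f x) := fun f x => rfl
  have hker : ∀ x, T.mkQ x = 0 ↔ ∃ j, actH (Delta k Γ r ^ j) x = 0 := by
    intro x
    rw [Submodule.mkQ_apply, Submodule.Quotient.mk_eq_zero]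
    rfl
  refine ⟨H ⧸ T, inferInstance, inferInstance, act, rho, T.mkQ, ?_, ?_, ⟨?_, ?_⟩,
    T.mkQ_surjective, hker, fun b x => (hact b x).symm, fun f x => (hrho f x).symm⟩
  · intro f h
    apply LinearMap.ext
    intro q
    obtain ⟨x, rfl⟩ := T.mkQ_surjective q
    have h1 := congrArg (fun g : Module.End k H => T.mkQ (g x)) (hl f h)
    simp only [LinearMap.sub_apply, Module.End.mul_apply, map_sub] at h1
    rw [LinearMap.sub_apply, Module.End.mul_apply, Module.End.mul_apply, hrho, hrho, hrho, hrho,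
      hrho]
    rw [map_sub, LinearMap.sub_apply, map_sub]
    exact h1
  · intro f b
    apply LinearMap.ext
    intro q
    obtain ⟨x, rfl⟩ := T.mkQ_surjective q
    have h1 := congrArg (fun g : Module.End k H => T.mkQ (g x)) (hc f b)
    simp only [LinearMap.sub_apply, Module.End.mul_apply, map_sub] at h1
    rw [LinearMap.sub_apply, Module.End.mul_apply, Module.End.mul_apply, hrho, hact, hact, hrho,
      hact]
    exact h1
  · rw [injective_iff_map_eq_zero]
    intro q hq
    obtain ⟨x, rfl⟩ := T.mkQ_surjective q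
    rw [hact, hker] at hq
    obtain ⟨j, hj⟩ := hq
    rw [hker]
    refine ⟨j + 1, ?_⟩
    rw [pow_succ, map_mul, Module.End.mul_apply]
    exact hj
  · intro q
    obtain ⟨x, rfl⟩ := T.mkQ_surjective q
    obtain ⟨y, rfl⟩ := hs x
    exact ⟨T.mkQ y, rfl⟩

end QuotTorSec

section LocalizeASec

open scoped BigOperators

variable {k : Type u} [CommRing k] {Γ : Type} [AddCommMonoid Γ] [Expo Γ] {r : ℕ}
variable {H : Type w} [AddCommGroup H] [Module k H]

/-- the elements that are moved into `X₁` by a power of `Delta` -/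
def satur (act : B k Γ (Fin r) →ₐ[k] Module.End k H) (X₁ : Submodule k H)
    (h1 : ∀ b, ∀ x ∈ X₁, act b x ∈ X₁) : Submodule k H where
  carrier := {x | ∃ j, act (Delta k Γ r ^ j) x ∈ X₁}
  zero_mem' := ⟨0, by rw [map_zero]; exact X₁.zero_mem⟩
  add_mem' := by
    rintro a b ⟨i, hi⟩ ⟨j, hj⟩
    refine ⟨i + j, ?_⟩
    rw [map_add]
    refine X₁.add_mem ?_ ?_
    · rw [add_comm, pow_add, map_mul, Module.End.mul_apply]; exact h1 _ _ hi
    · rw [pow_add, map_mul, Module.End.mul_apply]; exact h1 _ _ hj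
  smul_mem' := by
    rintro c x ⟨i, hi⟩
    exact ⟨i, by rw [map_smul]; exact X₁.smul_mem c hi⟩

/-- Hint: `Delta ^ (j + 1)` moves `rho f x` to
`rho f (act (Delta ^ (j+1)) x) - act (del f (Delta ^ (j+1))) x`, `del_Delta_pow`. -/
theorem satur_stable (act : B k Γ (Fin r) →ₐ[k] Module.End k H)
    (rho : A k Γ →ₗ[k] Module.End k H)
    (hc : ∀ f b, rho f * act b - act b * rho f = act (del f b)) (X₁ : Submodule k H)
    (h1 : ∀ b, ∀ x ∈ X₁, act b x ∈ X₁) (h2 : ∀ f, ∀ x ∈ X₁, rho f x ∈ X₁) :
    (∀ b, ∀ x ∈ satur act X₁ h1, act b x ∈ satur act X₁ h1) ∧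
      (∀ f, ∀ x ∈ satur act X₁ h1, rho f x ∈ satur act X₁ h1) := by
  constructor
  · rintro b x ⟨j, hj⟩
    refine ⟨j, ?_⟩
    have e1 : act (Delta k Γ r ^ j) (act b x) = act b (act (Delta k Γ r ^ j) x) := by
      rw [← Module.End.mul_apply, ← Module.End.mul_apply, ← map_mul, ← map_mul, mul_comm]
    rw [e1]
    exact h1 _ _ hj
  · rintro f x ⟨j, hj⟩
    refine ⟨j, ?_⟩
    obtain ⟨G, hG⟩ := del_Delta_pow f j (1 : B k Γ (Fin r))
    rw [mul_one] at hG
    have e1 := LinearMap.congr_fun (hc f (Delta k Γ r ^ j)) x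
    rw [LinearMap.sub_apply, Module.End.mul_apply, Module.End.mul_apply, hG] at e1
    have e2 : act (Delta k Γ r ^ j) (rho f x) =
        rho f (act (Delta k Γ r ^ j) x) - act (Delta k Γ r ^ j * G) x := by
      rw [← e1]; abel
    rw [e2, mul_comm, map_mul, Module.End.mul_apply]
    exact X₁.sub_mem (h2 _ _ hj) (h1 _ _ hj)

/-- Locality extends to the saturation: `Op (chi ^ N * F)` commutes with `act` (`Op_comm`, `N ≥ 1`). -/
theorem satur_local (act : B k Γ (Fin r) →ₐ[k] Module.End k H)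
    (rho : A k Γ →ₗ[k] Module.End k H)
    (hc : ∀ f b, rho f * act b - act b * rho f = act (del f b))
    (hd : Function.Injective (act (Delta k Γ r))) (X₁ : Submodule k H)
    (h1 : ∀ b, ∀ x ∈ X₁, act b x ∈ X₁) {N : ℕ} (hN : 1 ≤ N)
    (h4 : ∀ F, ∀ x ∈ X₁, Op act rho (chi k Γ r ^ N * F) x = 0) :
    ∀ F, ∀ x ∈ satur act X₁ h1, Op act rho (chi k Γ r ^ N * F) x = 0 := by
  rintro F x ⟨j, hj⟩
  have hcom : CommOn Finset.univ act rho := fun f b => by rw [hc, del_apply]
  have hev : ∀ i : Fin r, ev i (chi k Γ r ^ N * F) = 0 := by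
    intro i
    have h0 : ev i (chi k Γ r) = 0 := by
      rw [chi, map_prod]
      refine Finset.prod_eq_zero (Finset.mem_univ i) ?_
      rw [map_sub, ev_X_none, ev_X_some, sub_self]
    rw [map_mul, map_pow, h0, zero_pow (by omega), zero_mul]
  have hopc := Op_comm hcom (chi k Γ r ^ N * F) (Delta k Γ r ^ j)
  have hz : (∑ i : Fin r, ev i (chi k Γ r ^ N * F) * dd i (Delta k Γ r ^ j)) = 0 :=
    Finset.sum_eq_zero fun i _ => by rw [hev i, zero_mul]
  rw [hz, map_zero] at hopc
  have e1 := LinearMap.congr_fun hopc x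
  rw [LinearMap.sub_apply, Module.End.mul_apply, Module.End.mul_apply, LinearMap.zero_apply,
    h4 F _ hj, zero_sub, neg_eq_zero] at e1
  have hinj : ∀ n : ℕ, ∀ y, act (Delta k Γ r ^ n) y = 0 → y = 0 := by
    intro n
    induction n with
    | zero => intro y hy; simpa using hy
    | succ n ih =>
      intro y hy
      rw [pow_succ, map_mul, Module.End.mul_apply] at hy
      exact hd ((ih _ hy).trans (map_zero _).symm)
  exact hinj j _ e1

end LocalizeASec

section LocalizeBSec

open scoped BigOperators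

variable {k : Type u} [CommRing k] {Γ : Type} [AddCommMonoid Γ] [Expo Γ] {r : ℕ}
variable {H : Type w} [AddCommGroup H] [Module k H]

/-- Localization of a torsion free stable subspace. Hint: `exists_quot`, `X₁ = X₀.map π`, `V = satur`,
`actR`, `rhoR`, `Op_restrict`, `satur_stable`, `satur_local`; `i x = π x`, injective by `h3`
(iterated). -/
theorem localize (actH : B k Γ (Fin r) →ₐ[k] Module.End k H)
    (rhoH : A k Γ →ₗ[k] Module.End k H) (hl : LieMap rhoH)
    (hc : ∀ f b, rhoH f * actH b - actH b * rhoH f = actH (del f b))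
    (hs : Function.Surjective (actH (Delta k Γ r))) (X₀ : Submodule k H)
    (h1 : ∀ b, ∀ x ∈ X₀, actH b x ∈ X₀) (h2 : ∀ f, ∀ x ∈ X₀, rhoH f x ∈ X₀)
    (h3 : ∀ x ∈ X₀, actH (Delta k Γ r) x = 0 → x = 0) {N : ℕ} (hN : 1 ≤ N)
    (h4 : ∀ F, ∀ x ∈ X₀, Op actH rhoH (chi k Γ r ^ N * F) x = 0) :
    ∃ (V : Type w) (_ : AddCommGroup V) (_ : Module k V)
      (act : B k Γ (Fin r) →ₐ[k] Module.End k V) (rho : A k Γ →ₗ[k] Module.End k V)
      (i : X₀ →ₗ[k] V), IsSys r N act rho ∧ Function.Bijective (act (Delta k Γ r)) ∧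
      Function.Injective i ∧ (∀ b (x : X₀), i ⟨actH b x, h1 b x x.2⟩ = act b (i x)) ∧
      (∀ f (x : X₀), i ⟨rhoH f x, h2 f x x.2⟩ = rho f (i x)) ∧
      (∀ v, ∃ j x, act (Delta k Γ r ^ j) v = i x) := by
  obtain ⟨Q, _, _, act, rho, π, hlq, hcq, hbij, hπs, hπ0, hπa, hπr⟩ :=
    exists_quot actH rhoH hl hc hs
  have hpow : ∀ n : ℕ, ∀ x ∈ X₀, actH (Delta k Γ r ^ n) x = 0 → x = 0 := by
    intro n
    induction n with
    | zero => intro x _ hx; simpa using hx
    | succ n ih =>
      intro x hx h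
      rw [pow_succ, map_mul, Module.End.mul_apply] at h
      exact h3 x hx (ih _ (h1 _ _ hx) h)
  have m1 : ∀ b, ∀ y ∈ X₀.map π, act b y ∈ X₀.map π := by
    rintro b y ⟨x, hx, rfl⟩
    exact ⟨actH b x, h1 b x hx, hπa b x⟩
  have m2 : ∀ f, ∀ y ∈ X₀.map π, rho f y ∈ X₀.map π := by
    rintro f y ⟨x, hx, rfl⟩
    exact ⟨rhoH f x, h2 f x hx, hπr f x⟩
  have hOp : ∀ (Z : B k Γ (Option (Fin r))) (x : H), π (Op actH rhoH Z x) = Op act rho Z (π x) := by
    intro Z x
    induction Z using mon_induction with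
    | h0 => simp
    | hadd F G hF hG => rw [map_add, map_add, LinearMap.add_apply, LinearMap.add_apply, map_add, hF, hG]
    | hmon c α =>
      rw [map_smul, map_smul, LinearMap.smul_apply, LinearMap.smul_apply, map_smul, Op_mon, Op_mon,
        Module.End.mul_apply, Module.End.mul_apply, hπa, hπr]
  have m4 : ∀ F, ∀ y ∈ X₀.map π, Op act rho (chi k Γ r ^ N * F) y = 0 := by
    rintro F y ⟨x, hx, rfl⟩
    rw [← hOp, h4 F x hx, map_zero]
  obtain ⟨s1, s2⟩ := satur_stable act rho hcq (X₀.map π) m1 m2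
  have s4 := satur_local act rho hcq hbij.1 (X₀.map π) m1 hN m4
  have hsub : ∀ y ∈ X₀.map π, y ∈ satur act (X₀.map π) m1 := fun y hy =>
    ⟨0, by rw [pow_zero, map_one]; exact hy⟩
  refine ⟨satur act (X₀.map π) m1, inferInstance, inferInstance,
    actR act (satur act (X₀.map π) m1) s1, rhoR rho (satur act (X₀.map π) m1) s2,
    { toFun := fun x => ⟨π x, hsub _ ⟨x, x.2, rfl⟩⟩
      map_add' := fun a b => by ext; simp
      map_smul' := fun c a => by ext; simp }, ⟨?_, ?_, ?_⟩, ⟨?_, ?_⟩, ?_, ?_, ?_, ?_⟩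
  · intro f h
    apply LinearMap.ext
    intro v
    apply Subtype.ext
    exact LinearMap.congr_fun (hlq f h) v.1
  · intro f b
    apply LinearMap.ext
    intro v
    apply Subtype.ext
    exact LinearMap.congr_fun (hcq f b) v.1
  · intro F
    apply LinearMap.ext
    intro v
    apply Subtype.ext
    rw [Op_restrict]
    exact s4 F v.1 v.2
  · intro v w hvw
    apply Subtype.ext
    apply hbij.1
    exact congrArg Subtype.val hvw
  · rintro ⟨w, j, hw⟩
    obtain ⟨v, hv⟩ := hbij.2 w
    refine ⟨⟨v, j + 1, ?_⟩, ?_⟩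
    · rw [pow_succ, map_mul, Module.End.mul_apply, hv]
      exact hw
    · apply Subtype.ext
      exact hv
  · intro a b hab
    have e1 : π a.1 = π b.1 := congrArg Subtype.val hab
    have e2 : π (a.1 - b.1) = 0 := by rw [map_sub, e1, sub_self]
    obtain ⟨j, hj⟩ := (hπ0 _).1 e2
    have e3 := hpow j _ (X₀.sub_mem a.2 b.2) hj
    apply Subtype.ext
    exact sub_eq_zero.1 e3
  · intro b x
    apply Subtype.ext
    exact hπa b x.1
  · intro f x
    apply Subtype.ext
    exact hπr f x.1
  · rintro ⟨v, j, x, hx, hxv⟩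
    refine ⟨j, ⟨x, hx⟩, ?_⟩
    apply Subtype.ext
    exact hxv.symm

end LocalizeBSec

section HPreASec

open scoped BigOperators

variable {k : Type u} [CommRing k] {Γ : Type} [AddCommMonoid Γ] [Expo Γ] {r : ℕ}
variable {M : Type w} [AddCommGroup M] [Module k M]

/-- the big module `Hom (B, M)` -/
abbrev HH (k : Type u) [CommRing k] (Γ : Type) [AddCommMonoid Γ] (r : ℕ) (M : Type w)
    [AddCommGroup M] [Module k M] := B k Γ (Fin r) →ₗ[k] M

/-- functions act by `(b φ) (a) = φ (b a)` -/
noncomputable def actH (k : Type u) [CommRing k] (Γ : Type) [AddCommMonoid Γ] (r : ℕ)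
    (M : Type w) [AddCommGroup M] [Module k M] :
    B k Γ (Fin r) →ₐ[k] Module.End k (HH k Γ r M) where
  toFun b :=
    { toFun := fun φ => φ ∘ₗ LinearMap.mulLeft k b
      map_add' := fun φ ψ => by ext; simp
      map_smul' := fun c φ => by ext; simp }
  map_one' := by apply LinearMap.ext; intro φ; apply LinearMap.ext; intro a; simp
  map_mul' := fun a b => by
    apply LinearMap.ext; intro φ; apply LinearMap.ext; intro c
    simp [mul_comm, mul_left_comm, mul_assoc]
  map_zero' := by apply LinearMap.ext; intro φ; apply LinearMap.ext; intro a; simp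
  map_add' := fun a b => by
    apply LinearMap.ext; intro φ; apply LinearMap.ext; intro c; simp [add_mul]
  commutes' := fun c => by
    apply LinearMap.ext; intro φ; apply LinearMap.ext; intro a
    simp only [LinearMap.coe_mk, AddHom.coe_mk, LinearMap.comp_apply, LinearMap.mulLeft_apply]
    rw [← Algebra.smul_def, map_smul]
    rfl

theorem actH_apply (b a : B k Γ (Fin r)) (φ : HH k Γ r M) :
    (actH k Γ r M b φ) a = φ (b * a) := rfl

/-- the Lie algebra acts by `(f φ) (a) = e f (φ a) - φ (del f a)` -/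
noncomputable def rhoH (r : ℕ) (e : A k Γ →ₗ[k] Module.End k M) :
    A k Γ →ₗ[k] Module.End k (HH k Γ r M) where
  toFun f :=
    { toFun := fun φ => (e f) ∘ₗ φ - φ ∘ₗ del f
      map_add' := fun φ ψ => by
        apply LinearMap.ext; intro a; simp; abel
      map_smul' := fun c φ => by
        apply LinearMap.ext; intro a; simp [smul_sub] }
  map_add' := fun f g => by
    apply LinearMap.ext; intro φ; apply LinearMap.ext; intro a
    simp [del_add]; abel
  map_smul' := fun c f => by
    apply LinearMap.ext; intro φ; apply LinearMap.ext; intro a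
    simp [del_smul, smul_sub]

theorem rhoH_apply (e : A k Γ →ₗ[k] Module.End k M) (f : A k Γ) (φ : HH k Γ r M)
    (a : B k Γ (Fin r)) : (rhoH r e f φ) a = e f (φ a) - φ (del f a) := rfl

theorem rhoH_lie {e : A k Γ →ₗ[k] Module.End k M} (he : LieMap e) : LieMap (rhoH r e) := by
  intro f h
  apply LinearMap.ext
  intro φ
  apply LinearMap.ext
  intro a
  have h1 := congrArg (fun T : Module.End k M => T (φ a)) (he f h)
  simp only [LinearMap.sub_apply, Module.End.mul_apply] at h1
  rw [LinearMap.sub_apply, LinearMap.sub_apply, Module.End.mul_apply, Module.End.mul_apply,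
    rhoH_apply, rhoH_apply, rhoH_apply, rhoH_apply, rhoH_apply, rhoH_apply, rhoH_apply, ← h1,
    ← del_lie, map_sub, map_sub, map_sub]
  abel

theorem rhoH_comm (e : A k Γ →ₗ[k] Module.End k M) (f : A k Γ) (b : B k Γ (Fin r)) :
    rhoH r e f * actH k Γ r M b - actH k Γ r M b * rhoH r e f = actH k Γ r M (del f b) := by
  apply LinearMap.ext
  intro φ
  apply LinearMap.ext
  intro a
  rw [LinearMap.sub_apply, LinearMap.sub_apply, Module.End.mul_apply, Module.End.mul_apply,
    rhoH_apply, actH_apply, actH_apply, actH_apply, rhoH_apply, actH_apply, del_mul, map_add]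
  abel

/-- the functionals `a ↦ E_r (a G) m` -/
noncomputable def phi (r : ℕ) (e : A k Γ →ₗ[k] Module.End k M) (G : B k Γ (Fin r)) (m : M) :
    HH k Γ r M where
  toFun a := E r e (a * G) m
  map_add' := fun a b => by rw [add_mul, map_add]; rfl
  map_smul' := fun c a => by rw [smul_mul_assoc, map_smul]; rfl

theorem phi_apply (e : A k Γ →ₗ[k] Module.End k M) (G : B k Γ (Fin r)) (m : M)
    (a : B k Γ (Fin r)) : phi r e G m a = E r e (a * G) m := rfl

end HPreASec

section HPreBSec

open scoped BigOperators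

variable {k : Type u} [CommRing k] {Γ : Type} [AddCommMonoid Γ] [Expo Γ] {r : ℕ}
variable {M : Type w} [AddCommGroup M] [Module k M]

theorem actH_phi (e : A k Γ →ₗ[k] Module.End k M) (G : B k Γ (Fin r)) (m : M)
    (b : B k Γ (Fin r)) : actH k Γ r M b (phi r e G m) = phi r e (b * G) m := by
  apply LinearMap.ext
  intro a
  rw [actH_apply, phi_apply, phi_apply, mul_comm b a, mul_assoc]

/-- Hint: `ad_E` and `LL_mul`. -/
theorem rhoH_phi {e : A k Γ →ₗ[k] Module.End k M} (he : LieMap e) (G : B k Γ (Fin r)) (m : M)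
    (f : A k Γ) :
    rhoH r e f (phi r e G m) = phi r e G (e f m) + phi r e (LL f G) m := by
  apply LinearMap.ext
  intro a
  have h1 := congrArg (fun T : Module.End k M => T m) (ad_E e he f (a * G))
  simp only [LinearMap.sub_apply, Module.End.mul_apply] at h1
  rw [LL_mul, map_add, LinearMap.add_apply] at h1
  rw [rhoH_apply, LinearMap.add_apply, phi_apply, phi_apply, phi_apply, phi_apply]
  rw [sub_eq_iff_eq_add] at h1
  rw [h1]
  abel

/-- the span of the functionals with `G` divisible by `Delta ^ K` -/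
noncomputable def X0 (r K : ℕ) (e : A k Γ →ₗ[k] Module.End k M) : Submodule k (HH k Γ r M) :=
  Submodule.span k {φ | ∃ F m, φ = phi r e (Delta k Γ r ^ K * F) m}

theorem X0_act (K : ℕ) (e : A k Γ →ₗ[k] Module.End k M) (b : B k Γ (Fin r))
    (x : HH k Γ r M) (hx : x ∈ X0 r K e) : actH k Γ r M b x ∈ X0 r K e := by
  have hmain : X0 r K e ≤ (X0 r K e).comap (actH k Γ r M b) := by
    conv_lhs => unfold X0
    rw [Submodule.span_le]
    rintro _ ⟨F, m, rfl⟩
    rw [SetLike.mem_coe, Submodule.mem_comap, actH_phi, mul_left_comm]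
    exact Submodule.subset_span ⟨b * F, m, rfl⟩
  exact hmain hx

theorem X0_rho (K : ℕ) {e : A k Γ →ₗ[k] Module.End k M} (he : LieMap e) (f : A k Γ)
    (x : HH k Γ r M) (hx : x ∈ X0 r K e) : rhoH r e f x ∈ X0 r K e := by
  have hmain : X0 r K e ≤ (X0 r K e).comap (rhoH r e f) := by
    conv_lhs => unfold X0
    rw [Submodule.span_le]
    rintro _ ⟨F, m, rfl⟩
    obtain ⟨G, hG⟩ := LL_Delta_pow f K F
    rw [SetLike.mem_coe, Submodule.mem_comap, rhoH_phi he, hG]
    exact Submodule.add_mem _ (Submodule.subset_span ⟨F, e f m, rfl⟩)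
      (Submodule.subset_span ⟨G, m, rfl⟩)
  exact hmain hx

end HPreBSec

section HLocalASec

open scoped BigOperators

variable {k : Type u} [CommRing k] {Γ : Type} [AddCommMonoid Γ] [Expo Γ] {r : ℕ}
variable {M : Type w} [AddCommGroup M] [Module k M]

/-- the map of variables `y ↦ X 0`, `x_i ↦ X i.succ` -/
def optSucc {r : ℕ} (o : Option (Fin r)) : Fin (r + 1) := o.elim 0 Fin.succ

/-- The action of a symbol on `phi`. Hint: `B_option_induction`, `Op_apply`; for
`Z = inj none f * pf some b`: `(act b (rho f φ)) (c) = e f (φ (b c)) - φ (del f (b c))`, and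
`e f * E r e (b c G) = E (r+1) e (inj 0 f * pf succ (b c G))` by `EE_succ`. -/
theorem Op_phi (e : A k Γ →ₗ[k] Module.End k M) (G : B k Γ (Fin r)) (m : M)
    (Z : B k Γ (Option (Fin r))) (c : B k Γ (Fin r)) :
    (Op (actH k Γ r M) (rhoH r e) Z (phi r e G m)) c =
      E (r + 1) e (pf optSucc (Z * pf some (c * G))) m -
        E r e ((∑ i, ev i (dd (some i) (Z * pf some c))) * G) m := by
  refine B_option_induction (P := fun Z => (Op (actH k Γ r M) (rhoH r e) Z (phi r e G m)) c =
      E (r + 1) e (pf optSucc (Z * pf some (c * G))) m -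
        E r e ((∑ i, ev i (dd (some i) (Z * pf some c))) * G) m) Z ?_ ?_ ?_
  · simp
  · intro F H hF hH
    rw [map_add, LinearMap.add_apply, LinearMap.add_apply, hF, hH]
    simp only [add_mul, map_add, Finset.sum_add_distrib, LinearMap.add_apply]
    abel
  · intro a b
    rw [Op_apply, Module.End.mul_apply, actH_apply, rhoH_apply, phi_apply, phi_apply]
    congr 1
    · have h1 : pf optSucc (inj none (tt k a) * pf some b * pf some (c * G) :
          B k Γ (Option (Fin r))) = (inj 0 (tt k a) * pf Fin.succ (b * c * G) :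
          B k Γ (Fin (r + 1))) := by
        rw [map_mul, map_mul, pf_inj, pf_pf, pf_pf, mul_assoc, ← map_mul, mul_assoc b c G]
        rfl
      rw [h1, EE_succ]
      rfl
    · congr 2
      congr 1
      rw [del_apply]
      refine Finset.sum_congr rfl fun i _ => ?_
      rw [mul_assoc, ← map_mul, dd_mul (some i), dd_inj, if_neg (by simp), zero_mul, zero_add, dd_pf]
      rw [Finset.sum_eq_single i]
      · rw [if_pos rfl, map_mul (ev i), ev_inj_none, ev_pf_some]
      · intro j _ hj
        rw [if_neg]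
        exact fun h => hj (Option.some_injective _ h)
      · intro h
        exact absurd (Finset.mem_univ _) h

/-- Locality. Hint: `Op_phi`; the first term is `E (r+1) e (Delta ^ N * _)` up to sign
(`pf optSucc (chi ^ N) * pf succ (Delta ^ N) = Delta ^ N` by `vand_cons`), the second is zero
because `(y - x_i) ^ 2` divides `chi ^ n` (`n ≥ 2`). -/
theorem X0_local {N K n : ℕ} {e : A k Γ →ₗ[k] Module.End k M} (hloc : Loc (r + 1) N e)
    (hK : N ≤ K) (hn : N ≤ n) (hn2 : 2 ≤ n) (F : B k Γ (Option (Fin r)))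
    (x : HH k Γ r M) (hx : x ∈ X0 r K e) :
    Op (actH k Γ r M) (rhoH r e) (chi k Γ r ^ n * F) x = 0 := by
  unfold X0 at hx
  induction hx using Submodule.span_induction with
  | zero => rw [map_zero]
  | add x y _ _ hx hy => rw [map_add, hx, hy, add_zero]
  | smul c x _ hx => rw [map_smul, hx, smul_zero]
  | mem x hx =>
    obtain ⟨F', m, rfl⟩ := hx
    apply LinearMap.ext
    intro c
    rw [Op_phi, LinearMap.zero_apply]
    have h1 : pf optSucc (chi k Γ r) * pf optSucc (pf some (Delta k Γ r)) =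
        Delta k Γ (r + 1) := by
      rw [pf_pf, pf_Delta]
      have h2 : (Delta k Γ (r + 1)) = vand (Fin.cons (X 0) (fun i : Fin r => X i.succ) :
          Fin (r + 1) → B k Γ (Fin (r + 1))) := by
        unfold Delta
        congr 1
        funext i
        refine Fin.cases ?_ (fun j => ?_) i
        · rw [Fin.cons_zero]
        · rw [Fin.cons_succ]
      rw [h2, vand_cons]
      congr 1
      unfold chi
      rw [map_prod]
      refine Finset.prod_congr rfl fun i _ => ?_
      rw [map_sub, pf_X, pf_X]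
      rfl
    obtain ⟨n', rfl⟩ := Nat.exists_eq_add_of_le hn
    obtain ⟨K', rfl⟩ := Nat.exists_eq_add_of_le hK
    have h3 : pf optSucc (chi k Γ r ^ (N + n') * F * pf some (c * (Delta k Γ r ^ (N + K') * F'))) =
        Delta k Γ (r + 1) ^ N * (pf optSucc (chi k Γ r ^ n' * F * pf some (c * (Delta k Γ r ^ K' * F')))) := by
      rw [← h1, ← map_mul, ← map_pow, ← map_mul]
      congr 1
      rw [pow_add, pow_add, mul_pow, ← map_pow]
      simp only [map_mul]
      ring
    rw [h3, hloc, LinearMap.zero_apply, zero_sub, neg_eq_zero]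
    have h4 : ∀ i, ev i (dd (some i) (chi k Γ r ^ (N + n') * F * pf some c)) =
        (0 : B k Γ (Fin r)) := by
      intro i
      have h5 : ev i (chi k Γ r) = (0 : B k Γ (Fin r)) := by
        unfold chi
        rw [map_prod]
        refine Finset.prod_eq_zero (Finset.mem_univ i) ?_
        rw [map_sub, ev_X_none, ev_X_some, sub_self]
      rw [mul_assoc, dd_mul, dd_pow]
      simp only [map_add, map_mul, map_pow]
      rw [h5, zero_pow (by omega : N + n' - 1 ≠ 0), zero_pow (by omega : N + n' ≠ 0)]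
      simp
    rw [Finset.sum_eq_zero (fun i _ => h4 i), zero_mul, map_zero, LinearMap.zero_apply]

end HLocalASec

section HLocalBSec

open scoped BigOperators

variable {k : Type u} [CommRing k] {Γ : Type} [AddCommMonoid Γ] [Expo Γ] {r : ℕ}
variable {M : Type w} [AddCommGroup M] [Module k M]

/-- a monomial in two groups of variables -/
private theorem HLocalB_mon (α : Fin (r + r) → Γ) :
    (mon k α : B k Γ (Fin (r + r))) =
      pf (Fin.castAdd r) (mon k (fun i => α (Fin.castAdd r i))) *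
        pf (Fin.natAdd r) (mon k (fun i => α (Fin.natAdd r i))) := by
  rw [pf_mon, pf_mon, mon_mul]
  congr 1
  funext j
  rw [Pi.add_apply, push_apply, push_apply]
  refine Fin.addCases (fun i => ?_) (fun i => ?_) j
  · rw [Finset.sum_eq_single i, if_pos rfl, Finset.sum_eq_zero, add_zero]
    · intro l _
      rw [if_neg]
      intro h
      have := congrArg Fin.val h
      simp at this
      omega
    · intro l _ hl
      rw [if_neg]
      exact fun h => hl (Fin.castAdd_injective _ _ h)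
    · intro h; exact absurd (Finset.mem_univ _) h
  · rw [Finset.sum_eq_zero, zero_add, Finset.sum_eq_single i, if_pos rfl]
    · intro l _ hl
      rw [if_neg]
      exact fun h => hl (Fin.natAdd_injective _ _ h)
    · intro h; exact absurd (Finset.mem_univ _) h
    · intro l _
      rw [if_neg]
      intro h
      have := congrArg Fin.val h
      simp at this
      omega

private theorem HLocalB_ind {P : B k Γ (Fin (r + r)) → Prop} (Z : B k Γ (Fin (r + r)))
    (h0 : P 0) (hadd : ∀ F G, P F → P G → P (F + G))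
    (h : ∀ Y C : B k Γ (Fin r), P (pf (Fin.castAdd r) Y * pf (Fin.natAdd r) C)) : P Z := by
  refine mon_induction Z h0 hadd fun c α => ?_
  rw [HLocalB_mon, ← smul_mul_assoc, ← map_smul]
  exact h _ _

/-- `Ψ` represents `Z` -/
private def HLocalB_Rep (e : A k Γ →ₗ[k] Module.End k M) (Z : B k Γ (Fin (r + r)))
    (Ψ : HH k Γ r M →ₗ[k] M) : Prop :=
  ∀ G m, Ψ (phi r e G m) = E (r + r) e (Z * pf (Fin.natAdd r) G) m

/-- the map `x ↦ E r e Y (x C)` -/
private noncomputable def HLocalB_map (e : A k Γ →ₗ[k] Module.End k M) (Y C : B k Γ (Fin r)) :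
    HH k Γ r M →ₗ[k] M where
  toFun x := E r e Y (x C)
  map_add' := fun x y => by rw [LinearMap.add_apply, map_add]
  map_smul' := fun c x => by rw [LinearMap.smul_apply, map_smul]; rfl

private theorem HLocalB_map_apply (e : A k Γ →ₗ[k] Module.End k M) (Y C : B k Γ (Fin r))
    (x : HH k Γ r M) : HLocalB_map e Y C x = E r e Y (x C) := rfl

private theorem HLocalB_rep (e : A k Γ →ₗ[k] Module.End k M) (Y C : B k Γ (Fin r)) :
    HLocalB_Rep e (pf (Fin.castAdd r) Y * pf (Fin.natAdd r) C) (HLocalB_map e Y C) := by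
  intro G m
  rw [HLocalB_map_apply, phi_apply, mul_assoc, ← map_mul, ← E_mul_E]
  rfl

private theorem HLocalB_exists (e : A k Γ →ₗ[k] Module.End k M) (Z : B k Γ (Fin (r + r))) :
    ∃ Ψ : HH k Γ r M →ₗ[k] M, HLocalB_Rep e Z Ψ := by
  refine HLocalB_ind (P := fun Z => ∃ Ψ : HH k Γ r M →ₗ[k] M, HLocalB_Rep e Z Ψ) Z ?_ ?_ ?_
  · refine ⟨0, fun G m => ?_⟩
    rw [zero_mul, map_zero]; rfl
  · rintro F H ⟨Ψ, hΨ⟩ ⟨Φ, hΦ⟩
    refine ⟨Ψ + Φ, fun G m => ?_⟩
    rw [LinearMap.add_apply, hΨ, hΦ, add_mul, map_add]; rfl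
  · intro Y C
    exact ⟨_, HLocalB_rep e Y C⟩

private theorem HLocalB_exists' (e : A k Γ →ₗ[k] Module.End k M) (x : HH k Γ r M)
    (hx : ∀ c, x (Delta k Γ r * c) = 0) (Z : B k Γ (Fin (r + r))) :
    ∃ Ψ : HH k Γ r M →ₗ[k] M,
      HLocalB_Rep e (pf (Fin.natAdd r) (Delta k Γ r) * Z) Ψ ∧ Ψ x = 0 := by
  refine HLocalB_ind (P := fun Z => ∃ Ψ : HH k Γ r M →ₗ[k] M,
    HLocalB_Rep e (pf (Fin.natAdd r) (Delta k Γ r) * Z) Ψ ∧ Ψ x = 0) Z ?_ ?_ ?_
  · refine ⟨0, fun G m => ?_, rfl⟩
    rw [mul_zero, zero_mul, map_zero]; rfl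
  · rintro F H ⟨Ψ, hΨ, h1⟩ ⟨Φ, hΦ, h2⟩
    refine ⟨Ψ + Φ, fun G m => ?_, ?_⟩
    · rw [LinearMap.add_apply, hΨ, hΦ, mul_add, add_mul, map_add]; rfl
    · rw [LinearMap.add_apply, h1, h2, add_zero]
  · intro Y C
    refine ⟨HLocalB_map e Y (Delta k Γ r * C), ?_, ?_⟩
    · have h := HLocalB_rep e Y (Delta k Γ r * C) (M := M)
      rw [map_mul] at h
      have h2 : pf (Fin.natAdd r) (Delta k Γ r) * (pf (Fin.castAdd r) Y * pf (Fin.natAdd r) C) =
          pf (Fin.castAdd r) Y * (pf (Fin.natAdd r) (Delta k Γ r) * pf (Fin.natAdd r) C) := by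
        ring
      rw [h2]
      exact h
    · rw [HLocalB_map_apply, hx, map_zero]

private theorem HLocalB_unique {K : ℕ} {e : A k Γ →ₗ[k] Module.End k M}
    {Z : B k Γ (Fin (r + r))} {Ψ Φ : HH k Γ r M →ₗ[k] M} (hΨ : HLocalB_Rep e Z Ψ)
    (hΦ : HLocalB_Rep e Z Φ) (x : HH k Γ r M) (hx : x ∈ X0 r K e) : Ψ x = Φ x := by
  unfold X0 at hx
  induction hx using Submodule.span_induction with
  | zero => rw [map_zero, map_zero]
  | add x y _ _ hx hy => rw [map_add, map_add, hx, hy]
  | smul c x _ hx => rw [map_smul, map_smul, hx]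
  | mem x hx =>
    obtain ⟨F, m, rfl⟩ := hx
    rw [hΨ, hΦ]

/-- the letters `y_l, x_1, ..., x_r` -/
private def HLocalB_g (l : Fin r) : Fin (r + 1) → Fin (r + r) :=
  Fin.cons (Fin.castAdd r l) (Fin.natAdd r)

private theorem HLocalB_g_inj (l : Fin r) : Function.Injective (HLocalB_g l) := by
  unfold HLocalB_g
  rw [Fin.cons_injective_iff]
  refine ⟨?_, Fin.natAdd_injective r r⟩
  rintro ⟨i, hi⟩
  have := congrArg Fin.val hi
  simp at this
  omega

/-- Torsion-freeness. Hint: let `x = ∑ phi (Delta ^ K * F_i) m_i` with `x (Delta * c) = 0` for all `c`.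
Fix `c`; by `k2` (`KK r b e = ⊥`, `b` from `vand_radical` with `j = 1` and exponent `n = K`, in
`B k Γ (Fin (r + r))`, `y_i = X (castAdd i)`, `x_i = X (natAdd i)`) it is enough that
`E r e (Delta ^ b * F) (x c) = 0`. This is `∑_i E (r+r) e (vand y ^ b F(y) c(x) Delta(x)^K F_i(x)) m_i`
(`E_mul_E`). Expand `vand y ^ b = vand x * Q + ∑ (∏_i (y_l - x_i)) ^ K * Q_l`; the second part is
killed by `loc_extend` (`s = r + 1`, `n = 2 r`, needs `N + r ≤ K + 1`); in the first part expand `Q`
in monomials of `y` and `x` and use `x (Delta * c') = 0`. It is convenient to prove first: for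
`Z : B k Γ (Fin (r + r))` the map `(G, m) ↦ E (r+r) e (Z * pf natAdd G) m` is
`∑_κ E r e (y-part) (phi G m (x-part))`, so it extends to a linear map in `x ∈ HH`. -/
theorem X0_torsionFree {N K : ℕ} {e : A k Γ →ₗ[k] Module.End k M} (he : LieMap e)
    (hloc : Loc (r + 1) N e) (hK : N + r ≤ K) (k2 : ∀ K, KK r K e = ⊥)
    (x : HH k Γ r M) (hx : x ∈ X0 r K e) (h0 : actH k Γ r M (Delta k Γ r) x = 0) : x = 0 := by
  have hD : ∀ c, x (Delta k Γ r * c) = 0 := by
    intro c
    have h1 := congrArg (fun φ : HH k Γ r M => φ c) h0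
    exact h1
  apply LinearMap.ext
  intro c
  rw [LinearMap.zero_apply]
  obtain ⟨b, hb⟩ := vand_radical (fun i : Fin r => (X (Fin.natAdd r i) : B k Γ (Fin (r + r))))
    (fun i : Fin r => X (Fin.castAdd r i)) 1 K
  have hvx : (vand (fun i : Fin r => (X (Fin.natAdd r i) : B k Γ (Fin (r + r))))) =
      pf (Fin.natAdd r) (Delta k Γ r) := by rw [pf_Delta]
  have hvy : (vand (fun i : Fin r => (X (Fin.castAdd r i) : B k Γ (Fin (r + r))))) =
      pf (Fin.castAdd r) (Delta k Γ r) := by rw [pf_Delta]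
  have key : ∀ W ∈ Ideal.span ({vand (fun i : Fin r =>
      (X (Fin.natAdd r i) : B k Γ (Fin (r + r)))) ^ 1} ∪
      Set.range (fun l : Fin r => (∏ i : Fin r, (X (Fin.castAdd r l) - X (Fin.natAdd r i)) ^ 1 :
        B k Γ (Fin (r + r))) ^ K)), ∀ Q, ∃ Ψ : HH k Γ r M →ₗ[k] M,
      HLocalB_Rep e (W * Q) Ψ ∧ Ψ x = 0 := by
    intro W hW
    induction hW using Submodule.span_induction with
    | zero =>
      intro Q
      refine ⟨0, fun G m => ?_, rfl⟩
      rw [zero_mul, zero_mul, map_zero]; rfl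
    | add U V _ _ hU hV =>
      intro Q
      obtain ⟨Ψ, hΨ, h1⟩ := hU Q
      obtain ⟨Φ, hΦ, h2⟩ := hV Q
      refine ⟨Ψ + Φ, fun G m => ?_, ?_⟩
      · rw [LinearMap.add_apply, hΨ, hΦ, add_mul, add_mul, map_add]; rfl
      · rw [LinearMap.add_apply, h1, h2, add_zero]
    | smul a U _ hU =>
      intro Q
      obtain ⟨Ψ, hΨ, h1⟩ := hU (a * Q)
      refine ⟨Ψ, fun G m => ?_, h1⟩
      rw [hΨ]
      congr 2
      rw [smul_eq_mul]
      ring
    | mem U hU =>
      intro Q
      rcases hU with hU | ⟨l, rfl⟩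
      · rw [Set.mem_singleton_iff] at hU
        rw [hU, pow_one, hvx]
        exact HLocalB_exists' e x hD Q
      · obtain ⟨Ψ, hΨ⟩ := HLocalB_exists (M := M) e
          ((∏ i : Fin r, (X (Fin.castAdd r l) - X (Fin.natAdd r i)) ^ 1 :
            B k Γ (Fin (r + r))) ^ K * Q)
        refine ⟨Ψ, hΨ, ?_⟩
        have hx' := hx
        unfold X0 at hx'
        have hv : (∏ i : Fin r, (X (Fin.castAdd r l) - X (Fin.natAdd r i)) ^ 1 :
            B k Γ (Fin (r + r))) * pf (Fin.natAdd r) (Delta k Γ r) =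
            vand (fun i => X (HLocalB_g l i)) := by
          have h3 : (fun i => (X (HLocalB_g l i) : B k Γ (Fin (r + r)))) =
              Fin.cons (X (Fin.castAdd r l)) (fun i : Fin r => X (Fin.natAdd r i)) := by
            funext i
            unfold HLocalB_g
            refine Fin.cases ?_ (fun j => ?_) i
            · rw [Fin.cons_zero, Fin.cons_zero]
            · rw [Fin.cons_succ, Fin.cons_succ]
          rw [h3, vand_cons, ← hvx]
          simp only [pow_one]
        clear h0 hD hb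
        induction hx' using Submodule.span_induction with
        | zero => exact map_zero _
        | add u v hu hv' h1 h2 => rw [map_add, h1 hu, h2 hv', add_zero]
        | smul c u hu h1 => rw [map_smul, h1 hu, smul_zero]
        | mem u hu =>
          obtain ⟨F, m, rfl⟩ := hu
          rw [hΨ]
          have h4 : (∏ i : Fin r, (X (Fin.castAdd r l) - X (Fin.natAdd r i)) ^ 1 :
              B k Γ (Fin (r + r))) ^ K * Q * pf (Fin.natAdd r) (Delta k Γ r ^ K * F) =
              vand (fun i => X (HLocalB_g l i)) ^ K * (Q * pf (Fin.natAdd r) F) := by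
            rw [← hv, map_mul, map_pow, mul_pow]
            ring
          rw [h4, loc_extend he hloc (HLocalB_g l) (HLocalB_g_inj l) K (by omega)]
          rfl
  have hkk : x c ∈ KK r b e := by
    intro F
    simp only [pow_one] at key
    simp only [pow_one] at hb
    obtain ⟨Ψ, hΨ, h1⟩ := key _ hb (pf (Fin.castAdd r) F * pf (Fin.natAdd r) c)
    have h2 := HLocalB_rep e (Delta k Γ r ^ b * F) c (M := M)
    have h3 : pf (Fin.castAdd r) (Delta k Γ r ^ b * F) * pf (Fin.natAdd r) c =
        vand (fun i : Fin r => (X (Fin.castAdd r i) : B k Γ (Fin (r + r)))) ^ b *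
          (pf (Fin.castAdd r) F * pf (Fin.natAdd r) c) := by
      rw [hvy, map_mul, map_pow]
      ring
    rw [h3] at h2
    have h4 := HLocalB_unique h2 hΨ x hx
    rw [h1, HLocalB_map_apply] at h4
    exact h4
  rw [k2 b] at hkk
  exact hkk

end HLocalBSec

section HCoverSec

open scoped BigOperators

variable {k : Type u} [Field k] {Γ : Type} [AddCommMonoid Γ] [Expo Γ] {r : ℕ}

/-- Hint: multiplication by `Delta` on `B` is injective (`B_noZeroDivisors`, `Delta_ne_zero`), so it
has a linear left inverse (`LinearMap.exists_leftInverse_of_injective`). -/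
theorem actH_surj {M : Type w} [AddCommGroup M] [Module k M] :
    Function.Surjective (actH k Γ r M (Delta k Γ r)) := by
  have : NoZeroDivisors (B k Γ (Fin r)) := B_noZeroDivisors
  have hker : LinearMap.ker (LinearMap.mulLeft k (Delta k Γ r)) = ⊥ := by
    rw [LinearMap.ker_eq_bot']
    intro x hx
    rw [LinearMap.mulLeft_apply] at hx
    exact (mul_eq_zero.1 hx).resolve_left (Delta_ne_zero r)
  obtain ⟨g, hg⟩ := LinearMap.exists_leftInverse_of_injective _ hker
  intro φ
  refine ⟨φ ∘ₗ g, ?_⟩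
  apply LinearMap.ext
  intro a
  rw [actH_apply, LinearMap.comp_apply]
  congr 1
  exact congrArg (fun f => f a) hg

/-- Existence of the cover. Hint: `K = N + r`, `X₀ = X0 r K e`, `localize` with exponent
`max N 2`; `G = {(i x, x 1) | x ∈ X₀}`. `k1`: `x b = (b x) 1`. `Nontrivial V`: `X₀ ≠ ⊥` since
`phi (Delta ^ K * F) m` at `1` is not zero for some `F`, `m`. -/
theorem exists_cover {M : Type u} [AddCommGroup M] [Module k M] {N : ℕ}
    {e : A k Γ →ₗ[k] Module.End k M} (he : LieMap e) (hs : Simple e) (hloc : Loc (r + 1) N e)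
    (hn : ∀ K, ¬ Loc r K e) :
    ∃ (V : Type u) (_ : AddCommGroup V) (_ : Module k V)
      (act : B k Γ (Fin r) →ₐ[k] Module.End k V) (rho : A k Γ →ₗ[k] Module.End k V)
      (G : Submodule k (V × M)), Nontrivial V ∧ IsSys r (max N 2) act rho ∧
      Function.Bijective (act (Delta k Γ r)) ∧ Cover act rho e G := by
  have k2 : ∀ K, KK r K e = ⊥ := fun K => KK_eq_bot he hs (hn K)
  obtain ⟨V, _, _, act, rho, i, hsys, hbij, hinj, hact, hrho, hexh⟩ :=
    localize (actH k Γ r M) (rhoH r e) (rhoH_lie he) (rhoH_comm e) actH_surj (X0 r (N + r) e)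
      (X0_act (N + r) e) (X0_rho (N + r) he)
      (fun x hx h0 => X0_torsionFree he hloc le_rfl k2 x hx h0)
      (N := max N 2) (le_trans (by norm_num) (le_max_right N 2))
      (fun F x hx => X0_local hloc (Nat.le_add_right N r) (le_max_left N 2) (le_max_right N 2)
        F x hx)
  let ev1 : X0 r (N + r) e →ₗ[k] M :=
    (LinearMap.applyₗ (1 : B k Γ (Fin r))) ∘ₗ (X0 r (N + r) e).subtype
  have hev1 : ∀ x : X0 r (N + r) e, ev1 x = (x : HH k Γ r M) 1 := fun x => rfl
  have hG : ∀ v m, (v, m) ∈ LinearMap.range (i.prod ev1) ↔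
      ∃ x, i x = v ∧ (x : HH k Γ r M) 1 = m := by
    intro v m
    rw [LinearMap.mem_range]
    constructor
    · rintro ⟨x, hx⟩
      exact ⟨x, congrArg Prod.fst hx, congrArg Prod.snd hx⟩
    · rintro ⟨x, rfl, rfl⟩
      exact ⟨x, rfl⟩
  refine ⟨V, _, _, act, rho, LinearMap.range (i.prod ev1), ?_, hsys, hbij, ?_⟩
  · have h1 := hn (N + r)
    unfold Loc at h1
    push Not at h1
    obtain ⟨F, hF⟩ := h1
    obtain ⟨m, hm⟩ : ∃ m, E r e (Delta k Γ r ^ (N + r) * F) m ≠ 0 := by
      by_contra hcon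
      push Not at hcon
      exact hF (LinearMap.ext hcon)
    refine ⟨⟨i ⟨phi r e (Delta k Γ r ^ (N + r) * F) m, Submodule.subset_span ⟨F, m, rfl⟩⟩, 0, ?_⟩⟩
    intro h0
    rw [← map_zero i] at h0
    have h2 := congrArg (fun y : X0 r (N + r) e => (y : HH k Γ r M) 1) (hinj h0)
    simp only [phi_apply, one_mul] at h2
    exact hm h2
  · refine ⟨?_, ?_, ?_, ?_, ?_⟩
    · intro m hm
      obtain ⟨x, hx, hxm⟩ := (hG _ _).1 hm
      have : x = 0 := hinj (by rw [hx, map_zero])
      rw [← hxm, this]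
      rfl
    · intro f v m hm
      obtain ⟨x, rfl, rfl⟩ := (hG _ _).1 hm
      refine (hG _ _).2 ⟨_, hrho f x, ?_⟩
      change (rhoH r e f (x : HH k Γ r M)) 1 = _
      rw [rhoH_apply, del_one, map_zero, sub_zero]
    · intro b v m hm
      obtain ⟨x, rfl, rfl⟩ := (hG _ _).1 hm
      exact ⟨_, (hG _ _).2 ⟨_, hact b x, rfl⟩⟩
    · intro v m hm hb
      obtain ⟨x, rfl, rfl⟩ := (hG _ _).1 hm
      have hx0 : (x : HH k Γ r M) = 0 := by
        apply LinearMap.ext
        intro b
        obtain ⟨y, hy, hy1⟩ := (hG _ _).1 (hb b)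
        rw [← hact b x] at hy
        rw [hinj hy] at hy1
        change (actH k Γ r M b (x : HH k Γ r M)) 1 = 0 at hy1
        rw [actH_apply, mul_one] at hy1
        rw [hy1, LinearMap.zero_apply]
      have : x = 0 := Subtype.ext hx0
      rw [this, map_zero]
    · intro v
      obtain ⟨j, x, hjx⟩ := hexh v
      exact ⟨j, _, (hG _ _).2 ⟨x, hjx.symm, rfl⟩⟩

end HCoverSec

section CoverThmSec

open scoped BigOperators

variable {k : Type u} [Field k] [CharZero k] {Γ : Type} [AddCommMonoid Γ] [Expo Γ] {r : ℕ}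

/-- The annihilator of a simple module is the annihilator of a system. -/
theorem cover_thm {M : Type u} [AddCommGroup M] [Module k M] {N : ℕ}
    {e : A k Γ →ₗ[k] Module.End k M} (he : LieMap e) (hs : Simple e) (hloc : Loc (r + 1) N e)
    (hn : ∀ K, ¬ Loc r K e) :
    ∃ (V : Type u) (_ : AddCommGroup V) (_ : Module k V)
      (act : B k Γ (Fin r) →ₐ[k] Module.End k V) (rho : A k Γ →ₗ[k] Module.End k V),
      IsSys r (max N 2) act rho ∧
      ∀ p, TensorAlgebra.lift k rho p = 0 ↔ TensorAlgebra.lift k e p = 0 := by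
  obtain ⟨V, _, _, act, rho, G, _, hsys, hd, hG⟩ := exists_cover he hs hloc hn
  have hu : IsUnit (act (Delta k Γ r)) := (Module.End.isUnit_iff _).2 hd
  obtain ⟨rhos, hsep, rfl⟩ := sep_of_sys hsys hu
  obtain ⟨Y, hne, hY, hg⟩ := exists_all_goodOn hsep hd.1
  obtain ⟨act', rhos', G', hnt, hsep', hsys', hd', hG', hg'⟩ :=
    restrict_all hsep hsys hd hG Y hne hY hg
  have k2 : ∀ K, KK r K e = ⊥ := fun K => KK_eq_bot he hs (hn K)
  have hQ : ∀ n : ℕ, n ≠ 0 → IsUnit (n : k) := fun n h => by
    rw [isUnit_iff_ne_zero]; exact_mod_cast h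
  exact ⟨Y, inferInstance, inferInstance, act', ∑ i, rhos' i, hsys', fun p =>
    ⟨fun h => main_backward hs hd'.1 hG' p h, fun h => main_forward hQ hsep' hd'.1 hG' k2 hg' p h⟩⟩

end CoverThmSec

end W94
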