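import Pool.Agent.LibWitt94.Base
import Pool.Agent.LibWitt94.OpCalc

universe u w

namespace W94

/-!
Filtered noetherian argument, independent of the rest: `C` a commutative noetherian ring, `R` a ring,
`a : C →+* R`, letters `z j`, with commutators of order one lower.
-/

section FilASec

open scoped BigOperators

variable {C : Type u} [CommRing C] {R : Type w} [Ring R] {J : ℕ}

/-- the operators of order `< d`: additive span of `a c * (word of length < d)` -/
def Dlt (a : C →+* R) (z : Fin J → R) (d : ℕ) : AddSubgroup R :=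
  AddSubgroup.closure {x | ∃ (c : C) (l : List (Fin J)), l.length < d ∧ x = a c * (l.map z).prod}

/-- the commutation relations -/
structure Rel (a : C →+* R) (z : Fin J → R) : Prop where
  ra : ∀ j c, ∃ c', z j * a c - a c * z j = a c'
  rz : ∀ i j, z i * z j - z j * z i ∈ Dlt a z 2

variable {a : C →+* R} {z : Fin J → R}

theorem Dlt_mono {d d' : ℕ} (h : d ≤ d') : Dlt a z d ≤ Dlt a z d' := by
  apply AddSubgroup.closure_mono
  rintro x ⟨c, l, hl, rfl⟩
  exact ⟨c, l, hl.trans_le h, rfl⟩

theorem mem_Dlt {d : ℕ} (c : C) (l : List (Fin J)) (h : l.length < d) :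
    a c * (l.map z).prod ∈ Dlt a z d := AddSubgroup.subset_closure ⟨c, l, h, rfl⟩

theorem Dlt_zero (x : R) (h : x ∈ Dlt a z 0) : x = 0 := by
  refine AddSubgroup.closure_induction (p := fun x _ => x = 0) ?_ rfl ?_ ?_ h
  · rintro x ⟨c, l, hl, rfl⟩
    exact absurd hl (Nat.not_lt_zero _)
  · intro x y _ _ hx hy
    rw [hx, hy, add_zero]
  · intro x _ hx
    rw [hx, neg_zero]

theorem smul_mem_Dlt {d : ℕ} (c : C) {x : R} (h : x ∈ Dlt a z d) : a c * x ∈ Dlt a z d := by
  refine AddSubgroup.closure_induction (p := fun x _ => a c * x ∈ Dlt a z d) ?_ ?_ ?_ ?_ h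
  · rintro x ⟨c', l, hl, rfl⟩
    rw [← mul_assoc, ← map_mul]
    exact mem_Dlt _ _ hl
  · rw [mul_zero]
    exact AddSubgroup.zero_mem _
  · intro x y _ _ hx hy
    rw [mul_add]
    exact add_mem hx hy
  · intro x _ hx
    rw [mul_neg]
    exact neg_mem hx

/-- Hint: on generators: `z j * a c * w = a c * z j * w + a c' * w`. -/
theorem z_mul_mem_Dlt (hr : Rel a z) {d : ℕ} (j : Fin J) {x : R} (h : x ∈ Dlt a z d) :
    z j * x ∈ Dlt a z (d + 1) := by
  refine AddSubgroup.closure_induction (p := fun x _ => z j * x ∈ Dlt a z (d + 1)) ?_ ?_ ?_ ?_ h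
  · rintro x ⟨c, l, hl, rfl⟩
    obtain ⟨c', hc'⟩ := hr.ra j c
    have e : z j * (a c * (l.map z).prod) =
        a c * ((j :: l).map z).prod + a c' * (l.map z).prod := by
      rw [List.map_cons, List.prod_cons, ← hc', sub_mul]
      noncomm_ring
    rw [e]
    exact add_mem (mem_Dlt _ _ (by simpa using hl)) (mem_Dlt _ _ (by omega))
  · rw [mul_zero]
    exact AddSubgroup.zero_mem _
  · intro x y _ _ hx hy
    rw [mul_add]
    exact add_mem hx hy
  · intro x _ hx
    rw [mul_neg]
    exact neg_mem hx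

private theorem word_mul_mem_Dlt (hr : Rel a z) {d' : ℕ} {y : R} (hy : y ∈ Dlt a z (d' + 1))
    (l : List (Fin J)) : (l.map z).prod * y ∈ Dlt a z (l.length + d' + 1) := by
  induction l with
  | nil => simpa using hy
  | cons j l ih =>
    rw [List.map_cons, List.prod_cons, mul_assoc]
    have := z_mul_mem_Dlt hr j ih
    refine Dlt_mono ?_ this
    simp only [List.length_cons]
    omega

/-- products. Hint: on generators `a c * w` (`w` a word of length `< d`) and `y ∈ Dlt d'`: induction on
the word with `z_mul_mem_Dlt`, the total length is `≤ (d - 1) + (d' - 1)`; if `d = 0` or `d' = 0` the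
product is zero. -/
theorem mul_mem_Dlt (hr : Rel a z) {d d' : ℕ} {x y : R} (hx : x ∈ Dlt a z (d + 1))
    (hy : y ∈ Dlt a z (d' + 1)) : x * y ∈ Dlt a z (d + d' + 1) := by
  refine AddSubgroup.closure_induction (p := fun x _ => x * y ∈ Dlt a z (d + d' + 1))
    ?_ ?_ ?_ ?_ hx
  · rintro x ⟨c, l, hl, rfl⟩
    rw [mul_assoc]
    refine smul_mem_Dlt c (Dlt_mono ?_ (word_mul_mem_Dlt hr hy l))
    omega
  · rw [zero_mul]
    exact AddSubgroup.zero_mem _
  · intro x y _ _ hx hy
    rw [add_mul]
    exact add_mem hx hy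
  · intro x _ hx
    rw [neg_mul]
    exact neg_mem hx

private theorem word_mem_Dlt (l : List (Fin J)) : (l.map z).prod ∈ Dlt a z (l.length + 1) := by
  have := mem_Dlt (a := a) (z := z) (d := l.length + 1) 1 l (by omega)
  rwa [map_one, one_mul] at this

/-- words with the same content agree up to lower order. Hint: `List.Perm` induction; `swap`:
`z i z j w - z j z i w = [z i, z j] w`, `mul_mem_Dlt` (if `w` has length `n`, the whole word has
length `n + 2`, and `[z i, z j] w ∈ Dlt (n + 2)`). -/
theorem perm_Dlt (hr : Rel a z) {l l' : List (Fin J)} (h : l.Perm l') :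
    (l.map z).prod - (l'.map z).prod ∈ Dlt a z l.length := by
  induction h with
  | nil =>
    rw [sub_self]
    exact AddSubgroup.zero_mem _
  | cons j h ih =>
    rw [List.map_cons, List.prod_cons, List.map_cons, List.prod_cons, ← mul_sub]
    exact z_mul_mem_Dlt hr j ih
  | swap i j l =>
    have e : ((j :: i :: l).map z).prod - ((i :: j :: l).map z).prod =
        (z j * z i - z i * z j) * (l.map z).prod := by
      simp only [List.map_cons, List.prod_cons]
      noncomm_ring
    rw [e]
    refine Dlt_mono ?_ (mul_mem_Dlt hr (d := 1) (hr.rz j i) (word_mem_Dlt l))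
    simp only [List.length_cons]
    omega
  | trans h1 h2 ih1 ih2 =>
    rw [← h1.length_eq] at ih2
    have := add_mem ih1 ih2
    simpa using this

end FilASec

section FilBSec

open scoped BigOperators

variable {C : Type u} [CommRing C] {R : Type w} [Ring R] {J : ℕ}

/-- the symbol map (not multiplicative): `c X^s ↦ a c * (a word with content s)` -/
noncomputable def Th (a : C →+* R) (z : Fin J → R) : MvPolynomial (Fin J) C →+ R where
  toFun F := Finsupp.sum (AddMonoidAlgebra.coeff F) (fun s c =>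
    a c * ((Finsupp.toMultiset s).toList.map z).prod)
  map_zero' := by simp
  map_add' := fun F G => by
    rw [AddMonoidAlgebra.coeff_add]
    exact Finsupp.sum_add_index' (by simp) (by intros; simp [add_mul])

variable {a : C →+* R} {z : Fin J → R}

theorem Th_monomial (s : Fin J →₀ ℕ) (c : C) :
    Th a z (MvPolynomial.monomial s c) = a c * ((Finsupp.toMultiset s).toList.map z).prod := by
  show Finsupp.sum (AddMonoidAlgebra.coeff (MvPolynomial.monomial s c)) (fun s c =>
    a c * ((Finsupp.toMultiset s).toList.map z).prod) = _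
  have h : AddMonoidAlgebra.coeff (MvPolynomial.monomial s c) = Finsupp.single s c := rfl
  rw [h, Finsupp.sum_single_index (by simp)]

private theorem Th_eq_sum (F : MvPolynomial (Fin J) C) :
    Th a z F = ∑ s ∈ F.support, a (F.coeff s) * ((Finsupp.toMultiset s).toList.map z).prod := by
  conv_lhs => rw [← MvPolynomial.support_sum_monomial_coeff F]
  rw [map_sum]
  exact Finset.sum_congr rfl fun s _ => Th_monomial s _

private theorem length_word (s : Fin J →₀ ℕ) : (Finsupp.toMultiset s).toList.length = s.degree := by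
  rw [Multiset.length_toList, Finsupp.card_toMultiset]
  rfl

private theorem degree_of_mem {d : ℕ} {F : MvPolynomial (Fin J) C} (hF : F.IsHomogeneous d)
    {s : Fin J →₀ ℕ} (hs : s ∈ F.support) : s.degree = d := by
  by_contra h
  exact (MvPolynomial.mem_support_iff.mp hs) (hF.coeff_eq_zero h)

theorem Th_C_mul (c : C) (F : MvPolynomial (Fin J) C) :
    Th a z (MvPolynomial.C c * F) = a c * Th a z F := by
  induction F using MvPolynomial.induction_on' with
  | monomial s c' =>
    rw [MvPolynomial.C_mul_monomial, Th_monomial, Th_monomial, map_mul, mul_assoc]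
  | add p q hp hq => rw [mul_add, map_add, hp, hq, map_add, mul_add]

theorem Th_mem_Dlt {d : ℕ} (F : MvPolynomial (Fin J) C) (hF : F.IsHomogeneous d) :
    Th a z F ∈ Dlt a z (d + 1) := by
  rw [Th_eq_sum]
  refine AddSubgroup.sum_mem _ fun s hs => mem_Dlt _ _ ?_
  rw [length_word, degree_of_mem hF hs]
  omega

/-- Hint: for a monomial `c X^s`, `|s| = d`:
`z j * (a c * w) - a c * w' = a c' * w + a c * (z j w - w')`, and `z j w`, `w'` are words with the same
content (`perm_Dlt`). -/
theorem Th_X_mul (hr : Rel a z) {d : ℕ} (j : Fin J) (F : MvPolynomial (Fin J) C)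
    (hF : F.IsHomogeneous d) :
    z j * Th a z F - Th a z (MvPolynomial.X j * F) ∈ Dlt a z (d + 1) := by
  have e1 : Th a z (MvPolynomial.X j * F) = ∑ s ∈ F.support,
      a (F.coeff s) * ((Finsupp.toMultiset (s + Finsupp.single j 1)).toList.map z).prod := by
    conv_lhs => rw [← MvPolynomial.support_sum_monomial_coeff F]
    rw [Finset.mul_sum, map_sum]
    refine Finset.sum_congr rfl fun s _ => ?_
    have e2 : MvPolynomial.X j * MvPolynomial.monomial s (F.coeff s) =
        MvPolynomial.monomial (s + Finsupp.single j 1) (F.coeff s) := by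
      rw [MvPolynomial.X, MvPolynomial.monomial_mul, one_mul, add_comm]
    rw [e2, Th_monomial]
  rw [e1, Th_eq_sum, Finset.mul_sum, ← Finset.sum_sub_distrib]
  refine AddSubgroup.sum_mem _ fun s hs => ?_
  obtain ⟨c', hc'⟩ := hr.ra j (F.coeff s)
  have hd := degree_of_mem hF hs
  set l := (Finsupp.toMultiset s).toList with hl
  set l' := (Finsupp.toMultiset (s + Finsupp.single j 1)).toList with hl'
  have hp : (j :: l).Perm l' := by
    rw [← Multiset.coe_eq_coe, hl', Multiset.coe_toList, ← Multiset.cons_coe, hl,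
      Multiset.coe_toList, map_add, Finsupp.toMultiset_single, one_smul, add_comm,
      Multiset.singleton_add]
  have hlen : l.length = d := by rw [hl, length_word, hd]
  have h1 := perm_Dlt hr hp
  rw [List.length_cons, hlen, List.map_cons, List.prod_cons] at h1
  have e3 : z j * (a (F.coeff s) * (l.map z).prod) - a (F.coeff s) * (l'.map z).prod =
      a c' * (l.map z).prod + a (F.coeff s) * (z j * (l.map z).prod - (l'.map z).prod) := by
    rw [← hc']
    noncomm_ring
  rw [e3]
  exact add_mem (mem_Dlt _ _ (by omega)) (smul_mem_Dlt _ h1)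

/-- every operator of order `≤ d` has a symbol -/
theorem exists_symbol (hr : Rel a z) {d : ℕ} {x : R} (hx : x ∈ Dlt a z (d + 1)) :
    ∃ F : MvPolynomial (Fin J) C, F.IsHomogeneous d ∧ x - Th a z F ∈ Dlt a z d := by
  refine AddSubgroup.closure_induction (p := fun x _ => ∃ F : MvPolynomial (Fin J) C,
    F.IsHomogeneous d ∧ x - Th a z F ∈ Dlt a z d) ?_ ?_ ?_ ?_ hx
  · rintro x ⟨c, l, hl, rfl⟩
    rcases Nat.lt_or_ge l.length d with h | h
    · refine ⟨0, MvPolynomial.isHomogeneous_zero _ _ _, ?_⟩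
      rw [map_zero, sub_zero]
      exact mem_Dlt _ _ h
    · have hld : l.length = d := by omega
      refine ⟨MvPolynomial.monomial (Multiset.toFinsupp (l : Multiset (Fin J))) c, ?_, ?_⟩
      · apply MvPolynomial.isHomogeneous_monomial
        rw [← length_word, Multiset.toFinsupp_toMultiset, Multiset.length_toList,
          Multiset.coe_card, hld]
      · rw [Th_monomial, ← mul_sub, ← hld]
        refine smul_mem_Dlt _ (perm_Dlt hr ?_)
        rw [← Multiset.coe_eq_coe, Multiset.coe_toList, Multiset.toFinsupp_toMultiset]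
  · refine ⟨0, MvPolynomial.isHomogeneous_zero _ _ _, ?_⟩
    rw [map_zero, sub_zero]
    exact AddSubgroup.zero_mem _
  · rintro x y _ _ ⟨F, hF, hF'⟩ ⟨G, hG, hG'⟩
    refine ⟨F + G, hF.add hG, ?_⟩
    have := add_mem hF' hG'
    rw [map_add]
    convert this using 1
    abel
  · rintro x _ ⟨F, hF, hF'⟩
    refine ⟨-F, hF.neg, ?_⟩
    have := neg_mem hF'
    rw [map_neg]
    convert this using 1
    abel

/-- The homogeneous components of the product with a variable. -/
private theorem homogeneousComponent_X_mul (j : Fin J) (F : MvPolynomial (Fin J) C) (d : ℕ) :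
    MvPolynomial.homogeneousComponent (d + 1) (MvPolynomial.X j * F) =
      MvPolynomial.X j * MvPolynomial.homogeneousComponent d F := by
  conv_lhs => rw [← MvPolynomial.sum_homogeneousComponent F]
  rw [Finset.mul_sum, map_sum]
  have h1 : ∀ i, MvPolynomial.homogeneousComponent (d + 1)
      (MvPolynomial.X j * MvPolynomial.homogeneousComponent i F) =
      if i = d then MvPolynomial.X j * MvPolynomial.homogeneousComponent d F else 0 := by
    intro i
    rw [MvPolynomial.homogeneousComponent_of_mem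
      ((MvPolynomial.isHomogeneous_X C j).mul (MvPolynomial.homogeneousComponent_isHomogeneous i F))]
    by_cases hik : i = d
    · subst hik
      rw [if_pos (by omega), if_pos rfl]
    · rw [if_neg (by omega), if_neg hik]
  simp_rw [h1]
  rw [Finset.sum_ite_eq']
  split_ifs with hk
  · rfl
  · rw [MvPolynomial.homogeneousComponent_eq_zero d F (by simpa using hk), mul_zero]

private theorem symIdeal_C_mul (L : Ideal R) (c : C) (F : MvPolynomial (Fin J) C)
    (hF : ∀ d, ∃ x ∈ L, x - Th a z (MvPolynomial.homogeneousComponent d F) ∈ Dlt a z d) :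
    ∀ d, ∃ x ∈ L, x - Th a z (MvPolynomial.homogeneousComponent d (MvPolynomial.C c * F)) ∈
      Dlt a z d := by
  intro d
  obtain ⟨x, hx, hx'⟩ := hF d
  refine ⟨a c * x, L.mul_mem_left _ hx, ?_⟩
  rw [MvPolynomial.homogeneousComponent_C_mul, Th_C_mul, ← mul_sub]
  exact smul_mem_Dlt _ hx'

private theorem symIdeal_X_mul (hr : Rel a z) (L : Ideal R) (j : Fin J)
    (F : MvPolynomial (Fin J) C)
    (hF : ∀ d, ∃ x ∈ L, x - Th a z (MvPolynomial.homogeneousComponent d F) ∈ Dlt a z d) :
    ∀ d, ∃ x ∈ L, x - Th a z (MvPolynomial.homogeneousComponent d (MvPolynomial.X j * F)) ∈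
      Dlt a z d := by
  intro d
  cases d with
  | zero =>
    refine ⟨0, L.zero_mem, ?_⟩
    rw [MvPolynomial.homogeneousComponent_zero]
    have : MvPolynomial.coeff 0 (MvPolynomial.X j * F) = 0 := by
      rw [← MvPolynomial.constantCoeff_eq, map_mul, MvPolynomial.constantCoeff_X, zero_mul]
    rw [this, MvPolynomial.C_0, map_zero, sub_zero]
    exact AddSubgroup.zero_mem _
  | succ d =>
    obtain ⟨x, hx, hx'⟩ := hF d
    refine ⟨z j * x, L.mul_mem_left _ hx, ?_⟩
    rw [homogeneousComponent_X_mul]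
    have e : z j * x - Th a z (MvPolynomial.X j * MvPolynomial.homogeneousComponent d F) =
        z j * (x - Th a z (MvPolynomial.homogeneousComponent d F)) +
        (z j * Th a z (MvPolynomial.homogeneousComponent d F) -
          Th a z (MvPolynomial.X j * MvPolynomial.homogeneousComponent d F)) := by
      noncomm_ring
    rw [e]
    exact add_mem (z_mul_mem_Dlt hr j hx')
      (Th_X_mul hr j _ (MvPolynomial.homogeneousComponent_isHomogeneous d F))

private theorem symIdeal_add (L : Ideal R) (F G : MvPolynomial (Fin J) C)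
    (hF : ∀ d, ∃ x ∈ L, x - Th a z (MvPolynomial.homogeneousComponent d F) ∈ Dlt a z d)
    (hG : ∀ d, ∃ x ∈ L, x - Th a z (MvPolynomial.homogeneousComponent d G) ∈ Dlt a z d) :
    ∀ d, ∃ x ∈ L, x - Th a z (MvPolynomial.homogeneousComponent d (F + G)) ∈ Dlt a z d := by
  intro d
  obtain ⟨x, hx, hx'⟩ := hF d
  obtain ⟨y, hy, hy'⟩ := hG d
  refine ⟨x + y, L.add_mem hx hy, ?_⟩
  rw [map_add, map_add]
  convert add_mem hx' hy' using 1
  abel

private theorem symIdeal_mul (hr : Rel a z) (L : Ideal R) (p : MvPolynomial (Fin J) C) :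
    ∀ F : MvPolynomial (Fin J) C,
    (∀ d, ∃ x ∈ L, x - Th a z (MvPolynomial.homogeneousComponent d F) ∈ Dlt a z d) →
    ∀ d, ∃ x ∈ L, x - Th a z (MvPolynomial.homogeneousComponent d (p * F)) ∈ Dlt a z d := by
  induction p using MvPolynomial.induction_on with
  | C c => exact fun F hF => symIdeal_C_mul L c F hF
  | add p q hp hq =>
    intro F hF
    rw [add_mul]
    exact symIdeal_add L _ _ (hp F hF) (hq F hF)
  | mul_X p j hp =>
    intro F hF
    rw [mul_assoc]
    exact hp _ (symIdeal_X_mul hr L j F hF)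

/-- The ideal of symbols of a left ideal `L`. Hint for `smul_mem'`: `MvPolynomial.induction_on` for the
multiplier `p`; the multiplier `C c` by `Th_C_mul` and `homogeneousComponent (C c * F)`; the
multiplier `X j` by `Th_X_mul` (`homogeneousComponent (d+1) (X j * F) = X j * homogeneousComponent d F`
and the component of degree zero of `X j * F` is zero: use `x = 0`). -/
noncomputable def symIdeal (hr : Rel a z) (L : Ideal R) : Ideal (MvPolynomial (Fin J) C) where
  carrier := {F | ∀ d, ∃ x ∈ L, x - Th a z (MvPolynomial.homogeneousComponent d F) ∈ Dlt a z d}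
  zero_mem' := fun d => ⟨0, L.zero_mem, by simp⟩
  add_mem' := by
    intro F G hF hG d
    obtain ⟨x, hx, hx'⟩ := hF d
    obtain ⟨y, hy, hy'⟩ := hG d
    refine ⟨x + y, L.add_mem hx hy, ?_⟩
    rw [map_add, map_add]
    have : x + y - (Th a z (MvPolynomial.homogeneousComponent d F) +
        Th a z (MvPolynomial.homogeneousComponent d G)) =
        (x - Th a z (MvPolynomial.homogeneousComponent d F)) +
          (y - Th a z (MvPolynomial.homogeneousComponent d G)) := by abel
    rw [this]
    exact AddSubgroup.add_mem _ hx' hy'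
  smul_mem' := fun p F hF => symIdeal_mul hr L p F hF

theorem mem_symIdeal (hr : Rel a z) (L : Ideal R) (F : MvPolynomial (Fin J) C) :
    F ∈ symIdeal hr L ↔
      ∀ d, ∃ x ∈ L, x - Th a z (MvPolynomial.homogeneousComponent d F) ∈ Dlt a z d := Iff.rfl

end FilBSec

section FilCSec

open scoped BigOperators

variable {C : Type u} [CommRing C] [IsNoetherianRing C] {R : Type w} [Ring R] {J : ℕ}
  {a : C →+* R} {z : Fin J → R}

/-- Ascending chains of left ideals stabilise on the operators of finite order. Hint: the chain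
`symIdeal hr (L n)` stabilises (`monotone_stabilizes_iff_noetherian`, `MvPolynomial` is noetherian).
Then by induction on `d`: `x ∈ L n`, `x ∈ Dlt d` imply `x ∈ L n₀` (for `n ≥ n₀`): by
`exists_symbol` a homogeneous `F` with `x - Th F ∈ Dlt d`; `F ∈ symIdeal (L n) = symIdeal (L n₀)`
(`homogeneousComponent` of a homogeneous polynomial), which gives `x' ∈ L n₀` with the same
symbol, and `x - x' ∈ L n ∩ Dlt d`. -/
theorem filtered_stabilise (hr : Rel a z) (L : ℕ → Ideal R) (hL : Monotone L) :
    ∃ n₀, ∀ n, n₀ ≤ n → ∀ d, ∀ x ∈ Dlt a z d, x ∈ L n → x ∈ L n₀ := by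
  let S : ℕ →o Submodule (MvPolynomial (Fin J) C) (MvPolynomial (Fin J) C) :=
    ⟨fun n => symIdeal hr (L n), by
      intro m n hmn F hF
      have hF' := (mem_symIdeal hr (L m) F).mp hF
      refine (mem_symIdeal hr (L n) F).mpr fun d => ?_
      obtain ⟨x, hx, hx'⟩ := hF' d
      exact ⟨x, hL hmn hx, hx'⟩⟩
  obtain ⟨n₀, hn₀⟩ := monotone_stabilizes_iff_noetherian.mpr
    (inferInstance : IsNoetherian (MvPolynomial (Fin J) C) (MvPolynomial (Fin J) C)) S
  refine ⟨n₀, fun n hn d => ?_⟩
  induction d with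
  | zero =>
    intro x hx _
    rw [Dlt_zero x hx]
    exact (L n₀).zero_mem
  | succ d ih =>
    intro x hx hxn
    obtain ⟨F, hF, hF'⟩ := exists_symbol hr hx
    have h1 : F ∈ symIdeal hr (L n) := by
      rw [mem_symIdeal]
      intro e
      rw [MvPolynomial.homogeneousComponent_of_mem hF]
      by_cases he : e = d
      · subst he
        rw [if_pos rfl]
        exact ⟨x, hxn, hF'⟩
      · rw [if_neg he]
        refine ⟨0, (L n).zero_mem, ?_⟩
        rw [map_zero, sub_zero]
        exact AddSubgroup.zero_mem _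
    have h2 : F ∈ symIdeal hr (L n₀) := by
      have h3 : symIdeal hr (L n₀) = symIdeal hr (L n) := hn₀ n hn
      rw [h3]
      exact h1
    obtain ⟨x', hx', hx''⟩ := (mem_symIdeal hr (L n₀) F).mp h2 d
    rw [MvPolynomial.homogeneousComponent_of_mem hF, if_pos rfl] at hx''
    have h4 : x - x' ∈ Dlt a z d := by
      have := sub_mem hF' hx''
      convert this using 1
      abel
    have h5 := ih (x - x') h4 ((L n).sub_mem hxn (hL hn hx'))
    have h6 := (L n₀).add_mem h5 hx'
    rwa [sub_add_cancel] at h6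

end FilCSec

section FinGenSec

open scoped BigOperators

section abs

variable {C S : Type*} [CommRing C] [CommRing S] (φ : C →+* S) (y : S) (P : Polynomial C)

/-- the elements which are polynomials in `y` modulo the value of `P` -/
private noncomputable def fgT : Subring S :=
  ((Ideal.Quotient.mk (Ideal.span {Polynomial.eval₂ φ y P})).comp
    (Polynomial.eval₂RingHom φ y)).range.comap (Ideal.Quotient.mk (Ideal.span {Polynomial.eval₂ φ y P}))

private theorem mem_fgT (G : S) :
    G ∈ fgT φ y P ↔ ∃ Q, Polynomial.eval₂ φ y P ∣ G - Polynomial.eval₂ φ y Q := by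
  constructor
  · rintro ⟨Q, hQ⟩
    refine ⟨Q, ?_⟩
    rw [← Ideal.mem_span_singleton, ← Ideal.Quotient.eq]
    exact hQ.symm
  · rintro ⟨Q, hQ⟩
    refine ⟨Q, ?_⟩
    rw [← Ideal.mem_span_singleton, ← Ideal.Quotient.eq] at hQ
    exact hQ.symm

private theorem fg_val_mem (Q : Polynomial C) : Polynomial.eval₂ φ y Q ∈ fgT φ y P :=
  (mem_fgT φ y P _).2 ⟨Q, by rw [sub_self]; exact dvd_zero _⟩

private theorem fg_inv_mem (y' : S) (hy : y * y' = 1) (h : IsUnit (P.coeff 0)) :
    y' ∈ fgT φ y P := by
  obtain ⟨u, hu⟩ := h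
  rw [mem_fgT]
  refine ⟨-(P.divX * Polynomial.C (↑u⁻¹ : C)), ?_⟩
  have h1 : Polynomial.eval₂ φ y P =
      Polynomial.eval₂ φ y P.divX * y + φ (P.coeff 0) := by
    conv_lhs => rw [← Polynomial.divX_mul_X_add P]
    rw [Polynomial.eval₂_add, Polynomial.eval₂_mul, Polynomial.eval₂_X, Polynomial.eval₂_C]
  have h3 : φ (P.coeff 0) * φ (↑u⁻¹ : C) = 1 := by
    rw [← map_mul, ← hu, Units.mul_inv, map_one]
  refine ⟨y' * φ (↑u⁻¹ : C), ?_⟩
  rw [Polynomial.eval₂_neg, Polynomial.eval₂_mul, Polynomial.eval₂_C, h1]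
  linear_combination (-Polynomial.eval₂ φ y P.divX * φ (↑u⁻¹ : C)) * hy - y' * h3

private theorem fg_final (n : ℕ) (hP : P.Monic) (hd : P.degree ≤ (n : WithBot ℕ)) (G : S)
    (h : G ∈ fgT φ y P) : ∃ b : Fin n → C,
    Polynomial.eval₂ φ y P ∣ G - ∑ c, φ (b c) * y ^ (c : ℕ) := by
  rw [mem_fgT] at h
  obtain ⟨Q, hQ⟩ := h
  refine ⟨fun c => (Q %ₘ P).coeff c, ?_⟩
  have h1 : ∑ c : Fin n, φ ((Q %ₘ P).coeff c) * y ^ (c : ℕ) =
      Polynomial.eval₂ φ y (Q %ₘ P) := by
    conv_rhs => rw [← Polynomial.sum_modByMonic_coeff hP hd]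
    rw [Polynomial.eval₂_finsetSum]
    exact Finset.sum_congr rfl fun c _ => (Polynomial.eval₂_monomial φ y).symm
  have h2 : Polynomial.eval₂ φ y (Q %ₘ P) =
      Polynomial.eval₂ φ y Q - Polynomial.eval₂ φ y P * Polynomial.eval₂ φ y (Q /ₘ P) := by
    rw [eq_sub_iff_add_eq, ← Polynomial.eval₂_mul, ← Polynomial.eval₂_add,
      Polynomial.modByMonic_add_div Q P]
  rw [h1, h2, sub_sub_eq_add_sub, add_sub_right_comm]
  exact dvd_add hQ (Dvd.intro _ rfl)

end abs

variable {k : Type u} [CommRing k] {Γ : Type} [AddCommMonoid Γ] [Expo Γ] {r : ℕ}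

private noncomputable def fgP (k : Type u) [CommRing k] (Γ : Type) [AddCommMonoid Γ] [Expo Γ]
    (r N : ℕ) : Polynomial (B k Γ (Fin r)) :=
  (∏ i : Fin r, (Polynomial.X - Polynomial.C (X i : B k Γ (Fin r)))) ^ N

private theorem fgP_monic (N : ℕ) : (fgP k Γ r N).Monic :=
  (Polynomial.monic_prod_of_monic _ _ fun _ _ => Polynomial.monic_X_sub_C _).pow N

private theorem fgP_degree (N : ℕ) : (fgP k Γ r N).degree ≤ ((r * N : ℕ) : WithBot ℕ) := by
  refine Polynomial.degree_le_of_natDegree_le ?_
  unfold fgP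
  refine Polynomial.natDegree_pow_le.trans ?_
  rw [mul_comm r N]
  refine Nat.mul_le_mul_left N ?_
  refine (Polynomial.natDegree_prod_le _ _).trans ?_
  refine (Finset.sum_le_card_nsmul _ _ 1 fun i _ => Polynomial.natDegree_X_sub_C_le _).trans ?_
  simp

/-- the coefficient map -/
private noncomputable def fgphi (k : Type u) [CommRing k] (Γ : Type) [AddCommMonoid Γ] (r : ℕ) :
    B k Γ (Fin r) →+* B k Γ (Option (Fin r)) :=
  ((pf some : B k Γ (Fin r) →ₐ[k] B k Γ (Option (Fin r))) :
    B k Γ (Fin r) →+* B k Γ (Option (Fin r)))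

omit [Expo Γ] in
private theorem fgphi_apply (b : B k Γ (Fin r)) : fgphi k Γ r b = pf some b := rfl

private theorem fg_eval_P (N : ℕ) :
    Polynomial.eval₂ (fgphi k Γ r) (X none) (fgP k Γ r N) = chi k Γ r ^ N := by
  rw [fgP, Polynomial.eval₂_pow, Polynomial.eval₂_finsetProd, chi]
  refine congrArg (fun z => z ^ N) (Finset.prod_congr rfl fun i _ => ?_)
  rw [Polynomial.eval₂_sub, Polynomial.eval₂_X, Polynomial.eval₂_C, fgphi_apply, pf_X]

omit [Expo Γ] in
private theorem fg_tt_nsmul (n : ℕ) (a : Γ) : tt k (n • a) = tt k a ^ n := by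
  rw [tt, tt, mon_pow]
  rfl

/-- the inverse of a variable -/
private theorem fg_inv {ι : Type} [DecidableEq ι] (i : ι) (a' : Γ)
    (ha' : Expo.v a' = -1) : (X i : B k Γ ι) * inj i (tt k a') = 1 := by
  have h : (Expo.one : Γ) + a' = 0 := by
    apply Expo.v_inj
    rw [map_add, Expo.v_one, ha', map_zero]
    norm_num
  rw [X_eq_inj, ← map_mul, tt_mul, h, tt_zero, map_one]

private theorem fg_coeff_unit (N : ℕ) (a' : Γ) (ha' : Expo.v a' = -1) :
    IsUnit ((fgP k Γ r N).coeff 0) := by
  rw [Polynomial.coeff_zero_eq_eval_zero, fgP, Polynomial.eval_pow, Polynomial.eval_prod]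
  refine IsUnit.pow N ?_
  rw [IsUnit.prod_univ_iff]
  intro i
  rw [Polynomial.eval_sub, Polynomial.eval_X, Polynomial.eval_C, zero_sub, IsUnit.neg_iff]
  exact IsUnit.of_mul_eq_one _ (fg_inv i a' ha')

private theorem fg_tt_mem (N : ℕ) (a : Γ) :
    inj none (tt k a) ∈ fgT (fgphi k Γ r) (X none) (fgP k Γ r N) := by
  rcases le_or_gt 0 (Expo.v a) with h | h
  · have ha : a = (Expo.v a).toNat • (Expo.one : Γ) := by
      apply Expo.v_inj
      rw [map_nsmul, Expo.v_one]
      simp [h]
    rw [ha, fg_tt_nsmul, map_pow, ← X_eq_inj]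
    refine Subring.pow_mem _ ?_ _
    have h1 := fg_val_mem (fgphi k Γ r) (X none) (fgP k Γ r N) Polynomial.X
    rwa [Polynomial.eval₂_X] at h1
  · rcases (Expo.dich : (∀ a : Γ, 0 ≤ Expo.v a) ∨ Function.Surjective (Expo.v : Γ →+ ℤ)) with
      hd | hd
    · exact absurd (hd a) (not_le.mpr h)
    · obtain ⟨a', ha'⟩ := hd (-1)
      have ha : a = (-(Expo.v a)).toNat • a' := by
        apply Expo.v_inj
        rw [map_nsmul, ha']
        simp
        omega
      rw [ha, fg_tt_nsmul, map_pow]
      exact Subring.pow_mem _ (fg_inv_mem _ _ _ _ (fg_inv none a' ha')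
        (fg_coeff_unit N a' ha')) _

/-- Modulo `chi ^ N` the powers `y ^ c`, `c < r * N`, generate over the functions of `x`. -/
theorem exists_gen (r N : ℕ) : ∀ f : A k Γ, ∃ b : Fin (r * N) → B k Γ (Fin r),
    chi k Γ r ^ N ∣ inj none f - ∑ c, pf some (b c) * X none ^ (c : ℕ) := by
  intro f
  have h : inj none f ∈ fgT (fgphi k Γ r) (X none) (fgP k Γ r N) := by
    induction f using mon_induction with
    | h0 => rw [map_zero]; exact Subring.zero_mem _
    | hadd F G hF hG => rw [map_add]; exact Subring.add_mem _ hF hG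
    | hmon c α =>
      rw [mon_unit, map_smul, Algebra.smul_def]
      refine Subring.mul_mem _ ?_ (fg_tt_mem N _)
      have h1 := fg_val_mem (fgphi k Γ r) (X none) (fgP k Γ r N)
        (Polynomial.C (algebraMap k _ c))
      rw [Polynomial.eval₂_C, fgphi_apply, AlgHom.commutes] at h1
      exact h1
  have h2 := fg_final (fgphi k Γ r) (X none) (fgP k Γ r N) (r * N) (fgP_monic N) (fgP_degree N) _ h
  rw [fg_eval_P] at h2
  exact h2

end FinGenSec

section SysAccASec

open scoped BigOperators

variable {k : Type u} [CommRing k] {Γ : Type} [AddCommMonoid Γ] [Expo Γ] {r N : ℕ}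
variable {R : Type w} [Ring R] [Algebra k R]

/-- Hint: `exists_gen`, `h.loc`, `Op_smul`, `Op_apply`. -/
theorem rho_gen {act : B k Γ (Fin r) →ₐ[k] R} {rho : A k Γ →ₗ[k] R} (h : IsSys r N act rho)
    (f : A k Γ) : ∃ b : Fin (r * N) → B k Γ (Fin r),
      rho f = ∑ c : Fin (r * N), act (b c) * rho (X () ^ (c : ℕ)) := by
  obtain ⟨b, G, hG⟩ := exists_gen (k := k) (Γ := Γ) r N f
  refine ⟨b, ?_⟩
  have h1 := congrArg (Op act rho) hG
  rw [h.loc, map_sub, map_sum, sub_eq_zero] at h1
  have h2 : Op act rho (inj none f) = rho f := by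
    have := Op_apply act rho f 1
    rwa [map_one, mul_one, map_one, one_mul] at this
  rw [← h2, h1]
  refine Finset.sum_congr rfl fun c _ => ?_
  rw [Op_smul]
  congr 1
  have h3 : (X none : B k Γ (Option (Fin r))) ^ (c : ℕ) = inj none (X () ^ (c : ℕ)) := by
    rw [map_pow]
    congr 1
    exact (pf_X (k := k) (Γ := Γ) (fun _ : Unit => (none : Option (Fin r))) ()).symm
  rw [h3]
  have := Op_apply act rho (X () ^ (c : ℕ)) 1
  rwa [map_one, mul_one, map_one, one_mul] at this

private theorem sysAccA_mem {act : B k Γ (Fin r) →ₐ[k] R} {rho : A k Γ →ₗ[k] R}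
    (h : IsSys r N act rho) (f : A k Γ) : rho f ∈
      Dlt (act : B k Γ (Fin r) →+* R) (fun c : Fin (r * N) => rho (X () ^ (c : ℕ))) 2 := by
  obtain ⟨b, hb⟩ := rho_gen h f
  rw [hb]
  refine AddSubgroup.sum_mem _ fun c _ => ?_
  have := mem_Dlt (a := (act : B k Γ (Fin r) →+* R))
    (z := fun c : Fin (r * N) => rho (X () ^ (c : ℕ))) (d := 2) (b c) [c] (by simp)
  simpa using this

theorem sys_rel {act : B k Γ (Fin r) →ₐ[k] R} {rho : A k Γ →ₗ[k] R} (h : IsSys r N act rho) :
    Rel (act : B k Γ (Fin r) →+* R) (fun c : Fin (r * N) => rho (X () ^ (c : ℕ))) where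
  ra := fun j c => ⟨del (X () ^ (j : ℕ)) c, h.comm _ _⟩
  rz := fun i j => by
    rw [h.lie]
    exact sysAccA_mem h _

/-- Hint: `TensorAlgebra.induction`, `rho_gen`, `mul_mem_Dlt`. -/
theorem lift_mem_Dlt {act : B k Γ (Fin r) →ₐ[k] R} {rho : A k Γ →ₗ[k] R} (h : IsSys r N act rho)
    (p : TensorAlgebra k (A k Γ)) :
    ∃ d, TensorAlgebra.lift k rho p ∈
      Dlt (act : B k Γ (Fin r) →+* R) (fun c : Fin (r * N) => rho (X () ^ (c : ℕ))) d := by
  refine TensorAlgebra.induction (C := fun p => ∃ d, TensorAlgebra.lift k rho p ∈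
      Dlt (act : B k Γ (Fin r) →+* R) (fun c : Fin (r * N) => rho (X () ^ (c : ℕ))) d)
      ?_ ?_ ?_ ?_ p
  · intro c
    refine ⟨1, ?_⟩
    have := mem_Dlt (a := (act : B k Γ (Fin r) →+* R))
      (z := fun c : Fin (r * N) => rho (X () ^ (c : ℕ))) (d := 1) (algebraMap k _ c) [] (by simp)
    rw [List.map_nil, List.prod_nil, mul_one] at this
    rw [AlgHom.commutes]
    have h2 : (act : B k Γ (Fin r) →+* R) (algebraMap k _ c) = algebraMap k R c :=
      act.commutes c
    rwa [h2] at this
  · intro x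
    refine ⟨2, ?_⟩
    rw [TensorAlgebra.lift_ι_apply]
    exact sysAccA_mem h x
  · rintro x y ⟨d, hd⟩ ⟨d', hd'⟩
    refine ⟨d + d' + 1, ?_⟩
    rw [map_mul]
    exact mul_mem_Dlt (sys_rel h) (Dlt_mono (Nat.le_succ d) hd) (Dlt_mono (Nat.le_succ d') hd')
  · rintro x y ⟨d, hd⟩ ⟨d', hd'⟩
    refine ⟨max d d', ?_⟩
    rw [map_add]
    exact AddSubgroup.add_mem _ (Dlt_mono (le_max_left _ _) hd) (Dlt_mono (le_max_right _ _) hd')

end SysAccASec

section SysAccBSec

open scoped BigOperators

variable {k : Type u} [CommRing k] {Γ : Type} [AddCommMonoid Γ] [Expo Γ] {r N : ℕ}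
variable {R : Type w} [Ring R] [Algebra k R]

/-- ACC in one algebra -/
theorem sys_stabilise [IsNoetherianRing k] {act : B k Γ (Fin r) →ₐ[k] R}
    {rho : A k Γ →ₗ[k] R} (h : IsSys r N act rho) (L : ℕ → Ideal R) (hL : Monotone L) :
    ∃ n₀, ∀ n, n₀ ≤ n → ∀ p, TensorAlgebra.lift k rho p ∈ L n →
      TensorAlgebra.lift k rho p ∈ L n₀ := by
  have : IsNoetherianRing (B k Γ (Fin r)) := B_noetherian
  obtain ⟨n₀, hn₀⟩ := filtered_stabilise (sys_rel h) L hL
  refine ⟨n₀, fun n hn p hp => ?_⟩
  obtain ⟨d, hd⟩ := lift_mem_Dlt h p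
  exact hn₀ n hn d _ hd hp

/-- ACC for sequences of systems. Hint: `R = ∀ n, Module.End k (V n)`, `act = Pi.algHom ...`,
`rho = LinearMap.pi rho`; it is a system in `R` (componentwise; `Op` in the product is the family of the
`Op`: `lext`), `L n = {D | ∀ m ≥ n, D m = 0}` is a left ideal, increasing in `n`, and
`TensorAlgebra.lift (LinearMap.pi rho) p` has components `TensorAlgebra.lift (rho n) p`. -/
theorem sys_acc [IsNoetherianRing k] (V : ℕ → Type w) [∀ n, AddCommGroup (V n)]
    [∀ n, Module k (V n)] (act : ∀ n, B k Γ (Fin r) →ₐ[k] Module.End k (V n))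
    (rho : ∀ n, A k Γ →ₗ[k] Module.End k (V n)) (h : ∀ n, IsSys r N (act n) (rho n))
    (hmono : ∀ n m p, n ≤ m → TensorAlgebra.lift k (rho n) p = 0 →
      TensorAlgebra.lift k (rho m) p = 0) :
    ∃ n₀, ∀ n, n₀ ≤ n → ∀ p, TensorAlgebra.lift k (rho n) p = 0 →
      TensorAlgebra.lift k (rho n₀) p = 0 := by
  let act' : B k Γ (Fin r) →ₐ[k] (∀ n, Module.End k (V n)) := AlgHom.pi act
  let rho' : A k Γ →ₗ[k] (∀ n, Module.End k (V n)) := LinearMap.pi rho
  have hOp : ∀ n F, Op act' rho' F n = Op (act n) (rho n) F := by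
    intro n F
    have : (LinearMap.proj n : (∀ n, Module.End k (V n)) →ₗ[k] Module.End k (V n)) ∘ₗ
        Op act' rho' = Op (act n) (rho n) := by
      refine lext fun α => ?_
      rw [LinearMap.comp_apply, Op_mon, Op_mon]
      rfl
    exact congrArg (fun f => f F) this
  have hsys : IsSys r N act' rho' :=
    { lie := fun f g => by
        funext n
        exact (h n).lie f g
      comm := fun f b => by
        funext n
        exact (h n).comm f b
      loc := fun F => by
        funext n
        rw [hOp]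
        exact (h n).loc F }
  have hlift : ∀ n p, TensorAlgebra.lift k rho' p n = TensorAlgebra.lift k (rho n) p := by
    intro n p
    have : (Pi.evalAlgHom k (fun n => Module.End k (V n)) n).comp (TensorAlgebra.lift k rho') =
        TensorAlgebra.lift k (rho n) := by
      refine TensorAlgebra.hom_ext (LinearMap.ext fun x => ?_)
      change TensorAlgebra.lift k rho' (TensorAlgebra.ι k x) n =
        TensorAlgebra.lift k (rho n) (TensorAlgebra.ι k x)
      rw [TensorAlgebra.lift_ι_apply, TensorAlgebra.lift_ι_apply]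
      rfl
    exact congrArg (fun f => f p) this
  let L : ℕ → Ideal (∀ n, Module.End k (V n)) := fun n =>
    { carrier := {D | ∀ m, n ≤ m → D m = 0}
      zero_mem' := fun m _ => rfl
      add_mem' := fun {a b} ha hb m hm => by
        rw [Pi.add_apply, ha m hm, hb m hm, add_zero]
      smul_mem' := fun c x hx m hm => by
        rw [smul_eq_mul, Pi.mul_apply, hx m hm, mul_zero] }
  have hL : Monotone L := fun n m hnm D hD j hj => hD j (hnm.trans hj)
  obtain ⟨n₀, hn₀⟩ := sys_stabilise hsys L hL
  refine ⟨n₀, fun n hn p hp => ?_⟩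
  have h1 : TensorAlgebra.lift k rho' p ∈ L n := by
    intro m hm
    rw [hlift]
    exact hmono n m p hm hp
  have h2 := hn₀ n hn p h1 n₀ (le_refl _)
  rwa [hlift] at h2

end SysAccBSec

end W94
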