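import Mathlib

universe u

namespace W94

/-!
The definitions used in the statement on primitive ideals (MP_940f41).
-/

section StatementSec

/-- An ideal is (left) primitive if it is the annihilator of a simple left module. -/
def IsPrimitiveIdeal (U : Type u) [Ring U] (P : Ideal U) : Prop :=
  ∃ (M : Type u) (_ : AddCommGroup M) (_ : Module U M),
    IsSimpleModule U M ∧ Module.annihilator U M = P

/-- The ascending chain condition on primitive ideals: every ascending chain of primitive ideals
is eventually constant. -/
def AccPrimitive (U : Type u) [Ring U] : Prop :=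
  ∀ P : ℕ → Ideal U, (∀ n, P n ≤ P (n + 1)) → (∀ n, IsPrimitiveIdeal U (P n)) →
    ∃ n₀, ∀ n, n₀ ≤ n → P n = P n₀

/-- `b` is a basis `e_n` (`n : ℤ`, index `some n`), `c` (index `none`) of the Lie algebra `L`, with
`c` central and `[e_i, e_j] = (j - i) e_{i+j} + δ_{i+j,0} (i^3 - i)/12 c`: the Virasoro algebra. -/
structure IsVirasoro {k : Type u} [Field k] {L : Type u} [LieRing L] [LieAlgebra k L]
    (b : Module.Basis (Option ℤ) k L) : Prop where
  central : ∀ x : L, ⁅b none, x⁆ = 0
  bracket : ∀ i j : ℤ, ⁅b (some i), b (some j)⁆ =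
    ((j - i : ℤ) : k) • b (some (i + j)) +
      (if i + j = 0 then ((i ^ 3 - i : ℤ) : k) / 12 else 0) • b none

end StatementSec

end W94
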