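import Pool.Agent.LibWitt94.ClaimA
import Pool.Agent.LibWitt94.HMod
import Pool.Agent.LibWitt94.Noeth
import Pool.Agent.LibWitt94.Statement
import Pool.Agent.LibWitt94.Words

universe u w

namespace W94

section WMainASec

open scoped BigOperators

variable {k : Type u} [Field k] [CharZero k] {Γ : Type} [AddCommMonoid Γ] [Expo Γ]

/-- If one of the kernels contains an element that does not vanish in the product, the modules of the
chain are local from some point on, with the same constants. Hint: `R = ∀ n, Module.End k (M n)`,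
`eR = LinearMap.pi e` is a Lie map; `lift_mem_WSpan`, `sym_rep` (its bracket is
`eR (f Dt h - h Dt f)`), take the largest `s` with `F s ≠ 0`; project to `n₀` (`map_EE`, or
componentwise) and use `claimA` with `R = Module.End k (M n₀)`; then
`E s (e n₀) (Delta ^ N * F) = TensorAlgebra.lift (e n₀) (E s (TensorAlgebra.ι k) (Delta ^ N * F))`
(`map_EE`) is zero, so it is zero for all larger `n` by `hmono`. -/
theorem exists_loc (M : ℕ → Type u) [∀ n, AddCommGroup (M n)] [∀ n, Module k (M n)]
    (e : ∀ n, A k Γ →ₗ[k] Module.End k (M n)) (hl : ∀ n, LieMap (e n))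
    (hmono : ∀ n m p, n ≤ m → TensorAlgebra.lift k (e n) p = 0 → TensorAlgebra.lift k (e m) p = 0)
    (n₀ : ℕ) (p : TensorAlgebra k (A k Γ)) (hp : TensorAlgebra.lift k (e n₀) p = 0)
    (n₁ : ℕ) (hp1 : TensorAlgebra.lift k (e n₁) p ≠ 0) :
    ∃ s N, ∀ n, n₀ ≤ n → Loc s N (e n) := by
  classical
  set eR : A k Γ →ₗ[k] (∀ n, Module.End k (M n)) := LinearMap.pi e with heR
  have hlR : LieMap eR := by
    intro f h
    funext n
    exact hl n f h
  have hlift : ∀ n (q : TensorAlgebra k (A k Γ)), (TensorAlgebra.lift k eR q) n =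
      TensorAlgebra.lift k (e n) q := by
    intro n q
    have h1 : (Pi.evalAlgHom k (fun n => Module.End k (M n)) n).comp (TensorAlgebra.lift k eR) =
        TensorAlgebra.lift k (e n) := by
      refine TensorAlgebra.hom_ext ?_
      ext f
      simp [heR]
    exact DFunLike.congr_fun h1 q
  have hQ : ∀ n : ℕ, n ≠ 0 → IsUnit (n : k) := fun n h => by
    rw [isUnit_iff_ne_zero]; exact_mod_cast h
  have hbr : ∀ f h, eR f * eR h - eR h * eR f ∈ WSpan k (Set.range eR) 1 := by
    intro f h
    rw [hlR f h]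
    refine Submodule.subset_span ⟨[eR (f * Dt h - h * Dt f)], le_rfl, ?_, by simp⟩
    intro y hy
    rw [List.mem_singleton] at hy
    exact ⟨_, hy.symm⟩
  obtain ⟨d, hd⟩ := lift_mem_WSpan eR p
  obtain ⟨F, hsym, hF⟩ := sym_rep hQ eR hbr d _ hd
  have hex : ∃ j, j ≤ d ∧ F j ≠ 0 := by
    by_contra hcon
    push Not at hcon
    apply hp1
    rw [← hlift n₁ p, hF, Finset.sum_eq_zero]
    · rfl
    · intro j hj
      rw [hcon j (by have := Finset.mem_range.1 hj; omega), map_zero]
  obtain ⟨j₀, hj₀, hFj₀⟩ := hex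
  -- the largest index
  obtain ⟨s, ⟨hsd, hFs⟩, hmax⟩ : ∃ s, (s ≤ d ∧ F s ≠ 0) ∧ ∀ j, s < j → j ≤ d → F j = 0 := by
    refine ⟨Nat.findGreatest (fun j => F j ≠ 0) d, ⟨Nat.findGreatest_le _, ?_⟩, ?_⟩
    · exact Nat.findGreatest_spec (P := fun j => F j ≠ 0) hj₀ hFj₀
    · intro j hj hjd
      by_contra hne
      exact Nat.findGreatest_is_greatest (P := fun j => F j ≠ 0) hj hjd hne
  have hsum : TensorAlgebra.lift k eR p = ∑ j ∈ Finset.range (s + 1), E j eR (F j) := by
    rw [hF]
    symm
    refine Finset.sum_subset (Finset.range_mono (by omega)) ?_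
    intro j hj hj'
    rw [Finset.mem_range] at hj hj'
    rw [hmax j (by omega) (by omega), map_zero]
  have h0 : ∑ j ∈ Finset.range (s + 1), E j (e n₀) (F j) = 0 := by
    rw [← hp, ← hlift n₀ p, hsum]
    have h2 : (∑ j ∈ Finset.range (s + 1), E j eR (F j)) n₀ =
        Pi.evalAlgHom k (fun n => Module.End k (M n)) n₀
          (∑ j ∈ Finset.range (s + 1), E j eR (F j)) := rfl
    rw [h2, map_sum]
    refine Finset.sum_congr rfl fun j _ => ?_
    rw [map_EE]
    rfl
  obtain ⟨N, hN⟩ := claimA (fun c x hcx => smul_eq_zero.1 hcx) (hl n₀) s F h0 hFs (hsym s)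
  refine ⟨s, N, fun n hn G => ?_⟩
  have hE : ∀ m, TensorAlgebra.lift k (e m) (E s (TensorAlgebra.ι k) (Delta k Γ s ^ N * G)) =
      E s (e m) (Delta k Γ s ^ N * G) := by
    intro m
    rw [map_EE]
    have h3 : (TensorAlgebra.lift k (e m)).toLinearMap ∘ₗ TensorAlgebra.ι k = e m :=
      TensorAlgebra.ι_comp_lift (e m)
    rw [h3]
  rw [← hE n]
  apply hmono n₀ n _ hn
  rw [hE n₀]
  exact hN G

end WMainASec

section WMainBSec

open scoped BigOperators

variable {k : Type u} [Field k] [CharZero k] {Γ : Type} [AddCommMonoid Γ] [Expo Γ]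

/-- A zero map in the chain: the kernel is the augmentation ideal, which is maximal. Hint: for
`p : TensorAlgebra k (A k Γ)` with `c = TensorAlgebra.algebraMapInv p`, `lift 0 q = c q • 1`, so
`p - algebraMap c` is in the kernel of `lift (e n)`, hence in that of `lift (e m)`; if
`lift (e m) p = 0` then `c • 1 = 0` in `End (M m)`, so `c = 0`. -/
theorem zero_case (M : ℕ → Type u) [∀ n, AddCommGroup (M n)] [∀ n, Module k (M n)]
    (e : ∀ n, A k Γ →ₗ[k] Module.End k (M n)) (hs : ∀ n, Simple (e n))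
    (hmono : ∀ n m p, n ≤ m → TensorAlgebra.lift k (e n) p = 0 → TensorAlgebra.lift k (e m) p = 0)
    (n : ℕ) (h0 : e n = 0) (m : ℕ) (hm : n ≤ m) (p : TensorAlgebra k (A k Γ))
    (hp : TensorAlgebra.lift k (e m) p = 0) : TensorAlgebra.lift k (e n) p = 0 := by
  have hlift : TensorAlgebra.lift k (e n) =
      (Algebra.ofId k (Module.End k (M n))).comp TensorAlgebra.algebraMapInv := by
    apply TensorAlgebra.hom_ext
    refine LinearMap.ext fun x => ?_
    simp [h0, TensorAlgebra.algebraMapInv]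
  have hlift0 : ∀ q : TensorAlgebra k (A k Γ), TensorAlgebra.lift k (e n) q =
      algebraMap k (Module.End k (M n)) (TensorAlgebra.algebraMapInv q) := by
    intro q
    rw [hlift]
    rfl
  have h1 : TensorAlgebra.lift k (e n)
      (p - algebraMap k _ (TensorAlgebra.algebraMapInv p)) = 0 := by
    rw [hlift0]
    simp
  have h2 := hmono n m _ hm h1
  rw [map_sub, hp, zero_sub, neg_eq_zero, AlgHom.commutes] at h2
  have := (hs m).nontriv
  have hc : (TensorAlgebra.algebraMapInv p : k) = 0 := by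
    by_contra hc
    obtain ⟨x, hx⟩ := exists_ne (0 : M m)
    have h3 := congrArg (fun f : Module.End k (M m) => f x) h2
    simp only [Module.algebraMap_end_apply, LinearMap.zero_apply] at h3
    rcases smul_eq_zero.mp h3 with h4 | h4
    · exact hc h4
    · exact hx h4
  rw [hlift0, hc, map_zero]

end WMainBSec

section WMainCSec

open scoped BigOperators

variable {k : Type u} [Field k] [CharZero k] {Γ : Type} [AddCommMonoid Γ] [Expo Γ]

/-- The chain condition for local modules. Hint: `stepD` (with `w = u`) gives `N'` and for every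
`n ≥ n₀` some `r n < s` with `Loc (r n + 1) N' (e n)` and `¬ Loc (r n) K (e n)`; `cover_thm` gives
`V n`, `act n`, `rho n`. Some value `r` is taken infinitely often (pigeonhole, `Fin s` is finite;
`Filter.extraction_of_frequently_atTop`): a strictly increasing `φ` with `r (φ i) = r`, `φ i ≥ n₀`.
`sys_acc` for `V (φ i)` gives `i₀`; take `φ i₀`. -/
theorem acc_of_loc (M : ℕ → Type u) [∀ n, AddCommGroup (M n)] [∀ n, Module k (M n)]
    (e : ∀ n, A k Γ →ₗ[k] Module.End k (M n)) (hl : ∀ n, LieMap (e n)) (hs : ∀ n, Simple (e n))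
    (hmono : ∀ n m p, n ≤ m → TensorAlgebra.lift k (e n) p = 0 → TensorAlgebra.lift k (e m) p = 0)
    (hne : ∀ n, e n ≠ 0) (n₀ s N : ℕ) (hloc : ∀ n, n₀ ≤ n → Loc s N (e n)) :
    ∃ n₁, ∀ n, n₁ ≤ n → ∀ p, TensorAlgebra.lift k (e n) p = 0 →
      TensorAlgebra.lift k (e n₁) p = 0 := by
  classical
  obtain ⟨N', hN'⟩ := stepD.{u, u} (k := k) (Γ := Γ) s N
  have hex : ∀ i : ℕ, ∃ r, 1 ≤ r ∧ r < s ∧ Loc (r + 1) N' (e (n₀ + i)) ∧
      ∀ K, ¬ Loc r K (e (n₀ + i)) := fun i =>
    hN' (M (n₀ + i)) (e (n₀ + i)) (hl _) (hs _) (hne _) (hloc _ (Nat.le_add_right _ _))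
  choose r _ hr2 hr3 hr4 using hex
  -- pigeonhole
  obtain ⟨r₀, hr₀⟩ : ∃ r₀, ∃ᶠ i in Filter.atTop, r i = r₀ := by
    obtain ⟨y, hy⟩ := Finite.exists_infinite_fiber (fun i : ℕ => (⟨r i, hr2 i⟩ : Fin s))
    refine ⟨y, ?_⟩
    rw [Nat.frequently_atTop_iff_infinite]
    have h1 := Set.infinite_coe_iff.1 hy
    refine h1.mono ?_
    intro i hi
    have h2 : (⟨r i, hr2 i⟩ : Fin s) = y := hi
    exact congrArg Fin.val h2
  obtain ⟨φ, hφ, hφr⟩ := Filter.extraction_of_frequently_atTop hr₀
  have hcov : ∀ i : ℕ, ∃ (V : Type u) (_ : AddCommGroup V) (_ : Module k V)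
      (act : B k Γ (Fin r₀) →ₐ[k] Module.End k V) (rho : A k Γ →ₗ[k] Module.End k V),
      IsSys r₀ (max N' 2) act rho ∧
      ∀ p, TensorAlgebra.lift k rho p = 0 ↔ TensorAlgebra.lift k (e (n₀ + φ i)) p = 0 := by
    intro i
    refine cover_thm (hl _) (hs _) ?_ ?_
    · have h1 := hr3 (φ i)
      rwa [hφr i] at h1
    · have h1 := hr4 (φ i)
      rwa [hφr i] at h1
  choose V iV1 iV2 act rho hsys hiff using hcov
  have hm : ∀ n m p, n ≤ m → TensorAlgebra.lift k (rho n) p = 0 →
      TensorAlgebra.lift k (rho m) p = 0 := by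
    intro n m p hnm hp
    rw [hiff] at hp ⊢
    exact hmono _ _ p (Nat.add_le_add_left (hφ.monotone hnm) n₀) hp
  obtain ⟨i₀, hi₀⟩ := sys_acc V act rho hsys hm
  refine ⟨n₀ + φ i₀, fun n hn p hp => ?_⟩
  rw [← hiff i₀]
  refine hi₀ (max i₀ n) (le_max_left _ _) p ?_
  rw [hiff]
  refine hmono n _ p ?_ hp
  have h1 : max i₀ n ≤ φ (max i₀ n) := hφ.id_le _
  have h2 : n ≤ max i₀ n := le_max_right _ _
  omega

/-- ACC for annihilators of simple modules, in the tensor algebra -/
theorem W_acc (M : ℕ → Type u) [∀ n, AddCommGroup (M n)] [∀ n, Module k (M n)]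
    (e : ∀ n, A k Γ →ₗ[k] Module.End k (M n)) (hl : ∀ n, LieMap (e n)) (hs : ∀ n, Simple (e n))
    (hmono : ∀ n m p, n ≤ m → TensorAlgebra.lift k (e n) p = 0 →
      TensorAlgebra.lift k (e m) p = 0) :
    ∃ n₁, ∀ n, n₁ ≤ n → ∀ p, TensorAlgebra.lift k (e n) p = 0 →
      TensorAlgebra.lift k (e n₁) p = 0 := by
  by_cases hz : ∃ n, e n = 0
  · obtain ⟨n, hn⟩ := hz
    exact ⟨n, fun m hm p hp => zero_case M e hs hmono n hn m hm p hp⟩
  · push Not at hz
    by_cases hall : ∀ n p, TensorAlgebra.lift k (e n) p = 0 → ∀ m, TensorAlgebra.lift k (e m) p = 0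
    · exact ⟨0, fun n _ p hp => hall n p hp 0⟩
    · push Not at hall
      obtain ⟨n₀, p, hp, n₁, hp1⟩ := hall
      obtain ⟨s, N, hloc⟩ := exists_loc M e hl hmono n₀ p hp n₁ hp1
      exact acc_of_loc M e hl hs hmono hz n₀ s N hloc

end WMainCSec

/-!
Primitive ideals and the ascending chain condition on them.
-/

section PrimSec

private theorem prim_push {U Q : Type u} [Ring U] [Ring Q] (π : U →+* Q)
    (hπ : Function.Surjective π) (P : Ideal U) (hprim : IsPrimitiveIdeal U P)
    (hker : RingHom.ker π ≤ P) : ∃ P' : Ideal Q, IsPrimitiveIdeal Q P' ∧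
      ∀ u, u ∈ P ↔ π u ∈ P' := by
  obtain ⟨M, _, _, hM, rfl⟩ := hprim
  have hk : RingHom.ker π ≤ RingHom.ker (Module.toAddMonoidEnd U M) := by
    intro u hu
    have h1 := Module.mem_annihilator.1 (hker hu)
    rw [RingHom.mem_ker]
    ext m
    exact h1 m
  let φ : Q →+* AddMonoid.End M := RingHom.liftOfRightInverse π (Function.surjInv hπ)
    (Function.rightInverse_surjInv hπ) ⟨Module.toAddMonoidEnd U M, hk⟩
  have hφ : ∀ u, φ (π u) = Module.toAddMonoidEnd U M u := fun u =>
    RingHom.liftOfRightInverse_comp_apply π (Function.surjInv hπ)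
      (Function.rightInverse_surjInv hπ) ⟨Module.toAddMonoidEnd U M, hk⟩ u
  let modQ : Module Q M := Module.compHom M φ
  have hs : ∀ (u : U) (m : M), π u • m = u • m := fun u m => by
    change φ (π u) m = u • m
    rw [hφ u]
    rfl
  have : RingHomSurjective π := ⟨hπ⟩
  let l : M →ₛₗ[π] M :=
    { toFun := id
      map_add' := fun _ _ => rfl
      map_smul' := fun u m => (hs u m).symm }
  have hl : Function.Bijective l := Function.bijective_id
  refine ⟨Module.annihilator Q M, ⟨M, inferInstance, modQ,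
    (LinearMap.isSimpleModule_iff_of_bijective l hl).1 hM, rfl⟩, fun u => ?_⟩
  rw [Module.mem_annihilator, Module.mem_annihilator]
  exact forall_congr' fun m => by rw [hs]

/-- Transfer along a surjection. Hint: for `P n = annihilator (M n)` with `ker π ≤ P n`, `M n` is a
`Q`-module (`Module.compHom` backwards: `q • m = u • m` for any `u` with `π u = q`; for instance
`Function.Surjective.moduleLeft` is not available without a scalar tower, so define the ring hom
`Q →+* AddMonoid.End M` by lifting `Module.toAddMonoidEnd U M` along `π`,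
`RingHom.liftOfSurjective`/`RingHom.lift`-like), simple with the same submodules, and
`P n = comap π (annihilator_Q (M n))`; by surjectivity the chain in `Q` stabilises. -/
theorem AccPrimitive.comap {U Q : Type u} [Ring U] [Ring Q] (π : U →+* Q)
    (hπ : Function.Surjective π) (hQ : AccPrimitive Q) (P : ℕ → Ideal U)
    (hP : ∀ n, P n ≤ P (n + 1)) (hprim : ∀ n, IsPrimitiveIdeal U (P n))
    (hker : ∀ n, RingHom.ker π ≤ P n) : ∃ n₀, ∀ n, n₀ ≤ n → P n = P n₀ := by
  choose P' hP' hmem using fun n => prim_push π hπ (P n) (hprim n) (hker n)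
  obtain ⟨n₀, hn₀⟩ := hQ P' (fun n q hq => by
    obtain ⟨u, rfl⟩ := hπ q
    exact (hmem (n + 1) u).1 (hP n ((hmem n u).2 hq))) hP'
  refine ⟨n₀, fun n hn => ?_⟩
  ext u
  rw [hmem n u, hmem n₀ u, hn₀ n hn]

end PrimSec

section AccLieSec

variable {k : Type u} [Field k] [CharZero k] {Γ : Type} [AddCommMonoid Γ] [Expo Γ]

/-- Hint: `f : TensorAlgebra k (A k Γ) →ₐ U`, `TensorAlgebra.lift k j`, its range is the subalgebra
generated by `Set.range j`. -/
theorem lift_surjective {U : Type u} [Ring U] [Algebra k U] (j : A k Γ →ₗ[k] U)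
    (hgen : Algebra.adjoin k (Set.range j) = ⊤) :
    Function.Surjective (TensorAlgebra.lift k j) := by
  rw [← AlgHom.range_eq_top, TensorAlgebra.range_lift, hgen]

/-- ACC on primitive ideals for an algebra generated by a Lie map. Hint: for `P n` choose the simple
modules `M n`; `Module k (M n)` by `Module.compHom (M n) (algebraMap k U)`; the algebra map
`φ n : U →ₐ[k] Module.End k (M n)` (`Module.toModuleEnd`-like) and `e n = φ n ∘ j`. `e n` is a Lie map
(`hj`), `Simple (e n)`: a subspace stable under all `e n f` is stable under `U` (`hgen`).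
`TensorAlgebra.lift (e n) p = 0 ↔ TensorAlgebra.lift j p ∈ P n`. Apply `W_acc` and
`lift_surjective`. -/
theorem acc_of_lie {U : Type u} [Ring U] [Algebra k U] (j : A k Γ →ₗ[k] U) (hj : LieMap j)
    (hgen : Algebra.adjoin k (Set.range j) = ⊤) : AccPrimitive U := by
  intro P hP hprim
  choose M i1 i2 hM hann using hprim
  let i3 : ∀ n, Module k (M n) := fun n => Module.compHom (M n) (algebraMap k U)
  have hsm : ∀ n (c : k) (m : M n), c • m = algebraMap k U c • m := fun n c m => rfl
  have i4 : ∀ n, IsScalarTower k U (M n) := fun n =>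
    ⟨fun c u m => by rw [Algebra.smul_def, mul_smul, hsm]⟩
  have i5 : ∀ n, SMulCommClass U k (M n) := fun n =>
    ⟨fun u c m => by rw [hsm, hsm, ← mul_smul, ← mul_smul, Algebra.commutes]⟩
  let φ : ∀ n, U →ₐ[k] Module.End k (M n) := fun n => Algebra.lsmul k k (M n)
  have hφ : ∀ n u (m : M n), φ n u m = u • m := fun n u m => rfl
  let e : ∀ n, A k Γ →ₗ[k] Module.End k (M n) := fun n => (φ n).toLinearMap ∘ₗ j
  have he : ∀ n f, e n f = φ n (j f) := fun n f => rfl
  have hlift : ∀ n p, TensorAlgebra.lift k (e n) p = φ n (TensorAlgebra.lift k j p) := by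
    intro n p
    have h1 : TensorAlgebra.lift k (e n) = (φ n).comp (TensorAlgebra.lift k j) := by
      apply TensorAlgebra.hom_ext
      apply LinearMap.ext
      intro f
      rw [LinearMap.comp_apply, LinearMap.comp_apply, AlgHom.toLinearMap_apply,
        AlgHom.toLinearMap_apply, AlgHom.comp_apply, TensorAlgebra.lift_ι_apply,
        TensorAlgebra.lift_ι_apply, he]
    rw [h1]
    rfl
  have hker : ∀ n u, φ n u = 0 ↔ u ∈ P n := by
    intro n u
    rw [← hann n, Module.mem_annihilator]
    constructor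
    · intro h m
      rw [← hφ, h]
      rfl
    · intro h
      ext m
      exact h m
  have hl : ∀ n, LieMap (e n) := by
    intro n f h
    rw [he, he, he, ← hj f h, map_sub, map_mul, map_mul]
  have hsurj := lift_surjective j hgen
  have hs : ∀ n, Simple (e n) := by
    intro n
    refine ⟨IsSimpleModule.nontrivial U (M n), fun W hW => ?_⟩
    have hst : ∀ u : U, ∀ x ∈ W, u • x ∈ W := by
      intro u
      have hu : u ∈ Algebra.adjoin k (Set.range j) := hgen ▸ Algebra.mem_top
      induction hu using Algebra.adjoin_induction with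
      | mem y hy =>
        obtain ⟨f, rfl⟩ := hy
        exact fun x hx => hW f x hx
      | algebraMap c => exact fun x hx => by rw [← hsm]; exact W.smul_mem c hx
      | add a b _ _ ha hb => exact fun x hx => by rw [add_smul]; exact W.add_mem (ha x hx) (hb x hx)
      | mul a b _ _ ha hb => exact fun x hx => by rw [mul_smul]; exact ha _ (hb x hx)
    let W' : Submodule U (M n) :=
      { carrier := W
        zero_mem' := W.zero_mem
        add_mem' := fun ha hb => W.add_mem ha hb
        smul_mem' := fun u x hx => hst u x hx }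
    have hmem : ∀ x, x ∈ W' ↔ x ∈ W := fun x => Iff.rfl
    rcases (hM n).eq_bot_or_eq_top W' with h0 | h0
    · left
      ext x
      rw [← hmem, h0, Submodule.mem_bot, Submodule.mem_bot]
    · right
      ext x
      rw [← hmem, h0]
      simp
  obtain ⟨n₁, hn₁⟩ := W_acc M e hl hs (fun n m p hnm h => by
    rw [hlift, hker] at h ⊢
    exact (monotone_nat_of_le_succ hP hnm) h)
  refine ⟨n₁, fun n hn => le_antisymm (fun u hu => ?_) (monotone_nat_of_le_succ hP hn)⟩
  obtain ⟨p, rfl⟩ := hsurj u
  have := hn₁ n hn p (by rw [hlift, hker]; exact hu)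
  rwa [hlift, hker] at this

end AccLieSec

section UGenSec

variable {k : Type u} [Field k] [CharZero k] {Γ : Type} [AddCommMonoid Γ] [Expo Γ]

/-- The enveloping algebra is generated by the Lie algebra. Hint: the surjection
`UniversalEnvelopingAlgebra.mkAlgHom` from the tensor algebra and `TensorAlgebra.adjoin_range_ι`; or
`UniversalEnvelopingAlgebra.hom_ext` for the inclusion of the subalgebra. -/
theorem adjoin_ι_eq_top {L : Type u} [LieRing L] [LieAlgebra k L] :
    Algebra.adjoin k (Set.range (UniversalEnvelopingAlgebra.ι k : L → UniversalEnvelopingAlgebra k L))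
      = ⊤ := by
  have hsurj : Function.Surjective (UniversalEnvelopingAlgebra.mkAlgHom k L) := by
    intro x
    obtain ⟨y, hy⟩ := RingCon.mk'_surjective (c := UniversalEnvelopingAlgebra.ringCon k L) x
    exact ⟨y, hy⟩
  have h1 : (UniversalEnvelopingAlgebra.ι k : L → UniversalEnvelopingAlgebra k L) =
      (UniversalEnvelopingAlgebra.mkAlgHom k L) ∘ (TensorAlgebra.ι k : L → TensorAlgebra k L) := by
    funext x
    exact UniversalEnvelopingAlgebra.ι_apply k x
  rw [h1, Set.range_comp, ← AlgHom.map_adjoin, TensorAlgebra.adjoin_range_ι, Algebra.map_top,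
    AlgHom.range_eq_top]
  exact hsurj

/-- Hint: `j = ι ∘ φ`; `acc_of_lie`. -/
theorem acc_of_lieAlgebra {L : Type u} [LieRing L] [LieAlgebra k L] (φ : A k Γ →ₗ[k] L)
    (hs : Function.Surjective φ) (hφ : ∀ f h, ⁅φ f, φ h⁆ = φ (f * Dt h - h * Dt f)) :
    AccPrimitive (UniversalEnvelopingAlgebra k L) := by
  let j : A k Γ →ₗ[k] UniversalEnvelopingAlgebra k L :=
    (UniversalEnvelopingAlgebra.mkAlgHom k L).toLinearMap ∘ₗ TensorAlgebra.ι k ∘ₗ φ
  have hj : ∀ f, j f = UniversalEnvelopingAlgebra.ι k (φ f) := fun f =>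
    (UniversalEnvelopingAlgebra.ι_apply k (φ f)).symm
  refine acc_of_lie j ?_ ?_
  · intro f h
    rw [hj, hj, hj, ← hφ f h]
    let _ : LieRing (UniversalEnvelopingAlgebra k L) := LieRing.ofAssociativeRing
    exact ((LieHom.map_lie (UniversalEnvelopingAlgebra.ι k) (φ f) (φ h)).trans
      (LieRing.of_associative_ring_bracket _ _)).symm
  · have h1 : Set.range j = Set.range
        (UniversalEnvelopingAlgebra.ι k : L → UniversalEnvelopingAlgebra k L) := by
      ext x
      constructor
      · rintro ⟨f, rfl⟩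
        exact ⟨φ f, (hj f).symm⟩
      · rintro ⟨y, rfl⟩
        obtain ⟨f, rfl⟩ := hs y
        exact ⟨f, hj f⟩
    rw [h1]
    exact adjoin_ι_eq_top

end UGenSec

end W94
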