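import Pool.Agent.LibWitt94.VirIndep
import Pool.Agent.LibWitt94.WMain

universe u

namespace W94

section VirAlgASec

open scoped Polynomial

variable {k : Type u} [Field k] [CharZero k]

/-- An algebra generated by a central element `c` and a map `e` with the Virasoro relations. -/
structure IsVirAlg {U : Type u} [Ring U] [Algebra k U] (c : U) (e : A k ℤ →ₗ[k] U) : Prop where
  cent : ∀ x, c * x = x * c
  rel : ∀ a b : ℤ, e (tt k a) * e (tt k b) - e (tt k b) * e (tt k a) =
    ((b - a : ℤ) : k) • e (tt k (a + b - 1)) +
      (if a + b = 2 then ((a * (a - 1) * (a - 2) : ℤ) : k) / 12 else 0) • c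
  gen : Algebra.adjoin k (insert c (Set.range e)) = ⊤

variable {U : Type u} [Ring U] [Algebra k U] {c : U} {e : A k ℤ →ₗ[k] U}

/-- The quotient by `c - l`. Hint: `I = Ideal.span {c - algebraMap k U l}` is two-sided
(`Ideal.IsTwoSided`) as `c - l` is central; `Q = U ⧸ I` with `Ideal.Quotient.ring` and the algebra
structure (`Ideal.Quotient.algebra` or by hand). -/
theorem exists_quot_vir (h : IsVirAlg c e) (l : k) :
    ∃ (Q : Type u) (_ : Ring Q) (_ : Algebra k Q) (π : U →ₐ[k] Q), Function.Surjective π ∧
      ∀ x, π x = 0 ↔ ∃ y, x = (c - algebraMap k U l) * y := by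
  have hz : ∀ x, (c - algebraMap k U l) * x = x * (c - algebraMap k U l) := fun x => by
    rw [sub_mul, mul_sub, h.cent, Algebra.commutes]
  have : (Ideal.span {c - algebraMap k U l} : Ideal U).IsTwoSided := ⟨by
    intro a b ha
    obtain ⟨y, rfl⟩ := Ideal.mem_span_singleton'.1 ha
    refine Ideal.mem_span_singleton'.2 ⟨y * b, ?_⟩
    rw [mul_assoc, mul_assoc, hz]⟩
  refine ⟨U ⧸ (Ideal.span {c - algebraMap k U l} : Ideal U), inferInstance, inferInstance,
    Ideal.Quotient.mkₐ k _, Ideal.Quotient.mkₐ_surjective _ _, fun x => ?_⟩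
  rw [Ideal.Quotient.mkₐ_eq_mk, Ideal.Quotient.eq_zero_iff_mem, Ideal.mem_span_singleton']
  constructor
  · rintro ⟨y, rfl⟩; exact ⟨y, (hz y).symm⟩
  · rintro ⟨y, rfl⟩; exact ⟨y, (hz y).symm⟩

/-- In a quotient where `c = l`: a Virasoro type map with `κ = l / 12`, and generation. -/
theorem quot_virMap (h : IsVirAlg c e) {Q : Type u} [Ring Q] [Algebra k Q] (π : U →ₐ[k] Q)
    (hπ : Function.Surjective π) (l : k) (hl : π c = algebraMap k Q l) :
    VirMap (l / 12) (π.toLinearMap ∘ₗ e) ∧
      Algebra.adjoin k (Set.range (π.toLinearMap ∘ₗ e)) = ⊤ := by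
  refine ⟨fun a b => ?_, ?_⟩
  · have h1 := congrArg π (h.rel a b)
    simp only [map_sub, map_mul, map_add, map_smul, hl] at h1
    simp only [LinearMap.comp_apply, AlgHom.toLinearMap_apply]
    rw [h1]
    congr 1
    rw [Algebra.algebraMap_eq_smul_one, smul_smul]
    split_ifs
    · congr 1; ring
    · rw [zero_mul]
  · rw [eq_top_iff]
    rintro q -
    obtain ⟨x, rfl⟩ := hπ q
    have hx : x ∈ Algebra.adjoin k (insert c (Set.range e)) := by rw [h.gen]; trivial
    have h2 : π x ∈ (Algebra.adjoin k (insert c (Set.range e))).map π := ⟨x, hx, rfl⟩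
    rw [AlgHom.map_adjoin] at h2
    refine (Algebra.adjoin_le ?_ : _ ≤ Algebra.adjoin k (Set.range (π.toLinearMap ∘ₗ e))) h2
    rintro _ ⟨y, hy, rfl⟩
    rcases hy with rfl | ⟨f, rfl⟩
    · rw [SetLike.mem_coe, hl]; exact Subalgebra.algebraMap_mem _ _
    · exact Algebra.subset_adjoin ⟨f, rfl⟩

private theorem Dt_tt_aux (b : ℤ) : Dt (tt k b) = (b : k) • tt k (b - 1) := by
  rw [Dt, tt, dd_mon]
  congr 1

/-- `VirMap 0` is a Lie map. Hint: bilinear, `aext`. -/
theorem lieMap_of_virMap_zero {Q : Type u} [Ring Q] [Algebra k Q] {j : A k ℤ →ₗ[k] Q}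
    (h : VirMap 0 j) : LieMap j := by
  have h0 : ∀ a b : ℤ, j (tt k a) * j (tt k b) - j (tt k b) * j (tt k a) =
      j (tt k a * Dt (tt k b) - tt k b * Dt (tt k a)) := fun a b => by
    rw [h a b, Dt_tt_aux, Dt_tt_aux, mul_smul_comm, mul_smul_comm, tt_mul, tt_mul,
      show b + (a - 1) = a + b - 1 by ring, show a + (b - 1) = a + b - 1 by ring, ← sub_smul,
      map_smul]
    simp
  have h1 : ∀ (a : ℤ) (g : A k ℤ), j (tt k a) * j g - j g * j (tt k a) =
      j (tt k a * Dt g - g * Dt (tt k a)) := fun a g => by
    have : (LinearMap.mulLeft k (j (tt k a)) ∘ₗ j - LinearMap.mulRight k (j (tt k a)) ∘ₗ j) =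
        j ∘ₗ (LinearMap.mulLeft k (tt k a) ∘ₗ Dt - LinearMap.mulRight k (Dt (tt k a))) :=
      aext fun b => h0 a b
    exact congrArg (fun φ => φ g) this
  intro f g
  have : (LinearMap.mulRight k (j g) ∘ₗ j - LinearMap.mulLeft k (j g) ∘ₗ j) =
      j ∘ₗ (LinearMap.mulRight k (Dt g) - LinearMap.mulLeft k g ∘ₗ Dt) :=
    aext fun a => h1 a g
  exact congrArg (fun φ => φ f) this

end VirAlgASec

section VirAlgBSec

open scoped Polynomial

variable {k : Type u} [Field k] [CharZero k]

variable {U : Type u} [Ring U] [Algebra k U] {c : U} {e : A k ℤ →ₗ[k] U}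

/-- The case `c ∈ P n`. Hint: `Q` from `exists_quot_vir` with `l = 0`, `quot_virMap`,
`lieMap_of_virMap_zero`, `acc_of_lie`, `AccPrimitive.comap`. -/
theorem acc_vir_zero (h : IsVirAlg c e) (P : ℕ → Ideal U) (hP : ∀ n, P n ≤ P (n + 1))
    (hprim : ∀ n, IsPrimitiveIdeal U (P n)) (hc : ∀ n, c ∈ P n) :
    ∃ n₀, ∀ n, n₀ ≤ n → P n = P n₀ := by
  obtain ⟨Q, hQ1, hQ2, π, hπ, hker⟩ := exists_quot_vir h (0 : k)
  have hc0 : π c = algebraMap k Q 0 := by
    rw [map_zero]
    exact (hker c).2 ⟨1, by simp⟩
  obtain ⟨hv, hg⟩ := quot_virMap h π hπ 0 hc0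
  rw [zero_div] at hv
  have hacc : AccPrimitive Q := acc_of_lie _ (lieMap_of_virMap_zero hv) hg
  refine AccPrimitive.comap (π : U →+* Q) hπ hacc P hP hprim ?_
  intro n x hx
  obtain ⟨y, rfl⟩ := (hker x).1 hx
  rw [map_zero, sub_zero, h.cent]
  exact Ideal.mul_mem_left _ _ (hc n)

end VirAlgBSec

section VirAlgCSec

open scoped Polynomial

variable {k : Type u} [Field k] [CharZero k]

variable {U : Type u} [Ring U] [Algebra k U] {c : U} {e : A k ℤ →ₗ[k] U}

/-- The case `c - l ∈ P`, `l ≠ 0`: `P` is generated by `c - l`. Hint: `P` is the annihilator of `M`,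
`Q` from `exists_quot_vir`; the action `U →ₐ[k] Module.End k M` factors through `Q` (kernel of `π`
is contained in `P`), and is faithful by `vir_faithful` with `R' = Module.End k M`, `κ = l / 12`. -/
theorem vir_prim_ne_zero (h : IsVirAlg c e) (P : Ideal U) (hprim : IsPrimitiveIdeal U P) (l : k)
    (hl : l ≠ 0) (hcl : c - algebraMap k U l ∈ P) (x : U) (hx : x ∈ P) :
    ∃ y, x = (c - algebraMap k U l) * y := by
  obtain ⟨M, iM1, iM2, hsimple, hann⟩ := hprim
  obtain ⟨Q, hQ1, hQ2, π, hπ, hker⟩ := exists_quot_vir h l
  let _ : Module k M := Module.compHom M (algebraMap k U)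
  have hst : IsScalarTower k U M := IsScalarTower.of_algebraMap_smul fun r m => rfl
  have hnt : Nontrivial M := IsSimpleModule.nontrivial U M
  let ψ : U →ₐ[k] Module.End k M := Algebra.lsmul k k M
  have hψ : ∀ u m, ψ u m = u • m := fun u m => rfl
  have hkψ : RingHom.ker (π : U →+* Q) ≤ RingHom.ker (ψ : U →+* Module.End k M) := by
    intro z hz
    obtain ⟨y, rfl⟩ := (hker z).1 hz
    rw [RingHom.mem_ker]
    ext m
    change ψ _ m = 0
    rw [hψ, mul_smul]
    rw [← hann, Module.mem_annihilator] at hcl
    exact hcl _
  let g : Q →+* Module.End k M := RingHom.liftOfSurjective (π : U →+* Q) hπ ⟨(ψ : U →+* Module.End k M), hkψ⟩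
  have hg : ∀ u, g (π u) = ψ u := fun u =>
    RingHom.liftOfRightInverse_comp_apply (π : U →+* Q) _ _ ⟨(ψ : U →+* Module.End k M), hkψ⟩ u
  let φ : Q →ₐ[k] Module.End k M :=
    { g with
      commutes' := fun r => by
        change g (algebraMap k Q r) = _
        rw [← π.commutes, hg, ψ.commutes] }
  have hc0 : π c = algebraMap k Q l := by
    have : π (c - algebraMap k U l) = 0 := (hker _).2 ⟨1, by simp⟩
    rw [map_sub, π.commutes, sub_eq_zero] at this
    exact this
  obtain ⟨hv, hgen⟩ := quot_virMap h π hπ l hc0
  have hinj : Function.Injective φ :=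
    vir_faithful (fun n hn => IsUnit.mk0 _ (Nat.cast_ne_zero.mpr hn))
      (fun c x hcx => smul_eq_zero.mp hcx) (div_ne_zero hl (by norm_num)) hv hgen φ
  refine (hker x).1 (hinj ?_)
  rw [map_zero]
  change g (π x) = 0
  rw [hg]
  ext m
  rw [hψ]
  rw [← hann, Module.mem_annihilator] at hx
  exact hx m

end VirAlgCSec

section VirAlgDSec

open scoped Polynomial

variable {k : Type u} [Field k] [CharZero k]

variable {U : Type u} [Ring U] [Algebra k U] {c : U} {e : A k ℤ →ₗ[k] U}

/-- central elements with nonzero kernel on a simple module annihilate it -/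
theorem vd_schur {M : Type u} [AddCommGroup M] [Module U M] [IsSimpleModule U M] (z : U)
    (hz : ∀ x, z * x = x * z) (m : M) (hm : m ≠ 0) (hzm : z • m = 0) :
    z ∈ Module.annihilator U M := by
  let K : Submodule U M :=
    { carrier := {y | z • y = 0}
      add_mem' := fun {a b} ha hb => by
        change z • (a + b) = 0
        rw [smul_add]
        rw [show z • a = 0 from ha, show z • b = 0 from hb, add_zero]
      zero_mem' := smul_zero z
      smul_mem' := fun r y hy => by
        change z • r • y = 0
        rw [← mul_smul, hz, mul_smul, show z • y = 0 from hy, smul_zero] }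
  rcases eq_bot_or_eq_top K with h | h
  · exfalso
    have : m ∈ K := hzm
    rw [h] at this
    exact hm ((Submodule.mem_bot U).1 this)
  · rw [Module.mem_annihilator]
    intro y
    have : y ∈ K := by rw [h]; exact Submodule.mem_top
    exact this

theorem vd_central (h : IsVirAlg c e) (q : k[X]) (x : U) :
    Polynomial.aeval c q * x = x * Polynomial.aeval c q := by
  have hc : c ∈ Subalgebra.center k U := by
    rw [Subalgebra.mem_center_iff]
    intro b
    exact (h.cent b).symm
  have h1 : Polynomial.aeval c q ∈ Subalgebra.center k U := by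
    have h2 : Algebra.adjoin k {c} ≤ Subalgebra.center k U :=
      Algebra.adjoin_le (Set.singleton_subset_iff.2 hc)
    exact h2 (Polynomial.aeval_mem_adjoin_singleton k c)
  rw [Subalgebra.mem_center_iff] at h1
  exact (h1 x).symm

/-- the general form -/
theorem vd_faith {K : Type u} [CommRing K] [IsDomain K] [CharZero K]
    (hQ : ∀ n : ℕ, n ≠ 0 → IsUnit (n : K)) {κ : K} (hκ : κ ≠ 0) {V : Type u} [Ring V]
    [Algebra K V] {e' : A K ℤ →ₗ[K] V} (h : VirMap κ e')
    (hgen : Algebra.adjoin K (Set.range e') = ⊤) {M : Type u} [AddCommGroup M] [Module K M]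
    [Nontrivial M] (htf : ∀ (c : K) (x : M), c • x = 0 → c = 0 ∨ x = 0)
    (φ : V →ₐ[K] Module.End K M) : Function.Injective φ := by
  refine vir_faithful hQ ?_ hκ h hgen φ
  intro c x hx
  by_cases hc : c = 0
  · exact Or.inl hc
  · right
    apply LinearMap.ext
    intro m
    have := congrArg (fun f => f m) hx
    exact ((htf c (x m) this).resolve_left hc)

/-- The torsion free case: if no nonzero polynomial in `c` belongs to `P` then `P = ⊥`. Hint: `P` is
the annihilator of the simple module `M`. For `q ≠ 0`, `aeval c q` is central, so its kernel on `M`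
is a submodule, not `M`, hence zero: `M` is a torsion free `k[X]`-module. Make `U` a
`k[X]`-algebra by `(Polynomial.aeval c).toRingHom.toAlgebra'` (central) and `M` a `k[X]`-module by
`Module.compHom`. `e' : A k[X] ℤ →ₗ[k[X]] U := lin (fun α => e (tt k (α ())))` satisfies
`VirMap (Polynomial.C (1/12) * Polynomial.X) e'` and generates `U` over `k[X]`; apply `vir_faithful`
over the domain `k[X]` with `R' = Module.End k[X] M` and the action of `U`. -/
theorem vir_prim_torsionFree (h : IsVirAlg c e) (P : Ideal U) (hprim : IsPrimitiveIdeal U P)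
    (hq : ∀ q : k[X], q ≠ 0 → Polynomial.aeval c q ∉ P) : P = ⊥ := by
  obtain ⟨M, _, _, hM, rfl⟩ := hprim
  have hnt : Nontrivial M := IsSimpleModule.nontrivial U M
  let algU : Algebra k[X] U :=
    (Polynomial.aeval (R := k) c).toRingHom.toAlgebra' (fun q x => vd_central h q x)
  let modM : Module k[X] M := Module.compHom M (Polynomial.aeval (R := k) c).toRingHom
  have hsm : ∀ (q : k[X]) (m : M), q • m = Polynomial.aeval c q • m := fun q m => rfl
  have halg : ∀ q : k[X], algebraMap k[X] U q = Polynomial.aeval c q := fun q => rfl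
  have hsu : ∀ (q : k[X]) (x : U), q • x = Polynomial.aeval c q * x := fun q x => by
    rw [Algebra.smul_def, halg]
  have : IsScalarTower k[X] U M := ⟨fun q x m => by rw [hsm, hsu, mul_smul]⟩
  let φ : U →ₐ[k[X]] Module.End k[X] M :=
    { toFun := fun u =>
        { toFun := fun m => u • m
          map_add' := fun a b => smul_add u a b
          map_smul' := fun q m => by
            simp only [RingHom.id_apply]
            rw [hsm, hsm, ← mul_smul, ← mul_smul, vd_central h q u] }
      map_one' := by
        apply LinearMap.ext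
        intro m
        exact one_smul U m
      map_mul' := fun a b => by
        apply LinearMap.ext
        intro m
        exact mul_smul a b m
      map_zero' := by
        apply LinearMap.ext
        intro m
        exact zero_smul U m
      map_add' := fun a b => by
        apply LinearMap.ext
        intro m
        exact add_smul a b m
      commutes' := fun q => by
        apply LinearMap.ext
        intro m
        rfl }
  have hφ : Function.Injective φ := by
    let e' : A k[X] ℤ →ₗ[k[X]] U := lin (fun α => e (tt k (α ())))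
    have he' : ∀ a : ℤ, e' (tt k[X] a) = e (tt k a) := fun a => by
      change lin _ (mon k[X] _) = _
      rw [lin_mon]
    have hv : VirMap (Polynomial.C (1 / 12 : k) * Polynomial.X) e' := by
      intro a b
      rw [he', he', he', h.rel a b]
      congr 1
      · rw [hsu, map_intCast, Algebra.smul_def, map_intCast]
      · split_ifs with hab
        · rw [hsu, map_mul, map_mul, map_intCast, Polynomial.aeval_C, Polynomial.aeval_X,
            mul_one, Algebra.smul_def, div_eq_mul_inv, map_mul, map_intCast, one_div]
          rw [mul_assoc]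
          exact Int.cast_comm _ _
        · rw [zero_smul, zero_smul]
    refine vd_faith (κ := Polynomial.C (1 / 12 : k) * Polynomial.X) ?_ ?_ hv ?_ ?_ φ
    · intro n hn
      have : (n : k[X]) = Polynomial.C (n : k) := by simp
      rw [this, Polynomial.isUnit_C]
      exact (isUnit_iff_ne_zero).2 (Nat.cast_ne_zero.2 hn)
    · apply mul_ne_zero
      · rw [Ne, Polynomial.C_eq_zero]
        norm_num
      · exact Polynomial.X_ne_zero
    · rw [eq_top_iff]
      intro x _
      have hx : x ∈ Algebra.adjoin k (insert c (Set.range e)) := by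
        rw [h.gen]; exact Algebra.mem_top
      induction hx using Algebra.adjoin_induction with
      | mem x hx =>
        rcases hx with rfl | ⟨f, rfl⟩
        · have : x = algebraMap k[X] U Polynomial.X := by
            rw [halg, Polynomial.aeval_X]
          rw [this]
          exact Subalgebra.algebraMap_mem _ _
        · refine mon_induction
            (P := fun f => e f ∈ Algebra.adjoin k[X] (Set.range e')) f ?_ ?_ ?_
          · rw [map_zero]; exact Subalgebra.zero_mem _
          · intro F G hF hG
            rw [map_add]; exact Subalgebra.add_mem _ hF hG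
          · intro r α
            rw [map_smul, mon_unit, ← he', Algebra.smul_def]
            have : algebraMap k U r = algebraMap k[X] U (Polynomial.C r) := by
              rw [halg, Polynomial.aeval_C]
            rw [this]
            exact Subalgebra.mul_mem _ (Subalgebra.algebraMap_mem _ _)
              (Algebra.subset_adjoin ⟨_, rfl⟩)
      | algebraMap r =>
        have : algebraMap k U r = algebraMap k[X] U (Polynomial.C r) := by
          rw [halg, Polynomial.aeval_C]
        rw [this]
        exact Subalgebra.algebraMap_mem _ _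
      | add x y _ _ hx hy => exact Subalgebra.add_mem _ (hx trivial) (hy trivial)
      | mul x y _ _ hx hy => exact Subalgebra.mul_mem _ (hx trivial) (hy trivial)
    · intro q m hqm
      by_contra hcon
      push Not at hcon
      exact hq q hcon.1 (vd_schur _ (fun x => vd_central h q x) m hcon.2 hqm)
  rw [eq_bot_iff]
  intro u hu
  rw [Module.mem_annihilator] at hu
  have : φ u = φ 0 := by
    rw [map_zero]
    apply LinearMap.ext
    intro m
    exact hu m
  exact (Submodule.mem_bot U).2 (hφ this)

end VirAlgDSec

section VirAlgESec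

open scoped Polynomial

variable {k : Type u} [Field k] [CharZero k]

variable {U : Type u} [Ring U] [Algebra k U] {c : U} {e : A k ℤ →ₗ[k] U}

/-- central elements with nonzero kernel on a simple module annihilate it -/
theorem ve_schur {M : Type u} [AddCommGroup M] [Module U M] [IsSimpleModule U M] (z : U)
    (hz : ∀ x, z * x = x * z) (m : M) (hm : m ≠ 0) (hzm : z • m = 0) :
    z ∈ Module.annihilator U M := by
  let K : Submodule U M :=
    { carrier := {y | z • y = 0}
      add_mem' := fun {a b} ha hb => by
        change z • (a + b) = 0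
        rw [smul_add]
        rw [show z • a = 0 from ha, show z • b = 0 from hb, add_zero]
      zero_mem' := smul_zero z
      smul_mem' := fun r y hy => by
        change z • r • y = 0
        rw [← mul_smul, hz, mul_smul, show z • y = 0 from hy, smul_zero] }
  rcases eq_bot_or_eq_top K with h | h
  · exfalso
    have : m ∈ K := hzm
    rw [h] at this
    exact hm ((Submodule.mem_bot U).1 this)
  · rw [Module.mem_annihilator]
    intro y
    have : y ∈ K := by rw [h]; exact Submodule.mem_top
    exact this

theorem ve_aux [IsAlgClosed k] (h : IsVirAlg c e) {M : Type u} [AddCommGroup M] [Module U M]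
    [IsSimpleModule U M] : ∀ (n : ℕ) (q : k[X]), q ≠ 0 → q.natDegree ≤ n →
      Polynomial.aeval c q ∈ Module.annihilator U M →
      ∃ l : k, c - algebraMap k U l ∈ Module.annihilator U M := by
  intro n
  induction n with
  | zero =>
    intro q hq0 hn hq
    exfalso
    have h1 : q = Polynomial.C (q.coeff 0) := Polynomial.eq_C_of_natDegree_eq_zero (by omega)
    have h2 : q.coeff 0 ≠ 0 := by
      intro h0
      rw [h0, Polynomial.C_0] at h1
      exact hq0 h1
    rw [h1, Polynomial.aeval_C, Module.mem_annihilator] at hq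
    have hnt : Nontrivial M := IsSimpleModule.nontrivial U M
    obtain ⟨m, hm⟩ := exists_ne (0 : M)
    apply hm
    have h3 := hq m
    have h4 : algebraMap k U (q.coeff 0)⁻¹ • algebraMap k U (q.coeff 0) • m = 0 := by
      rw [h3, smul_zero]
    rw [← mul_smul, ← map_mul, inv_mul_cancel₀ h2, map_one, one_smul] at h4
    exact h4
  | succ n ih =>
    intro q hq0 hn hq
    by_cases hd : q.natDegree = 0
    · exact ih q hq0 (by omega) hq
    · have hdeg : q.degree ≠ 0 := by
        intro h0
        exact hd (Polynomial.natDegree_eq_of_degree_eq_some h0)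
      obtain ⟨l, hl⟩ := IsAlgClosed.exists_root q hdeg
      obtain ⟨q', rfl⟩ := Polynomial.dvd_iff_isRoot.2 hl
      have hq' : q' ≠ 0 := right_ne_zero_of_mul hq0
      have hnd : q'.natDegree ≤ n := by
        have := Polynomial.natDegree_mul (Polynomial.X_sub_C_ne_zero l) hq'
        rw [Polynomial.natDegree_X_sub_C] at this
        omega
      by_cases hin : Polynomial.aeval c q' ∈ Module.annihilator U M
      · exact ih q' hq' hnd hin
      · rw [Module.mem_annihilator] at hin
        push Not at hin
        obtain ⟨m, hm⟩ := hin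
        refine ⟨l, ve_schur (c - algebraMap k U l) ?_ _ hm ?_⟩
        · intro x
          rw [sub_mul, mul_sub, h.cent, Algebra.commutes]
        · rw [Module.mem_annihilator] at hq
          have h5 := hq m
          rw [map_mul, map_sub, Polynomial.aeval_X, Polynomial.aeval_C, mul_smul] at h5
          exact h5

/-- If a nonzero polynomial in `c` belongs to the primitive ideal `P` then `c - l ∈ P` for some `l`.
Hint: take such a polynomial of minimal degree; it is not constant (`1 ∉ P`); over the
algebraically closed field it has a root: `q = (X - l) q'`, `aeval c q'` is not zero on `M`, so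
`c - l` has a nonzero kernel on `M`, which is a submodule (central), so it is `M`. -/
theorem vir_exists_root [IsAlgClosed k] (h : IsVirAlg c e) (P : Ideal U)
    (hprim : IsPrimitiveIdeal U P) (q : k[X]) (hq0 : q ≠ 0) (hq : Polynomial.aeval c q ∈ P) :
    ∃ l : k, c - algebraMap k U l ∈ P := by
  obtain ⟨M, _, _, hM, rfl⟩ := hprim
  exact ve_aux h q.natDegree q hq0 le_rfl hq

end VirAlgESec

section VirAlgFSec

open scoped Polynomial

variable {k : Type u} [Field k] [CharZero k]

variable {U : Type u} [Ring U] [Algebra k U] {c : U} {e : A k ℤ →ₗ[k] U}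

/-- ACC for Virasoro algebras -/
theorem acc_virAlg [IsAlgClosed k] (h : IsVirAlg c e) : AccPrimitive U := by
  intro P hP hprim
  have hmono : Monotone P := monotone_nat_of_le_succ hP
  by_cases hc : ∃ n, c ∈ P n
  · obtain ⟨n, hn⟩ := hc
    obtain ⟨m, hm⟩ := acc_vir_zero h (fun i => P (n + i)) (fun i => hP (n + i))
      (fun i => hprim _) (fun i => hmono (Nat.le_add_right n i) hn)
    refine ⟨n + m, fun i hi => ?_⟩
    have h1 := hm (i - n) (by omega)
    rwa [show n + (i - n) = i by omega] at h1
  · push Not at hc
    by_cases hall : ∀ n, P n = ⊥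
    · exact ⟨0, fun n _ => by rw [hall n, hall 0]⟩
    · push Not at hall
      obtain ⟨n, hn⟩ := hall
      have h1 : ∃ q : k[X], q ≠ 0 ∧ Polynomial.aeval c q ∈ P n := by
        by_contra hcon
        push Not at hcon
        exact hn (vir_prim_torsionFree h (P n) (hprim n) hcon)
      obtain ⟨q, hq0, hq⟩ := h1
      obtain ⟨l, hl⟩ := vir_exists_root h (P n) (hprim n) q hq0 hq
      have hl0 : l ≠ 0 := by
        rintro rfl
        rw [map_zero, sub_zero] at hl
        exact hc n hl
      refine ⟨n, fun m hm => le_antisymm (fun x hx => ?_) (hmono hm)⟩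
      obtain ⟨y, rfl⟩ := vir_prim_ne_zero h (P m) (hprim m) l hl0 (hmono hm hl) x hx
      have hcomm : (c - algebraMap k U l) * y = y * (c - algebraMap k U l) := by
        rw [sub_mul, mul_sub, h.cent, Algebra.commutes]
      rw [hcomm]
      exact (P n).mul_mem_left y hl

end VirAlgFSec

section VirLSec

variable {k : Type u} [Field k] [CharZero k]

attribute [local instance 100] LieRing.ofAssociativeRing

omit [CharZero k] in
private theorem lin_tt' {N : Type*} [AddCommMonoid N] [Module k N] (f : (Unit → ℤ) → N) (a : ℤ) :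
    lin (k := k) f (tt k a) = f (fun _ => a) := lin_mon f _

/-- Hint: `c = ι (b none)`, `e = lin (fun α => ι (b (some (α () - 1))))`; generation by
`adjoin_ι_eq_top` and the basis. `a (a-1) (a-2) = (a-1)^3 - (a-1)`. -/
theorem isVirAlg_of_isVirasoro {L : Type u} [LieRing L] [LieAlgebra k L]
    {b : Module.Basis (Option ℤ) k L} (h : IsVirasoro b) :
    ∃ (c : UniversalEnvelopingAlgebra k L) (e : A k ℤ →ₗ[k] UniversalEnvelopingAlgebra k L),
      IsVirAlg c e := by
  refine ⟨UniversalEnvelopingAlgebra.ι k (b none),
    lin (fun α => UniversalEnvelopingAlgebra.ι k (b (some (α () - 1)))), ?_, ?_, ?_⟩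
  · intro x
    have hx : x ∈ (Algebra.adjoin k (Set.range
        (UniversalEnvelopingAlgebra.ι k : L → UniversalEnvelopingAlgebra k L))) := by
      rw [adjoin_ι_eq_top]; exact Algebra.mem_top
    induction hx using Algebra.adjoin_induction with
    | mem y hy =>
      obtain ⟨z, rfl⟩ := hy
      have h1 := h.central z
      have h2 : UniversalEnvelopingAlgebra.ι k ⁅b none, z⁆ = 0 := by rw [h1, map_zero]
      rw [LieHom.map_lie, LieRing.of_associative_ring_bracket] at h2
      exact sub_eq_zero.mp h2
    | algebraMap r => exact (Algebra.commutes r _).symm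
    | add x y _ _ hx hy => rw [mul_add, add_mul, hx, hy]
    | mul x y _ _ hx hy => rw [← mul_assoc, hx, mul_assoc, hy, mul_assoc]
  · intro a b'
    rw [lin_tt', lin_tt', lin_tt']
    rw [← LieRing.of_associative_ring_bracket, ← LieHom.map_lie, h.bracket, map_add, map_smul,
      map_smul]
    have e1 : a - 1 + (b' - 1) = a + b' - 1 - 1 := by ring
    have e2 : (b' - 1 - (a - 1) : ℤ) = b' - a := by ring
    have e3 : (a - 1 + (b' - 1) = 0) ↔ a + b' = 2 := by constructor <;> intro h <;> linarith
    have e4 : ((a - 1) ^ 3 - (a - 1) : ℤ) = a * (a - 1) * (a - 2) := by ring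
    simp only [e3, e2, e4]
    rw [e1]
  · rw [eq_top_iff, ← adjoin_ι_eq_top]
    refine Algebra.adjoin_le ?_
    rintro _ ⟨x, rfl⟩
    set S : Subalgebra k (UniversalEnvelopingAlgebra k L) := Algebra.adjoin k _ with hS
    have hb : ∀ o : Option ℤ, UniversalEnvelopingAlgebra.ι k (b o) ∈ S := by
      intro o
      cases o with
      | none => exact Algebra.subset_adjoin (Set.mem_insert _ _)
      | some n =>
        refine Algebra.subset_adjoin (Set.mem_insert_of_mem _ ⟨tt k (n + 1), ?_⟩)
        rw [lin_tt']
        simp
    have hx : x ∈ Submodule.span k (Set.range b) := by rw [b.span_eq]; trivial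
    induction hx using Submodule.span_induction with
    | mem y hy =>
      obtain ⟨o, rfl⟩ := hy
      exact hb o
    | zero => rw [SetLike.mem_coe, map_zero]; exact S.zero_mem
    | add x y _ _ hx hy => 
      rw [SetLike.mem_coe, map_add]; exact S.add_mem hx hy
    | smul r x _ hx => 
      rw [SetLike.mem_coe, map_smul]; exact S.smul_mem hx r

theorem acc_virasoro [IsAlgClosed k] {L : Type u} [LieRing L] [LieAlgebra k L]
    {b : Module.Basis (Option ℤ) k L} (h : IsVirasoro b) :
    AccPrimitive (UniversalEnvelopingAlgebra k L) := by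
  obtain ⟨c, e, hce⟩ := isVirAlg_of_isVirasoro h
  exact acc_virAlg hce

end VirLSec

end W94
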