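import Pool.Agent.LibWitt94.Base
import Pool.Agent.LibWitt94.Cluster
import Pool.Agent.LibWitt94.OpCalc
import Pool.Agent.LibWitt94.Words

universe u w

namespace W94

section EmbASec

open scoped BigOperators

variable {k : Type u} [CommRing k] {R : Type w} [Ring R] [Algebra k R] {ι κ' : Type}

/-- exponents in `ℕ` as exponents in `ℤ` -/
def castHom (ι : Type) : (ι → ℕ) →+ (ι → ℤ) where
  toFun α := fun i => (α i : ℤ)
  map_zero' := by funext i; simp
  map_add' := fun α β => by funext i; simp

/-- the inclusion of polynomials in Laurent polynomials -/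
noncomputable def embZ : B k ℕ ι →ₐ[k] B k ℤ ι := AddMonoidAlgebra.mapDomainAlgHom k k (castHom ι)

theorem embZ_mon (α : ι → ℕ) : embZ (mon k α) = mon k (fun i => (α i : ℤ)) := by
  simp [embZ, mon, castHom]

theorem embZ_injective : Function.Injective (embZ : B k ℕ ι → B k ℤ ι) := by
  have h : Function.Injective (castHom ι) := by
    intro α β hab
    funext i
    have := congrFun hab i
    simpa [castHom] using this
  exact AddMonoidAlgebra.mapDomain_injective h

theorem embZ_pf [Fintype ι] [DecidableEq κ'] (g : ι → κ') (F : B k ℕ ι) :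
    embZ (pf g F) = pf g (embZ F) := by
  induction F using mon_induction with
  | h0 => simp
  | hadd F G hF hG => rw [map_add, map_add, hF, hG, map_add, map_add]
  | hmon c α =>
    rw [map_smul, map_smul, map_smul, map_smul, pf_mon, embZ_mon, embZ_mon, pf_mon]
    congr 2
    funext j
    rw [push_apply, push_apply]
    push_cast
    rfl

theorem embZ_X [DecidableEq ι] (i : ι) : embZ (X i : B k ℕ ι) = X i := by
  rw [X, X, embZ_mon]
  congr 1
  funext j
  by_cases h : j = i
  · subst h
    rw [Pi.single_eq_same, Pi.single_eq_same]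
    rfl
  · rw [Pi.single_eq_of_ne h, Pi.single_eq_of_ne h]
    rfl

theorem embZ_Delta (n : ℕ) : embZ (Delta k ℕ n) = Delta k ℤ n := by
  have := map_vand ((embZ : B k ℕ (Fin n) →ₐ[k] B k ℤ (Fin n)) : B k ℕ (Fin n) →+* B k ℤ (Fin n))
    (fun i => (X i : B k ℕ (Fin n)))
  simpa [Delta, embZ_X] using this

theorem embZ_dd [DecidableEq ι] (i : ι) (F : B k ℕ ι) : embZ (dd i F) = dd i (embZ F) := by
  induction F using mon_induction with
  | h0 => simp
  | hadd F G hF hG => rw [map_add, map_add, hF, hG, map_add, map_add]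
  | hmon c α =>
    rw [map_smul, map_smul, map_smul, map_smul, embZ_mon, dd_mon, dd_mon, map_smul, embZ_mon]
    congr 1
    have hv : (Expo.v (α i) : ℤ) = Expo.v ((α i : ℕ) : ℤ) := rfl
    rw [← hv]
    rcases Nat.eq_zero_or_pos (α i) with h0 | h0
    · have : (Expo.v (α i) : ℤ) = 0 := by rw [h0]; exact map_zero _
      rw [this]
      simp
    · congr 2
      funext j
      by_cases h : j = i
      · subst h
        rw [Function.update_self, Function.update_self]
        show (((α j - 1 : ℕ)) : ℤ) = (α j : ℤ) - 1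
        omega
      · rw [Function.update_of_ne h, Function.update_of_ne h]

/-- the image of `embZ` -/
theorem exists_embZ (F : B k ℤ ι) (h : F ∈ SuppIn k {a : ℤ | 0 ≤ a}) : ∃ G, embZ G = F := by
  unfold SuppIn at h
  induction h using Submodule.span_induction with
  | mem x hx =>
    obtain ⟨α, hα, rfl⟩ := hx
    refine ⟨mon k (fun i => (α i).toNat), ?_⟩
    rw [embZ_mon]
    congr 1
    funext i
    exact Int.toNat_of_nonneg (hα i)
  | zero => exact ⟨0, map_zero _⟩
  | add x y _ _ hx hy =>
    obtain ⟨G, rfl⟩ := hx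
    obtain ⟨H, rfl⟩ := hy
    exact ⟨G + H, map_add _ _ _⟩
  | smul c x _ hx =>
    obtain ⟨G, rfl⟩ := hx
    exact ⟨c • G, map_smul _ _ _⟩

theorem embZ_suppIn (F : B k ℕ ι) : embZ F ∈ SuppIn k {a : ℤ | 0 ≤ a} := by
  induction F using mon_induction with
  | h0 => rw [map_zero]; exact Submodule.zero_mem _
  | hadd F G hF hG => rw [map_add]; exact Submodule.add_mem _ hF hG
  | hmon c α =>
    rw [map_smul]
    refine Submodule.smul_mem _ _ (Submodule.subset_span ⟨fun i => (α i : ℤ), fun i => ?_, ?_⟩)
    · exact Int.natCast_nonneg (α i)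
    · rw [embZ_mon]

end EmbASec

section EmbBSec

open scoped BigOperators

variable {k : Type u} [CommRing k] {R : Type w} [Ring R] [Algebra k R] {ι κ' : Type}

/-- Multiplication adds the bounds of the exponents -/
theorem suppIn_mul (a b : ℤ) (F G : B k ℤ ι) (hF : F ∈ SuppIn k {x : ℤ | a ≤ x})
    (hG : G ∈ SuppIn k {x : ℤ | b ≤ x}) : F * G ∈ SuppIn k {x : ℤ | a + b ≤ x} := by
  have h1 := Submodule.mul_mem_mul hF hG
  unfold SuppIn at h1
  rw [Submodule.span_mul_span] at h1
  refine Submodule.span_mono ?_ h1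
  rintro _ ⟨_, ⟨α, hα, rfl⟩, _, ⟨β, hβ, rfl⟩, rfl⟩
  refine ⟨α + β, fun i => ?_, mon_mul α β⟩
  have h2 := hα i
  have h3 := hβ i
  simp only [Set.mem_ofPred_eq, Pi.add_apply] at *
  linarith

private theorem suppIn_mono {U V : Set ℤ} (h : U ⊆ V) (F : B k ℤ ι) (hF : F ∈ SuppIn k U) :
    F ∈ SuppIn k V := by
  refine Submodule.span_mono ?_ hF
  rintro _ ⟨α, hα, rfl⟩
  exact ⟨α, fun i => h (hα i), rfl⟩

private theorem mon_suppIn {U : Set ℤ} (α : ι → ℤ) (h : ∀ i, α i ∈ U) :
    mon k α ∈ SuppIn k U := Submodule.subset_span ⟨α, h, rfl⟩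

/-- every element has exponents bounded below -/
theorem exists_bound [Finite ι] (F : B k ℤ ι) : ∃ C : ℕ, F ∈ SuppIn k {x : ℤ | -(C : ℤ) ≤ x} := by
  cases nonempty_fintype ι
  refine mon_induction (P := fun F => ∃ C : ℕ, F ∈ SuppIn k {x : ℤ | -(C : ℤ) ≤ x}) F
    ⟨0, Submodule.zero_mem _⟩ ?_ ?_
  · rintro F G ⟨C, hC⟩ ⟨D, hD⟩
    refine ⟨C + D, Submodule.add_mem _ (suppIn_mono ?_ F hC) (suppIn_mono ?_ G hD)⟩
    · intro x hx
      simp only [Set.mem_ofPred_eq, Nat.cast_add] at *
      omega
    · intro x hx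
      simp only [Set.mem_ofPred_eq, Nat.cast_add] at *
      omega
  · intro c α
    refine ⟨∑ i, (α i).natAbs, Submodule.smul_mem _ _ (mon_suppIn α fun i => ?_)⟩
    have h1 : (α i).natAbs ≤ ∑ i, (α i).natAbs :=
      Finset.single_le_sum (f := fun i => (α i).natAbs) (fun _ _ => Nat.zero_le _)
        (Finset.mem_univ i)
    change -((∑ i, (α i).natAbs : ℕ) : ℤ) ≤ α i
    omega

/-- the monomial `(∏ X i) ^ c` has exponents `c` -/
theorem prodX_suppIn [Fintype ι] [DecidableEq ι] (c : ℕ) :
    (∏ i, (X i : B k ℤ ι)) ^ c ∈ SuppIn k {x : ℤ | (c : ℤ) ≤ x} := by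
  have h : (∏ i, (X i : B k ℤ ι)) ^ c = mon k (fun _ => (c : ℤ)) := by
    simp only [X]
    rw [mon_prod, mon_pow]
    congr 1
    funext j
    have h1 : (∑ i : ι, (Pi.single i (Expo.one : ℤ) : ι → ℤ)) j = 1 := by
      rw [Finset.sum_apply, Finset.sum_eq_single j]
      · simp only [Pi.single_eq_same]
        rfl
      · intro b _ hb
        rw [Pi.single_eq_of_ne (Ne.symm hb)]
      · intro h; exact absurd (Finset.mem_univ _) h
    rw [Pi.smul_apply, h1]
    simp
  rw [h]
  exact mon_suppIn _ fun i => le_refl (c : ℤ)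

/-- Virasoro type maps: `κ` is the central charge divided by 12 -/
def VirMap (κ : k) (e : A k ℤ →ₗ[k] R) : Prop :=
  ∀ a b : ℤ, e (tt k a) * e (tt k b) - e (tt k b) * e (tt k a) =
    ((b - a : ℤ) : k) • e (tt k (a + b - 1)) +
      (if a + b = 2 then κ * ((a * (a - 1) * (a - 2) : ℤ) : k) else 0) • (1 : R)

/-- restriction to polynomials -/
noncomputable def eplus (e : A k ℤ →ₗ[k] R) : A k ℕ →ₗ[k] R := e ∘ₗ embZ.toLinearMap

private theorem eplus_apply (e : A k ℤ →ₗ[k] R) (f : A k ℕ) : eplus e f = e (embZ f) := rfl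

private theorem Dt_tt (b : ℤ) : Dt (tt k b) = (b : k) • tt k (b - 1) := by
  rw [Dt, tt, dd_mon]
  rfl

private theorem bracket_tt (a b : ℤ) :
    tt k a * Dt (tt k b) - tt k b * Dt (tt k a) = ((b - a : ℤ) : k) • tt k (a + b - 1) := by
  rw [Dt_tt, Dt_tt, mul_smul_comm, mul_smul_comm, tt_mul, tt_mul]
  have h1 : a + (b - 1) = a + b - 1 := by ring
  have h2 : b + (a - 1) = a + b - 1 := by ring
  rw [h1, h2, ← sub_smul]
  congr 1
  push_cast
  ring

/-- Hint: for `a, b ≥ 0` with `a + b = 2` the cocycle `a (a-1) (a-2)` is zero. -/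
theorem lieMap_eplus {κ : k} {e : A k ℤ →ₗ[k] R} (h : VirMap κ e) : LieMap (eplus e) := by
  have key : ∀ a b : ℕ, eplus e (tt k a) * eplus e (tt k b) - eplus e (tt k b) * eplus e (tt k a) =
      eplus e (tt k a * Dt (tt k b) - tt k b * Dt (tt k a)) := by
    intro a b
    have hA : ∀ a : ℕ, embZ (tt k a) = tt k (a : ℤ) := fun a => embZ_mon _
    have hD : ∀ a : ℕ, embZ (Dt (tt k a)) = Dt (tt k (a : ℤ)) := fun a => by
      rw [Dt, embZ_dd, hA]; rfl
    simp only [eplus_apply, map_sub, map_mul, hA, hD]
    rw [h, ← map_sub, bracket_tt, map_smul]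
    have h0 : (if (a : ℤ) + b = 2 then κ * (((a : ℤ) * (a - 1) * (a - 2) : ℤ) : k) else 0) = 0 := by
      split_ifs with h2
      · have : (a : ℤ) = 0 ∨ (a : ℤ) = 1 ∨ (a : ℤ) = 2 := by omega
        have h3 : ((a : ℤ) * (a - 1) * (a - 2) : ℤ) = 0 := by
          rcases this with h | h | h <;> rw [h] <;> norm_num
        rw [h3]; simp
      · rfl
    rw [h0, zero_smul, add_zero]
  intro f g
  refine mon_induction (P := fun f => eplus e f * eplus e g - eplus e g * eplus e f =
    eplus e (f * Dt g - g * Dt f)) f ?_ ?_ ?_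
  · simp
  · intro F G hF hG
    simp only [map_add, add_mul, mul_add]
    have : F * Dt g + G * Dt g - (g * Dt F + g * Dt G) =
      (F * Dt g - g * Dt F) + (G * Dt g - g * Dt G) := by abel
    rw [this, map_add, ← hF, ← hG]
    abel
  · intro c α
    refine mon_induction (P := fun g => eplus e (c • mon k α) * eplus e g -
      eplus e g * eplus e (c • mon k α) =
      eplus e ((c • mon k α) * Dt g - g * Dt (c • mon k α))) g ?_ ?_ ?_
    · simp
    · intro F G hF hG
      have : (c • mon k α) * Dt (F + G) - (F + G) * Dt (c • mon k α) =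
        ((c • mon k α) * Dt F - F * Dt (c • mon k α)) +
        ((c • mon k α) * Dt G - G * Dt (c • mon k α)) := by
        rw [map_add, mul_add, add_mul]; abel
      rw [this, map_add (eplus e) (_ - _), ← hF, ← hG, map_add, mul_add, add_mul]
      abel
    · intro d β
      have hk := key (α ()) (β ())
      rw [← mon_unit, ← mon_unit] at hk
      simp only [map_smul, smul_mul_assoc, mul_smul_comm]
      rw [smul_comm c d (eplus e (mon k β) * eplus e (mon k α)), ← smul_sub, ← smul_sub, hk,
        smul_comm c d (mon k β * Dt (mon k α)), ← smul_sub, ← smul_sub, map_smul, map_smul]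

theorem E_eplus (e : A k ℤ →ₗ[k] R) {n : ℕ} (F : B k ℕ (Fin n)) :
    E n (eplus e) F = E n e (embZ F) := by
  have : E n (eplus e) = E n e ∘ₗ (embZ : B k ℕ (Fin n) →ₐ[k] B k ℤ (Fin n)).toLinearMap := by
    refine lext fun α => ?_
    simp only [LinearMap.comp_apply, AlgHom.toLinearMap_apply, embZ_mon]
    simp only [E, EE, lin_mon]
    congr 1
    refine congrArg List.ofFn (funext fun l => ?_)
    rw [eplus_apply]
    exact congrArg e (embZ_mon _)
  exact congrArg (fun f => f F) this

theorem relLie_vir {κ : k} {e : A k ℤ →ₗ[k] R} (h : VirMap κ e) (C : ℕ) :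
    RelLie e {a : ℤ | (C : ℤ) + 3 ≤ a} {b : ℤ | -(C : ℤ) ≤ b} := by
  constructor
  · intro a ha b hb
    simp only [Set.mem_ofPred_eq] at ha hb
    rw [h, bracket_tt, map_smul, if_neg (by omega), zero_smul, add_zero]
  · intro a ha b hb c hc
    simp only [Set.mem_ofPred_eq] at ha hb ⊢
    change c = a + b - 1 at hc
    omega

end EmbBSec

section ResidSec

open scoped BigOperators

variable {k : Type u} [CommRing k] {R : Type w} [Ring R] [Algebra k R]

/-- the residue in the variable `X i` -/
noncomputable def Rs {n : ℕ} (i : Fin (n + 1)) : B k ℤ (Fin (n + 1)) →ₗ[k] B k ℤ (Fin n) :=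
  lin (fun α => if α i = -1 then mon k (fun l => α (i.succAbove l)) else 0)

/-- the coefficient of `X i ^ d` -/
noncomputable def cf {n : ℕ} (i : Fin (n + 1)) (d : ℕ) :
    B k ℕ (Fin (n + 1)) →ₗ[k] B k ℕ (Fin n) :=
  lin (fun α => if α i = d then mon k (fun l => α (i.succAbove l)) else 0)

/-- degree in `X i` at most `D` -/
def DegLe {n : ℕ} (i : Fin (n + 1)) (D : ℕ) (F : B k ℕ (Fin (n + 1))) : Prop :=
  ∀ d, D < d → cf i d F = 0

private theorem res_cf_mon {n : ℕ} (i : Fin (n + 1)) (d : ℕ) (α : Fin (n + 1) → ℕ) :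
    cf i d (mon k α) = if α i = d then mon k (fun l => α (i.succAbove l)) else 0 := by
  rw [cf, lin_mon]

private theorem res_push_self {n : ℕ} (i : Fin (n + 1)) (β : Fin n → ℕ) :
    push i.succAbove β i = 0 := by
  rw [push_apply]
  refine Finset.sum_eq_zero fun l _ => ?_
  rw [if_neg (Fin.succAbove_ne i l)]

private theorem res_push_other {n : ℕ} (i : Fin (n + 1)) (β : Fin n → ℕ) (l : Fin n) :
    push i.succAbove β (i.succAbove l) = β l := by
  rw [push_apply, Finset.sum_eq_single l]
  · rw [if_pos rfl]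
  · intro b _ hb
    rw [if_neg (fun h => hb (Fin.succAbove_right_injective h))]
  · intro h
    exact absurd (Finset.mem_univ _) h

private theorem res_prod_mon {n : ℕ} (i : Fin (n + 1)) (d : ℕ) (β : Fin n → ℕ) :
    inj i (tt k d) * pf i.succAbove (mon k β) =
      mon k ((Pi.single i d : Fin (n + 1) → ℕ) + push i.succAbove β) := by
  rw [inj_tt, pf_mon, mon_mul]

private theorem res_cf_prod {n : ℕ} (i : Fin (n + 1)) (d e : ℕ) (H : B k ℕ (Fin n)) :
    cf i e (inj i (tt k d) * pf i.succAbove H) = if d = e then H else 0 := by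
  have key : ∀ H : B k ℕ (Fin n), cf i e (inj i (tt k d) * pf i.succAbove H) =
      (if d = e then (1 : k) else 0) • H := by
    intro H
    induction H using mon_induction with
    | h0 => simp
    | hadd F G hF hG => rw [map_add, mul_add, map_add, hF, hG, smul_add]
    | hmon c β =>
      rw [map_smul, mul_smul_comm, map_smul, res_prod_mon, res_cf_mon]
      have h1 : ((Pi.single i d : Fin (n + 1) → ℕ) + push i.succAbove β) i = d := by
        rw [Pi.add_apply, Pi.single_eq_same, res_push_self, add_zero]
      have h2 : (fun l => ((Pi.single i d : Fin (n + 1) → ℕ) + push i.succAbove β)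
          (i.succAbove l)) = β := by
        funext l
        rw [Pi.add_apply, Pi.single_eq_of_ne (Fin.succAbove_ne i l), res_push_other, zero_add]
      rw [h1, h2]
      by_cases h : d = e
      · rw [if_pos h, if_pos h, one_smul]
      · rw [if_neg h, if_neg h, smul_zero, zero_smul]
  rw [key]
  by_cases h : d = e
  · rw [if_pos h, if_pos h, one_smul]
  · rw [if_neg h, if_neg h, zero_smul]

private theorem res_decomp0 {n : ℕ} (i : Fin (n + 1)) (F : B k ℕ (Fin (n + 1))) :
    ∃ N0 : ℕ, ∀ N, N0 ≤ N → F = ∑ d ∈ Finset.range N, inj i (tt k d) *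
      pf i.succAbove (cf i d F) := by
  induction F using mon_induction with
  | h0 => exact ⟨0, fun N _ => by simp⟩
  | hadd F G hF hG =>
    obtain ⟨N1, h1⟩ := hF
    obtain ⟨N2, h2⟩ := hG
    refine ⟨max N1 N2, fun N hN => ?_⟩
    have e1 := h1 N (le_trans (le_max_left _ _) hN)
    have e2 := h2 N (le_trans (le_max_right _ _) hN)
    have e3 : ∑ d ∈ Finset.range N, inj i (tt k d) * pf i.succAbove (cf i d (F + G)) =
        (∑ d ∈ Finset.range N, inj i (tt k d) * pf i.succAbove (cf i d F)) +
        ∑ d ∈ Finset.range N, inj i (tt k d) * pf i.succAbove (cf i d G) := by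
      rw [← Finset.sum_add_distrib]
      refine Finset.sum_congr rfl fun d _ => ?_
      rw [map_add, map_add, mul_add]
    rw [e3, ← e1, ← e2]
  | hmon c α =>
    refine ⟨α i + 1, fun N hN => ?_⟩
    rw [Finset.sum_eq_single (α i)]
    · rw [map_smul, map_smul, mul_smul_comm, res_cf_mon, if_pos rfl, res_prod_mon]
      congr 2
      funext j
      rcases Fin.eq_self_or_eq_succAbove i j with h | ⟨l, h⟩
      · rw [h, Pi.add_apply, Pi.single_eq_same, res_push_self, add_zero]
      · rw [h, Pi.add_apply, Pi.single_eq_of_ne (Fin.succAbove_ne i l), zero_add]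
        exact (res_push_other i (fun l => α (i.succAbove l)) l).symm
    · intro d _ hd
      rw [map_smul, res_cf_mon, if_neg (fun h => hd h.symm), smul_zero, map_zero, mul_zero]
    · intro h
      exact absurd (Finset.mem_range.2 (by omega)) h

private theorem res_decomp {n : ℕ} {i : Fin (n + 1)} {D : ℕ} {F : B k ℕ (Fin (n + 1))}
    (h : DegLe i D F) : F = ∑ d ∈ Finset.range (D + 1), inj i (tt k d) *
      pf i.succAbove (cf i d F) := by
  obtain ⟨N0, h0⟩ := res_decomp0 i F
  have h1 := h0 (max N0 (D + 1)) (le_max_left _ _)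
  have h2 : ∑ d ∈ Finset.range (D + 1), inj i (tt k d) * pf i.succAbove (cf i d F) =
      ∑ d ∈ Finset.range (max N0 (D + 1)), inj i (tt k d) * pf i.succAbove (cf i d F) := by
    refine Finset.sum_subset (Finset.range_mono (le_max_right _ _)) ?_
    intro d _ hd
    rw [h d (by
      rw [Finset.mem_range] at hd
      omega), map_zero, mul_zero]
  rw [h2]
  exact h1

private theorem res_cf_mul {n : ℕ} {i : Fin (n + 1)} {D D' : ℕ} {F G : B k ℕ (Fin (n + 1))}
    (h : DegLe i D F) (h' : DegLe i D' G) (e : ℕ) : cf i e (F * G) =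
      ∑ a ∈ Finset.range (D + 1), ∑ b ∈ Finset.range (D' + 1),
        if a + b = e then cf i a F * cf i b G else 0 := by
  have e1 : F * G = ∑ a ∈ Finset.range (D + 1), ∑ b ∈ Finset.range (D' + 1),
      (inj i (tt k (a + b)) * pf i.succAbove (cf i a F * cf i b G)) := by
    conv_lhs => rw [res_decomp h, res_decomp h']
    rw [Finset.sum_mul_sum]
    refine Finset.sum_congr rfl fun a _ => Finset.sum_congr rfl fun b _ => ?_
    rw [← tt_mul, map_mul, map_mul]
    ring
  rw [e1, map_sum]
  refine Finset.sum_congr rfl fun a _ => ?_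
  rw [map_sum]
  exact Finset.sum_congr rfl fun b _ => res_cf_prod i (a + b) e _

theorem Rs_emb {n : ℕ} (i : Fin (n + 1)) (d : ℕ) (Q : B k ℕ (Fin (n + 1))) :
    Rs i (inj i (tt k (-(d : ℤ) - 1)) * embZ Q) = embZ (cf i d Q) := by
  induction Q using mon_induction with
  | h0 => simp
  | hadd F G hF hG => rw [map_add, mul_add, map_add, hF, hG, map_add, map_add]
  | hmon c α =>
    rw [map_smul, mul_smul_comm, map_smul, map_smul, map_smul]
    congr 1
    rw [embZ_mon, inj_tt, mon_mul, Rs, lin_mon, res_cf_mon]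
    have h1 : ((Pi.single i (-(d : ℤ) - 1) : Fin (n + 1) → ℤ) + fun j => (α j : ℤ)) i =
        -(d : ℤ) - 1 + (α i : ℤ) := by
      rw [Pi.add_apply, Pi.single_eq_same]
    have h2 : (fun l => ((Pi.single i (-(d : ℤ) - 1) : Fin (n + 1) → ℤ) + fun j => (α j : ℤ))
        (i.succAbove l)) = fun l => ((α (i.succAbove l) : ℕ) : ℤ) := by
      funext l
      rw [Pi.add_apply, Pi.single_eq_of_ne (Fin.succAbove_ne i l), zero_add]
    rw [h1, h2]
    by_cases h : α i = d
    · rw [if_pos h, if_pos (by omega), embZ_mon]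
    · rw [if_neg h, if_neg (by omega), map_zero]

theorem DegLe.mono {n : ℕ} {i : Fin (n + 1)} {D D' : ℕ} {F : B k ℕ (Fin (n + 1))}
    (h : DegLe i D F) (hD : D ≤ D') : DegLe i D' F := fun d hd => h d (lt_of_le_of_lt hD hd)

/-- Hint: `DegLe i D F` means that all monomials of `F` have `α i ≤ D` (`cf i d` is injective on the span
of the monomials with `α i = d`); then bilinear. -/
theorem DegLe.mul {n : ℕ} {i : Fin (n + 1)} {D D' : ℕ} {F G : B k ℕ (Fin (n + 1))}
    (h : DegLe i D F) (h' : DegLe i D' G) : DegLe i (D + D') (F * G) := by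
  intro d hd
  rw [res_cf_mul h h' d]
  refine Finset.sum_eq_zero fun a ha => Finset.sum_eq_zero fun b hb => ?_
  rw [Finset.mem_range] at ha hb
  rw [if_neg (by omega)]

theorem cf_mul_top {n : ℕ} {i : Fin (n + 1)} {D D' : ℕ} {F G : B k ℕ (Fin (n + 1))}
    (h : DegLe i D F) (h' : DegLe i D' G) : cf i (D + D') (F * G) = cf i D F * cf i D' G := by
  rw [res_cf_mul h h', Finset.sum_eq_single D, Finset.sum_eq_single D', if_pos rfl]
  · intro b hb hbD
    rw [if_neg (by omega)]
  · intro hb
    exact absurd (Finset.mem_range.2 (by omega)) hb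
  · intro a ha haD
    refine Finset.sum_eq_zero fun b hb => ?_
    rw [Finset.mem_range] at ha hb
    rw [if_neg (by omega)]
  · intro hb
    exact absurd (Finset.mem_range.2 (by omega)) hb

theorem DegLe.add {n : ℕ} {i : Fin (n + 1)} {D : ℕ} {F G : B k ℕ (Fin (n + 1))}
    (h : DegLe i D F) (h' : DegLe i D G) : DegLe i D (F + G) := fun d hd => by
  rw [map_add, h d hd, h' d hd, add_zero]

theorem DegLe.smul {n : ℕ} {i : Fin (n + 1)} {D : ℕ} {F : B k ℕ (Fin (n + 1))} (c : k)
    (h : DegLe i D F) : DegLe i D (c • F) := fun d hd => by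
  rw [map_smul, h d hd, smul_zero]

/-- the variable `X i` and the other variables -/
theorem degLe_X_self {n : ℕ} (i : Fin (n + 1)) : DegLe i 1 (X i : B k ℕ (Fin (n + 1))) := by
  intro d hd
  have h1 : ((Pi.single i (Expo.one : ℕ) : Fin (n + 1) → ℕ)) i = 1 := by
    rw [Pi.single_eq_same]
    rfl
  rw [X, res_cf_mon, h1, if_neg (by omega)]

theorem cf_X_self {n : ℕ} (i : Fin (n + 1)) : cf i 1 (X i : B k ℕ (Fin (n + 1))) = 1 := by
  have h1 : ((Pi.single i (Expo.one : ℕ) : Fin (n + 1) → ℕ)) i = 1 := by
    rw [Pi.single_eq_same]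
    rfl
  rw [X, res_cf_mon, h1, if_pos rfl, ← mon_zero]
  congr 1
  funext l
  rw [Pi.single_eq_of_ne (Fin.succAbove_ne i l)]
  rfl

private theorem res_cf_other {n : ℕ} (i : Fin (n + 1)) (e : ℕ) (F : B k ℕ (Fin n)) :
    cf i e (pf i.succAbove F) = if 0 = e then F else 0 := by
  have h1 := res_cf_prod i 0 e F
  rw [tt_zero, map_one, one_mul] at h1
  exact h1

/-- polynomials in the other variables -/
theorem degLe_other {n : ℕ} (i : Fin (n + 1)) (F : B k ℕ (Fin n)) :
    DegLe i 0 (pf i.succAbove F) := by
  intro d hd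
  rw [res_cf_other, if_neg (by omega)]

theorem cf_other {n : ℕ} (i : Fin (n + 1)) (F : B k ℕ (Fin n)) : cf i 0 (pf i.succAbove F) = F := by
  rw [res_cf_other, if_pos rfl]

/-- the difference of `X i` and another variable: degree 1, leading coefficient 1 -/
theorem diff_top {n : ℕ} {i j : Fin (n + 1)} (hij : j ≠ i) :
    DegLe i 1 (X i - X j : B k ℕ (Fin (n + 1))) ∧ cf i 1 (X i - X j : B k ℕ (Fin (n + 1))) = 1 := by
  obtain ⟨l, rfl⟩ := Fin.exists_succAbove_eq hij
  have h1 : (X (i.succAbove l) : B k ℕ (Fin (n + 1))) = pf i.succAbove (X l) := (pf_X _ _).symm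
  rw [h1]
  constructor
  · intro d hd
    rw [map_sub, degLe_X_self i d hd, res_cf_other, if_neg (by omega), sub_zero]
  · rw [map_sub, cf_X_self, res_cf_other, if_neg (by omega), sub_zero]

end ResidSec

section VirCommSec

open scoped BigOperators

variable {k : Type u} [CommRing k] {R : Type w} [Ring R] [Algebra k R]

/-- commutator of an element with a word whose letters have given commutators with it -/
private theorem vc_word {n : ℕ} (x : Fin (n + 1) → R) (y : R) (z : Fin (n + 1) → R)
    (c d : Fin (n + 1) → k) (h : ∀ i, y * x i - x i * y = c i • z i + d i • (1 : R)) :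
    y * (List.ofFn x).prod - (List.ofFn x).prod * y =
      ∑ i, c i • (List.ofFn (Function.update x i (z i))).prod +
        ∑ i, d i • (List.ofFn (fun l => x (i.succAbove l))).prod := by
  induction n with
  | zero =>
    rw [Fin.sum_univ_one, Fin.sum_univ_one]
    simp only [List.ofFn_succ, List.ofFn_zero, List.prod_cons, List.prod_nil, mul_one]
    rw [h 0]
    simp
  | succ n ih =>
    have h1 := ih (fun l => x l.succ) (fun l => z l.succ) (fun l => c l.succ) (fun l => d l.succ)
      (fun i => h i.succ)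
    rw [Fin.sum_univ_succ, Fin.sum_univ_succ (fun i => d i • (List.ofFn (fun l => x (i.succAbove l))).prod)]
    have e1 : (List.ofFn x).prod = x 0 * (List.ofFn fun l => x l.succ).prod := by
      rw [List.ofFn_succ, List.prod_cons]
    have e2 : (List.ofFn (Function.update x 0 (z 0))).prod = z 0 * (List.ofFn fun l => x l.succ).prod := by
      rw [List.ofFn_succ, List.prod_cons, Function.update_self]
      congr 3
    have e3 : ∀ i : Fin (n + 1), (List.ofFn (Function.update x i.succ (z i.succ))).prod =
        x 0 * (List.ofFn (Function.update (fun l => x l.succ) i (z i.succ))).prod := by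
      intro i
      rw [List.ofFn_succ, List.prod_cons, Function.update_of_ne (Fin.succ_ne_zero i).symm]
      congr 3
      funext l
      by_cases hl : l = i
      · subst hl
        rw [Function.update_self, Function.update_self]
      · rw [Function.update_of_ne hl, Function.update_of_ne (fun hh => hl (Fin.succ_injective _ hh))]
    have e4 : (List.ofFn (fun l : Fin (n + 1) => x ((0 : Fin (n + 2)).succAbove l))).prod =
        (List.ofFn fun l => x l.succ).prod := by
      simp only [Fin.zero_succAbove]
    have e5 : ∀ i : Fin (n + 1), (List.ofFn (fun l : Fin (n + 1) => x (i.succ.succAbove l))).prod =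
        x 0 * (List.ofFn (fun l => x (i.succAbove l).succ)).prod := by
      intro i
      rw [List.ofFn_succ, List.prod_cons]
      simp only [Fin.succ_succAbove_zero, Fin.succ_succAbove_succ]
    rw [e1, e2, e4]
    simp only [e3, e5]
    have h2 : y * (x 0 * (List.ofFn fun l => x l.succ).prod) -
        x 0 * (List.ofFn fun l => x l.succ).prod * y =
        (y * x 0 - x 0 * y) * (List.ofFn fun l => x l.succ).prod +
          x 0 * (y * (List.ofFn fun l => x l.succ).prod - (List.ofFn fun l => x l.succ).prod * y) := by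
      noncomm_ring
    rw [h2, h 0, h1, mul_add, Finset.mul_sum, Finset.mul_sum, add_mul, smul_mul_assoc,
      smul_mul_assoc, one_mul]
    simp only [mul_smul_comm]
    abel

/-- the commutator of the letter `y` with the word in the `x` -/
noncomputable def CM (e : A k ℤ →ₗ[k] R) (n : ℕ) : B k ℤ (Option (Fin n)) →ₗ[k] R :=
  lin (fun γ => e (tt k (γ none)) * E n e (mon k (fun i => γ (some i))) -
    E n e (mon k (fun i => γ (some i))) * e (tt k (γ none)))

theorem CM_apply (e : A k ℤ →ₗ[k] R) (n : ℕ) (f : A k ℤ) (F : B k ℤ (Fin n)) :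
    CM e n (inj none f * pf some F) = e f * E n e F - E n e F * e f := by
  have key : ∀ (a : ℤ) (α : Fin n → ℤ), CM e n (inj none (tt k a) * pf some (mon k α)) =
      e (tt k a) * E n e (mon k α) - E n e (mon k α) * e (tt k a) := by
    intro a α
    have h1 : (inj none (tt k a) * pf some (mon k α) : B k ℤ (Option (Fin n))) =
        mon k (fun o : Option (Fin n) => o.elim a α) := by
      rw [inj_tt, pf_mon, mon_mul]
      congr 1
      funext o
      rw [Pi.add_apply, push_apply]
      cases o with
      | none => simp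
      | some j => simp
    rw [h1, CM, lin_mon]
    rfl
  induction f using mon_induction with
  | h0 => simp
  | hadd f g hf hg =>
    rw [map_add, add_mul, map_add, hf, hg, map_add, add_mul, mul_add]
    abel
  | hmon c β =>
    rw [map_smul, smul_mul_assoc, map_smul, map_smul, smul_mul_assoc, mul_smul_comm, ← smul_sub]
    congr 1
    rw [mon_unit]
    induction F using mon_induction with
    | h0 => simp
    | hadd F G hF hG =>
      rw [map_add, mul_add, map_add, hF, hG, map_add, mul_add, add_mul]
      abel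
    | hmon c α =>
      rw [map_smul, mul_smul_comm, map_smul, map_smul, smul_mul_assoc, mul_smul_comm, ← smul_sub,
        key]

/-- Commutator of a letter and a word for a Virasoro type map. Hint: on `mon γ`, by induction on the
length of the word (`List.ofFn_succ`, as in `ad_E_mon`): the commutator with each letter
`tt (α i)` gives `(α i - a) • ` the word with the letter replaced by `tt (a + α i - 1)` plus
`κ a (a-1) (a-2) [a + α i = 2]` times the word without this letter. -/
theorem CM_vir {κ : k} {e : A k ℤ →ₗ[k] R} (h : VirMap κ e) (n : ℕ)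
    (Z : B k ℤ (Option (Fin (n + 1)))) :
    CM e (n + 1) Z = E (n + 1) e (∑ i, ev i (dd (some i) Z - dd none Z)) +
      κ • ∑ i, E n e (Rs i (ev i (dd none (dd none (dd none Z))))) := by
  have key : CM e (n + 1) = E (n + 1) e ∘ₗ (∑ i, (ev i).toLinearMap ∘ₗ (dd (some i) - dd none)) +
      κ • ∑ i, E n e ∘ₗ Rs i ∘ₗ (ev i).toLinearMap ∘ₗ dd none ∘ₗ dd none ∘ₗ dd none := by
    refine lext fun γ => ?_
    set a : ℤ := γ none with ha
    set α : Fin (n + 1) → ℤ := fun i => γ (some i) with hα
    have h1 : CM e (n + 1) (mon k γ) =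
        e (tt k a) * (List.ofFn fun l => e (tt k (α l))).prod -
          (List.ofFn fun l => e (tt k (α l))).prod * e (tt k a) := by
      rw [CM, lin_mon, EE_mon]
    have h2 := vc_word (k := k) (fun l => e (tt k (α l))) (e (tt k a))
      (fun i => e (tt k (a + α i - 1))) (fun i => ((α i - a : ℤ) : k))
      (fun i => if a + α i = 2 then κ * ((a * (a - 1) * (a - 2) : ℤ) : k) else 0)
      (fun i => h a (α i))
    rw [h1, h2]
    -- the first sum
    have h3 : ∀ i : Fin (n + 1), (List.ofFn (Function.update (fun l => e (tt k (α l))) i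
        (e (tt k (a + α i - 1))))).prod = E (n + 1) e (mon k (Function.update α i (a + α i - 1))) := by
      intro i
      rw [EE_mon]
      congr 2
      funext l
      by_cases hl : l = i
      · subst hl
        rw [Function.update_self, Function.update_self]
      · rw [Function.update_of_ne hl, Function.update_of_ne hl]
    have h4 : ∀ (i : Fin (n + 1)) (δ : Option (Fin (n + 1)) → ℤ),
        ev i (mon k δ) = mon k (Function.update (fun l => δ (some l)) i (δ none + δ (some i))) := by
      intro i δ
      rw [ev, pf_mon]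
      congr 1
      funext l
      rw [push_apply, Fintype.sum_option]
      by_cases hl : l = i
      · subst hl
        rw [Function.update_self, Option.getD_none, if_pos rfl, Finset.sum_eq_single l]
        · simp
        · intro j _ hj
          simp [hj]
        · intro hh
          exact absurd (Finset.mem_univ l) hh
      · rw [Function.update_of_ne hl, Option.getD_none, if_neg (fun hh => hl hh.symm), zero_add,
          Finset.sum_eq_single l]
        · simp
        · intro j _ hj
          simp [hj]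
        · intro hh
          exact absurd (Finset.mem_univ l) hh
    have h5 : ∀ i : Fin (n + 1), ev i (dd (some i) (mon k γ) - dd none (mon k γ)) =
        ((α i - a : ℤ) : k) • mon k (Function.update α i (a + α i - 1)) := by
      intro i
      rw [map_sub, dd_mon, dd_mon, map_smul, map_smul, h4, h4]
      have e1 : (fun l => Function.update γ (some i) (Expo.pred (γ (some i))) (some l)) =
          Function.update α i (α i - 1) := by
        funext l
        by_cases hl : l = i
        · subst hl
          rw [Function.update_self, Function.update_self]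
          rfl
        · rw [Function.update_of_ne hl, Function.update_of_ne (fun hh => hl (Option.some_injective _ hh))]
      have e2 : (fun l : Fin (n + 1) => Function.update γ none (Expo.pred (γ none)) (some l)) = α := by
        funext l
        rw [Function.update_of_ne (by simp)]
      rw [e1, e2, Function.update_idem]
      have e3 : Function.update γ (some i) (Expo.pred (γ (some i))) none +
          Function.update γ (some i) (Expo.pred (γ (some i))) (some i) = a + α i - 1 := by
        rw [Function.update_self, Function.update_of_ne (by simp)]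
        change a + (α i - 1) = _
        ring
      have e4 : Function.update γ none (Expo.pred (γ none)) none +
          Function.update γ none (Expo.pred (γ none)) (some i) = a + α i - 1 := by
        rw [Function.update_self, Function.update_of_ne (by simp)]
        change (a - 1) + α i = _
        ring
      rw [e3, e4, ← sub_smul]
      congr 1
      change ((α i : ℤ) : k) - ((a : ℤ) : k) = _
      push_cast
      rfl
    -- the second sum
    have h6 : ∀ i : Fin (n + 1), E n e (Rs i (ev i (dd none (dd none (dd none (mon k γ)))))) =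
        if a + α i = 2 then ((a * (a - 1) * (a - 2) : ℤ) : k) •
          (List.ofFn (fun l => e (tt k (α (i.succAbove l))))).prod else 0 := by
      intro i
      have e1 : dd none (dd none (dd none (mon k γ))) =
          ((a * (a - 1) * (a - 2) : ℤ) : k) • mon k (Function.update γ none (a - 3)) := by
        rw [dd_mon, map_smul, dd_mon, map_smul, map_smul, dd_mon]
        simp only [Function.update_self, Function.update_idem, smul_smul]
        have e2 : (Expo.pred (Expo.pred (Expo.pred (γ none))) : ℤ) = a - 3 := by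
          change a - 1 - 1 - 1 = a - 3
          ring
        rw [e2]
        congr 1
        change ((a : ℤ) : k) * (((a - 1 : ℤ) : k) * ((a - 1 - 1 : ℤ) : k)) = _
        push_cast
        ring
      rw [e1, map_smul, h4, map_smul, map_smul]
      have e3 : (fun l : Fin (n + 1) => Function.update γ none (a - 3) (some l)) = α := by
        funext l
        rw [Function.update_of_ne (by simp)]
      have e4 : Function.update γ none (a - 3) none + Function.update γ none (a - 3) (some i) =
          a + α i - 3 := by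
        rw [Function.update_self, Function.update_of_ne (by simp)]
        change (a - 3) + α i = _
        ring
      rw [e3, e4, Rs, lin_mon, Function.update_self]
      by_cases h7 : a + α i = 2
      · rw [if_pos h7, if_pos (by omega), EE_mon]
        congr 3
        funext l
        rw [Function.update_of_ne (Fin.succAbove_ne i l)]
      · rw [if_neg h7, if_neg (by omega), map_zero, smul_zero]
    simp only [LinearMap.add_apply, LinearMap.comp_apply, LinearMap.smul_apply,
      LinearMap.sum_apply, LinearMap.sub_apply, AlgHom.toLinearMap_apply]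
    simp only [h5, h6, map_sum, map_smul, h3]
    rw [Finset.smul_sum]
    congr 1
    refine Finset.sum_congr rfl fun i _ => ?_
    by_cases h7 : a + α i = 2
    · rw [if_pos h7, if_pos h7, smul_smul]
    · rw [if_neg h7, if_neg h7, zero_smul, smul_zero]
  rw [key]
  simp only [LinearMap.add_apply, LinearMap.comp_apply, LinearMap.smul_apply,
      LinearMap.sum_apply, LinearMap.sub_apply, AlgHom.toLinearMap_apply]

end VirCommSec

section VirTopASec

open scoped BigOperators

variable {k : Type u} [CommRing k]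

/-- `∏_{j ≠ i} (x_i - x_j) ^ 2` -/
noncomputable def P0 (k : Type u) [CommRing k] {n : ℕ} (i : Fin (n + 1)) : B k ℕ (Fin (n + 1)) :=
  ∏ j ∈ Finset.univ.erase i, (X i - X j) ^ 2

/-- the derivative in `y` at `y = x_i` of `∏_{j ≠ i} (y - x_j) ^ 2` -/
noncomputable def P1 (k : Type u) [CommRing k] {n : ℕ} (i : Fin (n + 1)) : B k ℕ (Fin (n + 1)) :=
  ∑ j ∈ Finset.univ.erase i, 2 * (X i - X j) * ∏ l ∈ (Finset.univ.erase i).erase j, (X i - X l) ^ 2

/-- the symbol used in the proof of the Lemma V -/
noncomputable def Zb {n : ℕ} (F : B k ℕ (Fin (n + 1))) (b : ℤ) : B k ℤ (Option (Fin (n + 1))) :=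
  chi k ℤ (n + 1) ^ 2 * pf some (embZ F) * inj none (tt k b)

private theorem virTopA_dd_prod {ι σ : Type} [DecidableEq ι] [DecidableEq σ] (o : ι)
    (s : Finset σ) (G : σ → B k ℤ ι) :
    dd o (∏ j ∈ s, G j) = ∑ j ∈ s, dd o (G j) * ∏ l ∈ s.erase j, G l := by
  induction s using Finset.induction_on with
  | empty => simp [dd_one]
  | insert a s ha ih =>
    rw [Finset.prod_insert ha, dd_mul, ih, Finset.sum_insert ha, Finset.erase_insert ha,
      Finset.mul_sum]
    congr 1
    refine Finset.sum_congr rfl fun j hj => ?_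
    have hja : a ≠ j := fun h => ha (h ▸ hj)
    rw [Finset.erase_insert_of_ne hja, Finset.prod_insert (fun h => ha (Finset.mem_of_mem_erase h))]
    ring

private theorem virTopA_ev_D {n : ℕ} (i : Fin (n + 1)) :
    ev i (X none - X (some i) : B k ℤ (Option (Fin (n + 1)))) = 0 := by
  rw [map_sub, ev_X_none, ev_X_some, sub_self]

/-- the cofactor of `(y - x_i) ^ 2` in `Zb` -/
private noncomputable def virTopA_Y {n : ℕ} (F : B k ℕ (Fin (n + 1))) (b : ℤ) (i : Fin (n + 1)) :
    B k ℤ (Option (Fin (n + 1))) :=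
  (∏ j ∈ Finset.univ.erase i, (X none - X (some j)) ^ 2) * (pf some (embZ F) * inj none (tt k b))

private theorem virTopA_Zb {n : ℕ} (F : B k ℕ (Fin (n + 1))) (b : ℤ) (i : Fin (n + 1)) :
    Zb F b = (X none - X (some i)) ^ 2 * virTopA_Y F b i := by
  unfold Zb virTopA_Y chi
  rw [← Finset.mul_prod_erase Finset.univ
    (fun j => (X none - X (some j) : B k ℤ (Option (Fin (n + 1))))) (Finset.mem_univ i),
    mul_pow, Finset.prod_pow]
  ring

/-- the first order term vanishes: `(y - x_i) ^ 2` divides `Zb` -/
theorem Zb_first {n : ℕ} (F : B k ℕ (Fin (n + 1))) (b : ℤ) (i : Fin (n + 1)) :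
    ev i (dd (some i) (Zb F b) - dd none (Zb F b)) = 0 := by
  have h : ∀ o : Option (Fin (n + 1)), ev i (dd o (Zb F b)) = 0 := by
    intro o
    rw [virTopA_Zb F b i]
    have h1 : dd o ((X none - X (some i) : B k ℤ (Option (Fin (n + 1)))) ^ 2 * virTopA_Y F b i) =
        (X none - X (some i)) * (2 * dd o (X none - X (some i)) * virTopA_Y F b i +
          (X none - X (some i)) * dd o (virTopA_Y F b i)) := by
      rw [dd_mul, pow_two, dd_mul]; ring
    rw [h1, map_mul, virTopA_ev_D, zero_mul]
  rw [map_sub, h, h, sub_zero]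

private theorem virTopA_third {n : ℕ} (i : Fin (n + 1)) (Y : B k ℤ (Option (Fin (n + 1)))) :
    ev i (dd none (dd none (dd none ((X none - X (some i)) ^ 2 * Y)))) =
      6 * ev i (dd none Y) := by
  have hD : dd none (X none - X (some i) : B k ℤ (Option (Fin (n + 1)))) = 1 := by
    rw [map_sub, dd_X, dd_X]; simp
  set D : B k ℤ (Option (Fin (n + 1))) := X none - X (some i) with hDdef
  have h1 : dd none (D ^ 2 * Y) = D * (Y + Y) + D * (D * dd none Y) := by
    rw [dd_mul, pow_two, dd_mul, hD]; ring
  have h2 : dd none (D * (Y + Y) + D * (D * dd none Y)) =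
      (Y + Y) + D * (dd none Y + dd none Y + dd none Y + dd none Y) +
        D * (D * dd none (dd none Y)) := by
    rw [map_add, dd_mul, dd_mul, dd_mul, hD, map_add]; ring
  have h3 : dd none ((Y + Y) + D * (dd none Y + dd none Y + dd none Y + dd none Y) +
        D * (D * dd none (dd none Y))) = 6 * dd none Y +
        D * (6 * dd none (dd none Y) + D * dd none (dd none (dd none Y))) := by
    rw [map_add, map_add, map_add, dd_mul, dd_mul, dd_mul, hD]
    simp only [map_add]
    ring
  rw [h1, h2, h3, map_add, map_mul, map_mul, hDdef, virTopA_ev_D, zero_mul, add_zero, map_ofNat]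

private theorem virTopA_embZ_P0 {n : ℕ} (i : Fin (n + 1)) :
    embZ (P0 k i) = ∏ j ∈ Finset.univ.erase i, (X i - X j : B k ℤ (Fin (n + 1))) ^ 2 := by
  unfold P0
  rw [map_prod]
  refine Finset.prod_congr rfl fun j _ => ?_
  rw [map_pow, map_sub, embZ_X, embZ_X]

private theorem virTopA_embZ_P1 {n : ℕ} (i : Fin (n + 1)) :
    embZ (P1 k i) = ∑ j ∈ Finset.univ.erase i, 2 * (X i - X j) *
      ∏ l ∈ (Finset.univ.erase i).erase j, (X i - X l : B k ℤ (Fin (n + 1))) ^ 2 := by
  unfold P1
  rw [map_sum]
  refine Finset.sum_congr rfl fun j _ => ?_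
  rw [map_mul, map_mul, map_sub, embZ_X, embZ_X, map_prod, map_ofNat]
  congr 1
  refine Finset.prod_congr rfl fun l _ => ?_
  rw [map_pow, map_sub, embZ_X, embZ_X]

private theorem virTopA_ev_Y {n : ℕ} (F : B k ℕ (Fin (n + 1))) (b : ℤ) (i : Fin (n + 1)) :
    ev i (dd none (virTopA_Y F b i)) =
      inj i (tt k (b - 1)) * embZ (F * (((b : k)) • P0 k i + X i * P1 k i)) := by
  have hprod : dd none (∏ j ∈ Finset.univ.erase i,
      (X none - X (some j) : B k ℤ (Option (Fin (n + 1)))) ^ 2) =
      ∑ j ∈ Finset.univ.erase i, 2 * (X none - X (some j)) *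
        ∏ l ∈ (Finset.univ.erase i).erase j, (X none - X (some l)) ^ 2 := by
    rw [virTopA_dd_prod]
    refine Finset.sum_congr rfl fun j _ => ?_
    have hD : dd none (X none - X (some j) : B k ℤ (Option (Fin (n + 1)))) = 1 := by
      rw [map_sub, dd_X, dd_X]; simp
    rw [pow_two, dd_mul, hD]
    ring
  have hF : dd none (pf some (embZ F) : B k ℤ (Option (Fin (n + 1)))) = 0 := by
    rw [dd_pf]
    refine Finset.sum_eq_zero fun j _ => ?_
    simp
  have hb : dd none (inj none (tt k b) : B k ℤ (Option (Fin (n + 1)))) =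
      (b : k) • inj none (tt k (b - 1)) := by
    rw [dd_inj, if_pos rfl, Dt, tt, dd_mon, ← map_smul]
    congr 2
  have hXi : inj i (tt k b) = inj i (tt k (b - 1)) * (X i : B k ℤ (Fin (n + 1))) := by
    rw [X_eq_inj, ← map_mul, tt_mul]
    congr 2
    change b = b - 1 + 1
    ring
  unfold virTopA_Y
  rw [dd_mul, dd_mul, hprod, hF, hb, zero_mul, zero_add, map_add, map_mul, map_mul, map_mul,
    map_mul, map_sum, map_prod, map_smul, ev_pf_some, ev_inj_none, ev_inj_none]
  simp only [map_mul, map_pow, map_sub, map_prod, ev_X_none, ev_X_some, map_ofNat]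
  rw [← virTopA_embZ_P1, ← virTopA_embZ_P0, hXi, map_add, map_smul, map_mul, embZ_X]
  simp only [mul_smul_comm, mul_add]
  refine (add_comm _ _).trans ?_
  congr 1
  · congr 1
    ring
  · ring

/-- Hint: `Zb F b = (y - x_i) ^ 2 * Y` and `ev i (dd none^3 ((y - x_i)^2 Y)) = 6 ev i (dd none Y)`. -/
theorem Zb_third {n : ℕ} (F : B k ℕ (Fin (n + 1))) (b : ℤ) (i : Fin (n + 1)) :
    ev i (dd none (dd none (dd none (Zb F b)))) =
      (6 : k) • (inj i (tt k (b - 1)) * embZ (F * (((b : k)) • P0 k i + X i * P1 k i))) := by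
  have h6 : ∀ x : B k ℤ (Fin (n + 1)), (6 : B k ℤ (Fin (n + 1))) * x = (6 : k) • x :=
    fun x => by rw [Algebra.smul_def, map_ofNat]
  rw [virTopA_Zb F b i, virTopA_third, virTopA_ev_Y, h6]

end VirTopASec

section VirTopBSec

open scoped BigOperators

variable {k : Type u} [CommRing k]

private theorem one_top {n : ℕ} (i : Fin (n + 1)) :
    DegLe i 0 (1 : B k ℕ (Fin (n + 1))) ∧ cf i 0 (1 : B k ℕ (Fin (n + 1))) = 1 := by
  have h1 := degLe_other i (1 : B k ℕ (Fin n))
  have h2 := cf_other i (1 : B k ℕ (Fin n))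
  rw [map_one] at h1 h2
  exact ⟨h1, h2⟩

private theorem prod_top {n : ℕ} (i : Fin (n + 1)) {σ : Type*} (s : Finset σ)
    (f : σ → B k ℕ (Fin (n + 1))) (g : σ → B k ℕ (Fin n)) (D : ℕ)
    (h : ∀ j ∈ s, DegLe i D (f j) ∧ cf i D (f j) = g j) :
    DegLe i (s.card * D) (∏ j ∈ s, f j) ∧ cf i (s.card * D) (∏ j ∈ s, f j) = ∏ j ∈ s, g j := by
  classical
  induction s using Finset.induction_on with
  | empty => simpa using one_top i
  | insert a s ha ih =>
    have ih' := ih fun j hj => h j (Finset.mem_insert_of_mem hj)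
    have h0 := h a (Finset.mem_insert_self a s)
    have hc : (insert a s).card * D = D + s.card * D := by
      rw [Finset.card_insert_of_notMem ha]; ring
    rw [Finset.prod_insert ha, Finset.prod_insert ha, hc]
    exact ⟨h0.1.mul ih'.1, by rw [cf_mul_top h0.1 ih'.1, h0.2, ih'.2]⟩

private theorem mul_top {n : ℕ} {i : Fin (n + 1)} {D D' D'' : ℕ} {F G : B k ℕ (Fin (n + 1))}
    {f g : B k ℕ (Fin n)} (h : DegLe i D F ∧ cf i D F = f) (h' : DegLe i D' G ∧ cf i D' G = g)
    (hD : D + D' = D'') : DegLe i D'' (F * G) ∧ cf i D'' (F * G) = f * g := by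
  subst hD
  exact ⟨h.1.mul h'.1, by rw [cf_mul_top h.1 h'.1, h.2, h'.2]⟩

private theorem sum_top {n : ℕ} (i : Fin (n + 1)) {σ : Type*} (s : Finset σ)
    (f : σ → B k ℕ (Fin (n + 1))) (g : σ → B k ℕ (Fin n)) (D : ℕ)
    (h : ∀ j ∈ s, DegLe i D (f j) ∧ cf i D (f j) = g j) :
    DegLe i D (∑ j ∈ s, f j) ∧ cf i D (∑ j ∈ s, f j) = ∑ j ∈ s, g j := by
  refine ⟨fun d hd => ?_, ?_⟩
  · rw [map_sum]
    exact Finset.sum_eq_zero fun j hj => (h j hj).1 d hd
  · rw [map_sum]
    exact Finset.sum_congr rfl fun j hj => (h j hj).2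

/-- Hint: `diff_top`, `cf_mul_top` for the products. -/
theorem P_top {n : ℕ} (i : Fin (n + 1)) :
    DegLe i (2 * n) (P0 k i) ∧ cf i (2 * n) (P0 k i) = 1 ∧
      DegLe i (2 * n) (X i * P1 k i) ∧ cf i (2 * n) (X i * P1 k i) = ((2 * n : ℕ) : k) • 1 := by
  have hsq : ∀ j : Fin (n + 1), j ≠ i → DegLe i 2 ((X i - X j : B k ℕ (Fin (n + 1))) ^ 2) ∧
      cf i 2 ((X i - X j : B k ℕ (Fin (n + 1))) ^ 2) = 1 := by
    intro j hj
    have h1 := diff_top (k := k) hj
    have h2 := mul_top (D'' := 2) h1 h1 rfl
    rw [mul_one] at h2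
    rw [sq]
    exact h2
  have hcard : (Finset.univ.erase i).card = n := by
    rw [Finset.card_erase_of_mem (Finset.mem_univ i), Finset.card_univ, Fintype.card_fin]
    rfl
  have h0 := prod_top i (Finset.univ.erase i) (fun j => (X i - X j : B k ℕ (Fin (n + 1))) ^ 2)
    (fun _ => 1) 2 (fun j hj => hsq j (Finset.ne_of_mem_erase hj))
  rw [hcard, mul_comm n 2, Finset.prod_const_one] at h0
  have h1 : ∀ j ∈ Finset.univ.erase i, DegLe i (2 * n) (X i * (2 * (X i - X j) *
      ∏ l ∈ (Finset.univ.erase i).erase j, (X i - X l) ^ 2 : B k ℕ (Fin (n + 1)))) ∧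
      cf i (2 * n) (X i * (2 * (X i - X j) *
      ∏ l ∈ (Finset.univ.erase i).erase j, (X i - X l) ^ 2 : B k ℕ (Fin (n + 1)))) = 2 := by
    intro j hj
    have hc2 : ((Finset.univ.erase i).erase j).card = n - 1 := by
      rw [Finset.card_erase_of_mem hj, hcard]
    have hn : 1 ≤ n := by
      rw [← hcard]
      exact Finset.card_pos.mpr ⟨j, hj⟩
    have h3 := prod_top i ((Finset.univ.erase i).erase j)
      (fun l => (X i - X l : B k ℕ (Fin (n + 1))) ^ 2)
      (fun _ => 1) 2 (fun l hl => hsq l (Finset.ne_of_mem_erase (Finset.mem_of_mem_erase hl)))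
    rw [hc2, Finset.prod_const_one] at h3
    have h4 := diff_top (k := k) (Finset.ne_of_mem_erase hj)
    have htwo : DegLe i 0 (2 : B k ℕ (Fin (n + 1))) ∧ cf i 0 (2 : B k ℕ (Fin (n + 1))) = 2 := by
      have h5 := sum_top i (Finset.univ : Finset (Fin 2)) (fun _ => (1 : B k ℕ (Fin (n + 1))))
        (fun _ => 1) 0 (fun _ _ => one_top i)
      simp only [Fin.sum_univ_two, one_add_one_eq_two] at h5
      exact h5
    have h6 := mul_top (D'' := 2 * n) (⟨degLe_X_self i, cf_X_self i⟩ : _ ∧ _)
      (mul_top (D'' := 1 + (n - 1) * 2) (mul_top (D'' := 1) htwo h4 rfl) h3 rfl) (by omega)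
    rw [one_mul, mul_one, mul_one] at h6
    exact h6
  have h2 := sum_top i (Finset.univ.erase i) _ (fun _ => 2) (2 * n) h1
  have hX : (X i * P1 k i : B k ℕ (Fin (n + 1))) = ∑ j ∈ Finset.univ.erase i,
      X i * (2 * (X i - X j) * ∏ l ∈ (Finset.univ.erase i).erase j, (X i - X l) ^ 2) := by
    rw [P1, Finset.mul_sum]
  refine ⟨h0.1, h0.2, ?_, ?_⟩
  · rw [hX]; exact h2.1
  · rw [hX, h2.2, Finset.sum_const, hcard]
    rw [nsmul_eq_mul, Nat.cast_mul, Algebra.smul_def, mul_one, map_mul, map_natCast, map_natCast,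
      Nat.cast_ofNat]
    ring

private theorem neg_top {n : ℕ} {i j : Fin (n + 1)} (hij : j ≠ i) :
    DegLe i 1 (X j - X i : B k ℕ (Fin (n + 1))) ∧
      cf i 1 (X j - X i : B k ℕ (Fin (n + 1))) = -1 := by
  have h := diff_top (k := k) hij
  have h1 : (X j - X i : B k ℕ (Fin (n + 1))) = (-1 : k) • (X i - X j) := by
    rw [neg_smul, one_smul, neg_sub]
  rw [h1]
  exact ⟨h.1.smul _, by rw [map_smul, h.2, neg_smul, one_smul]⟩

/-- the Vandermonde product with the variable `i` moved to the end -/
private theorem snoc_top {n : ℕ} (i : Fin (n + 1)) :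
    DegLe i n (vand (Fin.snoc (fun l => X (i.succAbove l)) (X i) :
      Fin (n + 1) → B k ℕ (Fin (n + 1)))) ∧
    cf i n (vand (Fin.snoc (fun l => X (i.succAbove l)) (X i) :
      Fin (n + 1) → B k ℕ (Fin (n + 1)))) = ((-1 : k) ^ n) • Delta k ℕ n := by
  rw [vand_snoc]
  have h1 : (vand (fun l => X (i.succAbove l)) : B k ℕ (Fin (n + 1))) =
      pf i.succAbove (Delta k ℕ n) := by
    have := map_vand (pf i.succAbove : B k ℕ (Fin n) →ₐ[k] B k ℕ (Fin (n + 1))).toRingHom
      (fun l => X l)
    simp only [AlgHom.toRingHom_eq_coe, RingHom.coe_coe, pf_X] at this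
    rw [Delta, this]
  have h2 := prod_top i Finset.univ
    (fun l : Fin n => (X (i.succAbove l) - X i : B k ℕ (Fin (n + 1))))
    (fun _ => -1) 1 (fun l _ => neg_top (Fin.succAbove_ne i l))
  rw [Finset.card_univ, Fintype.card_fin, mul_one, Finset.prod_const, Finset.card_univ,
    Fintype.card_fin] at h2
  have h3 := mul_top (D'' := n) ⟨degLe_other i (Delta k ℕ n), cf_other i (Delta k ℕ n)⟩ h2
    (zero_add n)
  rw [h1]
  refine ⟨h3.1, ?_⟩
  rw [h3.2, Algebra.smul_def, map_pow, map_neg, map_one, mul_comm]

/-- the Vandermonde product of `n + 1` variables: degree `n` in each, and leading coefficient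
`± Delta` in the last. Hint: `vand_snoc`; for the other variables count the factors. -/
theorem Delta_deg {n : ℕ} (i : Fin (n + 1)) : DegLe i n (Delta k ℕ (n + 1)) := by
  have hinj : Function.Injective (Fin.snoc i.succAbove i : Fin (n + 1) → Fin (n + 1)) := by
    intro a b hab
    induction a using Fin.lastCases with
    | last =>
      induction b using Fin.lastCases with
      | last => rfl
      | cast b =>
        rw [Fin.snoc_last, Fin.snoc_castSucc] at hab
        exact absurd hab.symm (Fin.succAbove_ne i b)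
    | cast a =>
      induction b using Fin.lastCases with
      | last =>
        rw [Fin.snoc_last, Fin.snoc_castSucc] at hab
        exact absurd hab (Fin.succAbove_ne i a)
      | cast b =>
        rw [Fin.snoc_castSucc, Fin.snoc_castSucc] at hab
        rw [Fin.succAbove_right_injective hab]
  let τ : Equiv.Perm (Fin (n + 1)) :=
    Equiv.ofBijective _ ((Finite.injective_iff_bijective).mp hinj)
  have hτ : (fun l => X (τ l) : Fin (n + 1) → B k ℕ (Fin (n + 1))) =
      Fin.snoc (fun l => X (i.succAbove l)) (X i) := by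
    funext l
    induction l using Fin.lastCases with
    | last =>
      rw [Fin.snoc_last]
      change X ((Fin.snoc i.succAbove i : Fin (n + 1) → Fin (n + 1)) (Fin.last n)) = _
      rw [Fin.snoc_last]
    | cast l =>
      rw [Fin.snoc_castSucc]
      change X ((Fin.snoc i.succAbove i : Fin (n + 1) → Fin (n + 1)) l.castSucc) = _
      rw [Fin.snoc_castSucc]
  have h1 := (snoc_top (k := k) i).1
  rw [← hτ] at h1
  rcases vand_perm (fun l => X l : Fin (n + 1) → B k ℕ (Fin (n + 1))) τ with h2 | h2
  · rw [h2] at h1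
    exact h1
  · rw [h2] at h1
    have h3 := h1.smul (-1 : k)
    rw [neg_smul, one_smul, neg_neg] at h3
    exact h3

theorem Delta_top (n : ℕ) :
    cf (Fin.last n) n (Delta k ℕ (n + 1)) = ((-1 : k) ^ n) • Delta k ℕ n := by
  have h1 := (snoc_top (k := k) (Fin.last n)).2
  have h2 : (Fin.snoc (fun l => X ((Fin.last n).succAbove l)) (X (Fin.last n)) :
      Fin (n + 1) → B k ℕ (Fin (n + 1))) = fun l => X l := by
    funext l
    induction l using Fin.lastCases with
    | last => rw [Fin.snoc_last]
    | cast l => rw [Fin.snoc_castSucc, Fin.succAbove_last]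
  rw [h2] at h1
  exact h1

end VirTopBSec

end W94
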