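import Mathlib

universe u

namespace W94

section VirExistSec

/-- The Virasoro algebra as a concrete Lie algebra: pairs of a finitely supported function on `ℤ`
(coefficients of the `e_n`) and a scalar (coefficient of `c`). -/
structure VirL (k : Type u) [Field k] : Type u where
  /-- the coefficients of the `e_n` -/
  w : ℤ →₀ k
  /-- the coefficient of `c` -/
  z : k

/-- the brackets of the basis vectors -/
noncomputable def veF (k : Type u) [Field k] : Option ℤ → Option ℤ → (Option ℤ →₀ k)
  | some i, some j => ((j - i : ℤ) : k) • Finsupp.single (some (i + j)) 1 +
      (if i + j = 0 then ((i ^ 3 - i : ℤ) : k) / 12 else 0) • Finsupp.single none 1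
  | _, _ => 0

/-- the bilinear bracket -/
noncomputable def veB (k : Type u) [Field k] :
    (Option ℤ →₀ k) →ₗ[k] (Option ℤ →₀ k) →ₗ[k] (Option ℤ →₀ k) :=
  Finsupp.linearCombination k (fun o => Finsupp.linearCombination k (fun p => veF k o p))

theorem veB_single (k : Type u) [Field k] (o p : Option ℤ) :
    veB k (Finsupp.single o 1) (Finsupp.single p 1) = veF k o p := by
  simp [veB]

theorem veF_skew (k : Type u) [Field k] [CharZero k] (o p : Option ℤ) :
    veF k o p = - veF k p o := by
  rcases o with _ | i
  · rcases p with _ | j
    · simp [veF]
    · simp [veF]
  · rcases p with _ | j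
    · simp [veF]
    · simp only [veF]
      rw [add_comm j i]
      have h1 : ((j - i : ℤ) : k) = - ((i - j : ℤ) : k) := by push_cast; ring
      have h2 : (if i + j = 0 then ((i ^ 3 - i : ℤ) : k) / 12 else 0) =
          - (if i + j = 0 then ((j ^ 3 - j : ℤ) : k) / 12 else 0) := by
        split_ifs with h
        · have : j = - i := by omega
          subst this
          push_cast
          ring
        · simp
      rw [h1, h2, neg_smul, neg_smul, neg_add]

theorem veB_skew (k : Type u) [Field k] [CharZero k] (x y : Option ℤ →₀ k) :
    veB k x y = - veB k y x := by
  have hs : ∀ (o : Option ℤ) (a : k),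
      (Finsupp.single o a : Option ℤ →₀ k) = a • Finsupp.single o 1 := by
    intro o a; simp
  induction x using Finsupp.induction_linear with
  | zero => simp
  | add a b ha hb => simp only [map_add, LinearMap.add_apply, ha, hb]; abel
  | single o a =>
    induction y using Finsupp.induction_linear with
    | zero => simp
    | add a b ha hb => simp only [map_add, LinearMap.add_apply, ha, hb]; abel
    | single p b =>
      rw [hs o a, hs p b]
      simp only [map_smul, LinearMap.smul_apply, veB_single]
      rw [veF_skew k o p]
      module

theorem veB_none (k : Type u) [Field k] [CharZero k] (x : Option ℤ →₀ k) :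
    veB k (Finsupp.single none 1) x = 0 := by
  induction x using Finsupp.induction_linear with
  | zero => simp
  | add a b ha hb => rw [map_add, ha, hb, add_zero]
  | single o a =>
    have h : (Finsupp.single o a : Option ℤ →₀ k) = a • Finsupp.single o 1 := by simp
    rw [h, map_smul, veB_single]
    simp [veF]

theorem veB_none' (k : Type u) [Field k] [CharZero k] (x : Option ℤ →₀ k) :
    veB k x (Finsupp.single none 1) = 0 := by
  rw [veB_skew, veB_none, neg_zero]

theorem veB_jac_single (k : Type u) [Field k] [CharZero k] (i j l : ℤ) :
    veB k (Finsupp.single (some i) 1) (veF k (some j) (some l)) =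
      veB k (veF k (some i) (some j)) (Finsupp.single (some l) 1) +
        veB k (Finsupp.single (some j) 1) (veF k (some i) (some l)) := by
  simp only [veF, map_add, map_smul, LinearMap.add_apply, LinearMap.smul_apply, veB_single,
    veB_none, veB_none', smul_zero, add_zero, smul_add, smul_smul]
  have e1 : i + j + l = i + (j + l) := by ring
  have e2 : j + (i + l) = i + (j + l) := by ring
  rw [e1, e2]
  rw [← sub_eq_zero]
  have key1 : ((l - j : ℤ) : k) * ((j + l - i : ℤ) : k) =
      ((j - i : ℤ) : k) * ((l - (i + j) : ℤ) : k) + ((l - i : ℤ) : k) * ((i + l - j : ℤ) : k) := by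
    push_cast; ring
  have key2 : ((l - j : ℤ) : k) *
        (if i + (j + l) = 0 then ((i ^ 3 - i : ℤ) : k) / 12 else 0) =
      ((j - i : ℤ) : k) *
        (if i + (j + l) = 0 then (((i + j) ^ 3 - (i + j) : ℤ) : k) / 12 else 0) +
      ((l - i : ℤ) : k) *
        (if i + (j + l) = 0 then ((j ^ 3 - j : ℤ) : k) / 12 else 0) := by
    split_ifs with h
    · have : l = - i - j := by omega
      subst this
      push_cast
      ring
    · simp
  rw [key1, key2]
  rw [add_smul, add_smul]
  abel

theorem veB_jac (k : Type u) [Field k] [CharZero k] (x y z : Option ℤ →₀ k) :
    veB k x (veB k y z) = veB k (veB k x y) z + veB k y (veB k x z) := by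
  have hs : ∀ (o : Option ℤ) (a : k),
      (Finsupp.single o a : Option ℤ →₀ k) = a • Finsupp.single o 1 := by
    intro o a; simp
  induction x using Finsupp.induction_linear with
  | zero => simp
  | add a b ha hb => simp only [map_add, LinearMap.add_apply, ha, hb]; abel
  | single o a =>
    induction y using Finsupp.induction_linear with
    | zero => simp
    | add a b ha hb => simp only [map_add, LinearMap.add_apply, ha, hb]; abel
    | single p b =>
      induction z using Finsupp.induction_linear with
      | zero => simp
      | add a b ha hb => simp only [map_add, ha, hb]; abel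
      | single q c =>
        rw [hs o a, hs p b, hs q c]
        simp only [map_smul, LinearMap.smul_apply]
        have J : veB k (Finsupp.single o 1) (veB k (Finsupp.single p 1) (Finsupp.single q 1)) =
            veB k (veB k (Finsupp.single o 1) (Finsupp.single p 1)) (Finsupp.single q 1) +
              veB k (Finsupp.single p 1)
                (veB k (Finsupp.single o 1) (Finsupp.single q 1)) := by
          rcases o with _ | i
          · simp only [veB_none, veB_none', map_zero, LinearMap.zero_apply, add_zero]
          · rcases p with _ | j
            · simp only [veB_none, veB_none', map_zero, LinearMap.zero_apply, add_zero]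
            · rcases q with _ | l
              · simp only [veB_none, veB_none', map_zero, LinearMap.zero_apply, add_zero]
              · simp only [veB_single]
                exact veB_jac_single k i j l
        rw [J]
        module

/-- Existence of the Virasoro algebra (a Lie algebra with the basis and the brackets of the
problem). Hint: give `(ℤ →₀ k) × k` (or the structure `VirL k`) the bracket
`⁅(x, s), (y, t)⁆ = (∑ x_i y_j (j - i) e_{i+j}, ∑ x_i y_{-i} (i^3 - i)/12)`, a bilinear map
(`Finsupp.lsum` twice); antisymmetry and the Jacobi identity on basis vectors by trilinearity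
(`ring`/`field_simp` after `split_ifs`); the basis from `Finsupp.basisSingleOne` and the
equivalence `(Option ℤ →₀ k) ≃ₗ (ℤ →₀ k) × k`. It may be simpler to put the structure directly on
`Option ℤ →₀ k`, wrapped in a structure or a type synonym. -/
theorem exists_virasoro (k : Type u) [Field k] [CharZero k] :
    ∃ (L : Type u) (_ : LieRing L) (_ : LieAlgebra k L) (b : Module.Basis (Option ℤ) k L),
      (∀ x : L, ⁅b none, x⁆ = 0) ∧
      (∀ i j : ℤ, ⁅b (some i), b (some j)⁆ =
        ((j - i : ℤ) : k) • b (some (i + j)) +
          (if i + j = 0 then ((i ^ 3 - i : ℤ) : k) / 12 else 0) • b none) := by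
  let LR : LieRing (Option ℤ →₀ k) :=
    { (inferInstance : AddCommGroup (Option ℤ →₀ k)) with
      bracket := fun x y => veB k x y
      add_lie := fun x y z => by
        change veB k (x + y) z = veB k x z + veB k y z
        rw [map_add, LinearMap.add_apply]
      lie_add := fun x y z => map_add (veB k x) y z
      lie_self := fun x => by
        change veB k x x = 0
        have h := veB_skew k x x
        have h2 : (2 : k) • veB k x x = 0 := by
          rw [two_smul]
          nth_rewrite 1 [h]
          simp
        exact (smul_eq_zero.1 h2).resolve_left two_ne_zero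
      leibniz_lie := fun x y z => veB_jac k x y z }
  let LA : LieAlgebra k (Option ℤ →₀ k) :=
    { (inferInstance : Module k (Option ℤ →₀ k)) with
      lie_smul := fun t x y => map_smul (veB k x) t y }
  refine ⟨Option ℤ →₀ k, LR, LA, Finsupp.basisSingleOne, ?_, ?_⟩
  · intro x
    change veB k (Finsupp.basisSingleOne none) x = 0
    rw [Finsupp.coe_basisSingleOne]
    exact veB_none k x
  · intro i j
    change veB k (Finsupp.basisSingleOne (some i)) (Finsupp.basisSingleOne (some j)) = _
    rw [Finsupp.coe_basisSingleOne]
    exact veB_single k (some i) (some j)

end VirExistSec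

end W94
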