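import Pool.Agent.LibWitt94.ClaimA
import Pool.Agent.LibWitt94.Cluster
import Pool.Agent.LibWitt94.VirComm

universe u w

namespace W94

section VirLocSec

open scoped BigOperators

variable {k : Type u} [CommRing k] {R : Type w} [Ring R] [Algebra k R]

/-- Hint: `crossF`, `sqF` are products of `X a - X b`, in the image of `embZ`. -/
theorem cross_sq_suppIn (s K : ℕ) :
    crossF k ℤ s K ∈ SuppIn k {a : ℤ | 0 ≤ a} ∧ sqF k ℤ s ∈ SuppIn k {a : ℤ | 0 ≤ a} := by
  have h1 : crossF k ℤ s K = embZ (crossF k ℕ s K) := by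
    unfold crossF
    rw [map_prod]
    refine Finset.prod_congr rfl fun a _ => ?_
    rw [map_prod]
    refine Finset.prod_congr rfl fun b _ => ?_
    split_ifs
    · rw [map_pow, map_sub, embZ_X, embZ_X]
    · rw [map_one]
  have h2 : sqF k ℤ s = embZ (sqF k ℕ s) := by
    unfold sqF
    rw [map_prod]
    refine Finset.prod_congr rfl fun p _ => ?_
    rw [map_pow, map_sub, embZ_X, embZ_X]
  rw [h1, h2]
  exact ⟨embZ_suppIn _, embZ_suppIn _⟩

/-- the product of all variables is a unit. -/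
private theorem prodX_pow_mul_cancel {s : ℕ} (c : ℕ) (F : B k ℤ (Fin s))
    (h : (∏ i, (X i : B k ℤ (Fin s))) ^ c * F = 0) : F = 0 := by
  have h1 : (∏ i, (X i : B k ℤ (Fin s))) ^ c = mon k (fun _ => (c : ℤ)) := by
    unfold X
    rw [mon_prod, mon_pow]
    congr 1
    funext j
    simp [Expo.one]
  have h2 : mon k (fun _ : Fin s => -(c : ℤ)) * mon k (fun _ => (c : ℤ)) = 1 := by
    rw [mon_mul, ← mon_zero]
    congr 1
    funext j
    simp
  rw [h1] at h
  calc F = mon k (fun _ : Fin s => -(c : ℤ)) * mon k (fun _ => (c : ℤ)) * F := by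
        rw [h2, one_mul]
    _ = 0 := by rw [mul_assoc, h, mul_zero]

/-- Locality from a relation, Virasoro version. Hint: `C` a common bound (`exists_bound`) for
`F 0, ..., F s` (replace `F j` by `0` for `j > s`), `K = 4 s + 4`; `pure_rel` with `relLie_vir` and
`Ξ = (∏ l, X l) ^ (C + 3) * pf (natAdd s) (embZ a)` (`suppIn_mul`, `prodX_suppIn`,
`cross_sq_suppIn`). `pf (σ ∘ cl) Ξ = (∏ i, X i) ^ (2 (C + 3)) * pf σ (embZ a)`. The element
`(∏ i, X i) ^ (2 (C + 3)) * F s` is `embZ F'` with `F' ≠ 0` symmetric (`exists_embZ`, `suppIn_mul`,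
`embZ_injective`, `embZ_pf`; monomials are units in the Laurent polynomials). Then `loc_of_sym` for
`eplus e`, `F'`, `2 m + 2 = 8 K`, with `E_eplus`. -/
theorem vir_loc [IsDomain k] [CharZero k] (htf : ∀ (c : k) (x : R), c • x = 0 → c = 0 ∨ x = 0)
    {κ : k} {e : A k ℤ →ₗ[k] R} (h : VirMap κ e) (s : ℕ) (F : ∀ j, B k ℤ (Fin j))
    (h0 : ∑ j ∈ Finset.range (s + 1), E j e (F j) = 0) (hs : F s ≠ 0)
    (hsym : ∀ σ : Equiv.Perm (Fin s), pf σ (F s) = F s) : ∃ N, Loc s N (eplus e) := by
  choose Cf hCf using fun j => exists_bound (F j)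
  set C : ℕ := ∑ j ∈ Finset.range (s + 1), Cf j with hC
  have hCle : ∀ j, j < s + 1 → Cf j ≤ C := fun j hj =>
    Finset.single_le_sum (f := Cf) (fun _ _ => Nat.zero_le _) (Finset.mem_range.2 hj)
  have hmono : ∀ {ι : Type} (a b : ℤ) (G : B k ℤ ι), b ≤ a → G ∈ SuppIn k {x : ℤ | a ≤ x} →
      G ∈ SuppIn k {x : ℤ | b ≤ x} := by
    intro ι a b G hab hG
    refine Submodule.span_mono ?_ hG
    rintro _ ⟨α, hα, rfl⟩
    exact ⟨α, fun i => le_trans hab (hα i), rfl⟩
  set F' : ∀ j, B k ℤ (Fin j) := fun j => if j < s + 1 then F j else 0 with hF'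
  have hF's : ∀ j, F' j ∈ SuppIn k {b : ℤ | -(C : ℤ) ≤ b} := by
    intro j
    by_cases hj : j < s + 1
    · rw [hF']
      simp only [if_pos hj]
      refine hmono _ _ _ ?_ (hCf j)
      have := hCle j hj
      omega
    · rw [hF']
      simp only [if_neg hj]
      exact Submodule.zero_mem _
  have hF'0 : ∑ j ∈ Finset.range (s + 1), E j e (F' j) = 0 := by
    rw [← h0]
    refine Finset.sum_congr rfl fun j hj => ?_
    rw [hF']
    simp only [if_pos (Finset.mem_range.1 hj)]
  have hF's' : F' s = F s := by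
    rw [hF']
    simp only [if_pos (Nat.lt_succ_self s)]
  set K : ℕ := 4 * s + 4 with hK
  -- the polynomial
  set Pr : B k ℤ (Fin s) := (∏ i, (X i : B k ℤ (Fin s))) ^ (2 * (C + 3)) with hPr
  have hsupp : Pr * F s ∈ SuppIn k {a : ℤ | 0 ≤ a} := by
    have h1 := suppIn_mul ((2 * (C + 3) : ℕ) : ℤ) (-(C : ℤ)) Pr (F s) (prodX_suppIn _)
      (by rw [← hF's']; exact hF's s)
    refine hmono _ _ _ ?_ h1
    push_cast
    omega
  obtain ⟨G, hG⟩ := exists_embZ _ hsupp
  have hG0 : G ≠ 0 := by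
    rintro rfl
    rw [map_zero] at hG
    exact hs (prodX_pow_mul_cancel _ _ hG.symm)
  have hGsym : ∀ σ : Equiv.Perm (Fin s), pf σ G = G := by
    intro σ
    apply embZ_injective (k := k)
    rw [embZ_pf, hG, map_mul, hsym, hPr, map_pow, map_prod]
    congr 2
    have h1 : ∀ i, pf (σ : Fin s → Fin s) (X i : B k ℤ (Fin s)) = X (σ i) := fun i => pf_X _ _
    simp only [h1]
    exact Equiv.prod_comp σ (fun i => (X i : B k ℤ (Fin s)))
  refine loc_of_sym htf (lieMap_eplus h) s (4 * K - 1) G hG0 hGsym fun a => ?_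
  have hval : embZ (Delta k ℕ s ^ (2 * (4 * K - 1) + 2) *
      (∑ σ : Equiv.Perm (Fin s), pf σ a) * G) = Delta k ℤ s ^ (2 * (4 * K - 1) + 2) *
      (∑ σ : Equiv.Perm (Fin s), embZ (pf σ a)) * (Pr * F s) := by
    rw [map_mul, map_mul, map_pow, embZ_Delta, hG, map_sum]
  rw [E_eplus, hval]
  set Ξ : B k ℤ (Fin (s + s)) := (∏ l, (X l : B k ℤ (Fin (s + s)))) ^ (C + 3) *
    pf (Fin.natAdd s) (embZ a) with hΞ
  have hΞs : crossF k ℤ s K * (sqF k ℤ s * Ξ) ∈ SuppIn k {x : ℤ | (C : ℤ) + 3 ≤ x} := by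
    obtain ⟨hc, hq⟩ := cross_sq_suppIn (k := k) s K
    have h1 : pf (Fin.natAdd s) (embZ a) ∈ SuppIn k {x : ℤ | 0 ≤ x} := by
      rw [← embZ_pf]
      exact embZ_suppIn _
    have h2 := suppIn_mul _ _ _ _ hc (suppIn_mul _ _ _ _ hq (suppIn_mul ((C + 3 : ℕ) : ℤ) 0 _ _
      (prodX_suppIn _) h1))
    refine hmono _ _ _ ?_ h2
    push_cast
    omega
  have hmain := pure_rel htf (relLie_vir h C) s K le_rfl F' hF's hF'0 Ξ hΞs
  have hpf : ∀ σ : Equiv.Perm (Fin s), pf (fun l : Fin (s + s) => σ (cl l)) Ξ =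
      Pr * embZ (pf σ a) := by
    intro σ
    have h1 : (fun l : Fin (s + s) => σ (cl l)) ∘ Fin.natAdd s = σ := by
      funext p
      simp only [Function.comp_apply, cl_natAdd]
    have h2 : ∏ x, pf (fun l : Fin (s + s) => σ (cl l)) (X x : B k ℤ (Fin (s + s))) =
        (∏ i, (X i : B k ℤ (Fin s))) ^ 2 := by
      have h3 : ∀ x, pf (fun l : Fin (s + s) => σ (cl l)) (X x : B k ℤ (Fin (s + s))) =
          X (σ (cl x)) := fun x => pf_X _ _
      simp only [h3]
      rw [Fin.prod_univ_add]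
      simp only [cl_castAdd, cl_natAdd]
      rw [Equiv.prod_comp σ (fun i => (X i : B k ℤ (Fin s))), sq]
    rw [hΞ, map_mul, map_pow, map_prod, pf_pf, embZ_pf, h1, h2, ← pow_mul, hPr]
  simp only [hpf] at hmain
  rw [← Finset.mul_sum, hF's'] at hmain
  have h5 : 2 * (4 * K - 1) + 2 = 8 * K := by omega
  rw [h5]
  rw [mul_assoc, mul_left_comm (∑ σ : Equiv.Perm (Fin s), embZ (pf σ a)), ← mul_assoc Pr,
    ← mul_assoc]
  exact hmain

end VirLocSec

section LemVSec

open scoped BigOperators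

variable {k : Type u} [CommRing k] {R : Type w} [Ring R] [Algebra k R]

/-- The symbols whose products with local symbols have vanishing commutator. -/
private def PZ (e : A k ℤ →ₗ[k] R) (n N : ℕ) (Z : B k ℤ (Option (Fin (n + 1)))) : Prop :=
  ∀ (F : B k ℕ (Fin (n + 1))) (b : ℤ), CM e (n + 1)
    (Z * (pf some (embZ (Delta k ℕ (n + 1) ^ N * F)) * inj none (tt k b))) = 0

private theorem PZ_one {e : A k ℤ →ₗ[k] R} {n N : ℕ} (h : Loc (n + 1) N (eplus e)) :
    PZ e n N 1 := by
  intro F b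
  rw [one_mul, mul_comm, CM_apply, ← E_eplus, h F, mul_zero, zero_mul, sub_zero]

private theorem PZ_step {e : A k ℤ →ₗ[k] R} {n N : ℕ} {Z : B k ℤ (Option (Fin (n + 1)))}
    (hZ : PZ e n N Z) (i : Fin (n + 1)) : PZ e n N ((X none - X (some i)) * Z) := by
  intro F b
  have h1 : (X none : B k ℤ (Option (Fin (n + 1)))) * inj none (tt k b) =
      inj none (tt k (1 + b)) := by
    rw [X_eq_inj, ← map_mul, tt_mul]
    rfl
  have h2 : (X (some i) : B k ℤ (Option (Fin (n + 1)))) *
      pf some (embZ (Delta k ℕ (n + 1) ^ N * F)) =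
      pf some (embZ (Delta k ℕ (n + 1) ^ N * (X i * F))) := by
    rw [← pf_X, ← embZ_X, ← map_mul, ← map_mul]
    congr 2
    ring
  have h3 : (X none - X (some i)) * Z *
      (pf some (embZ (Delta k ℕ (n + 1) ^ N * F)) * inj none (tt k b)) =
      Z * (pf some (embZ (Delta k ℕ (n + 1) ^ N * F)) * inj none (tt k (1 + b))) -
      Z * (pf some (embZ (Delta k ℕ (n + 1) ^ N * (X i * F))) * inj none (tt k b)) := by
    rw [← h1, ← h2]
    ring
  rw [h3, map_sub, hZ, hZ, sub_zero]

private theorem PZ_prod {e : A k ℤ →ₗ[k] R} {n N : ℕ} {Z : B k ℤ (Option (Fin (n + 1)))}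
    (hZ : PZ e n N Z) (s : Finset (Fin (n + 1))) :
    PZ e n N ((∏ i ∈ s, (X none - X (some i))) * Z) := by
  induction s using Finset.induction_on with
  | empty =>
    rw [Finset.prod_empty, one_mul]
    exact hZ
  | insert i s hi ih =>
    rw [Finset.prod_insert hi, mul_assoc]
    exact PZ_step ih i

/-- The commutator vanishes. Hint: `Zb (Delta ^ N * F) b` is a sum of terms
`inj none (tt (b + j)) * pf some (embZ (Delta ^ N * F_j))` (`chi ^ 2` is a polynomial in `y` with
coefficients `pf some (embZ c)`; `B_option_induction` over `ℕ` for the corresponding `chi k ℕ`); `CM_apply`,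
`E_eplus` and the hypothesis. -/
theorem CM_Zb_zero {e : A k ℤ →ₗ[k] R} {n N : ℕ} (h : Loc (n + 1) N (eplus e))
    (F : B k ℕ (Fin (n + 1))) (b : ℤ) : CM e (n + 1) (Zb (Delta k ℕ (n + 1) ^ N * F) b) = 0 := by
  have h1 := PZ_prod (PZ_prod (PZ_one h) Finset.univ) Finset.univ F b
  unfold Zb
  have h2 : chi k ℤ (n + 1) ^ 2 * pf some (embZ (Delta k ℕ (n + 1) ^ N * F)) * inj none (tt k b) =
      (∏ i, (X none - X (some i))) * ((∏ i, (X none - X (some i))) * 1) *
        (pf some (embZ (Delta k ℕ (n + 1) ^ N * F)) * inj none (tt k b)) := by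
    unfold chi
    ring
  rw [h2]
  exact h1

private theorem degLe_pow {n : ℕ} {i : Fin (n + 1)} {D : ℕ} {F : B k ℕ (Fin (n + 1))}
    (h : DegLe i D F) (N : ℕ) :
    DegLe i (N * D) (F ^ N) ∧ cf i (N * D) (F ^ N) = (cf i D F) ^ N := by
  induction N with
  | zero =>
    have h1 := degLe_other i (1 : B k ℕ (Fin n))
    have h2 := cf_other i (1 : B k ℕ (Fin n))
    rw [map_one] at h1 h2
    rw [zero_mul, pow_zero, pow_zero]
    exact ⟨h1, h2⟩
  | succ N ih =>
    rw [pow_succ, pow_succ, Nat.succ_mul, ← ih.2]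
    exact ⟨ih.1.mul h, cf_mul_top ih.1 h⟩

private theorem degLe_mon {n : ℕ} (i : Fin (n + 1)) (β : Fin (n + 1) → ℕ) :
    DegLe i (β i) (mon k β) := by
  intro d hd
  rw [cf, lin_mon, if_neg (by omega)]

/-- The value of the coefficient. -/
private theorem cf_last [CharZero k] (n N g : ℕ) (α : Fin n → ℕ) (b : ℤ) :
    cf (Fin.last n) (N * n + (0 + g) + 2 * n)
      (Delta k ℕ (n + 1) ^ N * (pf Fin.castSucc (mon k α) * X (Fin.last n) ^ g) *
        ((b : k) • P0 k (Fin.last n) + X (Fin.last n) * P1 k (Fin.last n))) =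
      (((-1 : k) ^ n) ^ N * ((b + 2 * n : ℤ) : k)) • (Delta k ℕ n ^ N * mon k α) := by
  obtain ⟨h1, h2⟩ := degLe_pow (Delta_deg (k := k) (Fin.last n)) N
  rw [Delta_top] at h2
  have h3 : pf Fin.castSucc (mon k α) = pf (Fin.last n).succAbove (mon k α) := by
    rw [Fin.succAbove_last]
  have h4 := degLe_other (Fin.last n) (mon k α)
  have h5 := cf_other (Fin.last n) (mon k α)
  obtain ⟨h6, h7⟩ := degLe_pow (degLe_X_self (k := k) (Fin.last n)) g
  rw [cf_X_self, one_pow, mul_one] at h7
  rw [mul_one] at h6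
  obtain ⟨h8, h9, h10, h11⟩ := P_top (k := k) (Fin.last n)
  have h12 := (h8.smul (b : k)).add h10
  have h13 : cf (Fin.last n) (2 * n)
      ((b : k) • P0 k (Fin.last n) + X (Fin.last n) * P1 k (Fin.last n)) =
      ((b + 2 * n : ℤ) : k) • 1 := by
    rw [map_add, map_smul, h9, h11, ← add_smul]
    push_cast
    rfl
  rw [h3, cf_mul_top (h1.mul (h4.mul h6)) h12, cf_mul_top h1 (h4.mul h6), cf_mul_top h4 h6, h2, h5,
    h7, h13, mul_one, smul_pow, mul_smul_comm, mul_one, smul_mul_assoc, smul_smul, mul_comm]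

/-- Lemma V. Hint: it is enough to treat `a = mon α`; `g > α i` for all `i`,
`F = Delta ^ N * (pf castSucc a * X last ^ g)`, `b = - (2 n + N n + g)`. `CM_Zb_zero`, `CM_vir`,
`Zb_first`, `Zb_third`, `Rs_emb`: `κ • ∑ i, 6 • E n e (embZ (cf i d (F * (b • P0 i + X i * P1 i)))) = 0`,
`d = 2 n + N n + g`. For `i ≠ last` the term is zero by degree (`Delta_deg`, `P_top`, degree of `a` in
`X i` less than `g`). For `i = last` it is `± (b + 2 n) • Delta n ^ N * a` by `cf_mul_top`, `P_top`,
`Delta_top`, `cf_other` (`castSucc = (last n).succAbove`), `b + 2 n = - (N n + g) ≠ 0`. -/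
theorem lemV [IsDomain k] [CharZero k] (htf : ∀ (c : k) (x : R), c • x = 0 → c = 0 ∨ x = 0)
    {κ : k} (hκ : κ ≠ 0) {e : A k ℤ →ₗ[k] R} (h : VirMap κ e) (n N : ℕ)
    (hloc : Loc (n + 1) N (eplus e)) : Loc n N (eplus e) := by
  intro a
  induction a using mon_induction with
  | h0 => rw [mul_zero, map_zero]
  | hadd F G hF hG => rw [mul_add, map_add, hF, hG, add_zero]
  | hmon c α =>
    rw [mul_smul_comm, map_smul]
    set g : ℕ := 1 + ∑ l, α l with hg
    set d : ℕ := N * n + (0 + g) + 2 * n with hd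
    set b : ℤ := -(d : ℤ) with hb
    set F : B k ℕ (Fin (n + 1)) := pf Fin.castSucc (mon k α) * X (Fin.last n) ^ g with hF
    have h1 := CM_vir h n (Zb (Delta k ℕ (n + 1) ^ N * F) b)
    rw [CM_Zb_zero hloc] at h1
    simp only [Zb_first, Finset.sum_const_zero, map_zero, zero_add] at h1
    have h2 := (htf _ _ h1.symm).resolve_left hκ
    have h3 : ∀ i : Fin (n + 1), Rs i (ev i (dd none (dd none (dd none
        (Zb (Delta k ℕ (n + 1) ^ N * F) b))))) = (6 : k) • embZ (cf i d
          (Delta k ℕ (n + 1) ^ N * F * ((b : k) • P0 k i + X i * P1 k i))) := by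
      intro i
      rw [Zb_third, map_smul, hb, Rs_emb]
    simp only [h3] at h2
    have h4 : ∀ i : Fin (n + 1), i ≠ Fin.last n → cf i d
        (Delta k ℕ (n + 1) ^ N * F * ((b : k) • P0 k i + X i * P1 k i)) = 0 := by
      intro i hi
      have h5 := (degLe_pow (Delta_deg (k := k) i) N).1
      have h6 : DegLe i (∑ l, α l) (pf Fin.castSucc (mon k α)) := by
        rw [pf_mon]
        refine (degLe_mon i _).mono ?_
        rw [push_apply]
        refine Finset.sum_le_sum fun l _ => ?_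
        split_ifs
        · exact le_rfl
        · exact Nat.zero_le _
      have h7 : DegLe i (g * 0) ((X (Fin.last n) : B k ℕ (Fin (n + 1))) ^ g) := by
        refine (degLe_pow ?_ g).1
        have h8 := degLe_mon (k := k) i (Pi.single (Fin.last n) (Expo.one : ℕ))
        rwa [Pi.single_eq_of_ne hi] at h8
      obtain ⟨h8, -, h10, -⟩ := P_top (k := k) i
      have h12 := (h8.smul (b : k)).add h10
      refine ((h5.mul (h6.mul h7)).mul h12) d ?_
      rw [hd]
      omega
    rw [Finset.sum_eq_single (Fin.last n) (fun i _ hi => by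
      rw [h4 i hi, map_zero, smul_zero, map_zero])
      (fun hh => absurd (Finset.mem_univ _) hh), hF, hd, cf_last, map_smul, map_smul, map_smul,
      smul_smul] at h2
    have h5 := (htf _ _ h2).resolve_left (by
      have h6 : b + 2 * n = -((N * n + g : ℕ) : ℤ) := by
        rw [hb, hd]
        push_cast
        ring
      rw [h6]
      have h7 : ((-((N * n + g : ℕ) : ℤ) : ℤ) : k) ≠ 0 := by
        rw [Int.cast_ne_zero]
        have : 0 < g := by omega
        omega
      have h8 : (6 : k) ≠ 0 := by norm_num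
      exact mul_ne_zero h8 (mul_ne_zero (pow_ne_zero _ (pow_ne_zero _ (by norm_num))) h7))
    rw [E_eplus, h5, smul_zero]

theorem vir_not_loc [IsDomain k] [CharZero k] [Nontrivial R]
    (htf : ∀ (c : k) (x : R), c • x = 0 → c = 0 ∨ x = 0)
    {κ : k} (hκ : κ ≠ 0) {e : A k ℤ →ₗ[k] R} (h : VirMap κ e) (n N : ℕ) :
    ¬ Loc n N (eplus e) := by
  induction n with
  | zero =>
    intro h0
    have h1 := h0 1
    have h2 : Delta k ℕ 0 ^ N * 1 = (1 : B k ℕ (Fin 0)) := by simp [Delta, vand]
    rw [h2, EE_zero_one] at h1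
    exact one_ne_zero h1
  | succ n ih => exact fun h0 => ih (lemV htf hκ h n N h0)

/-- Independence. -/
theorem vir_indep [IsDomain k] [CharZero k] [Nontrivial R]
    (htf : ∀ (c : k) (x : R), c • x = 0 → c = 0 ∨ x = 0)
    {κ : k} (hκ : κ ≠ 0) {e : A k ℤ →ₗ[k] R} (h : VirMap κ e) (s : ℕ) (F : ∀ j, B k ℤ (Fin j))
    (h0 : ∑ j ∈ Finset.range (s + 1), E j e (F j) = 0)
    (hsym : ∀ σ : Equiv.Perm (Fin s), pf σ (F s) = F s) : F s = 0 := by
  by_contra hs
  obtain ⟨N, hN⟩ := vir_loc htf h s F h0 hs hsym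
  exact vir_not_loc htf hκ h s N hN

end LemVSec

section VirFaithSec

open scoped BigOperators

variable {k : Type u} [CommRing k] {R : Type w} [Ring R] [Algebra k R]

theorem VirMap.map {R' : Type*} [Ring R'] [Algebra k R'] (φ : R →ₐ[k] R') {κ : k}
    {e : A k ℤ →ₗ[k] R} (h : VirMap κ e) : VirMap κ (φ.toLinearMap ∘ₗ e) := fun a b => by
  have := congrArg φ (h a b)
  simp only [map_sub, map_mul, map_add, map_smul, map_one] at this
  exact this

theorem VirMap.br {κ : k} {e : A k ℤ →ₗ[k] R} (h : VirMap κ e) (f g : A k ℤ) :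
    e f * e g - e g * e f ∈ WSpan k (Set.range e) 1 := by
  have h1 : ∀ x : A k ℤ, e x ∈ WSpan k (Set.range e) 1 := fun x =>
    Submodule.subset_span ⟨[e x], by simp, by simp, by simp⟩
  have h2 : (1 : R) ∈ WSpan k (Set.range e) 1 :=
    Submodule.subset_span ⟨[], by simp, by simp, by simp⟩
  induction f using mon_induction with
  | h0 =>
    rw [map_zero, zero_mul, mul_zero, sub_zero]
    exact Submodule.zero_mem _
  | hadd F G hF hG =>
    have h3 : e (F + G) * e g - e g * e (F + G) =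
        (e F * e g - e g * e F) + (e G * e g - e g * e G) := by
      rw [map_add]
      noncomm_ring
    rw [h3]
    exact Submodule.add_mem _ hF hG
  | hmon c α =>
    induction g using mon_induction with
    | h0 =>
      rw [map_zero, zero_mul, mul_zero, sub_zero]
      exact Submodule.zero_mem _
    | hadd F G hF hG =>
      have h3 : e (c • mon k α) * e (F + G) - e (F + G) * e (c • mon k α) =
          (e (c • mon k α) * e F - e F * e (c • mon k α)) +
            (e (c • mon k α) * e G - e G * e (c • mon k α)) := by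
        rw [map_add]
        noncomm_ring
      rw [h3]
      exact Submodule.add_mem _ hF hG
    | hmon c' β =>
      have h3 : e (c • mon k α) * e (c' • mon k β) - e (c' • mon k β) * e (c • mon k α) =
          (c * c') • (e (tt k (α ())) * e (tt k (β ())) - e (tt k (β ())) * e (tt k (α ()))) := by
        rw [map_smul, map_smul, mon_unit, mon_unit, smul_mul_smul_comm, smul_mul_smul_comm,
          mul_comm c' c, smul_sub]
      rw [h3, h]
      exact Submodule.smul_mem _ _ (Submodule.add_mem _ (Submodule.smul_mem _ _ (h1 _))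
        (Submodule.smul_mem _ _ h2))

/-- An algebra generated by a Virasoro type map with nonzero central charge acts faithfully on every
torsion free nonzero algebra. Hint: if `φ x = 0` write `x = ∑ E j e (F j)` (`sym_rep`), apply `φ`
(`map_EE`); if some `F j ≠ 0` take the largest such `j ≤ d` and `vir_indep` for `φ ∘ e`. -/
theorem vir_faithful [IsDomain k] [CharZero k] (hQ : ∀ n : ℕ, n ≠ 0 → IsUnit (n : k))
    {R' : Type*} [Ring R'] [Algebra k R'] [Nontrivial R']
    (htf : ∀ (c : k) (x : R'), c • x = 0 → c = 0 ∨ x = 0)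
    {κ : k} (hκ : κ ≠ 0) {e : A k ℤ →ₗ[k] R} (h : VirMap κ e)
    (hgen : Algebra.adjoin k (Set.range e) = ⊤) (φ : R →ₐ[k] R') : Function.Injective φ := by
  rw [injective_iff_map_eq_zero]
  intro x hx
  obtain ⟨d, hd⟩ := adjoin_mem_WSpan e x (by rw [hgen]; exact Algebra.mem_top)
  obtain ⟨F, hF, hxF⟩ := sym_rep hQ e h.br d x hd
  have key : ∀ m, m ≤ d + 1 → ∀ j, d + 1 - m ≤ j → j < d + 1 → F j = 0 := by
    intro m
    induction m with
    | zero =>
      intro _ j h1 h2
      omega
    | succ m ih =>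
      intro hm j h1 h2
      by_cases hj : d + 1 - m ≤ j
      · exact ih (by omega) j hj h2
      · have hj' : j = d - m := by omega
        have h3 : ∑ i ∈ Finset.range (j + 1), E i (φ.toLinearMap ∘ₗ e) (F i) = 0 := by
          have h4 : φ x = ∑ i ∈ Finset.range (d + 1), E i (φ.toLinearMap ∘ₗ e) (F i) := by
            rw [hxF, map_sum]
            exact Finset.sum_congr rfl fun i _ => map_EE φ _ _
          rw [hx] at h4
          rw [h4]
          refine Finset.sum_subset ?_ ?_
          · intro i hi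
            rw [Finset.mem_range] at hi ⊢
            omega
          · intro i hi hi'
            rw [Finset.mem_range] at hi hi'
            rw [ih (by omega) i (by omega) hi, map_zero]
        exact vir_indep htf hκ (h.map φ) j F h3 (hF j)
  rw [hxF]
  refine Finset.sum_eq_zero fun j hj => ?_
  rw [key (d + 1) le_rfl j (by omega) (Finset.mem_range.1 hj), map_zero]

end VirFaithSec

end W94
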